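import Pool.Agent.Q240.GS.Fin2

/-!
# Covering windows, and the zeros on both sides
-/

set_option autoImplicit false

open Complex Set MeasureTheory Filter Topology Polynomial
open scoped ComplexConjugate

namespace Q240.GS

open Pool.Agent.W169.HF H353.E H353.F

variable {m : ℕ}

/-- covering a window by unit windows -/
theorem AM_cover {G : ℂ → ℂ} {a T h x : ℝ} (n : ℕ) (hn : h ≤ n)
    (H : ∀ t : ℝ, |t - T| ≤ n → AM G a 1 t x) : AM G a h T ((n + 1) * x) := by
  classical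
  intro Z hZ
  obtain ⟨g, hg⟩ : ∃ g : ℂ → ℕ, g = fun z => ⌊(z.im - T + n + 1) / 2⌋₊ := ⟨_, rfl⟩
  have hmaps : ∀ z ∈ Z, g z ∈ Finset.range (n + 1) := by
    intro z hz
    obtain ⟨-, -, -, h4⟩ := hZ z hz
    have h5 := abs_le.1 h4
    rw [Finset.mem_range, hg]
    refine (Nat.floor_lt (by linarith)).2 ?_
    push_cast
    have : (0 : ℝ) ≤ n := Nat.cast_nonneg n
    linarith
  rw [← Finset.sum_fiberwise_of_maps_to hmaps]
  calc ∑ k ∈ Finset.range (n + 1), ∑ z ∈ Z with g z = k, (H370.mult G z : ℝ) ≤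
      ∑ _k ∈ Finset.range (n + 1), x := by
        refine Finset.sum_le_sum fun k hk => ?_
        have hk' := Finset.mem_range.1 hk
        have hkn : (k : ℝ) ≤ n := by exact_mod_cast Nat.lt_succ_iff.1 hk'
        have hk0 : (0 : ℝ) ≤ k := Nat.cast_nonneg k
        refine H (T - n + 2 * k) (by rw [abs_le]; constructor <;> linarith) _ fun z hz => ?_
        obtain ⟨hz1, hz2⟩ := Finset.mem_filter.1 hz
        obtain ⟨h1, h2, h3, h4⟩ := hZ z hz1
        have h5 := abs_le.1 h4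
        refine ⟨h1, h2, h3, ?_⟩
        have h6 : (0 : ℝ) ≤ (z.im - T + n + 1) / 2 := by linarith
        have h7 := Nat.floor_le h6
        have h8 := Nat.lt_floor_add_one ((z.im - T + n + 1) / 2)
        rw [hg] at hz2
        simp only at hz2
        rw [hz2] at h7 h8
        rw [abs_le]
        constructor <;> linarith
    _ = _ := by rw [Finset.sum_const, Finset.card_range, nsmul_eq_mul]; push_cast; ring

/-- zeros of `LL` off the real lines of the parameters -/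
theorem LL_zero {μ : Fin m → ℂ} {Λ : ℂ → ℂ} {s : ℂ} (h : ∀ j, s.im ≠ (μ j).im) : LL μ Λ s = 0 ↔ Λ s = 0 := by
  unfold LL
  have h1 : ∏ j, (Gammaℝ (s - μ j))⁻¹ ≠ 0 := by
    refine Finset.prod_ne_zero_iff.2 fun j _ => inv_ne_zero fun h2 => ?_
    obtain ⟨n, hn⟩ := Gammaℝ_eq_zero_iff.1 h2
    have := congrArg Complex.im hn
    simp at this
    exact h j (by linarith)
  constructor
  · intro h2
    exact (mul_eq_zero.1 h2).resolve_right h1
  · intro h2
    rw [h2, zero_mul]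

/-- the reflected zero -/
theorem refl_zero {N : ℝ} {μ : Fin m → ℂ} {Λ : ℂ → ℂ} (h : Ob N μ Λ) {s : ℂ} (hs : Λ s = 0) :
    Λ (1 - conj s) = 0 := by
  obtain ⟨α, ε, d, -⟩ := h
  have h1 := d.fe s
  rw [hs] at h1
  have hε : ε ≠ 0 := by
    intro h0
    have := d.norm_eq
    rw [h0, norm_zero] at this
    norm_num at this
  have hN : (N : ℂ) ^ (1 / 2 - s) ≠ 0 := by
    intro h0
    have h2 := (Complex.cpow_eq_zero_iff _ _ |>.1 h0).1
    have h3 := d.one_le
    have h4 : N = 0 := by exact_mod_cast h2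
    linarith
  rcases mul_eq_zero.1 h1.symm with h2 | h2
  · exact absurd h2 (mul_ne_zero hε hN)
  · exact (map_eq_zero _).1 h2

/-- the polynomial `1` -/
theorem FF_one (μ : Fin m → ℂ) (Λ : ℂ → ℂ) (c : ℝ → ℂ) (s : ℂ) : FF μ Λ 1 ∅ c s = LL μ Λ s := by
  unfold FF LD
  simp

/-- **Zeros on both sides, for a family.** -/
theorem both (hm : 1 ≤ m) (P : ℂ[X]) (hP : P ≠ 0) (S : Finset ℝ) (B α : ℝ) (hB : 0 ≤ B) (hα : α ≤ 1 / 2)
    {ι : Type*} (N : ι → ℝ) (μ : ι → Fin m → ℂ) (Λ : ι → ℂ → ℂ) (hO : ∀ i, Ob (N i) (μ i) (Λ i))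
    (c : ι → ℝ → ℂ) (hc : ∀ i, ∀ l ∈ S, ‖c i l‖ ≤ B) :
    (∀ ε : ℝ, 0 < ε → ∃ X : ℝ, ∀ i, ∀ ρ : ℂ, Λ i ρ = 0 → (∀ j, X ≤ |ρ.im - (μ i j).im|) → ρ.re < 1 - α + ε) ↔
    (∀ ε : ℝ, 0 < ε → ∃ X : ℝ, ∀ i, ∀ ρ : ℂ, FF (μ i) (Λ i) P S (c i) ρ = 0 →
      (∀ j, X ≤ |ρ.im - (μ i j).im|) → -1 / 4 ≤ ρ.re → α - ε < ρ.re) := by
  constructor
  · intro h ε hε
    obtain ⟨X0, hX0⟩ := h (ε / 2) (by positivity)
    obtain ⟨X1, hX1, H⟩ := shadow_L hm P 1 hP one_ne_zero S ∅ B (α - ε / 2) (ε / 2) hB (by linarith) (by positivity)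
    refine ⟨|X0| + X1 + 1, fun i ρ hρ hfar h1 => ?_⟩
    by_contra hcon
    push Not at hcon
    have hab := le_abs_self X0
    have hab0 := abs_nonneg X0
    obtain ⟨s, s1, s2, s3, s4⟩ := H (N i) (μ i) (Λ i) (hO i) (c i) (fun _ => 0) (hc i) (by simp) ρ
      (fun j => by have := hfar j; linarith) hρ h1 (by linarith)
    rw [FF_one] at s1
    have hsf : ∀ j, |X0| + 1 ≤ |s.im - (μ i j).im| := fun j => by
      have h5 := hfar j
      have h6 : |ρ.im - (μ i j).im| ≤ |s.im - (μ i j).im| + |s.im - ρ.im| := by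
        calc |ρ.im - (μ i j).im| = |(s.im - (μ i j).im) - (s.im - ρ.im)| := by congr 1; ring
          _ ≤ _ := abs_sub _ _
      linarith
    have h7 : Λ i s = 0 := (LL_zero fun j h8 => by
      have := hsf j
      rw [h8, sub_self, abs_zero] at this
      linarith).1 s1
    have h8 := hX0 i _ (refl_zero (hO i) h7) (fun j => by
      have h9 : (1 - conj s : ℂ).im = s.im := by simp
      rw [h9]
      have := hsf j
      linarith)
    have h9 : (1 - conj s : ℂ).re = 1 - s.re := by simp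
    rw [h9] at h8
    linarith
  · intro h ε hε
    obtain ⟨X0, hX0⟩ := h (ε / 2) (by positivity)
    obtain ⟨X1, hX1, H⟩ := shadow_L hm 1 P one_ne_zero hP ∅ S B (α - ε / 2) (ε / 2) hB (by linarith) (by positivity)
    refine ⟨|X0| + X1 + 1, fun i ρ hρ hfar => ?_⟩
    by_contra hcon
    push Not at hcon
    have hab := le_abs_self X0
    have hab0 := abs_nonneg X0
    obtain ⟨-, -, -, hnz⟩ := hO i
    have hρ1 : ρ.re ≤ 1 := by
      by_contra h2
      push Not at h2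
      exact hnz ρ h2 hρ
    have e1 : (1 - conj ρ : ℂ).re = 1 - ρ.re := by simp
    have e2 : (1 - conj ρ : ℂ).im = ρ.im := by simp
    have hρ2 := refl_zero (hO i) hρ
    have hρ3 : FF (μ i) (Λ i) 1 ∅ (fun _ => 0) (1 - conj ρ) = 0 := by
      rw [FF_one]
      unfold LL
      rw [hρ2, zero_mul]
    obtain ⟨s, s1, s2, s3, s4⟩ := H (N i) (μ i) (Λ i) (hO i) (fun _ => 0) (c i) (by simp) (hc i) (1 - conj ρ)
      (fun j => by rw [e2]; have := hfar j; linarith) hρ3 (by rw [e1]; linarith) (by rw [e1]; linarith)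
    rw [e2] at s4
    have h8 := hX0 i s s1 (fun j => by
      have h5 := hfar j
      have h6 : |ρ.im - (μ i j).im| ≤ |s.im - (μ i j).im| + |s.im - ρ.im| := by
        calc |ρ.im - (μ i j).im| = |(s.im - (μ i j).im) - (s.im - ρ.im)| := by congr 1; ring
          _ ≤ _ := abs_sub _ _
      linarith) (by linarith)
    linarith

end Q240.GS
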