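import Pool.Agent.Q240.GS.N4

/-!
# Shadows at every height, for L-functions without trivial zeros in `Re s > -1/2`
-/

set_option autoImplicit false

open Complex Set MeasureTheory Filter Topology Polynomial
open scoped ComplexConjugate

namespace Q240.GS

open Pool.Agent.W169.HF H353.E H353.F

variable {m : ℕ}

theorem base_N (m : ℕ) (hm : 1 ≤ m) (Y e : ℝ) (hY : 0 ≤ Y) (he : 0 < e) : ∃ C0 : ℝ, 1 ≤ C0 ∧
    ∀ (N : ℝ) (μ : Fin m → ℂ) (Λ : ℂ → ℂ), Ob N μ Λ → (∀ j, (μ j).re ≤ -1 / 2) → ∀ T : ℝ, C0 ≤ 2 * el N μ T →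
    BaseN (fun s => LL μ Λ (s + T * I)) (2 * el N μ T) Y e 9 := by
  obtain ⟨C0, hC0, H⟩ := base_ofE m hm Y e (1 / 16) hY he (by norm_num)
  refine ⟨C0, hC0, ?_⟩
  rintro N μ Λ ⟨α, ε, d, hnz⟩ hμ T hT
  obtain ⟨h, -⟩ := H N μ α ε Λ d hnz T hT
  have hE : ∀ s : ℂ, -7 / 16 ≤ s.re → ∀ z ∈ EX μ T, 1 / 16 ≤ ‖s - z‖ := by
    intro s hs z hz
    have h1 : z.re ≤ -1 / 2 := by
      unfold EX at hz
      obtain ⟨⟨j, i⟩, -, rfl⟩ := Finset.mem_image.1 hz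
      have h1 := hμ j
      have h2 : (0 : ℝ) ≤ i := Nat.cast_nonneg i
      simp
      linarith
    have h2 : (s - z).re ≤ ‖s - z‖ := (le_abs_self _).trans (abs_re_le_norm _)
    rw [sub_re] at h2
    linarith
  exact ⟨fun s a1 a2 a3 => h.an s a1 (by linarith) a3,
    fun s a1 a2 a3 => ⟨h.low s a1 (by linarith) a3 (hE s a2), h.upp s a1 (by linarith) a3⟩,
    fun s a1 a2 a3 => h.grow s a1 (by linarith) a3, fun s a1 a2 a3 => h.right s a1 a2 a3⟩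

/-- **Shadows at every height.** -/
theorem shadow_N (hm : 1 ≤ m) (P Q : ℂ[X]) (hP : P ≠ 0) (hQ : Q ≠ 0) (S R : Finset ℝ) (B α ε : ℝ) (hB : 0 ≤ B)
    (hα : α ≤ 1 / 2) (hε : 0 < ε) : ∃ X : ℝ, 1 ≤ X ∧ ∀ (N : ℝ) (μ : Fin m → ℂ) (Λ : ℂ → ℂ), Ob N μ Λ →
    (∀ j, (μ j).re ≤ -1 / 2) →
    ∀ c d : ℝ → ℂ, (∀ l ∈ S, ‖c l‖ ≤ B) → (∀ l ∈ R, ‖d l‖ ≤ B) → ∀ ρ : ℂ, X ≤ Real.log (cnd N μ ρ.im) →
    FF μ Λ P S c ρ = 0 → -1 / 4 ≤ ρ.re → ρ.re ≤ α - ε →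
      ∃ s : ℂ, FF μ Λ Q R d s = 0 ∧ -1 / 4 < s.re ∧ s.re < α ∧ |s.im - ρ.im| ≤ X := by
  obtain ⟨e, L0, C, he, hL0, hC, H⟩ := shadowN P Q hP hQ S R B 9 hB (by norm_num) α ε hε hα
  obtain ⟨C0, hC0, HB⟩ := base_N m hm C e (by linarith) he
  have hm0 : (0 : ℝ) ≤ m := Nat.cast_nonneg m
  refine ⟨C + (L0 + C0 + 28 * m), by linarith [show 0 ≤ L0 + C0 + 28 * m by positivity], ?_⟩
  intro N μ Λ hO hμ c d hc hd ρ hlog hρ h1 h2
  obtain ⟨T, hT⟩ : ∃ T : ℝ, T = ρ.im := ⟨_, rfl⟩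
  rw [← hT] at hlog
  have hO' := hO
  obtain ⟨α', ε', D, -⟩ := hO'
  obtain ⟨b1, b2⟩ := el_bd D.one_le D.re_le T
  have hb := HB N μ Λ hO hμ T (by linarith)
  obtain ⟨s, s1, s2, s3, s4⟩ := H (fun s => LL μ Λ (s + T * I)) (tw (ext0 S c) T) (tw (ext0 R d) T)
    (2 * el N μ T) C (by linarith) (fun l => by rw [tw_norm]; exact ext0_le S c hB hc l)
    (fun l => by rw [tw_norm]; exact ext0_le R d hB hd l) hb (ρ - T * I)
    (by
      rw [LD_shift, sub_add_cancel, LD_congr (LL μ Λ) P S (fun l hl => ext0_mem S c hl)]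
      exact hρ)
    (by simpa using h1) (by simpa using h2) (by simp [hT])
  refine ⟨s + T * I, ?_, by simpa using s2, by simpa using s3, ?_⟩
  · rw [LD_shift, LD_congr (LL μ Λ) Q R (fun l hl => ext0_mem R d hl)] at s1
    exact s1
  · have e1 : (s + T * I).im - ρ.im = s.im - (ρ - T * I).im := by simp; ring
    rw [e1]
    linarith [show 0 ≤ L0 + C0 + 28 * m by positivity]

/-- zeros of `LL` -/
theorem LL_zeroN {μ : Fin m → ℂ} {Λ : ℂ → ℂ} (hμ : ∀ j, (μ j).re ≤ -1 / 2) {s : ℂ} (hs : -1 / 2 < s.re) :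
    LL μ Λ s = 0 ↔ Λ s = 0 := by
  unfold LL
  have h1 : ∏ j, (Gammaℝ (s - μ j))⁻¹ ≠ 0 := by
    refine Finset.prod_ne_zero_iff.2 fun j _ => inv_ne_zero fun h2 => ?_
    obtain ⟨n, hn⟩ := Gammaℝ_eq_zero_iff.1 h2
    have := congrArg Complex.re hn
    simp at this
    have hn0 : (0 : ℝ) ≤ n := Nat.cast_nonneg n
    have := hμ j
    linarith
  constructor
  · intro h2
    exact (mul_eq_zero.1 h2).resolve_right h1
  · intro h2
    rw [h2, zero_mul]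

theorem log_near {N : ℝ} {μ : Fin m → ℂ} {Λ : ℂ → ℂ} (h : Ob N μ Λ) {y T X : ℝ}
    (hX : 0 ≤ X) (hy : |T - y| ≤ X) :
    Real.log (cnd N μ y) ≤ Real.log (cnd N μ T) + m * Real.log (1 + X) := by
  obtain ⟨α, ε, d, -⟩ := h
  have h1 := logm_shift d.one_le μ (y := y) (y' := T) (R := X) (hy.trans (le_abs_self X))
  rwa [abs_of_nonneg hX] at h1

/-- **Zeros on both sides, for a family.** -/
theorem bothN (hm : 1 ≤ m) (P : ℂ[X]) (hP : P ≠ 0) (S : Finset ℝ) (B α : ℝ) (hB : 0 ≤ B) (hα : α ≤ 1 / 2)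
    {ι : Type*} (N : ι → ℝ) (μ : ι → Fin m → ℂ) (Λ : ι → ℂ → ℂ) (hO : ∀ i, Ob (N i) (μ i) (Λ i))
    (hμ : ∀ i, ∀ j, (μ i j).re ≤ -1 / 2)
    (c : ι → ℝ → ℂ) (hc : ∀ i, ∀ l ∈ S, ‖c i l‖ ≤ B) :
    (∀ ε : ℝ, 0 < ε → ∃ X : ℝ, ∀ i, ∀ ρ : ℂ, Λ i ρ = 0 → X ≤ Real.log (cnd (N i) (μ i) ρ.im) →
      ρ.re < 1 - α + ε) ↔
    (∀ ε : ℝ, 0 < ε → ∃ X : ℝ, ∀ i, ∀ ρ : ℂ, FF (μ i) (Λ i) P S (c i) ρ = 0 →
      X ≤ Real.log (cnd (N i) (μ i) ρ.im) → -1 / 4 ≤ ρ.re → α - ε < ρ.re) := by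
  have hm0 : (0 : ℝ) ≤ m := Nat.cast_nonneg m
  constructor
  · intro h ε hε
    obtain ⟨X0, hX0⟩ := h (ε / 2) (by positivity)
    obtain ⟨X1, hX1, H⟩ := shadow_N hm P 1 hP one_ne_zero S ∅ B (α - ε / 2) (ε / 2) hB (by linarith) (by positivity)
    have hk : 0 ≤ m * Real.log (1 + X1) := mul_nonneg hm0 (Real.log_nonneg (by linarith))
    refine ⟨|X0| + X1 + m * Real.log (1 + X1), fun i ρ hρ hfar h1 => ?_⟩
    by_contra hcon
    push Not at hcon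
    have hab := le_abs_self X0
    have hab0 := abs_nonneg X0
    obtain ⟨s, s1, s2, s3, s4⟩ := H (N i) (μ i) (Λ i) (hO i) (hμ i) (c i) (fun _ => 0) (hc i) (by simp) ρ
      (by linarith) hρ h1 (by linarith)
    rw [FF_one] at s1
    have hsf : X0 ≤ Real.log (cnd (N i) (μ i) s.im) := by
      have h2 := log_near (hO i) (y := ρ.im) (T := s.im) (X := X1) (by linarith) s4
      linarith
    have h7 : Λ i s = 0 := (LL_zeroN (hμ i) (by linarith)).1 s1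
    have h9 : (1 - conj s : ℂ).im = s.im := by simp
    have h8 := hX0 i _ (refl_zero (hO i) h7) (by rw [h9]; exact hsf)
    have h9 : (1 - conj s : ℂ).re = 1 - s.re := by simp
    rw [h9] at h8
    linarith
  · intro h ε hε
    obtain ⟨X0, hX0⟩ := h (ε / 2) (by positivity)
    obtain ⟨X1, hX1, H⟩ := shadow_N hm 1 P one_ne_zero hP ∅ S B (α - ε / 2) (ε / 2) hB (by linarith) (by positivity)
    have hk : 0 ≤ m * Real.log (1 + X1) := mul_nonneg hm0 (Real.log_nonneg (by linarith))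
    refine ⟨|X0| + X1 + m * Real.log (1 + X1), fun i ρ hρ hfar => ?_⟩
    by_contra hcon
    push Not at hcon
    have hab := le_abs_self X0
    have hab0 := abs_nonneg X0
    obtain ⟨-, -, -, hnz⟩ := hO i
    have hρ1 : ρ.re ≤ 1 := by
      by_contra h2
      push Not at h2
      exact hnz ρ h2 hρ
    have e1 : (1 - conj ρ : ℂ).re = 1 - ρ.re := by simp
    have e2 : (1 - conj ρ : ℂ).im = ρ.im := by simp
    have hρ2 := refl_zero (hO i) hρ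
    have hρ3 : FF (μ i) (Λ i) 1 ∅ (fun _ => 0) (1 - conj ρ) = 0 := by
      rw [FF_one]
      unfold LL
      rw [hρ2, zero_mul]
    obtain ⟨s, s1, s2, s3, s4⟩ := H (N i) (μ i) (Λ i) (hO i) (hμ i) (fun _ => 0) (c i) (by simp) (hc i)
      (1 - conj ρ) (by rw [e2]; linarith) hρ3 (by rw [e1]; linarith) (by rw [e1]; linarith)
    rw [e2] at s4
    have hsf : X0 ≤ Real.log (cnd (N i) (μ i) s.im) := by
      have h2 := log_near (hO i) (y := ρ.im) (T := s.im) (X := X1) (by linarith) s4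
      linarith
    have h8 := hX0 i s s1 hsf (by linarith)
    linarith

end Q240.GS
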