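import Pool.Agent.Q240.GS.GamE

/-!
# The local data of an L-function at every height
-/

set_option autoImplicit false

open Complex Set MeasureTheory Filter Topology
open scoped ComplexConjugate

namespace Q240.GS

open Pool.Agent.W169.HF H353.E H353.F

variable {m : ℕ} {N : ℝ} {μ : Fin m → ℂ}

/-- the trivial zeros near height `T` -/
noncomputable def EX (μ : Fin m → ℂ) (T : ℝ) : Finset ℂ :=
  (Finset.univ ×ˢ Finset.range 5).image fun p : Fin m × ℕ => μ p.1 - 2 * (p.2 : ℂ) - T * I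

lemma EX_card (μ : Fin m → ℂ) (T : ℝ) : (EX μ T).card ≤ 5 * m := by
  unfold EX
  refine Finset.card_image_le.trans ?_
  rw [Finset.card_product, Finset.card_univ, Fintype.card_fin, Finset.card_range, mul_comm]

lemma EX_re (hμ : ∀ j, (μ j).re ≤ 1 / 2) (T : ℝ) : ∀ z ∈ EX μ T, z.re ≤ 1 / 2 := by
  intro z hz
  unfold EX at hz
  obtain ⟨⟨j, i⟩, -, rfl⟩ := Finset.mem_image.1 hz
  have h1 := hμ j
  have h2 : (0 : ℝ) ≤ i := Nat.cast_nonneg i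
  simp
  linarith

lemma EX_mem (μ : Fin m → ℂ) (T : ℝ) (j : Fin m) {i : ℕ} (hi : i < 5) :
    μ j - 2 * (i : ℂ) - T * I ∈ EX μ T := by
  unfold EX
  exact Finset.mem_image.2 ⟨(j, i), by simp [hi], rfl⟩

/-- comparison of the L-function and the normalised function in a window -/
theorem cmp_winE (hm : 1 ≤ m) (hN : 1 ≤ N) (hμ : ∀ j, (μ j).re ≤ 1 / 2) (Λ : ℂ → ℂ) (T Y : ℝ) {δ : ℝ}
    (hδ : 0 < δ) (hδ1 : δ ≤ 1) {s : ℂ} (h1 : |s.im| ≤ Y) (h2 : -7 ≤ s.re) (h3 : s.re ≤ 8) :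
    ‖LL μ Λ (s + T * I)‖ ≤ Real.exp (-(el N μ T * (s.re - 1 / 2)) + KE m Y δ 5) * ‖fn N μ Λ T (s - 1 / 2)‖ ∧
    ((∀ z ∈ EX μ T, δ ≤ ‖s - z‖) →
    Real.exp (-(el N μ T * (s.re - 1 / 2)) - KE m Y δ 5) * ‖fn N μ Λ T (s - 1 / 2)‖ ≤ ‖LL μ Λ (s + T * I)‖) := by
  have hN0 : 0 < N := by linarith
  have hG := gpos hm hN hμ T
  obtain ⟨u, hu⟩ : ∃ u : ℂ, u = s - 1 / 2 := ⟨_, rfl⟩
  have hure : u.re = s.re - 1 / 2 := by rw [hu]; simp
  have huim : u.im = s.im := by rw [hu]; simp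
  obtain ⟨q1, q2⟩ := gam_winE hm hN hμ T Y hδ hδ1 5 u (by rw [huim]; exact h1) (by rw [hure]; linarith)
    (by rw [hure]; push_cast; linarith) (by rw [hure]; push_cast; linarith)
  obtain ⟨G, hGd⟩ : ∃ G : ℝ, G = ‖gaf N μ (3 / 2 + T * I)‖ * Real.exp (-(gaD N μ (3 / 2 + T * I)).re) := ⟨_, rfl⟩
  rw [← hGd] at q1 q2 hG
  have hpt : s + T * I = 1 / 2 + (T : ℂ) * I + u := by rw [hu]; ring
  have hfn : ‖fn N μ Λ T u‖ = G⁻¹ * ‖XX N Λ (1 / 2 + (T : ℂ) * I + u)‖ := by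
    unfold fn
    rw [← hGd, norm_mul, Complex.norm_real, Real.norm_of_nonneg (by positivity)]
  have hLL : ‖LL μ Λ (s + T * I)‖ = (G * ‖fn N μ Λ T u‖) * ‖(gaf N μ (1 / 2 + (T : ℂ) * I + u))⁻¹‖ := by
    rw [LL_eq hN0, hpt, norm_mul, hfn]
    field_simp
  rw [← hu, ← hure, hLL]
  constructor
  · calc (G * ‖fn N μ Λ T u‖) * ‖(gaf N μ (1 / 2 + (T : ℂ) * I + u))⁻¹‖ ≤
        (G * ‖fn N μ Λ T u‖) * (G⁻¹ * Real.exp (-(el N μ T * u.re) + KE m Y δ 5)) :=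
          mul_le_mul_of_nonneg_left q1 (by positivity)
      _ = _ := by field_simp
  · intro hE
    obtain ⟨p1, p2⟩ := q2 (fun j i hi => by
      have := hE _ (EX_mem μ T j hi)
      rwa [show s - (μ j - 2 * (i : ℂ) - T * I) = 1 / 2 + (T : ℂ) * I + u + 2 * i - μ j by rw [hu]; ring] at this)
    have hg0 : 0 < ‖gaf N μ (1 / 2 + (T : ℂ) * I + u)‖ := norm_pos_iff.2 p1
    have h5 : (G * Real.exp (el N μ T * u.re + KE m Y δ 5))⁻¹ ≤ ‖(gaf N μ (1 / 2 + (T : ℂ) * I + u))⁻¹‖ := by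
      rw [norm_inv]
      exact inv_anti₀ hg0 p2
    calc Real.exp (-(el N μ T * u.re) - KE m Y δ 5) * ‖fn N μ Λ T u‖ =
        (G * ‖fn N μ Λ T u‖) * (G * Real.exp (el N μ T * u.re + KE m Y δ 5))⁻¹ := by
          rw [mul_inv, ← Real.exp_neg, show -(el N μ T * u.re + KE m Y δ 5) = -(el N μ T * u.re) - KE m Y δ 5 by ring]
          field_simp
      _ ≤ _ := mul_le_mul_of_nonneg_left h5 (by positivity)

theorem base_ofE (m : ℕ) (hm : 1 ≤ m) (Y e δ : ℝ) (hY : 0 ≤ Y) (he : 0 < e) (hδ : 0 < δ) : ∃ C0 : ℝ, 1 ≤ C0 ∧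
    ∀ (N : ℝ) (μ : Fin m → ℂ) (α : Fin m → ℕ → ℂ) (ε : ℂ) (Λ : ℂ → ℂ), DatumT (1 / 2) N μ α ε Λ →
    (∀ s : ℂ, 1 < s.re → Λ s ≠ 0) → ∀ T : ℝ, C0 ≤ 2 * el N μ T →
    BaseE (fun s => LL μ Λ (s + T * I)) (2 * el N μ T) Y e 9 δ (EX μ T) ∧
    FEE (fun s => LL μ Λ (s + T * I)) (2 * el N μ T) Y e δ (EX μ T) := by
  obtain ⟨Kn, hKn, hnd⟩ := nd_of m hm
  obtain ⟨κ, hκ⟩ : ∃ κ : ℝ, κ = e / 2 := ⟨_, rfl⟩
  have hκ0 : 0 < κ := by rw [hκ]; positivity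
  obtain ⟨R, ℓ0, hR, hP⟩ := prof_all Kn (3 / 2) (1 / 2) (1 / 8) κ (max 8 Y) hKn (by norm_num) (by norm_num)
    (by norm_num) (by norm_num) (by norm_num) (by norm_num) hκ0 ((by norm_num : (1 : ℝ) ≤ 8).trans (le_max_left _ _))
  obtain ⟨δ', hδ'⟩ : ∃ δ' : ℝ, δ' = min δ 1 := ⟨_, rfl⟩
  have hδ'0 : 0 < δ' := by rw [hδ']; exact lt_min hδ one_pos
  have hδ'1 : δ' ≤ 1 := by rw [hδ']; exact min_le_right _ _
  have hδ'2 : δ' ≤ δ := by rw [hδ']; exact min_le_left _ _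
  obtain ⟨K, hK⟩ : ∃ K : ℝ, K = KE m Y δ' 5 := ⟨_, rfl⟩
  have hK0 : 0 ≤ K := by rw [hK]; exact KE_nonneg m Y hδ'0 5
  obtain ⟨D, hD⟩ : ∃ D : ℝ, D = Kn * (1 + (18 + Y) ^ 2) := ⟨_, rfl⟩
  have hD0 : 0 ≤ D := by rw [hD]; positivity
  refine ⟨max 1 (2 * max ℓ0 (K / κ + D + K)), le_max_left _ _, fun N μ α ε Λ d hnz T hT => ?_⟩
  have nd := hnd N μ α ε Λ d hnz T
  obtain ⟨ℓ, hℓ⟩ : ∃ ℓ : ℝ, ℓ = el N μ T := ⟨_, rfl⟩
  have hT1 := (le_max_right _ _).trans hT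
  have hT2 := (le_max_left _ _).trans hT
  rw [← hℓ] at nd hT hT1 hT2
  have g1 : ℓ0 ≤ ℓ := by linarith [le_max_left ℓ0 (K / κ + D + K)]
  have g2 : K / κ + D + K ≤ ℓ := by linarith [le_max_right ℓ0 (K / κ + D + K)]
  have hℓ0 : 0 < ℓ := by linarith
  have hq : 0 ≤ K / κ := by positivity
  have hKκ : K ≤ κ * ℓ := by
    have : K / κ ≤ ℓ := by linarith
    rwa [div_le_iff₀ hκ0, mul_comm] at this
  have hDℓ : D + K ≤ ℓ := by linarith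
  obtain ⟨F, hF⟩ : ∃ F : ℂ → ℂ, F = fn N μ Λ T := ⟨_, rfl⟩
  rw [← hF] at nd
  have pf := hP ℓ 1 F g1 nd.ud (fun u hu _ h0 => by
    have := nd.zer u h0
    rw [abs_le] at this
    linarith)
  rw [show (1 / 2 + 1 / 8 : ℝ) = 5 / 8 by norm_num] at pf
  have hcmp : ∀ {s : ℂ}, |s.im| ≤ Y → -7 ≤ s.re → s.re ≤ 8 →
      ‖LL μ Λ (s + T * I)‖ ≤ Real.exp (-(ℓ * (s.re - 1 / 2)) + K) * ‖F (s - 1 / 2)‖ ∧
      ((∀ z ∈ EX μ T, δ' ≤ ‖s - z‖) →
      Real.exp (-(ℓ * (s.re - 1 / 2)) - K) * ‖F (s - 1 / 2)‖ ≤ ‖LL μ Λ (s + T * I)‖) := by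
    intro s h1 h2 h3
    rw [hℓ, hF, hK]
    exact cmp_winE hm d.one_le d.re_le Λ T Y hδ'0 hδ'1 h1 h2 h3
  have hrefl : ∀ u : ℂ, ‖F u‖ = ‖F (-conj u)‖ := by
    intro u
    obtain ⟨ε', hε', hfe⟩ := nd.ud.fe
    rw [hfe u, norm_mul, hε', one_mul, Complex.norm_conj]
  have hL : 2 * el N μ T = 2 * ℓ := by rw [hℓ]
  rw [hL]
  refine ⟨⟨⟨?_, ?_, ?_⟩, ?_, ?_⟩, ?_⟩
  · intro s _ _ _
    have h1 : Differentiable ℂ (fun s => LL μ Λ (s + T * I)) := (LL_diff d.entire).comp (by fun_prop)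
    exact h1.analyticAt s
  · intro s h1 h2 h3
    obtain ⟨c2, -⟩ := hcmp h1 h2 (by linarith)
    have p2 := nd.ud.up (s - 1 / 2)
    have e1 : (s - 1 / 2 : ℂ).re = s.re - 1 / 2 := by simp
    have e2 : (s - 1 / 2 : ℂ).im = s.im := by simp
    rw [one_mul, e1] at p2
    have h5 : |s.re - 1 / 2| ≤ 8 := by rw [abs_le]; constructor <;> linarith
    have h4 : ‖s - 1 / 2‖ ^ 2 ≤ (18 + Y) ^ 2 := by
      apply pow_le_pow_left₀ (norm_nonneg _)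
      have := Complex.norm_le_abs_re_add_abs_im (s - 1 / 2)
      rw [e1, e2] at this
      linarith
    have h6 : Kn * (1 + ‖s - 1 / 2‖ ^ 2) ≤ D := by
      rw [hD]
      apply mul_le_mul_of_nonneg_left _ (by linarith)
      linarith
    have h7 : ℓ * max |s.re - 1 / 2| (3 / 2) ≤ ℓ * 8 := by
      apply mul_le_mul_of_nonneg_left _ hℓ0.le
      exact max_le h5 (by norm_num)
    have h8 : -(ℓ * (s.re - 1 / 2)) ≤ ℓ * 8 := by
      have := abs_le.1 h5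
      nlinarith
    calc ‖LL μ Λ (s + T * I)‖ ≤ _ := c2
      _ ≤ Real.exp (-(ℓ * (s.re - 1 / 2)) + K) *
          Real.exp (ℓ * max |s.re - 1 / 2| (3 / 2) + Kn * (1 + ‖s - 1 / 2‖ ^ 2)) := by gcongr
      _ = Real.exp ((-(ℓ * (s.re - 1 / 2)) + K) +
          (ℓ * max |s.re - 1 / 2| (3 / 2) + Kn * (1 + ‖s - 1 / 2‖ ^ 2))) := (Real.exp_add _ _).symm
      _ ≤ _ := by
          apply Real.exp_le_exp.2
          linarith
  · intro s h1 h2 h3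
    obtain ⟨c2, -⟩ := hcmp h1 (by linarith) (by linarith)
    have e1 : (s - 1 / 2 : ℂ).re = s.re - 1 / 2 := by simp
    have e2 : (s - 1 / 2 : ℂ).im = s.im := by simp
    have p2 := pf.upp (s - 1 / 2) (by rw [e1, abs_of_nonneg (by linarith)]; linarith [le_max_left 8 Y])
      (by rw [e2]; exact h1.trans (le_max_right _ _))
    rw [e1, one_mul, abs_of_nonneg (by linarith), max_eq_left (by linarith)] at p2
    have h9 : κ * ℓ + K ≤ 2 * ℓ * e := by rw [hκ] at hKκ ⊢; linarith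
    calc ‖LL μ Λ (s + T * I)‖ ≤ _ := c2
      _ ≤ Real.exp (-(ℓ * (s.re - 1 / 2)) + K) * Real.exp (ℓ * (s.re - 1 / 2) + κ * ℓ) := by gcongr
      _ = Real.exp ((-(ℓ * (s.re - 1 / 2)) + K) + (ℓ * (s.re - 1 / 2) + κ * ℓ)) := (Real.exp_add _ _).symm
      _ ≤ _ := by
          apply Real.exp_le_exp.2
          linarith
  · intro s h1 h2 h3
    obtain ⟨c2, -⟩ := hcmp h1 h2 (by linarith)
    have e1 : (-conj (s - 1 / 2)).re = 1 / 2 - s.re := by simp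
    have e2 : (-conj (s - 1 / 2)).im = s.im := by simp
    have p2 := pf.upp (-conj (s - 1 / 2)) (by rw [e1, abs_of_nonneg (by linarith)]; linarith [le_max_left 8 Y])
      (by rw [e2]; exact h1.trans (le_max_right _ _))
    rw [e1, one_mul, ← hrefl, abs_of_nonneg (by linarith), max_eq_left (by linarith)] at p2
    have h9 : κ * ℓ + K ≤ 2 * ℓ * e := by rw [hκ] at hKκ ⊢; linarith
    calc ‖LL μ Λ (s + T * I)‖ ≤ _ := c2
      _ ≤ Real.exp (-(ℓ * (s.re - 1 / 2)) + K) * Real.exp (ℓ * (1 / 2 - s.re) + κ * ℓ) := by gcongr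
      _ = Real.exp ((-(ℓ * (s.re - 1 / 2)) + K) + (ℓ * (1 / 2 - s.re) + κ * ℓ)) := (Real.exp_add _ _).symm
      _ ≤ _ := by
          apply Real.exp_le_exp.2
          linarith
  · intro s h1 h2 h3 h4
    obtain ⟨-, c1⟩ := hcmp h1 h2 (by linarith)
    have c1 := c1 fun z hz => hδ'2.trans (h4 z hz)
    have e1 : (-conj (s - 1 / 2)).re = 1 / 2 - s.re := by simp
    have e2 : (-conj (s - 1 / 2)).im = s.im := by simp
    have p1 := pf.low (-conj (s - 1 / 2)) (by rw [e1]; linarith)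
      (by rw [e1]; linarith [le_max_left 8 Y]) (by rw [e2]; exact h1.trans (le_max_right _ _))
    rw [e1, one_mul, ← hrefl] at p1
    have h9 : κ * ℓ + K ≤ 2 * ℓ * e := by rw [hκ] at hKκ ⊢; linarith
    calc Real.exp (2 * ℓ * (1 / 2 - s.re - e)) ≤
        Real.exp ((-(ℓ * (s.re - 1 / 2)) - K) + (ℓ * (1 / 2 - s.re) - κ * ℓ)) := by
          apply Real.exp_le_exp.2
          linarith
      _ = Real.exp (-(ℓ * (s.re - 1 / 2)) - K) * Real.exp (ℓ * (1 / 2 - s.re) - κ * ℓ) := Real.exp_add _ _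
      _ ≤ Real.exp (-(ℓ * (s.re - 1 / 2)) - K) * ‖F (s - 1 / 2)‖ := by gcongr
      _ ≤ _ := c1
  · intro s h1 h2 h3 h4
    obtain ⟨c2, -⟩ := hcmp h1 (by linarith) (by linarith)
    have e1 : (1 - conj s : ℂ).re = 1 - s.re := by simp
    have e2 : (1 - conj s : ℂ).im = s.im := by simp
    obtain ⟨-, d1⟩ := hcmp (s := 1 - conj s) (by rw [e2]; exact h1) (by rw [e1]; linarith) (by rw [e1]; linarith)
    have d1 := d1 fun z hz => hδ'2.trans (h4 z hz)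
    rw [e1] at d1
    have e3 : (1 - conj s - 1 / 2 : ℂ) = -conj (s - 1 / 2) := by
      rw [map_sub]
      have : conj (1 / 2 : ℂ) = 1 / 2 := by rw [map_div₀, map_one, map_ofNat]
      rw [this]; ring
    rw [e3, ← hrefl] at d1
    have h5 : ‖F (s - 1 / 2)‖ ≤ Real.exp (ℓ * (1 / 2 - s.re) + K) * ‖LL μ Λ (1 - conj s + T * I)‖ := by
      calc ‖F (s - 1 / 2)‖ = Real.exp (ℓ * (1 / 2 - s.re) + K) *
          (Real.exp (-(ℓ * (1 - s.re - 1 / 2)) - K) * ‖F (s - 1 / 2)‖) := by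
            rw [← mul_assoc, ← Real.exp_add]
            have : ℓ * (1 / 2 - s.re) + K + (-(ℓ * (1 - s.re - 1 / 2)) - K) = 0 := by ring
            rw [this, Real.exp_zero, one_mul]
        _ ≤ _ := mul_le_mul_of_nonneg_left d1 (Real.exp_pos _).le
    have h9 : 2 * K ≤ 2 * ℓ * e := by rw [hκ] at hKκ; linarith
    show ‖LL μ Λ (s + T * I)‖ ≤ Real.exp (2 * ℓ * (1 / 2 - s.re + e)) * ‖LL μ Λ (1 - conj s + T * I)‖
    calc ‖LL μ Λ (s + T * I)‖ ≤ _ := c2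
      _ ≤ Real.exp (-(ℓ * (s.re - 1 / 2)) + K) *
          (Real.exp (ℓ * (1 / 2 - s.re) + K) * ‖LL μ Λ (1 - conj s + T * I)‖) := by gcongr
      _ = Real.exp ((-(ℓ * (s.re - 1 / 2)) + K) + (ℓ * (1 / 2 - s.re) + K)) *
          ‖LL μ Λ (1 - conj s + T * I)‖ := by rw [← mul_assoc, ← Real.exp_add]
      _ ≤ _ := by
          apply mul_le_mul_of_nonneg_right _ (norm_nonneg _)
          apply Real.exp_le_exp.2
          linarith

end Q240.GS
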