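import Pool.Agent.Q240.GS.Mem2

/-!
# Shadows: zeros of two linear differential polynomials in `f` are near each other, to the left
-/

set_option autoImplicit false

namespace Q240.GS

open Complex Filter Topology Metric Set Polynomial

/-- an operator with a parameter -/
abbrev Op := (ℂ → ℂ) → (ℝ → ℂ) → ℂ → ℂ

/-- the zeros of `Φ f c` to the left are near zeros of `Ψ f c` -/
def Sh (B A : ℝ) (Φ Ψ : Op) : Prop := ∀ α ε : ℝ, 0 < ε → α ≤ 1 / 2 → ∃ e L0 C : ℝ, 0 < e ∧ 1 ≤ L0 ∧ 1 ≤ C ∧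
  ∀ (f : ℂ → ℂ) (c : ℝ → ℂ) (L Y : ℝ), L0 ≤ L → (∀ l, ‖c l‖ ≤ B) → Base f L Y e A →
  ∀ ρ : ℂ, Φ f c ρ = 0 → -1 / 4 ≤ ρ.re → ρ.re ≤ α - ε → |ρ.im| + C ≤ Y →
    ∃ s : ℂ, Ψ f c s = 0 ∧ -1 / 4 < s.re ∧ s.re < α ∧ |s.im - ρ.im| ≤ C

theorem Sh.trans {B A : ℝ} {Φ Ψ Χ : Op} (h1 : Sh B A Φ Ψ) (h2 : Sh B A Ψ Χ) : Sh B A Φ Χ := by
  intro α ε hε hα
  obtain ⟨e1, L1, C1, he1, hL1, hC1, h1⟩ := h1 (α - ε / 2) (ε / 2) (by positivity) (by linarith)
  obtain ⟨e2, L2, C2, he2, hL2, hC2, h2⟩ := h2 α (ε / 2) (by positivity) hα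
  refine ⟨min e1 e2, max L1 L2, C1 + C2, lt_min he1 he2, hL1.trans (le_max_left _ _), by linarith,
    fun f c L Y hL hc hf ρ a0 a1 a2 a3 => ?_⟩
  have hLa : L1 ≤ L := (le_max_left _ _).trans hL
  have hLb : L2 ≤ L := (le_max_right _ _).trans hL
  have hL0 : 0 ≤ L := by linarith
  obtain ⟨s, b0, b1, b2, b3⟩ := h1 f c L Y hLa hc (hf.mono hL0 le_rfl (min_le_left _ _) le_rfl) ρ a0 a1
    (by linarith) (by linarith)
  have b4 : |s.im| ≤ |ρ.im| + C1 := by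
    calc |s.im| = |ρ.im + (s.im - ρ.im)| := by congr 1; ring
      _ ≤ |ρ.im| + |s.im - ρ.im| := abs_add_le _ _
      _ ≤ _ := by linarith
  obtain ⟨v, c0, c1, c2, c3⟩ := h2 f c L Y hLb hc (hf.mono hL0 le_rfl (min_le_right _ _) le_rfl) s b0 b1.le
    b2.le (by linarith)
  refine ⟨v, c0, c1, c2, ?_⟩
  calc |v.im - ρ.im| = |(v.im - s.im) + (s.im - ρ.im)| := by congr 1; ring
    _ ≤ |v.im - s.im| + |s.im - ρ.im| := abs_add_le _ _
    _ ≤ C1 + C2 := by linarith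

/-- the operator `D - a` -/
theorem LD_step {f : ℂ → ℂ} (P : ℂ[X]) (a : ℂ) (S : Finset ℝ) (c : ℝ → ℂ) {s : ℂ} (hs : AnalyticAt ℂ f s) :
    LD f ((X - C a) * P) S (fun l => (-l - a) * c l) s = deriv (LD f P S c) s - a * LD f P S c s := by
  have hfun : LD f P S c = fun s => LP f P s + ES S c s := by funext s; exact LD_eq f P S c s
  have h1 : HasDerivAt (LD f P S c) (LP f (X * P) s + ES S (fun l => -l * c l) s) s := by
    rw [hfun]
    exact (LP_deriv P hs).add (ES_deriv S c s)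
  rw [h1.deriv, LD_eq, LD_eq]
  have h2 : (X - C a) * P = X * P + C (-a) * P := by rw [C_neg]; ring
  rw [h2, LP_add, LP_C_mul]
  have h3 : ES S (fun l => (-(l : ℂ) - a) * c l) s = ES S (fun l => -l * c l) s - a * ES S c s := by
    unfold ES
    rw [Finset.mul_sum, ← Finset.sum_sub_distrib]
    apply Finset.sum_congr rfl
    intro l _
    ring
  rw [h3]
  ring

/-- the operator with weights `w` -/
noncomputable def OP (P : ℂ[X]) (S : Finset ℝ) (w : ℝ → ℂ) : Op := fun f c => LD f P S (fun l => w l * c l)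

theorem wbound (S : Finset ℝ) (w : ℝ → ℂ) (B : ℝ) (hB : 0 ≤ B) : ∃ B' : ℝ, 0 ≤ B' ∧ ∀ c : ℝ → ℂ,
    (∀ l, ‖c l‖ ≤ B) → ∀ l ∈ S, ‖w l * c l‖ ≤ B' := by
  refine ⟨(∑ l ∈ S, ‖w l‖) * B, by positivity, fun c hc l hl => ?_⟩
  rw [norm_mul]
  refine mul_le_mul ?_ (hc l) (norm_nonneg _) (by positivity)
  exact Finset.single_le_sum (f := fun l => ‖w l‖) (fun _ _ => norm_nonneg _) hl

theorem sh_step (B A : ℝ) (hB : 0 ≤ B) (hA : 0 < A) (P : ℂ[X]) (hP : P ≠ 0) (a : ℂ) (S : Finset ℝ) (w : ℝ → ℂ) :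
    Sh B A (OP P S w) (OP ((X - C a) * P) S (fun l => (-l - a) * w l)) ∧
    Sh B A (OP ((X - C a) * P) S (fun l => (-l - a) * w l)) (OP P S w) := by
  have hQ : (X - C a) * P ≠ 0 := mul_ne_zero (X_sub_C_ne_zero a) hP
  obtain ⟨B1, hB1, hc1⟩ := wbound S w B hB
  obtain ⟨B2, hB2, hc2⟩ := wbound S (fun l => (-l - a) * w l) B hB
  have hstep : ∀ (f : ℂ → ℂ) (c : ℝ → ℂ) {s : ℂ}, AnalyticAt ℂ f s →
      OP ((X - C a) * P) S (fun l => (-l - a) * w l) f c s = deriv (OP P S w f c) s - a * OP P S w f c s := by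
    intro f c s hs
    have h := LD_step P a S (fun l => w l * c l) hs
    unfold OP
    rw [← h]
    congr 1
    funext l
    ring
  refine ⟨fun α ε hε hα => ?_, fun α ε hε hα => ?_⟩
  · obtain ⟨e, L0, C, he, hL0, hC, h⟩ := step_down α ε ‖a‖ (A + 1) hε hα (by linarith) (norm_nonneg _)
    obtain ⟨e1, L1, he1, hL1, h1⟩ := loc_LD P hP S B1 A e hB1 hA he
    obtain ⟨e2, L2, he2, hL2, h2⟩ := loc_LD _ hQ S B2 A e hB2 hA he
    refine ⟨min e1 e2, max L0 (max L1 L2), C + 1, lt_min he1 he2, hL0.trans (le_max_left _ _), by linarith,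
      fun f c L Y hL hc hf ρ a0 a1 a2 a3 => ?_⟩
    have g0 : L0 ≤ L := (le_max_left _ _).trans hL
    have g1 : L1 ≤ L := ((le_max_left _ _).trans (le_max_right _ _)).trans hL
    have g2 : L2 ≤ L := ((le_max_right _ _).trans (le_max_right _ _)).trans hL
    have hLn : 0 ≤ L := by linarith
    have k1 := h1 f (fun l => w l * c l) L (Y - 1) g1 (hc1 c hc)
      (by rw [sub_add_cancel]; exact hf.mono hLn le_rfl (min_le_left _ _) le_rfl)
    have k2 := h2 f (fun l => ((-l - a) * w l) * c l) L (Y - 1) g2 (hc2 c hc)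
      (by rw [sub_add_cancel]; exact hf.mono hLn le_rfl (min_le_right _ _) le_rfl)
    obtain ⟨s, s1, s2, s3, s4⟩ := h _ _ a L (Y - 1) g0 k1 k2 le_rfl
      (fun s b1 b2 b3 => hstep f c (hf.an s (by linarith) (by linarith) (by linarith))) ρ a0 a1 a2 (by linarith)
    exact ⟨s, s1, s2, s3, by linarith⟩
  · obtain ⟨e, L0, C, he, hL0, hC, h⟩ := step_up α ε ‖a‖ (A + 1) hε hα (by linarith)
    obtain ⟨e1, L1, he1, hL1, h1⟩ := loc_LD P hP S B1 A e hB1 hA he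
    refine ⟨e1, max L0 L1, C + 1, he1, hL0.trans (le_max_left _ _), by linarith,
      fun f c L Y hL hc hf ρ a0 a1 a2 a3 => ?_⟩
    have g0 : L0 ≤ L := (le_max_left _ _).trans hL
    have g1 : L1 ≤ L := (le_max_right _ _).trans hL
    have k1 := h1 f (fun l => w l * c l) L (Y - 1) g1 (hc1 c hc) (by rw [sub_add_cancel]; exact hf)
    obtain ⟨s, s1, s2, s3, s4⟩ := h _ _ a L (Y - 1) g0 k1 le_rfl
      (fun s b1 b2 b3 => hstep f c (hf.an s (by linarith) (by linarith) (by linarith))) ρ a0 a1 a2 (by linarith)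
    exact ⟨s, s1, s2, s3, by linarith⟩

/-- the identity -/
def ID : Op := fun f _ => f

theorem LD_empty (f : ℂ → ℂ) (P : ℂ[X]) (c : ℝ → ℂ) (s : ℂ) : LD f P ∅ c s = LP f P s := by
  rw [LD_eq]; simp [ES]

theorem Sh.of_eq {B A : ℝ} (hB : 0 ≤ B) (hA : 0 < A) {Φ Ψ : Op} (P : ℂ[X]) (hP : P ≠ 0)
    (hΦ : ∀ f c, Φ f c = LP f P) (h : ∀ f c s, Φ f c s = 0 → Ψ f c s = 0) : Sh B A Φ Ψ := by
  intro α ε hε hα
  obtain ⟨e, L0, he, hL0, hL⟩ := loc_LD P hP ∅ B A 1 hB hA one_pos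
  refine ⟨e, L0, 1, he, hL0, le_rfl, fun f c L Y hL1 hc hf ρ a0 a1 a2 a3 => ⟨ρ, h f c ρ a0, ?_, by linarith,
    by simp⟩⟩
  rcases a1.lt_or_eq with h4 | h4
  · exact h4
  · exfalso
    have h5 := hL f c L (Y - 1) hL1 (fun l hl => absurd hl (Finset.notMem_empty l))
      (by rw [sub_add_cancel]; exact hf)
    have h6 := h5.ne (s := ρ) (by linarith) (by linarith) h4.symm.le
    rw [LD_empty, ← hΦ f c] at h6
    exact h6 a0

/-- homogeneous case -/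
theorem sh_poly (B A : ℝ) (hB : 0 ≤ B) (hA : 0 < A) (n : ℕ) : ∀ P : ℂ[X], P ≠ 0 → P.natDegree = n →
    Sh B A (fun f _ => LP f P) ID ∧ Sh B A ID (fun f _ => LP f P) := by
  induction n with
  | zero =>
    intro P hP hn
    obtain ⟨a, rfl⟩ := Polynomial.natDegree_eq_zero.1 hn
    have ha : a ≠ 0 := by
      rintro rfl
      exact hP C_0
    have hfun : ∀ (f : ℂ → ℂ) s, LP f (C a) s = a * f s := by
      intro f s
      rw [← monomial_zero_left, LP_monomial, iteratedDeriv_zero]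
    constructor
    · apply Sh.of_eq hB hA (C a) hP (fun _ _ => rfl)
      intro f c s h
      simp only [hfun] at h
      exact (mul_eq_zero.1 h).resolve_left ha
    · apply Sh.of_eq hB hA (C 1) (by simp) (fun f c => by
        funext s
        rw [← monomial_zero_left, LP_monomial, iteratedDeriv_zero, one_mul]
        rfl)
      intro f c s h
      have h' : f s = 0 := h
      simp only [hfun, h', mul_zero]
  | succ n ih =>
    intro P hP hn
    obtain ⟨a, ha⟩ := IsAlgClosed.exists_root P (by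
      intro h
      have := natDegree_eq_of_degree_eq_some (n := 0) h
      omega)
    obtain ⟨Q, hQ⟩ := dvd_iff_isRoot.2 ha
    have hQ0 : Q ≠ 0 := by
      rintro rfl
      rw [mul_zero] at hQ
      exact hP hQ
    have hQn : Q.natDegree = n := by
      have := natDegree_mul (X_sub_C_ne_zero a) hQ0
      rw [← hQ, hn, natDegree_X_sub_C] at this
      omega
    obtain ⟨i1, i2⟩ := ih Q hQ0 hQn
    obtain ⟨j1, j2⟩ := sh_step B A hB hA Q hQ0 a ∅ (fun _ => 0)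
    have e1 : OP Q ∅ (fun _ => 0) = fun f _ => LP f Q := by
      funext f c s; exact LD_empty f Q _ s
    have e2 : OP ((X - C a) * Q) ∅ (fun l => (-l - a) * (fun _ => 0) l) = fun f _ => LP f P := by
      funext f c s
      show LD f ((X - C a) * Q) ∅ _ s = _
      rw [LD_empty, hQ]
    rw [e1, e2] at j1 j2
    exact ⟨j2.trans i1, i2.trans j1⟩

theorem sh_all (B A : ℝ) (hB : 0 ≤ B) (hA : 0 < A) (S : Finset ℝ) : ∀ (P : ℂ[X]) (w : ℝ → ℂ), P ≠ 0 →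
    Sh B A (OP P S w) ID ∧ Sh B A ID (OP P S w) := by
  classical
  induction S using Finset.induction_on with
  | empty =>
    intro P w hP
    have hfun : OP P ∅ w = fun f _ => LP f P := by funext f c s; exact LD_empty f P _ s
    rw [hfun]
    exact sh_poly B A hB hA P.natDegree P hP rfl
  | insert l S hl ih =>
    intro P w hP
    obtain ⟨j1, j2⟩ := sh_step B A hB hA P hP (-(l : ℂ)) (insert l S) w
    have hQ : (X - C (-(l : ℂ))) * P ≠ 0 := mul_ne_zero (X_sub_C_ne_zero _) hP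
    obtain ⟨i1, i2⟩ := ih ((X - C (-(l : ℂ))) * P) (fun x => (-x - -(l : ℂ)) * w x) hQ
    have e1 : OP ((X - C (-(l : ℂ))) * P) (insert l S) (fun x => (-x - -(l : ℂ)) * w x) =
        OP ((X - C (-(l : ℂ))) * P) S (fun x => (-x - -(l : ℂ)) * w x) := by
      funext f c s
      unfold OP
      rw [LD_eq, LD_eq, ES, ES, Finset.sum_insert hl]
      simp
    rw [e1] at j1 j2
    exact ⟨j1.trans i1, i2.trans j2⟩

/-- **Shadows.** -/
theorem shadow (P Q : ℂ[X]) (hP : P ≠ 0) (hQ : Q ≠ 0) (S R : Finset ℝ) (B A : ℝ) (hB : 0 ≤ B) (hA : 0 < A)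
    (α ε : ℝ) (hε : 0 < ε) (hα : α ≤ 1 / 2) : ∃ e L0 C : ℝ, 0 < e ∧ 1 ≤ L0 ∧ 1 ≤ C ∧
    ∀ (f : ℂ → ℂ) (c d : ℝ → ℂ) (L Y : ℝ), L0 ≤ L → (∀ l, ‖c l‖ ≤ B) → (∀ l, ‖d l‖ ≤ B) → Base f L Y e A →
    ∀ ρ : ℂ, LD f P S c ρ = 0 → -1 / 4 ≤ ρ.re → ρ.re ≤ α - ε → |ρ.im| + C ≤ Y →
      ∃ s : ℂ, LD f Q R d s = 0 ∧ -1 / 4 < s.re ∧ s.re < α ∧ |s.im - ρ.im| ≤ C := by
  have h1 := (sh_all B A hB hA S P (fun _ => 1) hP).1
  have h2 := (sh_all B A hB hA R Q (fun _ => 1) hQ).2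
  obtain ⟨e1, L1, C1, he1, hL1, hC1, h1⟩ := h1 (α - ε / 2) (ε / 2) (by positivity) (by linarith)
  obtain ⟨e2, L2, C2, he2, hL2, hC2, h2⟩ := h2 α (ε / 2) (by positivity) hα
  refine ⟨min e1 e2, max L1 L2, C1 + C2, lt_min he1 he2, hL1.trans (le_max_left _ _), by linarith,
    fun f c d L Y hL hc hd hf ρ a0 a1 a2 a3 => ?_⟩
  have hLa : L1 ≤ L := (le_max_left _ _).trans hL
  have hLb : L2 ≤ L := (le_max_right _ _).trans hL
  have hL0 : 0 ≤ L := by linarith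
  obtain ⟨s, b0, b1, b2, b3⟩ := h1 f c L Y hLa hc (hf.mono hL0 le_rfl (min_le_left _ _) le_rfl) ρ
    (by simpa [OP] using a0) a1 (by linarith) (by linarith)
  have b4 : |s.im| ≤ |ρ.im| + C1 := by
    calc |s.im| = |ρ.im + (s.im - ρ.im)| := by congr 1; ring
      _ ≤ |ρ.im| + |s.im - ρ.im| := abs_add_le _ _
      _ ≤ _ := by linarith
  obtain ⟨v, c0, c1, c2, c3⟩ := h2 f d L Y hLb hd (hf.mono hL0 le_rfl (min_le_right _ _) le_rfl) s b0 b1.le
    b2.le (by linarith)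
  refine ⟨v, by simpa [OP] using c0, c1, c2, ?_⟩
  calc |v.im - ρ.im| = |(v.im - s.im) + (s.im - ρ.im)| := by congr 1; ring
    _ ≤ |v.im - s.im| + |s.im - ρ.im| := abs_add_le _ _
    _ ≤ C1 + C2 := by linarith

end Q240.GS
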