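import Mathlib

/-!
# Comparison of two functional equations: the conductor is determined by the finite part up to Euler factors
-/

set_option autoImplicit false

open Complex Set Filter Topology Metric

namespace Q240.GS

/-- an entire function that is small on both sides is zero -/
theorem entire_small {G : ℂ → ℂ} (hG : Differentiable ℂ G) {k C : ℝ} (hk : 0 < k) (hk1 : k < 1)
    (h : ∀ s : ℂ, ‖G s‖ ≤ C * k ^ |s.re - 1|) (s : ℂ) : G s = 0 := by
  have hC : 0 ≤ C := by
    have h1 := (norm_nonneg _).trans (h 1)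
    simpa using h1
  have hb : Bornology.IsBounded (range G) := by
    rw [isBounded_iff_forall_norm_le]
    refine ⟨C, ?_⟩
    rintro _ ⟨z, rfl⟩
    refine (h z).trans ?_
    have h2 : k ^ |z.re - 1| ≤ 1 := Real.rpow_le_one hk.le hk1.le (abs_nonneg _)
    calc C * k ^ |z.re - 1| ≤ C * 1 := mul_le_mul_of_nonneg_left h2 hC
      _ = C := mul_one C
  have hconst : ∀ n : ℕ, ‖G s‖ ≤ C * k ^ n := by
    intro n
    have h1 := hG.apply_eq_apply_of_bounded hb s ((n : ℂ) + 1)
    rw [h1]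
    refine (h _).trans (le_of_eq ?_)
    have e : ((n : ℂ) + 1).re - 1 = n := by simp
    rw [e, abs_of_nonneg (Nat.cast_nonneg n), Real.rpow_natCast]
  have ht : Tendsto (fun n : ℕ => C * k ^ n) atTop (𝓝 (C * 0)) :=
    (tendsto_pow_atTop_nhds_zero_of_lt_one hk.le hk1).const_mul C
  rw [mul_zero] at ht
  have h3 := ge_of_tendsto' ht hconst
  exact norm_le_zero_iff.1 h3

/-- **Comparison of conductors.** -/
theorem cond_le {A B V : ℂ → ℂ} {k σ C : ℝ} {ε₁ ε₂ : ℂ} (hk : 0 < k) (hσ : σ < 1) (hε₁ : ε₁ ≠ 0) (hε₂ : ε₂ ≠ 0)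
    (hA : ∀ s, A (2 - s) = ε₁ * A s) (hB : ∀ s, B (2 - s) = ε₂ * B s) (hBd : Differentiable ℂ B)
    (hB0 : ∃ s, B s ≠ 0) (hV : DifferentiableOn ℂ V {s | σ < s.re}) (hV1 : V 1 ≠ 0)
    (hVC : ∀ s : ℂ, 1 ≤ s.re → ‖V s‖ ≤ C) (hAB : ∀ s : ℂ, σ < s.re → A s = (k : ℂ) ^ s * V s * B s) :
    1 ≤ k := by
  by_contra hcon
  push Not at hcon
  have hkc : (k : ℂ) ≠ 0 := by exact_mod_cast hk.ne'
  obtain ⟨H, hH⟩ : ∃ H : ℂ → ℂ, H = fun s => (k : ℂ) ^ (s - 1) * V s := ⟨_, rfl⟩
  have hop : IsOpen {s : ℂ | σ < s.re} := isOpen_lt continuous_const continuous_re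
  have hHd : ∀ s : ℂ, σ < s.re → DifferentiableAt ℂ H s := by
    intro s hs
    rw [hH]
    have h1 : DifferentiableAt ℂ V s := (hV s hs).differentiableAt (hop.mem_nhds hs)
    have h2 : DifferentiableAt ℂ (fun s : ℂ => (k : ℂ) ^ (s - 1)) s :=
      (differentiableAt_id.sub (differentiableAt_const _)).const_cpow (Or.inl hkc)
    exact h2.mul h1
  have hHA : ∀ s : ℂ, σ < s.re → A s = k * (H s * B s) := by
    intro s hs
    rw [hAB s hs, hH]
    have e : (k : ℂ) ^ s = k * (k : ℂ) ^ (s - 1) := by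
      rw [show s = 1 + (s - 1) by ring, Complex.cpow_add _ _ hkc, Complex.cpow_one]
      congr 2
      ring
    rw [e]
    ring
  -- the functional equation of `H` in the strip
  have hfe0 : ∀ s : ℂ, σ < s.re → s.re < 2 - σ → B s ≠ 0 → H (2 - s) = ε₁ * ε₂⁻¹ * H s := by
    intro s h1 h2 hs
    have e1 : (2 - s : ℂ).re = 2 - s.re := by simp
    have h3 := hHA (2 - s) (by rw [e1]; linarith)
    rw [hA, hB, hHA s h1] at h3
    have h4 : (k * ε₂ * B s) * H (2 - s) = (k * ε₂ * B s) * (ε₁ * ε₂⁻¹ * H s) := by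
      calc (k * ε₂ * B s) * H (2 - s) = k * (H (2 - s) * (ε₂ * B s)) := by ring
        _ = ε₁ * (k * (H s * B s)) := h3.symm
        _ = _ := by field_simp
    exact mul_left_cancel₀ (mul_ne_zero (mul_ne_zero hkc hε₂) hs) h4
  have hBan : AnalyticOnNhd ℂ B univ := fun z _ => hBd.analyticAt z
  have hfe : ∀ s : ℂ, σ < s.re → s.re < 2 - σ → H (2 - s) = ε₁ * ε₂⁻¹ * H s := by
    intro s h1 h2
    have h3 : ∀ᶠ z in 𝓝[≠] s, B z ≠ 0 := by
      rcases (hBd.analyticAt s).eventually_eq_zero_or_eventually_ne_zero with h | h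
      · exfalso
        obtain ⟨z, hz⟩ := hB0
        exact hz (hBan.eqOn_zero_of_preconnected_of_eventuallyEq_zero isPreconnected_univ (mem_univ s) h
          (mem_univ z))
      · exact h
    have h4 : ∀ᶠ z in 𝓝[≠] s, σ < z.re ∧ z.re < 2 - σ :=
      (((isOpen_lt continuous_const continuous_re).inter (isOpen_lt continuous_re continuous_const)).mem_nhds
        ⟨h1, h2⟩ |> mem_nhdsWithin_of_mem_nhds)
    have h5 : ∀ᶠ z in 𝓝[≠] s, H (2 - z) = ε₁ * ε₂⁻¹ * H z := by
      filter_upwards [h3, h4] with z hz1 hz2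
      exact hfe0 z hz2.1 hz2.2 hz1
    have e1 : (2 - s : ℂ).re = 2 - s.re := by simp
    have c1 : Tendsto (fun z : ℂ => H (2 - z)) (𝓝[≠] s) (𝓝 (H (2 - s))) := by
      have h6 : ContinuousAt (fun z : ℂ => H (2 - z)) s := by
        have h7 := (hHd (2 - s) (by rw [e1]; linarith)).continuousAt
        exact ContinuousAt.comp (f := fun z : ℂ => 2 - z) h7 (by fun_prop)
      exact h6.tendsto.mono_left nhdsWithin_le_nhds
    have c2 : Tendsto (fun z : ℂ => ε₁ * ε₂⁻¹ * H z) (𝓝[≠] s) (𝓝 (ε₁ * ε₂⁻¹ * H s)) :=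
      ((hHd s h1).continuousAt.tendsto.mono_left nhdsWithin_le_nhds).const_mul _
    exact tendsto_nhds_unique (c1.congr' h5) c2
  -- the entire function
  obtain ⟨η, hη⟩ : ∃ η : ℂ, η = (ε₁ * ε₂⁻¹)⁻¹ := ⟨_, rfl⟩
  have hη0 : ε₁ * ε₂⁻¹ ≠ 0 := mul_ne_zero hε₁ (inv_ne_zero hε₂)
  obtain ⟨G, hG⟩ : ∃ G : ℂ → ℂ, G = fun s => if 1 ≤ s.re then H s else η * H (2 - s) := ⟨_, rfl⟩
  have hG1 : ∀ s : ℂ, σ < s.re → G s = H s := by
    intro s hs
    rw [hG]
    simp only
    split_ifs with h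
    · rfl
    · push Not at h
      rw [hfe s hs (by linarith), hη]
      field_simp
  have hG2 : ∀ s : ℂ, s.re < 2 - σ → G s = η * H (2 - s) := by
    intro s hs
    rw [hG]
    simp only
    split_ifs with h
    · rw [hfe s (by linarith) hs, hη]
      field_simp
    · rfl
  have hGd : Differentiable ℂ G := by
    intro s
    rcases lt_or_ge σ s.re with h | h
    · refine (hHd s h).congr_of_eventuallyEq ?_
      filter_upwards [hop.mem_nhds h] with z hz
      exact hG1 z hz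
    · have h2 : s.re < 2 - σ := by linarith
      have e1 : (2 - s : ℂ).re = 2 - s.re := by simp
      have h3 : DifferentiableAt ℂ (fun z : ℂ => η * H (2 - z)) s := by
        have h4 := hHd (2 - s) (by rw [e1]; linarith)
        exact (DifferentiableAt.comp (f := fun z : ℂ => 2 - z) s h4 (by fun_prop)).const_mul η
      refine h3.congr_of_eventuallyEq ?_
      filter_upwards [(isOpen_lt continuous_re continuous_const).mem_nhds h2] with z hz
      exact hG2 z hz
  have hC0 : 0 ≤ C := (norm_nonneg _).trans (hVC 1 (by simp))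
  have hHn : ∀ s : ℂ, 1 ≤ s.re → ‖H s‖ ≤ C * k ^ (s.re - 1) := by
    intro s hs
    rw [hH]
    simp only
    rw [norm_mul, Complex.norm_cpow_eq_rpow_re_of_pos hk, sub_re, one_re, mul_comm]
    exact mul_le_mul_of_nonneg_right (hVC s hs) (Real.rpow_nonneg hk.le _)
  have hGn : ∀ s : ℂ, ‖G s‖ ≤ (C * max 1 ‖η‖) * k ^ |s.re - 1| := by
    intro s
    have hp : 0 ≤ k ^ |s.re - 1| := Real.rpow_nonneg hk.le _
    rcases le_total 1 s.re with h | h
    · rw [hG1 s (by linarith)]
      refine (hHn s h).trans ?_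
      rw [abs_of_nonneg (by linarith)] at hp ⊢
      apply mul_le_mul_of_nonneg_right _ hp
      exact le_mul_of_one_le_right hC0 (le_max_left _ _)
    · rw [hG2 s (by linarith), norm_mul]
      have e1 : (2 - s : ℂ).re = 2 - s.re := by simp
      have h1 := hHn (2 - s) (by rw [e1]; linarith)
      rw [e1, show 2 - s.re - 1 = 1 - s.re by ring] at h1
      rw [abs_of_nonpos (by linarith), neg_sub] at hp ⊢
      calc ‖η‖ * ‖H (2 - s)‖ ≤ max 1 ‖η‖ * (C * k ^ (1 - s.re)) :=
            mul_le_mul (le_max_right _ _) h1 (norm_nonneg _) ((zero_le_one).trans (le_max_left _ _))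
        _ = _ := by ring
  have h1 := entire_small hGd hk hcon hGn 1
  rw [hG1 1 (by simpa using hσ), hH] at h1
  simp only [sub_self, Complex.cpow_zero, one_mul] at h1
  exact hV1 h1

end Q240.GS
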