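import Pool.Agent.Q240.GS.Few

/-!
# Few zeros to the left imply small values of `f` to the right
-/

set_option autoImplicit false

namespace Q240.GS

open Complex Filter Topology Metric Set Polynomial
open Q240.LH (ode_step)

/-- the functional equation, in absolute values -/
def FE (f : ℂ → ℂ) (L Y η : ℝ) : Prop := ∀ s : ℂ, |s.im| ≤ Y → -1 ≤ s.re → s.re ≤ 2 →
  ‖f s‖ ≤ Real.exp (L * (1 / 2 - s.re + η)) * ‖f (1 - (starRingEnd ℂ) s)‖

theorem FE.mono {f : ℂ → ℂ} {L Y η Y' η' : ℝ} (h : FE f L Y η) (hL : 0 ≤ L) (hY : Y' ≤ Y) (hη : η ≤ η') :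
    FE f L Y' η' := by
  intro s h1 h2 h3
  refine (h s (h1.trans hY) h2 h3).trans ?_
  gcongr

theorem LP_right {f : ℂ → ℂ} {L Y η A : ℝ} (h : Base f L (Y + 1) η A) (P : ℂ[X]) {s : ℂ} (h1 : |s.im| ≤ Y)
    (h2 : s.re = 2) : ‖LP f P s‖ ≤
      (∑ i ∈ Finset.range (P.natDegree + 1), ‖P.coeff i‖ * (i.factorial * 2 ^ i)) * Real.exp (η * L) := by
  rw [LP_range, Finset.sum_mul]
  refine norm_sum_le_of_le _ fun i hi => ?_
  rw [norm_mul, mul_assoc]
  gcongr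
  exact it_right h i h1 h2

theorem desc (n : ℕ) : ∀ P : ℂ[X], P ≠ 0 → P.natDegree = n → ∃ C : ℝ, 1 ≤ C ∧
    ∀ (f : ℂ → ℂ) (L Y η A : ℝ), Base f L (Y + 1) η A →
    ∀ t : ℝ, |t| ≤ Y → ∀ σ : ℝ, -1 ≤ σ → ∀ M : ℝ, 1 ≤ M → Real.exp (η * L) ≤ M →
    (∀ x : ℝ, σ ≤ x → x ≤ 2 → ‖LP f P (⟨x, t⟩ : ℂ)‖ ≤ M) →
    ∀ x : ℝ, σ ≤ x → x ≤ 2 → ‖f (⟨x, t⟩ : ℂ)‖ ≤ C * M := by
  induction n with
  | zero =>
    intro P hP hdeg
    obtain ⟨c, hc⟩ := Polynomial.natDegree_eq_zero.1 hdeg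
    have hc0 : c ≠ 0 := by
      rintro rfl
      rw [C_0] at hc
      exact hP hc.symm
    have hcn : 0 < ‖c‖ := norm_pos_iff.2 hc0
    refine ⟨max 1 (1 / ‖c‖), le_max_left _ _, fun f L Y η A hf t ht σ hσ M hM hM' hb x h1 h2 => ?_⟩
    have h3 := hb x h1 h2
    have h4 : LP f P (⟨x, t⟩ : ℂ) = c * f (⟨x, t⟩ : ℂ) := by
      have h5 : P = monomial 0 c := by rw [← hc]; rfl
      rw [h5, LP_monomial, iteratedDeriv_zero]
    rw [h4, norm_mul] at h3
    have h6 : ‖f (⟨x, t⟩ : ℂ)‖ ≤ 1 / ‖c‖ * M := by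
      rw [one_div, ← div_eq_inv_mul, le_div_iff₀ hcn, mul_comm]
      exact h3
    refine h6.trans ?_
    exact mul_le_mul_of_nonneg_right (le_max_right _ _) (by linarith)
  | succ n ih =>
    intro P hP hdeg
    obtain ⟨a, ha⟩ := IsAlgClosed.exists_root P (by
      intro h
      rw [Polynomial.degree_eq_natDegree hP, hdeg] at h
      norm_cast at h)
    obtain ⟨Q, hQ⟩ := dvd_iff_isRoot.2 ha
    have hQ0 : Q ≠ 0 := by
      rintro rfl
      rw [mul_zero] at hQ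
      exact hP hQ
    have hQd : Q.natDegree = n := by
      have h1 := congrArg natDegree hQ
      rw [natDegree_mul (X_sub_C_ne_zero a) hQ0, natDegree_X_sub_C, hdeg] at h1
      omega
    obtain ⟨C1, hC1, h⟩ := ih Q hQ0 hQd
    obtain ⟨N, hN⟩ : ∃ N : ℝ, N = ∑ i ∈ Finset.range (Q.natDegree + 1), ‖Q.coeff i‖ * (i.factorial * 2 ^ i) :=
      ⟨_, rfl⟩
    have hN0 : 0 ≤ N := by rw [hN]; positivity
    obtain ⟨E, hE⟩ : ∃ E : ℝ, E = Real.exp (3 * ‖a‖) := ⟨_, rfl⟩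
    have hE1 : 1 ≤ E := by rw [hE]; exact Real.one_le_exp (by positivity)
    obtain ⟨W, hW⟩ : ∃ W : ℝ, W = E * (N + 3 * E) := ⟨_, rfl⟩
    have hW1 : 1 ≤ W := by rw [hW]; nlinarith
    refine ⟨C1 * W, by nlinarith, fun f L Y η A hf t ht σ hσ M hM hM' hb x h1 h2 => ?_⟩
    have hstep : ∀ y : ℝ, σ ≤ y → y ≤ 2 → ‖LP f Q (⟨y, t⟩ : ℂ)‖ ≤ W * M := by
      intro y hy1 hy2
      have h3 := ode_step (H := LP f Q) (K := LP f P) (a := a) (t := t) (σ := σ) (M := M)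
        (N := N * Real.exp (η * L)) hσ
        (by linarith) (fun y hy1 hy2 => by
          have h4 := LP_deriv Q (s := (⟨y, t⟩ : ℂ)) (hf.an _ (by simp only; linarith) (by simp only; linarith)
            (by simp only; linarith))
          refine h4.congr_deriv ?_
          have h5 : P = X * Q + C (-a) * Q := by
            rw [hQ, C_neg]; ring
          rw [h5, LP_add, LP_C_mul]
          ring)
        (by rw [hN]; exact LP_right hf Q (s := (⟨2, t⟩ : ℂ)) ht rfl) hb (x := y) hy1 hy2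
      rw [← hE] at h3
      refine h3.trans ?_
      rw [hW]
      have h6 : N * Real.exp (η * L) ≤ N * M := by gcongr
      calc E * (N * Real.exp (η * L) + 3 * (E * M)) ≤ E * (N * M + 3 * (E * M)) := by gcongr
        _ = _ := by ring
    have hWM : M ≤ W * M := le_mul_of_one_le_left (by linarith) hW1
    have h7 := h f L Y η A hf t ht σ hσ (W * M) (by linarith) (hM'.trans hWM) hstep x h1 h2
    calc _ ≤ _ := h7
      _ = _ := by ring

/-- few zeros of `F` to the left imply small values of `f` -/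
theorem few_f (P : ℂ[X]) (hP : P ≠ 0) (S : Finset ℝ) (B A α ε h : ℝ) (hB : 0 ≤ B) (hA : 0 < A) (hα0 : 0 < α)
    (hα : α ≤ 1 / 2) (hε : 0 < ε) (hh : 0 < h) : ∃ η e L0 C : ℝ, 0 < η ∧ 0 < e ∧ 1 ≤ L0 ∧ 1 ≤ C ∧
    ∀ (f : ℂ → ℂ) (c : ℝ → ℂ) (L : ℝ), L0 ≤ L → (∀ l ∈ S, ‖c l‖ ≤ B) → Base f L (C + 2) e A →
    FE f L (C + 2) e →
    (∀ Z : Finset ℂ, (∀ z ∈ Z, LD f P S c z = 0 ∧ -1 / 4 ≤ z.re ∧ z.re ≤ α - η ∧ |z.im| ≤ C) →
      ∑ z ∈ Z, (H370.mult (LD f P S c) z : ℝ) ≤ η * L) →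
    ∀ t : ℝ, |t| ≤ h → ‖f (⟨1 - α, t⟩ : ℂ)‖ ≤ Real.exp (ε * L) := by
  obtain ⟨e, he⟩ : ∃ e : ℝ, e = min (ε / 20) (α / 2) := ⟨_, rfl⟩
  have he0 : 0 < e := by rw [he]; exact lt_min (by positivity) (by positivity)
  have he1 : 20 * e ≤ ε := by
    have : e ≤ ε / 20 := by rw [he]; exact min_le_left _ _
    linarith
  have he2 : e ≤ α / 2 := by rw [he]; exact min_le_right _ _
  obtain ⟨η', e1, L1, hη', he1', hL1, hfew⟩ := few_bound α e e (A + 1) he0 (by linarith) hα he0 (by linarith)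
  obtain ⟨X, e2, hX, he2', hpl⟩ := local_pl (A + 1) e (by linarith) he0
  obtain ⟨e3, L3, he3, hL3, hloc⟩ := loc_LD P hP S B A (min e1 e2) hB hA (lt_min he1' he2')
  obtain ⟨M, hM, hES⟩ := ES_bound S B hB
  obtain ⟨D, hD, hdesc⟩ := desc P.natDegree P hP rfl
  obtain ⟨η, hη⟩ : ∃ η : ℝ, η = min η' (e / 2) := ⟨_, rfl⟩
  have hη0 : 0 < η := by rw [hη]; exact lt_min (by positivity) (by positivity)
  have hη1 : η ≤ η' := by rw [hη]; exact min_le_left _ _
  have hη2 : η ≤ e / 2 := by rw [hη]; exact min_le_right _ _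
  obtain ⟨L4, hL4, hx⟩ := exp_dom (D * (1 + M)) he0 0
  obtain ⟨e0, he0d⟩ : ∃ e0 : ℝ, e0 = min e3 e := ⟨_, rfl⟩
  have he0p : 0 < e0 := by rw [he0d]; exact lt_min he3 he0
  have he0a : e0 ≤ e3 := by rw [he0d]; exact min_le_left _ _
  have he0b : e0 ≤ e := by rw [he0d]; exact min_le_right _ _
  refine ⟨η, e0, max L1 (max L3 L4), h + X + 1, hη0, he0p, hL1.trans (le_max_left _ _), by linarith,
    fun f c L hL hc hf hfe hZ t ht => ?_⟩
  have g1 : L1 ≤ L := (le_max_left _ _).trans hL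
  have g3 : L3 ≤ L := ((le_max_left _ _).trans (le_max_right _ _)).trans hL
  have g4 : L4 ≤ L := ((le_max_right _ _).trans (le_max_right _ _)).trans hL
  have hL1' : 1 ≤ L := by linarith
  have hx := hx L g4
  rw [pow_zero, mul_one] at hx
  have hLoc := hloc f c L (h + X + 2) g3 hc
    (by rw [show h + X + 2 + 1 = h + X + 1 + 2 by ring]; exact hf.mono (by linarith) le_rfl he0a le_rfl)
  have hLoc1 := hLoc.mono (by linarith) le_rfl (min_le_left e1 e2) le_rfl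
  have hLoc2 := hLoc.mono (by linarith) le_rfl (min_le_right e1 e2) le_rfl
  obtain ⟨σ, hσ⟩ : ∃ σ : ℝ, σ = α - e := ⟨_, rfl⟩
  have hσ0 : 0 ≤ σ := by rw [hσ]; linarith
  have hσ1 : σ ≤ 1 / 2 := by rw [hσ]; linarith
  -- the bound on the line
  have hline : ∀ s : ℂ, s.re = σ → |s.im - t| ≤ X →
      ‖LD f P S c s‖ ≤ Real.exp ((1 / 2 - σ + e) * L) := by
    intro s hs1 hs2
    have hsT : |s.im| ≤ h + X := by
      calc |s.im| = |(s.im - t) + t| := by rw [sub_add_cancel]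
        _ ≤ |s.im - t| + |t| := abs_add_le _ _
        _ ≤ _ := by linarith
    have h1 := hfew (LD f P S c) L (h + X + 2) s.im g1 hLoc1 (by linarith) (fun Z hZ1 => by
        refine (hZ Z fun z hz => ?_).trans (mul_le_mul_of_nonneg_right hη1 (by linarith))
        obtain ⟨a1, a2, a3, a4⟩ := hZ1 z hz
        refine ⟨a1, a2, by linarith, ?_⟩
        calc |z.im| = |(z.im - s.im) + s.im| := by rw [sub_add_cancel]
          _ ≤ |z.im - s.im| + |s.im| := abs_add_le _ _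
          _ ≤ _ := by linarith) s rfl (by rw [hs1]; exact hσ0)
      (by rw [hs1, hσ])
    refine h1.trans (le_of_eq ?_)
    rw [hs1, mul_comm]
  -- to the right
  have hright : ∀ x : ℝ, σ ≤ x → x ≤ 2 → ‖LD f P S c (⟨x, t⟩ : ℂ)‖ ≤ Real.exp ((1 / 2 - σ + 2 * e) * L) := by
    intro x h1 h2
    have h3 := hpl (LD f P S c) L (h + X + 2) t σ (1 / 2 - σ + e) hL1' hLoc2 (by linarith) hσ0 (by linarith)
      (by linarith) hline (⟨x, t⟩ : ℂ) rfl h1 h2
    refine h3.trans (le_of_eq ?_)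
    congr 1; ring
  have hexp1 : Real.exp (e0 * L) ≤ Real.exp ((1 / 2 - σ + 2 * e) * L) := by
    apply Real.exp_le_exp.2
    apply mul_le_mul_of_nonneg_right _ (by linarith)
    linarith
  have hexp2 : 1 ≤ Real.exp ((1 / 2 - σ + 2 * e) * L) := by
    refine Real.one_le_exp ?_
    have : 0 ≤ 1 / 2 - σ + 2 * e := by linarith
    positivity
  have hLP : ∀ x : ℝ, σ ≤ x → x ≤ 2 →
      ‖LP f P (⟨x, t⟩ : ℂ)‖ ≤ (1 + M) * Real.exp ((1 / 2 - σ + 2 * e) * L) := by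
    intro x h1 h2
    have h3 : LP f P (⟨x, t⟩ : ℂ) = LD f P S c (⟨x, t⟩ : ℂ) - ES S c (⟨x, t⟩ : ℂ) := by
      rw [LD_eq]; ring
    have h4 := hES c hc (⟨x, t⟩ : ℂ) (by simp only; rw [abs_le]; constructor <;> linarith)
    rw [h3]
    refine (norm_sub_le _ _).trans ?_
    have h5 := hright x h1 h2
    nlinarith
  have hb1 : Real.exp ((1 / 2 - σ + 2 * e) * L) ≤ (1 + M) * Real.exp ((1 / 2 - σ + 2 * e) * L) :=
    le_mul_of_one_le_left (Real.exp_pos _).le (by linarith)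
  have hz := hdesc f L (h + X + 2) e0 A
    (by rw [show h + X + 2 + 1 = h + X + 1 + 2 by ring]; exact hf) t (by linarith) σ (by linarith)
    ((1 + M) * Real.exp ((1 / 2 - σ + 2 * e) * L)) (hexp2.trans hb1) (hexp1.trans hb1)
    hLP α (by rw [hσ]; linarith) (by linarith)
  -- functional equation
  have hre : (1 - (starRingEnd ℂ) (⟨1 - α, t⟩ : ℂ)) = (⟨α, t⟩ : ℂ) := by
    apply Complex.ext <;> simp
  have f1 := hfe (⟨1 - α, t⟩ : ℂ) (by simp only; linarith) (by simp only; linarith) (by simp only; linarith)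
  rw [hre] at f1
  simp only at f1
  refine f1.trans ?_
  calc Real.exp (L * (1 / 2 - (1 - α) + e0)) * ‖f (⟨α, t⟩ : ℂ)‖
      ≤ Real.exp (L * (1 / 2 - (1 - α) + e0)) *
        (D * ((1 + M) * Real.exp ((1 / 2 - σ + 2 * e) * L))) := by gcongr
    _ = (D * (1 + M)) * Real.exp (L * (1 / 2 - (1 - α) + e0) + (1 / 2 - σ + 2 * e) * L) := by
        rw [Real.exp_add]; ring
    _ ≤ Real.exp (e * L) * Real.exp (L * (1 / 2 - (1 - α) + e0) + (1 / 2 - σ + 2 * e) * L) := by gcongr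
    _ = Real.exp (L * (1 / 2 - (1 - α) + e0) + (1 / 2 - σ + 2 * e) * L + e * L) := by
        rw [← Real.exp_add]; congr 1; ring
    _ ≤ _ := by
        apply Real.exp_le_exp.2
        have h1 : L * (1 / 2 - (1 - α) + e0) + (1 / 2 - σ + 2 * e) * L + e * L = (4 * e + e0) * L := by
          rw [hσ]; ring
        rw [h1]
        apply mul_le_mul_of_nonneg_right _ (by linarith)
        linarith

end Q240.GS
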