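import Pool.Agent.Q240.GS.Loc

/-!
# From a zero of `F` to a zero of `F' - a F`, local version
-/

set_option autoImplicit false

namespace Q240.GS

open Complex Filter Topology Metric Set MeasureTheory
open Q240.SH (rect_le gauss_const horiz)

theorem exp_dom (C : ℝ) {e : ℝ} (he : 0 < e) (k : ℕ) : ∃ L0 : ℝ, 1 ≤ L0 ∧ ∀ L : ℝ, L0 ≤ L →
    C * L ^ k ≤ Real.exp (e * L) := by
  obtain ⟨T0, hT0, h⟩ := Q240.QS.ev_exp C he k
  refine ⟨max 1 (Real.log T0), le_max_left _ _, fun L hL => ?_⟩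
  have h1 := h (Real.exp L) (by
    have h2 : Real.log T0 ≤ L := (le_max_right _ _).trans hL
    rcases lt_or_ge 0 T0 with h3 | h3
    · exact (Real.log_le_iff_le_exp h3).1 h2
    · exact h3.trans (Real.exp_pos _).le)
  rwa [Real.log_exp] at h1

theorem step_down (α ε B A : ℝ) (hε : 0 < ε) (hα : α ≤ 1 / 2) (hA : 0 < A) (hB : 0 ≤ B) :
    ∃ e L0 C : ℝ, 0 < e ∧ 1 ≤ L0 ∧ 1 ≤ C ∧ ∀ (F G : ℂ → ℂ) (a : ℂ) (L Y : ℝ), L0 ≤ L → Loc F L Y e A →
      Loc G L Y e A → ‖a‖ ≤ B →
      (∀ s : ℂ, |s.im| ≤ Y → -6 ≤ s.re → s.re ≤ 4 → G s = deriv F s - a * F s) →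
      ∀ ρ : ℂ, F ρ = 0 → -1 / 4 ≤ ρ.re → ρ.re ≤ α - ε → |ρ.im| + C ≤ Y →
      ∃ s : ℂ, G s = 0 ∧ -1 / 4 < s.re ∧ s.re < α ∧ |s.im - ρ.im| ≤ C := by
  rcases lt_or_ge α (ε - 1 / 4) with h | h
  · exact ⟨1, 1, 1, one_pos, le_rfl, le_rfl, fun F G a L Y _ _ _ _ _ ρ _ h1 h2 _ => absurd h1 (by linarith)⟩
  obtain ⟨κ, hκ⟩ : ∃ κ : ℝ, κ = ε / 64 := ⟨_, rfl⟩
  have hκ0 : 0 < κ := by rw [hκ]; positivity
  have hκ1 : κ ≤ 1 / 64 := by rw [hκ]; linarith
  obtain ⟨e0, L1, he0, hL1, hld⟩ := logder α (ε / 2) κ A (by positivity) (by linarith) hα hκ0 hA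
  obtain ⟨X, hX⟩ : ∃ X : ℝ, X = (2 * A + 6) / κ + 1 := ⟨_, rfl⟩
  have hX1 : 1 ≤ X := by rw [hX]; linarith [show 0 < (2 * A + 6) / κ by positivity]
  have hκX : 2 * A + 6 ≤ κ * X := by
    rw [hX, mul_add, mul_div_cancel₀ _ hκ0.ne']
    linarith
  obtain ⟨C3, hC3⟩ : ∃ C3 : ℝ, C3 = (5 + 2 * X) * Real.exp (B * (3 + X)) := ⟨_, rfl⟩
  have hC30 : 0 < C3 := by rw [hC3]; positivity
  obtain ⟨L2, hL2, hx1⟩ := exp_dom (X * Real.exp (B * X) * (8 * Real.exp B))
    (show 0 < 7 / 16 * ε by positivity) 1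
  obtain ⟨L3, hL3, hx2⟩ := exp_dom (8 * κ * C3 * Real.exp B + 1)
    (show 0 < 1 / 2 * ε by positivity) 2
  obtain ⟨e, he⟩ : ∃ e : ℝ, e = min e0 κ := ⟨_, rfl⟩
  have hep : 0 < e := by rw [he]; exact lt_min he0 hκ0
  have hee : e ≤ e0 := by rw [he]; exact min_le_left _ _
  have heκ : e ≤ κ := by rw [he]; exact min_le_right _ _
  refine ⟨e, max (max L1 L2) (max L3 (B / κ + 8 / ε + 1 / κ + 4)), X + 5, hep,
    hL1.trans ((le_max_left _ _).trans (le_max_left _ _)), by linarith, ?_⟩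
  intro F G a L Y hL hF hG haB hFG ρ hρ0 hρ1 hρ2 hρ3
  by_contra hcon
  push Not at hcon
  obtain ⟨T, hT⟩ : ∃ T : ℝ, T = ρ.im := ⟨_, rfl⟩
  rw [← hT] at hρ3 hcon
  have ha1 : L1 ≤ L := ((le_max_left _ _).trans (le_max_left _ _)).trans hL
  have ha2 : L2 ≤ L := ((le_max_right _ _).trans (le_max_left _ _)).trans hL
  have ha3 : L3 ≤ L := ((le_max_left _ _).trans (le_max_right _ _)).trans hL
  have hLb : B / κ + 8 / ε + 1 / κ + 4 ≤ L := ((le_max_right _ _).trans (le_max_right _ _)).trans hL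
  have hx1 := hx1 L ha2
  have hx2 := hx2 L ha3
  rw [pow_one] at hx1
  have p1 : 0 ≤ B / κ := by positivity
  have p2 : 0 < 8 / ε := by positivity
  have p3 : 0 < 1 / κ := by positivity
  have hL4 : 4 ≤ L := by linarith
  have hL0 : 0 < L := by linarith
  have hNL : B ≤ κ * L := by
    have : B / κ ≤ L := by linarith
    rwa [div_le_iff₀ hκ0, mul_comm] at this
  have hεL : 8 ≤ L * ε := by
    have : 8 / ε ≤ L := by linarith
    rwa [div_le_iff₀ hε] at this
  have hκL : 1 ≤ κ * L := by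
    have : 1 / κ ≤ L := by linarith
    rwa [div_le_iff₀ hκ0, mul_comm] at this
  obtain ⟨σ, hσ⟩ : ∃ σ : ℝ, σ = α - ε / 2 := ⟨_, rfl⟩
  obtain ⟨β, hβ⟩ : ∃ β : ℝ, β = ρ.re := ⟨_, rfl⟩
  rw [← hβ] at hρ1 hρ2
  have hρ : ρ = (β : ℂ) + (T : ℂ) * I := by rw [hβ, hT]; exact (re_add_im ρ).symm
  have hwin : ∀ y : ℝ, |y - T| ≤ X → |y| + 5 ≤ Y := by
    intro y hy
    calc |y| + 5 = |(y - T) + T| + 5 := by rw [sub_add_cancel]
      _ ≤ |y - T| + |T| + 5 := by linarith [abs_add_le (y - T) T]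
      _ ≤ Y := by linarith
  have hwin' : ∀ y : ℝ, |y - T| ≤ X → |y| ≤ Y := fun y hy => by linarith [hwin y hy]
  -- information on `G`
  have hinfo : ∀ x y : ℝ, -1 / 4 ≤ x → x ≤ σ → |y - T| ≤ X → G (x + y * I) ≠ 0 ∧
      ‖logDeriv G (x + y * I) + L‖ ≤ κ * L ∧
      Real.exp (L * (1 / 2 - x - κ)) ≤ ‖G (x + y * I)‖ ∧
      ‖G (x + y * I)‖ ≤ Real.exp (L * (1 / 2 - x + κ)) := by
    intro x y h1 h2 h3
    have h3' := abs_le.1 h3
    have hre : ((x : ℂ) + y * I).re = x := by simp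
    have him : ((x : ℂ) + y * I).im = y := by simp
    have h4 := hld G L Y y ha1 (hG.mono hL0.le le_rfl hee le_rfl) (hwin y h3) (fun s s1 s2 s3 s4 => by
      have h5 := hcon s s4 s1 s2
      have h6 := abs_le.1 s3
      have h7 : |s.im - T| ≤ X + 5 := by rw [abs_le]; constructor <;> linarith
      linarith) ((x : ℂ) + y * I) him (by rw [hre]; exact h1) (by rw [hre]; linarith)
    rwa [hre] at h4
  -- analyticity
  have hFan : ∀ x y : ℝ, -6 ≤ x → x ≤ 4 → |y - T| ≤ X →
      HasDerivAt F (G (x + y * I) + a * F (x + y * I)) (x + y * I) := by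
    intro x y hx1' hx2' hy
    have hre : ((x : ℂ) + y * I).re = x := by simp
    have him : ((x : ℂ) + y * I).im = y := by simp
    have h1 := (hF.an ((x : ℂ) + y * I) (by rw [him]; exact hwin' y hy) (by rw [hre]; exact hx1')
      (by rw [hre]; exact hx2')).differentiableAt.hasDerivAt
    rw [hFG ((x : ℂ) + y * I) (by rw [him]; exact hwin' y hy) (by rw [hre]; exact hx1')
      (by rw [hre]; exact hx2')]
    refine h1.congr_deriv ?_
    ring
  have hTT : |T - T| ≤ X := by simp; linarith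
  -- the horizontal segment
  have hhor := horiz (F := F) (G := G) (a := a) (T := T) (L := L) (η := κ) (β := β) (σ := σ) hL0 hκ0
    (by linarith) (haB.trans hNL) (by linarith) (by linarith) (by
      have : ε / 2 ≤ σ - β := by linarith
      calc (4 : ℝ) ≤ L * (ε / 2) := by linarith
        _ ≤ L * (σ - β) := by gcongr) (fun x h1 h2 => hFan x T (by linarith) (by linarith) hTT) (by
      intro x h1 h2
      obtain ⟨g1, g2, -, -⟩ := hinfo x T (by linarith) h2 hTT
      have hre : ((x : ℂ) + T * I).re = x := by simp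
      have him : ((x : ℂ) + T * I).im = T := by simp
      exact ⟨(hG.an _ (by rw [him]; exact hwin' T hTT) (by rw [hre]; linarith)
        (by rw [hre]; linarith)).differentiableAt.hasDerivAt, g1, g2⟩) (by rw [← hρ]; exact hρ0)
  have haN : Real.exp (-B) ≤ Real.exp (-‖a‖) := Real.exp_le_exp.2 (by linarith)
  have hhor' : Real.exp (-B) * ‖G (β + T * I)‖ / (2 * L) ≤ ‖F (σ + T * I)‖ := by
    refine le_trans ?_ hhor
    gcongr
  obtain ⟨v, hv⟩ : ∃ v : ℂ, v = F (σ + T * I) := ⟨_, rfl⟩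
  rw [← hv] at hhor'
  obtain ⟨Q, hQ⟩ : ∃ Q : ℝ, Q = 1 / 2 - α := ⟨_, rfl⟩
  have hQ0 : 0 ≤ Q := by linarith
  have hvlow : Real.exp (L * (Q + ε - κ)) ≤ 2 * L * Real.exp B * ‖v‖ := by
    obtain ⟨-, -, g3, -⟩ := hinfo β T (by linarith) (by linarith) hTT
    have h1 : Real.exp (L * (Q + ε - κ)) ≤ ‖G (β + T * I)‖ := by
      refine le_trans ?_ g3
      apply Real.exp_le_exp.2
      gcongr
      linarith
    rw [div_le_iff₀ (by positivity)] at hhor'
    have h2 : ‖G (β + T * I)‖ = Real.exp B * (Real.exp (-B) * ‖G (β + T * I)‖) := by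
      rw [← mul_assoc, ← Real.exp_add, add_neg_cancel, Real.exp_zero, one_mul]
    rw [h2] at h1
    calc Real.exp (L * (Q + ε - κ)) ≤ Real.exp B * (Real.exp (-B) * ‖G (β + T * I)‖) := h1
      _ ≤ Real.exp B * (‖v‖ * (2 * L)) := by gcongr
      _ = _ := by ring
  -- the vertical segment
  obtain ⟨V, hV⟩ : ∃ V : ℝ → ℂ, V = fun y : ℝ => cexp (-a * (((y : ℂ) - T) * I)) * F (σ + y * I) := ⟨_, rfl⟩
  have hVT : V T = v := by rw [hV, hv]; simp
  have hyX : ∀ y ∈ Icc (T - X) (T + X), |y - T| ≤ X := by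
    intro y hy
    rw [abs_le]; constructor <;> linarith [hy.1, hy.2]
  have hVd : ∀ y ∈ Icc (T - X) (T + X), HasDerivAt V
      (cexp (-a * (((y : ℂ) - T) * I)) * (I * G (σ + y * I))) y := by
    intro y hy
    have h1 : HasDerivAt (fun z : ℂ => cexp (-a * ((z - T) * I))) (cexp (-a * (((y : ℂ) - T) * I)) * (-a * I))
        (y : ℂ) := by
      have h2 := ((((hasDerivAt_id (y : ℂ)).sub_const (T : ℂ)).mul_const I).const_mul (-a)).cexp
      rw [one_mul] at h2
      exact h2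
    have h3 : HasDerivAt (fun z : ℂ => F (σ + z * I)) ((G (σ + y * I) + a * F (σ + y * I)) * I) (y : ℂ) := by
      have h4 : HasDerivAt (fun z : ℂ => (σ : ℂ) + z * I) I (y : ℂ) := by
        have h5 := ((hasDerivAt_id (y : ℂ)).mul_const I).const_add (σ : ℂ)
        rw [one_mul] at h5
        exact h5
      exact HasDerivAt.comp (y : ℂ) (h₂ := F) (h := fun z : ℂ => (σ : ℂ) + z * I)
        (hFan σ y (by linarith) (by linarith) (hyX y hy)) h4
    have h6 := (h1.mul h3).comp_ofReal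
    rw [hV]
    refine h6.congr_deriv ?_
    ring
  have hexpV : ∀ y : ℝ, |y - T| ≤ X → ‖cexp (-a * (((y : ℂ) - T) * I))‖ ≤ Real.exp (B * X) := by
    intro y hyT
    rw [Complex.norm_exp]
    apply Real.exp_le_exp.2
    refine (re_le_norm _).trans ?_
    rw [norm_mul, norm_neg, norm_mul, norm_I, mul_one, ← ofReal_sub, norm_real, Real.norm_eq_abs]
    gcongr
  have hVb : ∀ y ∈ Icc (T - X) (T + X), ‖cexp (-a * (((y : ℂ) - T) * I)) * (I * G (σ + y * I))‖ ≤
      Real.exp (B * X) * Real.exp (L * (Q + ε / 2 + κ)) := by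
    intro y hy
    have hyT := hyX y hy
    obtain ⟨-, -, -, g4⟩ := hinfo σ y (by linarith) le_rfl hyT
    rw [norm_mul, norm_mul, norm_I, one_mul]
    have h3 : ‖G (σ + y * I)‖ ≤ Real.exp (L * (Q + ε / 2 + κ)) := by
      refine g4.trans (le_of_eq ?_)
      rw [hσ, hQ]
      congr 1; ring
    exact mul_le_mul (hexpV y hyT) h3 (norm_nonneg _) (Real.exp_pos _).le
  have hTm : T ∈ Icc (T - X) (T + X) := ⟨by linarith, by linarith⟩
  have hclose : ∀ y ∈ Icc (T - X) (T + X), ‖V y - v‖ ≤ ‖v‖ / 4 := by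
    intro y hy
    have h1 := Convex.norm_image_sub_le_of_norm_hasDerivWithin_le
      (fun x hx => (hVd x hx).hasDerivWithinAt) hVb (convex_Icc (T - X) (T + X)) hTm hy
    rw [hVT] at h1
    have hyT : ‖y - T‖ ≤ X := by
      rw [Real.norm_eq_abs]; exact hyX y hy
    have h2 : ‖V y - v‖ ≤ Real.exp (B * X) * Real.exp (L * (Q + ε / 2 + κ)) * X := by
      refine h1.trans ?_
      gcongr
    refine h2.trans ?_
    have h3 : (8 * L * Real.exp B) * (Real.exp (B * X) * Real.exp (L * (Q + ε / 2 + κ)) * X) ≤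
        (8 * L * Real.exp B) * (‖v‖ / 4) := by
      calc (8 * L * Real.exp B) * (Real.exp (B * X) * Real.exp (L * (Q + ε / 2 + κ)) * X) =
          (X * Real.exp (B * X) * (8 * Real.exp B) * L) * Real.exp (L * (Q + ε / 2 + κ)) := by ring
        _ ≤ Real.exp (7 / 16 * ε * L) * Real.exp (L * (Q + ε / 2 + κ)) := by gcongr
        _ = Real.exp (L * (Q + 15 / 16 * ε + κ)) := by
            rw [← Real.exp_add]; congr 1; ring
        _ ≤ Real.exp (L * (Q + ε - κ)) := by
            apply Real.exp_le_exp.2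
            apply mul_le_mul_of_nonneg_left _ hL0.le
            rw [hκ]; linarith
        _ ≤ 2 * L * Real.exp B * ‖v‖ := hvlow
        _ = _ := by ring
    exact le_of_mul_le_mul_left h3 (by positivity)
  have hVc : ContinuousOn V (Icc (T - X) (T + X)) := fun y hy => (hVd y hy).continuousAt.continuousWithinAt
  have hgc := gauss_const hκL hX1 hVc hclose
  -- the rectangle
  obtain ⟨f, hf⟩ : ∃ f : ℂ → ℂ, f = fun s : ℂ => cexp (-a * (s - (σ + T * I))) * F s *
      cexp (((κ * L : ℝ) : ℂ) * (s - (σ + T * I)) ^ 2) := ⟨_, rfl⟩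
  have hsq : ∀ x y : ℝ, ‖cexp (((κ * L : ℝ) : ℂ) * (((x : ℂ) + y * I) - (σ + T * I)) ^ 2)‖ =
      Real.exp (κ * L * ((x - σ) ^ 2 - (y - T) ^ 2)) := by
    intro x y
    rw [Complex.norm_exp]
    congr 1
    have h1 : (((x : ℂ) + y * I) - (σ + T * I)) ^ 2 =
        (((x - σ) ^ 2 - (y - T) ^ 2 : ℝ) : ℂ) + ((2 * (x - σ) * (y - T) : ℝ) : ℂ) * I := by
      push_cast
      linear_combination ((y : ℂ) - T) ^ 2 * I_sq
    rw [h1, Complex.re_ofReal_mul, add_re, ofReal_re, re_ofReal_mul, I_re, mul_zero, add_zero]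
  have hexpn : ∀ x y : ℝ, |x - σ| ≤ 3 → |y - T| ≤ X →
      ‖cexp (-a * (((x : ℂ) + y * I) - (σ + T * I)))‖ ≤ Real.exp (B * (3 + X)) := by
    intro x y h1 h2
    rw [Complex.norm_exp]
    apply Real.exp_le_exp.2
    refine (re_le_norm _).trans ?_
    rw [norm_mul, norm_neg]
    gcongr
    have h3 : ((x : ℂ) + y * I) - (σ + T * I) = ((x - σ : ℝ) : ℂ) + ((y - T : ℝ) : ℂ) * I := by
      push_cast; ring
    rw [h3]
    refine (norm_add_le _ _).trans ?_
    rw [norm_mul, norm_I, mul_one, norm_real, norm_real, Real.norm_eq_abs, Real.norm_eq_abs]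
    exact add_le_add h1 h2
  have hrect := rect_le (f := f) (x0 := σ) (x1 := 2) (y0 := T - X) (y1 := T + X) (by linarith) (by linarith)
    (by
      intro s h1 h2 h3 h4
      have hd := (hF.an s (hwin' s.im (by rw [abs_le]; constructor <;> linarith)) (by linarith)
        (by linarith)).differentiableAt
      rw [hf]
      fun_prop) (B := Real.exp (B * (3 + X))) (R := Real.exp (B * (3 + X)) * Real.exp (κ * L * 7)) (by
      intro x h1 h2
      have hxσ : |x - σ| ≤ 3 := by rw [abs_le]; constructor <;> linarith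
      have hgen : ∀ y : ℝ, |y - T| = X → y ∈ Icc (T - X) (T + X) → ‖f (x + y * I)‖ ≤ Real.exp (B * (3 + X)) := by
        intro y hy hy'
        have hre : ((x : ℂ) + y * I).re = x := by simp
        have him : ((x : ℂ) + y * I).im = y := by simp
        rw [hf, norm_mul, norm_mul, hsq]
        have h5 := hexpn x y hxσ hy.le
        have h6 := hF.grow ((x : ℂ) + y * I) (by rw [him]; exact hwin' y hy.le) (by rw [hre]; linarith)
          (by rw [hre]; linarith)
        have h8 : (y - T) ^ 2 = X ^ 2 := by rw [← sq_abs, hy]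
        have h9 : ‖F (x + y * I)‖ * Real.exp (κ * L * ((x - σ) ^ 2 - (y - T) ^ 2)) ≤ 1 := by
          calc _ ≤ Real.exp (A * L) * Real.exp (κ * L * ((x - σ) ^ 2 - (y - T) ^ 2)) := by gcongr
            _ = Real.exp (A * L + κ * L * ((x - σ) ^ 2 - (y - T) ^ 2)) := by rw [Real.exp_add]
            _ ≤ 1 := by
                rw [Real.exp_le_one_iff, h8]
                have q2 : (x - σ) ^ 2 ≤ 9 := by
                  have : |x - σ| ^ 2 ≤ 3 ^ 2 := pow_le_pow_left₀ (abs_nonneg _) hxσ 2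
                  rw [sq_abs] at this
                  linarith
                have q3 : X ≤ X ^ 2 := by
                  have := mul_le_mul_of_nonneg_left hX1 (show (0 : ℝ) ≤ X by linarith)
                  rw [mul_one] at this
                  rw [sq]; exact this
                have q4 : κ * L * ((x - σ) ^ 2 - X ^ 2) ≤ κ * L * (9 - X) := by
                  gcongr
                have q5 : (2 * A + 6) * L ≤ κ * X * L := by gcongr
                have q6 : κ * L ≤ 1 / 64 * L := by gcongr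
                have q7 : κ * L * (9 - X) = 9 * (κ * L) - κ * X * L := by ring
                have q8 : 0 ≤ A * L := by positivity
                linarith
        calc ‖cexp (-a * (((x : ℂ) + y * I) - (σ + T * I)))‖ * ‖F (x + y * I)‖ *
            Real.exp (κ * L * ((x - σ) ^ 2 - (y - T) ^ 2)) =
            ‖cexp (-a * (((x : ℂ) + y * I) - (σ + T * I)))‖ * (‖F (x + y * I)‖ *
            Real.exp (κ * L * ((x - σ) ^ 2 - (y - T) ^ 2))) := by ring
          _ ≤ Real.exp (B * (3 + X)) * 1 := by gcongr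
          _ = _ := mul_one _
      constructor
      · have := hgen (T - X) (by rw [sub_sub_cancel_left, abs_neg, abs_of_pos (by linarith)])
          ⟨le_rfl, by linarith⟩
        exact_mod_cast this
      · have := hgen (T + X) (by rw [add_sub_cancel_left, abs_of_pos (by linarith)])
          ⟨by linarith, le_rfl⟩
        exact_mod_cast this) (by
      intro y h1 h2
      have hyT : |y - T| ≤ X := by rw [abs_le]; constructor <;> linarith
      have hre : (((2 : ℝ) : ℂ) + y * I).re = 2 := by simp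
      have him : (((2 : ℝ) : ℂ) + y * I).im = y := by simp
      rw [hf, norm_mul, norm_mul, hsq]
      have h5 := hexpn 2 y (by rw [abs_le]; constructor <;> linarith) hyT
      have h6 := hF.right (((2 : ℝ) : ℂ) + y * I) (by rw [him]; exact hwin' y hyT) hre
      have h6' : ‖F (((2 : ℝ) : ℂ) + y * I)‖ ≤ Real.exp (κ * L) :=
        h6.trans (Real.exp_le_exp.2 (by gcongr))
      have q2 : (2 - σ) ^ 2 ≤ 6 := by
        have : (2 - σ) ^ 2 ≤ (9 / 4) ^ 2 := pow_le_pow_left₀ (by linarith) (by linarith) 2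
        linarith
      have q3 : (2 - σ) ^ 2 - (y - T) ^ 2 ≤ 6 := by linarith [sq_nonneg (y - T)]
      calc _ ≤ Real.exp (B * (3 + X)) * Real.exp (κ * L) * Real.exp (κ * L * 6) := by gcongr
        _ = _ := by rw [mul_assoc, ← Real.exp_add]; congr 2; ring)
  have hleft : ∀ y : ℝ, f (σ + y * I) = V y * ((Real.exp (-(κ * L * (y - T) ^ 2)) : ℝ) : ℂ) := by
    intro y
    rw [hf, hV]
    have h1 : ((σ : ℂ) + y * I) - (σ + T * I) = ((y : ℂ) - T) * I := by ring
    simp only [h1]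
    rw [Complex.ofReal_exp]
    congr 2
    push_cast
    linear_combination (κ * L * ((y : ℂ) - T) ^ 2) * I_sq
  have hint : (∫ y : ℝ in (T - X)..(T + X), f (σ + y * I)) =
      ∫ y : ℝ in (T - X)..(T + X), V y * ((Real.exp (-(κ * L * (y - T) ^ 2)) : ℝ) : ℂ) := by
    congr 1
    funext y
    exact hleft y
  have hrect' : ‖∫ y : ℝ in (T - X)..(T + X), f (σ + y * I)‖ ≤
      2 * (Real.exp (B * (3 + X)) * (2 - σ)) + Real.exp (B * (3 + X)) * Real.exp (κ * L * 7) *
      (T + X - (T - X)) := by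
    exact_mod_cast hrect
  rw [hint] at hrect'
  have hfin : ‖v‖ / (4 * (κ * L)) ≤ C3 * Real.exp (κ * L * 7) := by
    refine hgc.trans (hrect'.trans ?_)
    have e1 : 1 ≤ Real.exp (κ * L * 7) := Real.one_le_exp (by positivity)
    rw [hC3]
    have e2 : Real.exp (B * (3 + X)) * (2 - σ) ≤ Real.exp (B * (3 + X)) * (5 / 2) := by gcongr; linarith
    have e3 : Real.exp (B * (3 + X)) * 5 * 1 ≤ Real.exp (B * (3 + X)) * 5 * Real.exp (κ * L * 7) := by gcongr
    linarith
  have hfin2 : Real.exp (L * (Q + ε - κ)) ≤ (8 * κ * C3 * Real.exp B) * L ^ 2 * Real.exp (κ * L * 7) := by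
    rw [div_le_iff₀ (by positivity)] at hfin
    calc Real.exp (L * (Q + ε - κ)) ≤ 2 * L * Real.exp B * ‖v‖ := hvlow
      _ ≤ 2 * L * Real.exp B * (C3 * Real.exp (κ * L * 7) * (4 * (κ * L))) := by gcongr
      _ = _ := by ring
  have hfin3 : Real.exp (1 / 2 * ε * L) ≤ (8 * κ * C3 * Real.exp B) * L ^ 2 := by
    have h1 : Real.exp (1 / 2 * ε * L) * Real.exp (κ * L * 7) ≤
        (8 * κ * C3 * Real.exp B) * L ^ 2 * Real.exp (κ * L * 7) := by
      refine le_trans ?_ hfin2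
      rw [← Real.exp_add]
      apply Real.exp_le_exp.2
      have h2 : 0 ≤ L * Q := by positivity
      have h3 : 0 ≤ ε * L := by positivity
      rw [hκ]
      linarith
    exact le_of_mul_le_mul_right h1 (Real.exp_pos _)
  have hL2 : 0 < L ^ 2 := by positivity
  linarith

end Q240.GS
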