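import Pool.Agent.Q240.GS.N5
import Pool.Agent.W174.HF.NF1
import Pool.Agent.W45.HF.NF2
import Pool.Agent.W930.HF.NF3

/-!
# Newforms of weight two
-/

set_option autoImplicit false

open Complex UpperHalfPlane MatrixGroups CongruenceSubgroup Filter Topology Set MeasureTheory
open scoped ComplexConjugate

namespace Q240.GS

open Pool.Agent.W169.HF H353.E H353.F

theorem Ob.of_zero {m : ℕ} {N : ℝ} {μ : Fin m → ℂ} {α : Fin m → ℕ → ℂ} {ε : ℂ} {Λ : ℂ → ℂ}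
    (d : DatumT 0 N μ α ε Λ) : Ob N μ Λ := by
  refine ⟨α, ε, ⟨d.one_le, d.re_le, fun j p hp => ?_, d.norm_eq, d.entire, fun s hs => ?_, d.fe, d.bdd⟩,
    fun s hs => ?_⟩
  · refine (d.norm_le j p hp).trans ?_
    have : (1 : ℝ) ≤ p := by exact_mod_cast hp.one_le
    exact Real.rpow_le_rpow_of_exponent_le this (by norm_num)
  · exact d.euler s (by linarith)
  · obtain ⟨B, hB, h⟩ := euler_two m (show 0 < s.re - 1 by linarith)
    have h1 := (h 0 α d.norm_le s (by linarith)).2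
    rw [d.euler s (by linarith)]
    refine mul_ne_zero (Finset.prod_ne_zero_iff.2 fun j _ => Gammaℝ_ne_zero_of_re_pos ?_) ?_
    · have := d.re_le j
      rw [sub_re]
      linarith
    · intro h2
      have h3 : euler α s = 0 := h2
      rw [h3, norm_zero, mul_zero] at h1
      linarith

/-- the parameters of weight two -/
noncomputable def mu2 : Fin 2 → ℂ := ![(-1 / 2 : ℂ), (-3 / 2 : ℂ)]

lemma mu2_re (j : Fin 2) : (mu2 j).re ≤ -1 / 2 := by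
  unfold mu2
  fin_cases j <;> norm_num

/-- the completed L-function, analytic normalisation -/
noncomputable def sdn (N : ℕ) (Λ : ℂ → ℂ) (s : ℂ) : ℂ := 2 * (N : ℂ) ^ (-((s + 1 / 2) / 2)) * Λ (s + 1 / 2)

theorem completed_un {N : ℕ} {f : CuspForm (Gamma0 N : Subgroup (GL (Fin 2) ℝ)) 2} {Λ Λ' : ℂ → ℂ}
    (h : IsCompleted f Λ) (h' : IsCompleted f Λ') : Λ = Λ' := by
  have hev : Λ =ᶠ[𝓝 (3 : ℂ)] Λ' := by
    have hopen : IsOpen {s : ℂ | 2 < s.re} := isOpen_lt continuous_const Complex.continuous_re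
    filter_upwards [hopen.mem_nhds (show (3 : ℂ) ∈ {s : ℂ | 2 < s.re} by simp; norm_num)] with s hs
    rw [h.2 s hs, h'.2 s hs]
  exact AnalyticOnNhd.eq_of_eventuallyEq (fun z _ => h.1.analyticAt z) (fun z _ => h'.1.analyticAt z) hev

theorem ob_nf {N : ℕ} [NeZero N] {f : CuspForm (Gamma0 N : Subgroup (GL (Fin 2) ℝ)) 2} {w : ℝ}
    (hf : IsForm N f w) {Λ : ℂ → ℂ} (hΛ : IsCompleted f Λ) : Ob (N : ℝ) mu2 (sdn N Λ) := by
  obtain ⟨Λ', hΛ', hfe, hcj, hb⟩ := Pool.Agent.W174.HF.nf1 N f w hf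
  have heq : Λ' = Λ := completed_un hΛ' hΛ
  rw [heq] at hfe hcj hb
  obtain ⟨α, d⟩ := Pool.Agent.W930.HFNF3.nf3_of Pool.Agent.W45.HF.nf2 N f w hf Λ hΛ hfe hcj hb
  exact Ob.of_zero d

lemma sdn_zero {N : ℕ} (hN : 0 < N) (Λ : ℂ → ℂ) (s : ℂ) : sdn N Λ s = 0 ↔ Λ (s + 1 / 2) = 0 := by
  have hNc : (N : ℂ) ≠ 0 := by exact_mod_cast hN.ne'
  have hc : (2 * (N : ℂ) ^ (-((s + 1 / 2) / 2))) ≠ 0 := by
    refine mul_ne_zero two_ne_zero ?_
    rw [Ne, Complex.cpow_eq_zero_iff]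
    exact fun h => hNc h.1
  unfold sdn
  constructor
  · intro h
    exact (mul_eq_zero.1 h).resolve_left hc
  · intro h
    rw [h, mul_zero]

/-- the L-function `L(s) = ((√N / (2π))^s Γ(s))⁻¹ Λ(s)` -/
noncomputable def LE (N : ℕ) (Λ : ℂ → ℂ) (s : ℂ) : ℂ :=
  (((Real.sqrt N / (2 * Real.pi) : ℝ) : ℂ) ^ s * Complex.Gamma s)⁻¹ * Λ s

theorem LL_sdn {N : ℕ} (hN : 0 < N) (Λ : ℂ → ℂ) (s : ℂ) : LL mu2 (sdn N Λ) s = LE N Λ (s + 1 / 2) := by
  unfold LL sdn LE mu2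
  rw [Fin.prod_univ_two]
  simp only [Matrix.cons_val_zero, Matrix.cons_val_one]
  have e1 : s - (-1 / 2 : ℂ) = s + 1 / 2 := by ring
  have e2 : s - (-3 / 2 : ℂ) = s + 1 / 2 + 1 := by ring
  rw [e1, e2, ← mul_inv, Complex.Gammaℝ_mul_Gammaℝ_add_one, Complex.Gammaℂ_def]
  obtain ⟨z, hz⟩ : ∃ z : ℂ, z = s + 1 / 2 := ⟨_, rfl⟩
  rw [← hz]
  have h3 := Pool.Agent.W930.HFNF3.base_pow hN.ne' z
  have h4 : (((Real.sqrt N / (2 * Real.pi) : ℝ) : ℂ) ^ z) ≠ 0 := by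
    rw [Ne, Complex.cpow_eq_zero_iff]
    intro h
    have h5 : (0 : ℝ) < Real.sqrt N / (2 * Real.pi) := by
      have : (0 : ℝ) < N := by exact_mod_cast hN
      have := Real.sqrt_pos.2 this
      positivity
    have h6 : ((Real.sqrt N / (2 * Real.pi) : ℝ) : ℂ) ≠ 0 := by exact_mod_cast h5.ne'
    exact h6 h.1
  have h7 : (N : ℂ) ^ (-(z / 2)) ≠ 0 := by
    rw [Ne, Complex.cpow_eq_zero_iff]
    intro h
    have : (N : ℂ) ≠ 0 := by exact_mod_cast hN.ne'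
    exact this h.1
  rw [← h3, mul_inv, mul_inv, mul_inv, mul_inv]
  field_simp

end Q240.GS
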