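import Pool.Agent.Q240.GS.EC

/-!
# Shadows for newforms of weight two, uniformly in the conductor
-/

set_option autoImplicit false

open Complex UpperHalfPlane MatrixGroups CongruenceSubgroup Filter Topology Set MeasureTheory Polynomial
open scoped ComplexConjugate

namespace Q240.GS

open Pool.Agent.W169.HF H353.E H353.F

lemma cnd2_ge {N : ℝ} (y : ℝ) (hN : 0 ≤ N) : N * (1 + |y|) ^ 2 ≤ cnd N mu2 y := by
  unfold cnd mu2
  rw [Fin.prod_univ_two]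
  have h1 : ∀ μ : ℂ, μ.im = 0 → |y| ≤ ‖(y : ℂ) * Complex.I - μ‖ := fun μ hμ => by
    have h := Complex.abs_im_le_norm ((y : ℂ) * Complex.I - μ)
    have e : ((y : ℂ) * Complex.I - μ).im = y := by simp [hμ]
    rwa [e] at h
  have h2 := h1 (-1 / 2) (by simp)
  have h3 := h1 (-3 / 2) (by simp)
  have h4 := abs_nonneg y
  rw [Matrix.cons_val_zero, Matrix.cons_val_one, Matrix.cons_val_zero]
  apply mul_le_mul_of_nonneg_left _ hN
  nlinarith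

lemma cnd2_le {N : ℝ} (y : ℝ) (hN : 0 ≤ N) : cnd N mu2 y ≤ 4 * (N * (1 + |y|) ^ 2) := by
  unfold cnd mu2
  rw [Fin.prod_univ_two]
  have h1 : ∀ c : ℝ, 0 ≤ c → ‖(y : ℂ) * Complex.I - (-(c : ℂ))‖ ≤ |y| + c := fun c hc => by
    refine (norm_sub_le _ _).trans ?_
    rw [norm_neg, norm_mul, Complex.norm_real, Complex.norm_real, Complex.norm_I, mul_one,
      Real.norm_eq_abs, Real.norm_eq_abs, abs_of_nonneg hc]
  have h2 := h1 (1 / 2) (by norm_num)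
  have h3 := h1 (3 / 2) (by norm_num)
  have h4 := abs_nonneg y
  have e2 : (-((1 / 2 : ℝ) : ℂ)) = -1 / 2 := by push_cast; ring
  have e3 : (-((3 / 2 : ℝ) : ℂ)) = -3 / 2 := by push_cast; ring
  rw [e2] at h2
  rw [e3] at h3
  rw [Matrix.cons_val_zero, Matrix.cons_val_one, Matrix.cons_val_zero]
  have h5 := norm_nonneg ((y : ℂ) * Complex.I - (-1 / 2 : ℂ))
  have h6 := norm_nonneg ((y : ℂ) * Complex.I - (-3 / 2 : ℂ))
  have h7 : (1 + ‖(y : ℂ) * Complex.I - (-1 / 2 : ℂ)‖) * (1 + ‖(y : ℂ) * Complex.I - (-3 / 2 : ℂ)‖) ≤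
      4 * (1 + |y|) ^ 2 := by
    have h8 : (1 + ‖(y : ℂ) * Complex.I - (-1 / 2 : ℂ)‖) ≤ 3 / 2 * (1 + |y|) := by linarith
    have h9 : (1 + ‖(y : ℂ) * Complex.I - (-3 / 2 : ℂ)‖) ≤ 5 / 2 * (1 + |y|) := by linarith
    calc _ ≤ (3 / 2 * (1 + |y|)) * (5 / 2 * (1 + |y|)) :=
          mul_le_mul h8 h9 (by linarith) (by linarith)
      _ ≤ _ := by nlinarith
  calc N * _ ≤ N * (4 * (1 + |y|) ^ 2) := mul_le_mul_of_nonneg_left h7 hN
    _ = _ := by ring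

lemma log4 : Real.log 4 ≤ 2 := by
  have h8 : Real.log 4 = 2 * Real.log 2 := by
    rw [show (4 : ℝ) = 2 ^ 2 by norm_num, Real.log_pow]; norm_num
  have := Real.log_two_lt_d9
  rw [h8]
  linarith

lemma q_one {N : ℝ} (hN : 1 ≤ N) (y : ℝ) : 1 ≤ N * (1 + |y|) ^ 2 := by
  have h4 := abs_nonneg y
  have h1 : 1 ≤ (1 + |y|) ^ 2 := by nlinarith
  nlinarith

/-- from one conductor to the other -/
lemma log_cnd2 {N : ℝ} (hN : 1 ≤ N) (y : ℝ) : Real.log (N * (1 + |y|) ^ 2) ≤ Real.log (cnd N mu2 y) ∧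
    Real.log (cnd N mu2 y) ≤ Real.log (N * (1 + |y|) ^ 2) + 2 := by
  have h2 := q_one hN y
  have h3 := cnd2_ge (N := N) y (by linarith)
  have h5 := cnd2_le (N := N) y (by linarith)
  refine ⟨Real.log_le_log (by linarith) h3, ?_⟩
  have h6 := Real.log_le_log (by linarith) h5
  rw [Real.log_mul (by norm_num) (by linarith)] at h6
  linarith [log4]

lemma big_log {N : ℝ} (hN : 1 ≤ N) {y X : ℝ} (h : Real.exp X ≤ N * (1 + |y|) ^ 2) :
    X ≤ Real.log (cnd N mu2 y) := by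
  have h1 := Real.log_le_log (Real.exp_pos X) h
  rw [Real.log_exp] at h1
  exact h1.trans (log_cnd2 hN y).1

lemma log_big {N : ℝ} (hN : 1 ≤ N) {y X : ℝ} (h : Real.log (max X 1) + 2 ≤ Real.log (cnd N mu2 y)) :
    X ≤ N * (1 + |y|) ^ 2 := by
  have h1 := (log_cnd2 hN y).2
  have h2 : Real.log (max X 1) ≤ Real.log (N * (1 + |y|) ^ 2) := by linarith
  have h3 : 0 < max X 1 := lt_max_of_lt_right one_pos
  have h4 := q_one hN y
  exact (le_max_left _ _).trans ((Real.log_le_log_iff h3 (by linarith)).1 h2)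

/-- the coefficients, shifted by `1/2` -/
noncomputable def hf (c : ℝ → ℂ) (l : ℝ) : ℂ := c l * cexp (-(l * (1 / 2)))

theorem FF_half {N : ℕ} (hN : 0 < N) (Λ : ℂ → ℂ) (P : ℂ[X]) (S : Finset ℝ) (c : ℝ → ℂ) (s : ℂ) :
    FF mu2 (sdn N Λ) P S (hf c) s = LD (LE N Λ) P S c (s + 1 / 2) := by
  have hfun : LL mu2 (sdn N Λ) = fun z => LE N Λ (z + 1 / 2) := by
    funext z
    exact LL_sdn hN Λ z
  unfold FF
  rw [hfun]
  unfold LD hf
  congr 1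
  · refine Finset.sum_congr rfl fun i _ => ?_
    rw [it_shift]
  · refine Finset.sum_congr rfl fun l _ => ?_
    rw [mul_assoc, ← Complex.exp_add]
    congr 2
    ring

theorem hf_bound (S : Finset ℝ) {B : ℝ} (hB : 0 ≤ B) {c : ℝ → ℂ} (hc : ∀ l ∈ S, ‖c l‖ ≤ B) :
    ∀ l ∈ S, ‖hf c l‖ ≤ B * ∑ l ∈ S, Real.exp (-(l * (1 / 2))) := by
  intro l hl
  unfold hf
  rw [norm_mul, Complex.norm_exp]
  have e : (-((l : ℂ) * (1 / 2))).re = -(l * (1 / 2)) := by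
    rw [neg_re, re_ofReal_mul]
    norm_num
  rw [e]
  refine mul_le_mul (hc l hl) ?_ (Real.exp_pos _).le hB
  exact Finset.single_le_sum (f := fun l : ℝ => Real.exp (-(l * (1 / 2)))) (fun _ _ => (Real.exp_pos _).le) hl

/-- **Shadows for newforms.** -/
theorem shadow_ec (P Q : ℂ[X]) (hP : P ≠ 0) (hQ : Q ≠ 0) (S R : Finset ℝ) (B β ε : ℝ) (hB : 0 ≤ B)
    (hβ : β ≤ 1) (hε : 0 < ε) : ∃ X : ℝ, 1 ≤ X ∧ ∀ (N : ℕ) [NeZero N]
    (f : CuspForm (Gamma0 N : Subgroup (GL (Fin 2) ℝ)) 2) (w : ℝ), IsForm N f w → ∀ Λ : ℂ → ℂ, IsCompleted f Λ →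
    ∀ c d : ℝ → ℂ, (∀ l ∈ S, ‖c l‖ ≤ B) → (∀ l ∈ R, ‖d l‖ ≤ B) → ∀ ρ : ℂ, X ≤ N * (1 + |ρ.im|) ^ 2 →
    LD (LE N Λ) P S c ρ = 0 → 1 / 4 ≤ ρ.re → ρ.re ≤ β - ε →
      ∃ s : ℂ, LD (LE N Λ) Q R d s = 0 ∧ 1 / 4 < s.re ∧ s.re < β ∧ |s.im - ρ.im| ≤ X := by
  obtain ⟨E, hE⟩ : ∃ E : ℝ, E = ∑ l ∈ S, Real.exp (-(l * (1 / 2))) + ∑ l ∈ R, Real.exp (-(l * (1 / 2))) := ⟨_, rfl⟩
  have hS0 : 0 ≤ ∑ l ∈ S, Real.exp (-(l * (1 / 2))) := Finset.sum_nonneg fun _ _ => (Real.exp_pos _).le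
  have hR0 : 0 ≤ ∑ l ∈ R, Real.exp (-(l * (1 / 2))) := Finset.sum_nonneg fun _ _ => (Real.exp_pos _).le
  obtain ⟨X, hX, H⟩ := shadow_N (m := 2) (by norm_num) P Q hP hQ S R (B * E) (β - 1 / 2) ε
    (by rw [hE]; positivity) (by linarith) hε
  refine ⟨Real.exp X, Real.one_le_exp (by linarith), ?_⟩
  intro N _ f w hform Λ hΛ c d hc hd ρ hfar hρ h1 h2
  have hN : 0 < N := Nat.pos_of_ne_zero (NeZero.ne N)
  have hN1 : (1 : ℝ) ≤ N := by exact_mod_cast hN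
  have e1 : (ρ - 1 / 2 : ℂ).re = ρ.re - 1 / 2 := by simp
  have e2 : (ρ - 1 / 2 : ℂ).im = ρ.im := by simp
  obtain ⟨s, s1, s2, s3, s4⟩ := H N mu2 (sdn N Λ) (ob_nf hform hΛ) mu2_re (hf c) (hf d)
    (fun l hl => (hf_bound S hB hc l hl).trans (mul_le_mul_of_nonneg_left (by linarith) hB))
    (fun l hl => (hf_bound R hB hd l hl).trans (mul_le_mul_of_nonneg_left (by linarith) hB))
    (ρ - 1 / 2) (by rw [e2]; exact big_log hN1 hfar)
    (by rw [FF_half hN, sub_add_cancel]; exact hρ) (by rw [e1]; linarith) (by rw [e1]; linarith)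
  rw [e2] at s4
  rw [FF_half hN] at s1
  have e3 : (s + 1 / 2 : ℂ).re = s.re + 1 / 2 := by simp
  have e4 : (s + 1 / 2 : ℂ).im = s.im := by simp
  refine ⟨s + 1 / 2, s1, by rw [e3]; linarith, by rw [e3]; linarith, ?_⟩
  rw [e4]
  exact s4.trans (by linarith [Real.add_one_le_exp X])

/-- **Both sides, for a family of newforms.** -/
theorem both_ec (P : ℂ[X]) (hP : P ≠ 0) (S : Finset ℝ) (B β : ℝ) (hB : 0 ≤ B) (hβ : β ≤ 1)
    {ι : Type*} (N : ι → ℕ) (Λ : ι → ℂ → ℂ) (hN : ∀ i, 0 < N i)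
    (hO : ∀ i, Ob (N i : ℝ) mu2 (sdn (N i) (Λ i)))
    (c : ι → ℝ → ℂ) (hc : ∀ i, ∀ l ∈ S, ‖c i l‖ ≤ B) :
    (∀ ε : ℝ, 0 < ε → ∃ X : ℝ, ∀ i, ∀ ρ : ℂ, Λ i ρ = 0 → X ≤ N i * (1 + |ρ.im|) ^ 2 → ρ.re < 2 - β + ε) ↔
    (∀ ε : ℝ, 0 < ε → ∃ X : ℝ, ∀ i, ∀ ρ : ℂ, LD (LE (N i) (Λ i)) P S (c i) ρ = 0 →
      X ≤ N i * (1 + |ρ.im|) ^ 2 → 1 / 4 ≤ ρ.re → β - ε < ρ.re) := by
  have hS0 : 0 ≤ ∑ l ∈ S, Real.exp (-(l * (1 / 2))) := Finset.sum_nonneg fun _ _ => (Real.exp_pos _).le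
  have key := bothN (m := 2) (by norm_num) P hP S (B * ∑ l ∈ S, Real.exp (-(l * (1 / 2)))) (β - 1 / 2)
    (by positivity) (by linarith) (fun i => (N i : ℝ)) (fun _ => mu2) (fun i => sdn (N i) (Λ i)) hO
    (fun _ => mu2_re) (fun i => hf (c i)) (fun i => hf_bound S hB (hc i))
  have hN1 : ∀ i, (1 : ℝ) ≤ N i := fun i => by exact_mod_cast hN i
  constructor
  · intro h ε hε
    obtain ⟨X, hX⟩ := key.1 (fun ε hε => by
      obtain ⟨X, hX⟩ := h ε hε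
      refine ⟨Real.log (max X 1) + 2, fun i ρ hρ hfar => ?_⟩
      have h1 := hX i (ρ + 1 / 2) ((sdn_zero (hN i) (Λ i) ρ).1 hρ) (by
        have e : (ρ + 1 / 2 : ℂ).im = ρ.im := by simp
        rw [e]
        exact log_big (hN1 i) hfar)
      have e : (ρ + 1 / 2 : ℂ).re = ρ.re + 1 / 2 := by simp
      rw [e] at h1
      linarith) ε hε
    refine ⟨Real.exp X, fun i ρ hρ hfar h1 => ?_⟩
    have e1 : (ρ - 1 / 2 : ℂ).re = ρ.re - 1 / 2 := by simp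
    have e2 : (ρ - 1 / 2 : ℂ).im = ρ.im := by simp
    have h2 := hX i (ρ - 1 / 2) (by
      show FF mu2 (sdn (N i) (Λ i)) P S (hf (c i)) (ρ - 1 / 2) = 0
      rw [FF_half (hN i), sub_add_cancel]; exact hρ)
      (by rw [e2]; exact big_log (hN1 i) hfar) (by rw [e1]; linarith)
    rw [e1] at h2
    linarith
  · intro h ε hε
    obtain ⟨X, hX⟩ := key.2 (fun ε hε => by
      obtain ⟨X, hX⟩ := h ε hε
      refine ⟨Real.log (max X 1) + 2, fun i ρ hρ hfar h1 => ?_⟩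
      have h2 := hX i (ρ + 1 / 2) (by
        have hρ' : FF mu2 (sdn (N i) (Λ i)) P S (hf (c i)) ρ = 0 := hρ
        rw [FF_half (hN i)] at hρ'
        exact hρ') (by
        have e : (ρ + 1 / 2 : ℂ).im = ρ.im := by simp
        rw [e]
        exact log_big (hN1 i) hfar) (by
        have e : (ρ + 1 / 2 : ℂ).re = ρ.re + 1 / 2 := by simp
        rw [e]; linarith)
      have e : (ρ + 1 / 2 : ℂ).re = ρ.re + 1 / 2 := by simp
      rw [e] at h2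
      linarith) ε hε
    refine ⟨Real.exp X, fun i ρ hρ hfar => ?_⟩
    have e1 : (ρ - 1 / 2 : ℂ).re = ρ.re - 1 / 2 := by simp
    have e2 : (ρ - 1 / 2 : ℂ).im = ρ.im := by simp
    have h2 := hX i (ρ - 1 / 2) ((sdn_zero (hN i) (Λ i) _).2 (by rw [sub_add_cancel]; exact hρ))
      (by rw [e2]; exact big_log (hN1 i) hfar)
    rw [e1] at h2
    linarith

end Q240.GS
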