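import Pool.Agent.Q240.GS.Pt

/-!
# Local data with an exceptional set (trivial zeros), and linear differential polynomials
-/

set_option autoImplicit false

namespace Q240.GS

open Complex Filter Topology Metric Set Polynomial

/-- growth, and the bound on the right -/
structure WB (f : ℂ → ℂ) (L Y η A : ℝ) : Prop where
  an : ∀ s : ℂ, |s.im| ≤ Y → -7 ≤ s.re → s.re ≤ 5 → AnalyticAt ℂ f s
  grow : ∀ s : ℂ, |s.im| ≤ Y → -7 ≤ s.re → s.re ≤ 5 → ‖f s‖ ≤ Real.exp (A * L)
  right : ∀ s : ℂ, |s.im| ≤ Y → 3 / 2 ≤ s.re → s.re ≤ 5 / 2 → ‖f s‖ ≤ Real.exp (η * L)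

/-- local data of an L-function; the lower bound to the left holds away from the set `E` of the trivial zeros -/
structure BaseE (f : ℂ → ℂ) (L Y η A δ : ℝ) (E : Finset ℂ) : Prop extends WB f L Y η A where
  upp : ∀ s : ℂ, |s.im| ≤ Y → -7 ≤ s.re → s.re ≤ -1 / 8 → ‖f s‖ ≤ Real.exp (L * (1 / 2 - s.re + η))
  low : ∀ s : ℂ, |s.im| ≤ Y → -7 ≤ s.re → s.re ≤ -1 / 8 → (∀ z ∈ E, δ ≤ ‖s - z‖) →
    Real.exp (L * (1 / 2 - s.re - η)) ≤ ‖f s‖

/-- growth, and the bound on the right -/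
structure WL (F : ℂ → ℂ) (L Y η A : ℝ) : Prop where
  an : ∀ s : ℂ, |s.im| ≤ Y → -6 ≤ s.re → s.re ≤ 4 → AnalyticAt ℂ F s
  grow : ∀ s : ℂ, |s.im| ≤ Y → -6 ≤ s.re → s.re ≤ 4 → ‖F s‖ ≤ Real.exp (A * L)
  right : ∀ s : ℂ, |s.im| ≤ Y → s.re = 2 → ‖F s‖ ≤ Real.exp (η * L)

/-- local data of `F`; the lower bound to the left holds away from `E` -/
structure LocE (F : ℂ → ℂ) (L Y η A δ : ℝ) (E : Finset ℂ) : Prop extends WL F L Y η A where
  upp : ∀ s : ℂ, |s.im| ≤ Y → -6 ≤ s.re → s.re ≤ -1 / 4 → ‖F s‖ ≤ Real.exp (L * (1 / 2 - s.re + η))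
  low : ∀ s : ℂ, |s.im| ≤ Y → -6 ≤ s.re → s.re ≤ -1 / 4 → (∀ z ∈ E, δ ≤ ‖s - z‖) →
    Real.exp (L * (1 / 2 - s.re - η)) ≤ ‖F s‖

theorem WB.mono {f : ℂ → ℂ} {L Y η A Y' η' A' : ℝ} (h : WB f L Y η A) (hL : 0 ≤ L) (hY : Y' ≤ Y)
    (hη : η ≤ η') (hA : A ≤ A') : WB f L Y' η' A' := by
  refine ⟨fun s h1 => h.an s (h1.trans hY), fun s h1 h2 h3 => ?_, fun s h1 h2 h3 => ?_⟩
  · exact (h.grow s (h1.trans hY) h2 h3).trans (Real.exp_le_exp.2 (mul_le_mul_of_nonneg_right hA hL))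
  · exact (h.right s (h1.trans hY) h2 h3).trans (Real.exp_le_exp.2 (mul_le_mul_of_nonneg_right hη hL))

theorem WL.mono {f : ℂ → ℂ} {L Y η A Y' η' A' : ℝ} (h : WL f L Y η A) (hL : 0 ≤ L) (hY : Y' ≤ Y)
    (hη : η ≤ η') (hA : A ≤ A') : WL f L Y' η' A' := by
  refine ⟨fun s h1 => h.an s (h1.trans hY), fun s h1 h2 h3 => ?_, fun s h1 h2 => ?_⟩
  · exact (h.grow s (h1.trans hY) h2 h3).trans (Real.exp_le_exp.2 (mul_le_mul_of_nonneg_right hA hL))
  · exact (h.right s (h1.trans hY) h2).trans (Real.exp_le_exp.2 (mul_le_mul_of_nonneg_right hη hL))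

theorem WB.wl {f : ℂ → ℂ} {L Y η A : ℝ} (h : WB f L Y η A) : WL f L Y η A :=
  ⟨fun s h1 h2 h3 => h.an s h1 (by linarith) (by linarith),
    fun s h1 h2 h3 => h.grow s h1 (by linarith) (by linarith),
    fun s h1 h2 => h.right s h1 (by linarith) (by linarith)⟩

theorem BaseE.mono {f : ℂ → ℂ} {L Y η A δ Y' η' A' δ' : ℝ} {E : Finset ℂ} (h : BaseE f L Y η A δ E)
    (hL : 0 ≤ L) (hY : Y' ≤ Y) (hη : η ≤ η') (hA : A ≤ A') (hδ : δ ≤ δ') : BaseE f L Y' η' A' δ' E := by
  refine ⟨h.toWB.mono hL hY hη hA, fun s h1 h2 h3 => ?_, fun s h1 h2 h3 h4 => ?_⟩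
  · refine (h.upp s (h1.trans hY) h2 h3).trans (Real.exp_le_exp.2 ?_)
    apply mul_le_mul_of_nonneg_left _ hL
    linarith
  · refine le_trans (Real.exp_le_exp.2 ?_) (h.low s (h1.trans hY) h2 h3 fun z hz => hδ.trans (h4 z hz))
    apply mul_le_mul_of_nonneg_left _ hL
    linarith

theorem LocE.mono {f : ℂ → ℂ} {L Y η A δ Y' η' A' δ' : ℝ} {E : Finset ℂ} (h : LocE f L Y η A δ E)
    (hL : 0 ≤ L) (hY : Y' ≤ Y) (hη : η ≤ η') (hA : A ≤ A') (hδ : δ ≤ δ') : LocE f L Y' η' A' δ' E := by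
  refine ⟨h.toWL.mono hL hY hη hA, fun s h1 h2 h3 => ?_, fun s h1 h2 h3 h4 => ?_⟩
  · refine (h.upp s (h1.trans hY) h2 h3).trans (Real.exp_le_exp.2 ?_)
    apply mul_le_mul_of_nonneg_left _ hL
    linarith
  · refine le_trans (Real.exp_le_exp.2 ?_) (h.low s (h1.trans hY) h2 h3 fun z hz => hδ.trans (h4 z hz))
    apply mul_le_mul_of_nonneg_left _ hL
    linarith

theorem it_boundW {f : ℂ → ℂ} {L Y η A : ℝ} (h : WB f L (Y + 1) η A) (k : ℕ) {s : ℂ} (h1 : |s.im| ≤ Y)
    (h2 : -6 ≤ s.re) (h3 : s.re ≤ 4) : ‖iteratedDeriv k f s‖ ≤ k.factorial * Real.exp (A * L) := by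
  have hball : ∀ w ∈ closedBall s 1, |w.im| ≤ Y + 1 ∧ -7 ≤ w.re ∧ w.re ≤ 5 := by
    intro w hw
    rw [mem_closedBall, dist_eq_norm] at hw
    have h4 := abs_le.1 ((abs_re_le_norm (w - s)).trans hw)
    have h5 := (abs_im_le_norm (w - s)).trans hw
    rw [sub_re] at h4
    rw [sub_im] at h5
    refine ⟨?_, by linarith, by linarith⟩
    calc |w.im| = |(w.im - s.im) + s.im| := by rw [sub_add_cancel]
      _ ≤ |w.im - s.im| + |s.im| := abs_add_le _ _
      _ ≤ Y + 1 := by linarith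
  have hD : DiffContOnCl ℂ f (ball s 1) := by
    apply DifferentiableOn.diffContOnCl
    intro w hw
    obtain ⟨a, b, c⟩ := hball w (closure_ball_subset_closedBall hw)
    exact (h.an w a b c).differentiableAt.differentiableWithinAt
  have h6 := norm_iteratedDeriv_le_of_forall_mem_sphere_norm_le k one_pos hD
    (fun z hz => by
      obtain ⟨a, b, c⟩ := hball z (sphere_subset_closedBall hz)
      exact h.grow z a b c)
  refine h6.trans (le_of_eq ?_)
  rw [one_pow, div_one]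

theorem it_rightW {f : ℂ → ℂ} {L Y η A : ℝ} (h : WB f L (Y + 1) η A) (k : ℕ) {s : ℂ} (h1 : |s.im| ≤ Y)
    (h2 : s.re = 2) : ‖iteratedDeriv k f s‖ ≤ k.factorial * 2 ^ k * Real.exp (η * L) := by
  have hball : ∀ w ∈ closedBall s (1 / 2), |w.im| ≤ Y + 1 ∧ 3 / 2 ≤ w.re ∧ w.re ≤ 5 / 2 := by
    intro w hw
    rw [mem_closedBall, dist_eq_norm] at hw
    have h4 := abs_le.1 ((abs_re_le_norm (w - s)).trans hw)
    have h5 := (abs_im_le_norm (w - s)).trans hw
    rw [sub_re] at h4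
    rw [sub_im] at h5
    refine ⟨?_, by linarith, by linarith⟩
    calc |w.im| = |(w.im - s.im) + s.im| := by rw [sub_add_cancel]
      _ ≤ |w.im - s.im| + |s.im| := abs_add_le _ _
      _ ≤ Y + 1 := by linarith
  have hD : DiffContOnCl ℂ f (ball s (1 / 2)) := by
    apply DifferentiableOn.diffContOnCl
    intro w hw
    obtain ⟨a, b, c⟩ := hball w (closure_ball_subset_closedBall hw)
    exact (h.an w a (by linarith) (by linarith)).differentiableAt.differentiableWithinAt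
  have h6 := norm_iteratedDeriv_le_of_forall_mem_sphere_norm_le k (by norm_num : (0 : ℝ) < 1 / 2) hD
    (fun z hz => by
      obtain ⟨a, b, c⟩ := hball z (sphere_subset_closedBall hz)
      exact h.right z a b c)
  refine h6.trans (le_of_eq ?_)
  rw [div_pow, one_pow]
  field_simp

theorem loc_LDE (P : ℂ[X]) (hP : P ≠ 0) (S : Finset ℝ) (B A η δ : ℝ) (hB : 0 ≤ B) (hA : 0 < A) (hη : 0 < η)
    (hδ : 0 < δ) (hδ1 : δ ≤ 1 / 8) :
    ∃ e L0 : ℝ, 0 < e ∧ 1 ≤ L0 ∧ ∀ (f : ℂ → ℂ) (c : ℝ → ℂ) (L Y : ℝ) (E : Finset ℂ), L0 ≤ L →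
      (∀ l ∈ S, ‖c l‖ ≤ B) → BaseE f L (Y + 1) e A δ E → LocE (LD f P S c) L Y η (A + 1) (3 * δ) E := by
  obtain ⟨e1, L1, he1, hL1, h1⟩ := low_pt P hP S B δ η hB hδ hη
  obtain ⟨M, hM, hES⟩ := ES_bound S B hB
  obtain ⟨m, hm⟩ : ∃ m : ℕ, m = P.natDegree := ⟨_, rfl⟩
  obtain ⟨r, hr⟩ : ∃ r : ℝ, r = min (η / 4) (1 / 8) := ⟨_, rfl⟩
  have hr0 : 0 < r := by rw [hr]; exact lt_min (by positivity) (by norm_num)
  have hr1 : r ≤ η / 4 := by rw [hr]; exact min_le_left _ _
  have hr2 : r ≤ 1 / 8 := by rw [hr]; exact min_le_right _ _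
  obtain ⟨W, hW⟩ : ∃ W : ℝ, W = ∑ i ∈ Finset.range (m + 1), ‖P.coeff i‖ * (i.factorial / r ^ i) := ⟨_, rfl⟩
  have hW0 : 0 ≤ W := by rw [hW]; positivity
  obtain ⟨L2, hL2, h2⟩ := exp_dom (W + M) (show 0 < η / 4 by positivity) 0
  obtain ⟨V, hV⟩ : ∃ V : ℝ, V = ∑ i ∈ Finset.range (m + 1), ‖P.coeff i‖ * (i.factorial * 2 ^ i) + M := ⟨_, rfl⟩
  have hV0 : 0 ≤ V := by rw [hV]; positivity
  obtain ⟨L7, hL7, h7⟩ := exp_dom V (show 0 < min 1 (η / 2) from lt_min one_pos (half_pos hη)) 0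
  obtain ⟨e, he⟩ : ∃ e : ℝ, e = min e1 (min (η / 4) (1 / 4)) := ⟨_, rfl⟩
  have hep : 0 < e := by rw [he]; exact lt_min he1 (lt_min (by positivity) (by norm_num))
  have hee1 : e ≤ e1 := by rw [he]; exact min_le_left _ _
  have hmin1 : e ≤ η / 4 := by rw [he]; exact (min_le_right _ _).trans (min_le_left _ _)
  refine ⟨e, max L1 (max L2 L7), hep, hL1.trans (le_max_left _ _), fun f c L Y E hL hc hf => ?_⟩
  have a1 : L1 ≤ L := (le_max_left _ _).trans hL
  have a2 : L2 ≤ L := ((le_max_left _ _).trans (le_max_right _ _)).trans hL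
  have a7 : L7 ≤ L := ((le_max_right _ _).trans (le_max_right _ _)).trans hL
  have h7 := h7 L a7
  have h2 := h2 L a2
  rw [pow_zero, mul_one] at h2 h7
  have hL1' : 1 ≤ L := by linarith
  have hL0 : 0 < L := by linarith
  have hES := hES c hc
  have hVm : V ≤ Real.exp (1 * L) := h7.trans (Real.exp_le_exp.2 (by gcongr; exact min_le_left _ _))
  have hVη : V ≤ Real.exp (η / 2 * L) := h7.trans (Real.exp_le_exp.2 (by gcongr; exact min_le_right _ _))
  refine ⟨⟨fun s b1 b2 b3 => LD_an P S c (hf.an s (by linarith) (by linarith) (by linarith)), ?_, ?_⟩, ?_, ?_⟩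
  · intro s b1 b2 b3
    rw [LD_eq, LP_range, ← hm]
    have e1 : ‖∑ i ∈ Finset.range (m + 1), P.coeff i * iteratedDeriv i f s‖ ≤
        (V - M) * Real.exp (A * L) := by
      rw [hV, add_sub_cancel_right, Finset.sum_mul]
      refine norm_sum_le_of_le _ fun i hi => ?_
      rw [norm_mul, mul_assoc]
      gcongr
      refine (it_boundW hf.toWB i b1 b2 b3).trans ?_
      gcongr
      exact le_mul_of_one_le_right (by positivity) (one_le_pow₀ one_le_two)
    have e2 := hES s (by rw [abs_le]; constructor <;> linarith)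
    have e3 : 1 ≤ Real.exp (A * L) := Real.one_le_exp (by positivity)
    calc _ ≤ (V - M) * Real.exp (A * L) + M := (norm_add_le _ _).trans (add_le_add e1 e2)
      _ ≤ (V - M) * Real.exp (A * L) + M * Real.exp (A * L) := by
          gcongr
          exact le_mul_of_one_le_right hM.le e3
      _ = V * Real.exp (A * L) := by ring
      _ ≤ Real.exp (1 * L) * Real.exp (A * L) := by gcongr
      _ = _ := by rw [← Real.exp_add]; congr 1; ring
  · intro s b1 b2
    rw [LD_eq, LP_range, ← hm]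
    have e1 : ‖∑ i ∈ Finset.range (m + 1), P.coeff i * iteratedDeriv i f s‖ ≤
        (V - M) * Real.exp (e * L) := by
      rw [hV, add_sub_cancel_right, Finset.sum_mul]
      refine norm_sum_le_of_le _ fun i hi => ?_
      rw [norm_mul, mul_assoc]
      gcongr
      exact it_rightW hf.toWB i b1 b2
    have e2 := hES s (by rw [b2]; norm_num)
    have e3 : 1 ≤ Real.exp (e * L) := Real.one_le_exp (by positivity)
    calc _ ≤ (V - M) * Real.exp (e * L) + M := (norm_add_le _ _).trans (add_le_add e1 e2)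
      _ ≤ (V - M) * Real.exp (e * L) + M * Real.exp (e * L) := by
          gcongr
          exact le_mul_of_one_le_right hM.le e3
      _ = V * Real.exp (e * L) := by ring
      _ ≤ Real.exp (η / 2 * L) * Real.exp (η / 2 * L) := by gcongr; linarith
      _ = _ := by rw [← Real.exp_add]; congr 1; ring
  · intro s b1 b2 b3
    have hball : ∀ w ∈ closedBall s r, |w.im| ≤ Y + 1 ∧ -7 ≤ w.re ∧ w.re ≤ -1 / 8 ∧ s.re - r ≤ w.re := by
      intro w hw
      rw [mem_closedBall, dist_eq_norm] at hw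
      have h4 := abs_le.1 ((abs_re_le_norm (w - s)).trans hw)
      have h5 := (abs_im_le_norm (w - s)).trans hw
      rw [sub_re] at h4
      rw [sub_im] at h5
      refine ⟨?_, by linarith, by linarith, by linarith⟩
      calc |w.im| = |(w.im - s.im) + s.im| := by rw [sub_add_cancel]
        _ ≤ |w.im - s.im| + |s.im| := abs_add_le _ _
        _ ≤ Y + 1 := by linarith
    obtain ⟨U, hU⟩ : ∃ U : ℝ, U = Real.exp (L * (1 / 2 - s.re + r + e)) := ⟨_, rfl⟩
    have hU1 : 1 ≤ U := by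
      rw [hU]
      apply Real.one_le_exp
      have : 0 ≤ 1 / 2 - s.re + r + e := by linarith
      positivity
    have hD : DiffContOnCl ℂ f (ball s r) := by
      apply DifferentiableOn.diffContOnCl
      intro w hw
      obtain ⟨a, b, c, -⟩ := hball w (closure_ball_subset_closedBall hw)
      exact (hf.an w a b (by linarith)).differentiableAt.differentiableWithinAt
    have hit : ∀ k : ℕ, ‖iteratedDeriv k f s‖ ≤ k.factorial / r ^ k * U := by
      intro k
      have h1 := norm_iteratedDeriv_le_of_forall_mem_sphere_norm_le k hr0 hD (C := U)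
        (fun z hz => by
          obtain ⟨a, b, c, d⟩ := hball z (sphere_subset_closedBall hz)
          refine (hf.upp z a b c).trans ?_
          rw [hU]
          apply Real.exp_le_exp.2
          apply mul_le_mul_of_nonneg_left _ hL0.le
          linarith)
      refine h1.trans (le_of_eq ?_)
      ring
    have e1 : ‖∑ i ∈ Finset.range (m + 1), P.coeff i * iteratedDeriv i f s‖ ≤ W * U := by
      rw [hW, Finset.sum_mul]
      refine norm_sum_le_of_le _ fun i _ => ?_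
      rw [norm_mul, mul_assoc]
      exact mul_le_mul_of_nonneg_left (hit i) (norm_nonneg _)
    have e2 := hES s (by rw [abs_le]; constructor <;> linarith)
    rw [LD_eq, LP_range, ← hm]
    calc _ ≤ W * U + M := (norm_add_le _ _).trans (add_le_add e1 e2)
      _ ≤ (W + M) * U := by nlinarith
      _ ≤ Real.exp (η / 4 * L) * U := by gcongr
      _ = Real.exp (η / 4 * L + L * (1 / 2 - s.re + r + e)) := by rw [Real.exp_add, hU]
      _ ≤ _ := by
          apply Real.exp_le_exp.2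
          nlinarith
  · intro s b1 b2 b3 b4
    refine h1 f c L s a1 hc (by linarith) b3 fun w q1 q2 => ?_
    have q1' := abs_le.1 q1
    have q3 : |w.im| ≤ Y + 1 := by
      calc |w.im| = |(w.im - s.im) + s.im| := by rw [sub_add_cancel]
        _ ≤ |w.im - s.im| + |s.im| := abs_add_le _ _
        _ ≤ Y + 1 := by linarith
    have q4 : w.re ≤ -1 / 8 := by linarith
    have q5 : -7 ≤ w.re := by linarith
    have q6 : ‖w - s‖ ≤ 2 * δ := by
      have := Complex.norm_le_abs_re_add_abs_im (w - s)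
      rw [sub_re, sub_im] at this
      linarith
    refine ⟨hf.an w q3 q5 (by linarith), ?_, ?_⟩
    · refine le_trans (Real.exp_le_exp.2 ?_) (hf.low w q3 q5 q4 fun z hz => ?_)
      · apply mul_le_mul_of_nonneg_left _ hL0.le
        linarith
      · have h5 := b4 z hz
        have h6 : ‖s - z‖ ≤ ‖s - w‖ + ‖w - z‖ := by
          calc ‖s - z‖ = ‖(s - w) + (w - z)‖ := by congr 1; ring
            _ ≤ _ := norm_add_le _ _
        rw [norm_sub_rev s w] at h6
        linarith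
    · refine (hf.upp w q3 q5 q4).trans (Real.exp_le_exp.2 ?_)
      apply mul_le_mul_of_nonneg_left _ hL0.le
      linarith

end Q240.GS
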