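import Pool.Agent.Q240.GS.Chain
import Pool.Agent.Q240.LH.Few

/-!
# Few zeros to the left imply the expected upper bound, local version
-/

set_option autoImplicit false

namespace Q240.GS

open Complex Filter Topology Metric Set Polynomial
open Q240.LH (rect_max ode_step norm_twist mult_mul_exp)

/-- local propagation of a bound to the right -/
theorem local_pl (A η : ℝ) (hA : 0 < A) (hη : 0 < η) : ∃ X e : ℝ, 1 ≤ X ∧ 0 < e ∧
    ∀ (F : ℂ → ℂ) (L Y T σ B : ℝ), 1 ≤ L → Loc F L Y e A → |T| + X ≤ Y → 0 ≤ σ → σ ≤ 1 → 0 ≤ B →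
    (∀ s : ℂ, s.re = σ → |s.im - T| ≤ X → ‖F s‖ ≤ Real.exp (B * L)) →
    ∀ s : ℂ, s.im = T → σ ≤ s.re → s.re ≤ 2 → ‖F s‖ ≤ Real.exp ((B + η) * L) := by
  obtain ⟨κ, hκ⟩ : ∃ κ : ℝ, κ = η / 5 := ⟨_, rfl⟩
  have hκ0 : 0 < κ := by rw [hκ]; positivity
  obtain ⟨X, hX⟩ : ∃ X : ℝ, X = (A + 4 * κ) / κ + 1 := ⟨_, rfl⟩
  have hX1 : 1 ≤ X := by
    rw [hX]
    have : 0 ≤ (A + 4 * κ) / κ := by positivity
    linarith
  have hX2 : A + 4 * κ ≤ κ * X ^ 2 := by
    have h1 : A + 4 * κ ≤ κ * X := by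
      rw [hX, mul_add, mul_div_cancel₀ _ hκ0.ne']
      linarith
    nlinarith
  refine ⟨X, κ, hX1, hκ0, fun F L Y T σ B hL1 hF hTY hσ0 hσ1 hB hl s hs1 hs2 hs3 => ?_⟩
  have hwin : ∀ z : ℂ, |z.im - T| ≤ X → |z.im| ≤ Y := by
    intro z hz
    calc |z.im| = |(z.im - T) + T| := by rw [sub_add_cancel]
      _ ≤ |z.im - T| + |T| := abs_add_le _ _
      _ ≤ Y := by linarith
  obtain ⟨f, hf⟩ : ∃ f : ℂ → ℂ, f = fun z => F z * cexp ((κ * L : ℝ) * (z - T * I) ^ 2) := ⟨_, rfl⟩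
  have hfn : ∀ z : ℂ, ‖f z‖ = ‖F z‖ * Real.exp (κ * L * (z.re ^ 2 - (z.im - T) ^ 2)) := by
    intro z
    rw [hf]
    simp only
    rw [norm_mul, Complex.norm_exp, re_ofReal_mul]
    congr 3
    rw [sq, mul_re]
    simp
    ring
  have hκL : 0 < κ * L := by positivity
  have hkey : ‖f s‖ ≤ Real.exp ((B + 5 * κ) * L) := by
    refine rect_max (x0 := σ) (x1 := 2) (y0 := T - X) (y1 := T + X) (by linarith) (by linarith)
      ?_ ?_ hs2 hs3 (by linarith) (by linarith)
    · intro z h1 h2 h3 h4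
      rw [hf]
      have h5 : DifferentiableAt ℂ F z := (hF.an z (hwin z (by rw [abs_le]; constructor <;> linarith))
        (by linarith) (by linarith)).differentiableAt
      have h6 : DifferentiableAt ℂ (fun z : ℂ => cexp ((κ * L : ℝ) * (z - T * I) ^ 2)) z := by fun_prop
      exact h5.mul h6
    · intro z h1 h2 h3 h4 h5
      rw [hfn]
      have hz2 : z.re ^ 2 ≤ 4 := by nlinarith
      have hzY := hwin z (by rw [abs_le]; constructor <;> linarith)
      rcases h5 with h5 | h5 | h5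
      · have h6 := hl z h5 (by rw [abs_le]; constructor <;> linarith)
        have h7 : κ * L * (z.re ^ 2 - (z.im - T) ^ 2) ≤ 5 * κ * L := by
          nlinarith [sq_nonneg (z.im - T)]
        calc _ ≤ Real.exp (B * L) * Real.exp (5 * κ * L) :=
              mul_le_mul h6 (Real.exp_le_exp.2 h7) (Real.exp_pos _).le (Real.exp_pos _).le
          _ = _ := by rw [← Real.exp_add]; congr 1; ring
      · have h6 := hF.right z hzY h5
        have h7 : κ * L * (z.re ^ 2 - (z.im - T) ^ 2) ≤ 4 * κ * L := by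
          nlinarith [sq_nonneg (z.im - T)]
        calc _ ≤ Real.exp (κ * L) * Real.exp (4 * κ * L) :=
              mul_le_mul h6 (Real.exp_le_exp.2 h7) (Real.exp_pos _).le (Real.exp_pos _).le
          _ = Real.exp (5 * κ * L) := by rw [← Real.exp_add]; congr 1; ring
          _ ≤ _ := by
              apply Real.exp_le_exp.2
              have : 0 ≤ B * L := by positivity
              nlinarith
      · have hX' : (z.im - T) ^ 2 = X ^ 2 := by
          rcases h5 with h5 | h5 <;> rw [h5] <;> ring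
        have h6 := hF.grow z hzY (by linarith) (by linarith)
        calc _ ≤ Real.exp (A * L) * Real.exp (κ * L * (4 - X ^ 2)) := by
              refine mul_le_mul h6 (Real.exp_le_exp.2 ?_)
                (Real.exp_pos _).le (Real.exp_pos _).le
              rw [hX']
              nlinarith
          _ = Real.exp ((A + 4 * κ - κ * X ^ 2) * L) := by rw [← Real.exp_add]; congr 1; ring
          _ ≤ _ := by
              apply Real.exp_le_exp.2
              have h10 : (A + 4 * κ - κ * X ^ 2) * L ≤ 0 :=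
                mul_nonpos_of_nonpos_of_nonneg (by linarith) (by linarith)
              have h11 : 0 ≤ (B + 5 * κ) * L := by positivity
              linarith
  rw [hfn] at hkey
  have h12 : 1 ≤ Real.exp (κ * L * (s.re ^ 2 - (s.im - T) ^ 2)) := by
    rw [hs1, sub_self]
    apply Real.one_le_exp
    have : 0 ≤ s.re ^ 2 - 0 ^ 2 := by nlinarith
    positivity
  calc ‖F s‖ ≤ ‖F s‖ * Real.exp (κ * L * (s.re ^ 2 - (s.im - T) ^ 2)) :=
        le_mul_of_one_le_right (norm_nonneg _) h12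
    _ ≤ _ := hkey
    _ = _ := by rw [hκ]; congr 1; ring

theorem few_bound (α ε η A : ℝ) (hε : 0 < ε) (hεα : ε ≤ α) (hα : α ≤ 1 / 2) (hη : 0 < η) (hA : 0 < A) :
    ∃ η' e L0 : ℝ, 0 < η' ∧ 0 < e ∧ 1 ≤ L0 ∧ ∀ (F : ℂ → ℂ) (L Y T : ℝ), L0 ≤ L → Loc F L Y e A → |T| + 1 ≤ Y →
    (∀ S : Finset ℂ, (∀ z ∈ S, F z = 0 ∧ -1 / 4 ≤ z.re ∧ z.re ≤ α - ε / 2 ∧ |z.im - T| ≤ 1) →
      ∑ z ∈ S, (H370.mult F z : ℝ) ≤ η' * L) →
    ∀ s : ℂ, s.im = T → 0 ≤ s.re → s.re ≤ α - ε →
      ‖F s‖ ≤ Real.exp (L * (1 / 2 - s.re + η)) := by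
  obtain ⟨δ, hδ⟩ : ∃ δ : ℝ, δ = ε / 4 := ⟨_, rfl⟩
  have hδ0 : 0 < δ := by rw [hδ]; positivity
  have hδ1 : δ ≤ 1 / 8 := by rw [hδ]; linarith
  have hlogδ : 0 ≤ Real.log (1 / δ) := Real.log_nonneg (by rw [le_div_iff₀ hδ0]; linarith)
  have hlog16 : 0 < Real.log 16 := Real.log_pos (by norm_num)
  obtain ⟨D, hD⟩ : ∃ D : ℝ, D = 8 / δ ^ 2 * (A + Real.log (1 / δ) + 2) := ⟨_, rfl⟩
  have hD0 : 0 < D := by rw [hD]; positivity
  obtain ⟨K, hK⟩ := exists_pow_lt_of_lt_one (show 0 < η / 4 / D by positivity)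
    (show 1 - δ / 2 < 1 by linarith)
  have hq0 : 0 ≤ 1 - δ / 2 := by linarith
  rw [lt_div_iff₀ hD0] at hK
  obtain ⟨G, hG⟩ : ∃ G : ℝ, G = K * (32 : ℝ) ^ K := ⟨_, rfl⟩
  have hG0 : 0 ≤ G := by rw [hG]; positivity
  obtain ⟨η1, hη1⟩ : ∃ η1 : ℝ, η1 = min 1 (η / 4 / (1 + 4 * G)) := ⟨_, rfl⟩
  have hη1p : 0 < η1 := by rw [hη1]; exact lt_min one_pos (by positivity)
  have hη11 : η1 ≤ 1 := by rw [hη1]; exact min_le_left _ _
  have hη12 : η1 * (1 + 4 * G) ≤ η / 4 := by
    have h1 : η1 ≤ η / 4 / (1 + 4 * G) := by rw [hη1]; exact min_le_right _ _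
    rwa [le_div_iff₀ (by positivity)] at h1
  obtain ⟨η', hη'⟩ : ∃ η' : ℝ, η' = min 1 (η / 4 / (Real.log 16 * (1 + 2 * G))) := ⟨_, rfl⟩
  have hη'p : 0 < η' := by rw [hη']; exact lt_min one_pos (by positivity)
  have hη'1 : η' ≤ 1 := by rw [hη']; exact min_le_left _ _
  have hη'2 : η' * (Real.log 16 * (1 + 2 * G)) ≤ η / 4 := by
    have h1 : η' ≤ η / 4 / (Real.log 16 * (1 + 2 * G)) := by rw [hη']; exact min_le_right _ _
    rwa [le_div_iff₀ (by positivity)] at h1
  refine ⟨η', η1, max 1 ((2 + 6 * G) * 4 / η), hη'p, hη1p, le_max_left _ _,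
    fun F L Y T hL hF hTY hS s hs1 hs2 hs3 => ?_⟩
  have hL1 : 1 ≤ L := (le_max_left _ _).trans hL
  have hLG : 2 + 6 * G ≤ η / 4 * L := by
    have h1 := (le_max_right _ _).trans hL
    rw [div_le_iff₀ hη] at h1
    linarith
  obtain ⟨c, hc⟩ : ∃ c : ℂ, c = ⟨-1 / 2, T⟩ := ⟨_, rfl⟩
  have hcre : c.re = -1 / 2 := by rw [hc]
  have hcim : c.im = T := by rw [hc]
  obtain ⟨ϱ, hϱ⟩ : ∃ ϱ : ℝ, ϱ = α + 1 / 2 - 5 * ε / 4 := ⟨_, rfl⟩
  have hball : ∀ (r : ℝ) (z : ℂ), z ∈ closedBall c r → -1 / 2 - r ≤ z.re ∧ z.re ≤ -1 / 2 + r ∧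
      |z.im - T| ≤ r := by
    intro r z hz
    rw [mem_closedBall, dist_eq_norm] at hz
    have h1 := abs_le.1 ((abs_re_le_norm (z - c)).trans hz)
    have h2 := (abs_im_le_norm (z - c)).trans hz
    rw [sub_re, hcre] at h1
    rw [sub_im, hcim] at h2
    exact ⟨by linarith, by linarith, h2⟩
  have hwin : ∀ z : ℂ, |z.im - T| ≤ 1 → |z.im| ≤ Y := by
    intro z hz
    calc |z.im| = |(z.im - T) + T| := by rw [sub_add_cancel]
      _ ≤ |z.im - T| + |T| := abs_add_le _ _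
      _ ≤ Y := by linarith
  obtain ⟨f, hf⟩ : ∃ f : ℂ → ℂ, f = fun w => F w * cexp ((w - 1 / 2) * L) := ⟨_, rfl⟩
  have hfn : ∀ z : ℂ, ‖f z‖ = ‖F z‖ * Real.exp ((z.re - 1 / 2) * L) := by
    intro z
    rw [hf]
    exact norm_twist F L z
  have hf0 : ∀ z : ℂ, f z = 0 ↔ F z = 0 := by
    intro z
    rw [hf]
    simp only [mul_eq_zero, Complex.exp_ne_zero, or_false]
  have him : ∀ z : ℂ, z ∈ closedBall c (ϱ + 3 * δ) → |z.im| ≤ Y ∧
      |z.im - T| ≤ 1 ∧ -2 ≤ z.re ∧ z.re ≤ α - ε / 2 := by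
    intro z hz
    obtain ⟨h1, h2, h3⟩ := hball _ z hz
    have h4 : ϱ + 3 * δ ≤ 1 := by rw [hϱ, hδ]; linarith
    have h5 := h3.trans h4
    refine ⟨hwin z h5, h5, by linarith, ?_⟩
    rw [hϱ, hδ] at h2
    linarith
  have hzero : ∀ z : ℂ, z ∈ closedBall c (ϱ + 3 * δ) → F z = 0 → -1 / 4 < z.re := by
    intro z hz h0
    obtain ⟨h1, h2, h3, h4⟩ := him z hz
    by_contra hcon
    push Not at hcon
    exact hF.ne h1 (by linarith) hcon h0
  have key := DH31.backlund_abs (f := f) (c := c) (ϱ := ϱ) (δ := δ) (l := 1 / 8)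
    (n := η' * L) (M := Real.exp (A * L)) (A := Real.exp (η1 * L)) (a := Real.exp (η1 * L))
    (by norm_num) (by norm_num) (by rw [hϱ]; linarith)
    (by rw [hϱ, hδ]; linarith) hδ0
    (Real.one_le_exp (by positivity)) (Real.one_le_exp (by positivity)) (Real.one_le_exp (by positivity))
    (by positivity)
    (fun w hw => by
      obtain ⟨h1, h2, h3, h4⟩ := him w hw
      rw [hf]
      exact (hF.an w h1 (by linarith) (by linarith)).mul (by fun_prop))
    (fun w hw => by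
      obtain ⟨h1, h2, h3, h4⟩ := him w hw
      rw [hfn]
      have h7 := hF.grow w h1 (by linarith) (by linarith)
      have h10 : (w.re - 1 / 2) * L ≤ 0 := mul_nonpos_of_nonpos_of_nonneg (by linarith) (by linarith)
      calc _ ≤ Real.exp (A * L) * 1 :=
            mul_le_mul h7 (Real.exp_le_one_iff.2 h10)
              (Real.exp_pos _).le (Real.exp_pos _).le
        _ = _ := mul_one _)
    (fun w hw => by
      obtain ⟨h1, h2, h3⟩ := hball _ w hw
      rw [hfn]
      have h7 := (hF.big w (hwin w (by linarith)) (by linarith) (by linarith)).2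
      calc _ ≤ Real.exp (L * (1 / 2 - w.re + η1)) * Real.exp ((w.re - 1 / 2) * L) :=
            mul_le_mul_of_nonneg_right h7 (Real.exp_pos _).le
        _ = _ := by
            rw [← Real.exp_add]
            congr 1; ring)
    (by
      rw [hfn, hcre]
      have h7 := (hF.big c (hwin c (by rw [hcim]; simp)) (by rw [hcre]; norm_num) (by rw [hcre]; norm_num)).1
      rw [hcre] at h7
      rw [one_div, ← Real.exp_neg]
      calc Real.exp (-(η1 * L)) = Real.exp (L * (1 / 2 - -1 / 2 - η1)) * Real.exp ((-1 / 2 - 1 / 2) * L) := by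
            rw [← Real.exp_add]; congr 1; ring
        _ ≤ _ := mul_le_mul_of_nonneg_right h7 (Real.exp_pos _).le)
    (by
      intro w hw hw0
      have hw' : w ∈ closedBall c (ϱ + 3 * δ) := closedBall_subset_closedBall (by linarith) hw
      have h1 := hzero w hw' ((hf0 w).1 hw0)
      have h2 := abs_re_le_norm (w - c)
      rw [sub_re, hcre, abs_of_pos (by linarith)] at h2
      linarith)
    (fun S hSS => by
      have h1 : ∀ z ∈ S, F z = 0 ∧ -1 / 4 ≤ z.re ∧ z.re ≤ α - ε / 2 ∧ |z.im - T| ≤ 1 := by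
        intro z hz
        obtain ⟨h2, h3⟩ := hSS z hz
        have h2' : z ∈ closedBall c (ϱ + 3 * δ) := closedBall_subset_closedBall (by linarith) h2
        have h4 := him z h2'
        exact ⟨(hf0 z).1 h3, (hzero z h2' ((hf0 z).1 h3)).le, h4.2.2.2, h4.2.1⟩
      have h2 : ∑ z ∈ S, (H370.mult f z : ℝ) = ∑ z ∈ S, (H370.mult F z : ℝ) := by
        refine Finset.sum_congr rfl fun z hz => ?_
        have h2' : z ∈ closedBall c (ϱ + 3 * δ) :=
          closedBall_subset_closedBall (by linarith) (hSS z hz).1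
        obtain ⟨k1, k2, k3, k4⟩ := him z h2'
        rw [hf, mult_mul_exp (hF.an z k1 (by linarith) (by linarith))]
      rw [h2]
      exact hS S h1) K (z := s)
    (by
      rw [mem_closedBall, dist_eq_norm]
      have h2 : s - c = ((s.re + 1 / 2 : ℝ) : ℂ) := by
        apply Complex.ext
        · rw [sub_re, hcre, ofReal_re]; ring
        · rw [sub_im, hcim, hs1, ofReal_im, sub_self]
      rw [h2, norm_real, Real.norm_eq_abs, abs_of_pos (by linarith), hϱ, hδ]
      linarith)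
  rw [hfn] at key
  have e16 : (2 : ℝ) / (1 / 8) = 16 := by norm_num
  have e32 : (4 : ℝ) / (1 / 8) = 32 := by norm_num
  rw [e16, e32, Real.log_exp, Real.log_exp, ← hG, ← Real.exp_add] at key
  have hexp : η1 * L + (η' * L * Real.log 16 +
      2 * (η1 * L + η' * L * Real.log 16 + η1 * L + 1) * G +
      4 * (A * L + η' * L * Real.log (1 / δ) + η1 * L + 1) / δ * (1 - δ / 2) ^ K * (2 / δ)) ≤ η * L := by
    have e1 : η' * (Real.log 16 * (1 + 2 * G)) * L ≤ η / 4 * L :=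
      mul_le_mul_of_nonneg_right hη'2 (by linarith)
    have e2 : η1 * (1 + 4 * G) * L ≤ η / 4 * L := mul_le_mul_of_nonneg_right hη12 (by linarith)
    have e3 : 4 * (A * L + η' * L * Real.log (1 / δ) + η1 * L + 1) / δ * (1 - δ / 2) ^ K * (2 / δ) ≤
        η / 4 * L := by
      have h1 : A * L + η' * L * Real.log (1 / δ) + η1 * L + 1 ≤ L * (A + Real.log (1 / δ) + 2) := by
        have a1 : η' * L * Real.log (1 / δ) ≤ 1 * L * Real.log (1 / δ) := by gcongr
        have a2 : η1 * L ≤ 1 * L := by gcongr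
        nlinarith
      have hp : 0 ≤ (1 - δ / 2) ^ K := by positivity
      calc _ = 8 / δ ^ 2 * (A * L + η' * L * Real.log (1 / δ) + η1 * L + 1) * (1 - δ / 2) ^ K := by
            field_simp
            ring
        _ ≤ 8 / δ ^ 2 * (L * (A + Real.log (1 / δ) + 2)) * (1 - δ / 2) ^ K := by gcongr
        _ = ((1 - δ / 2) ^ K * D) * L := by rw [hD]; ring
        _ ≤ _ := mul_le_mul_of_nonneg_right hK.le (by linarith)
    nlinarith
  have h1 : ‖F s‖ * Real.exp ((s.re - 1 / 2) * L) ≤ Real.exp (η * L) :=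
    key.trans (Real.exp_le_exp.2 hexp)
  calc ‖F s‖ = ‖F s‖ * Real.exp ((s.re - 1 / 2) * L) * Real.exp (-((s.re - 1 / 2) * L)) := by
        rw [mul_assoc, ← Real.exp_add, add_neg_cancel, Real.exp_zero, mul_one]
    _ ≤ Real.exp (η * L) * Real.exp (-((s.re - 1 / 2) * L)) :=
        mul_le_mul_of_nonneg_right h1 (Real.exp_pos _).le
    _ = _ := by rw [← Real.exp_add]; congr 1; ring

end Q240.GS
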