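import Pool.Agent.Q240.GS.Desc

/-!
# Small values of `f` to the right imply the expected upper bound to the left, and few zeros
-/

set_option autoImplicit false

namespace Q240.GS

open Complex Filter Topology Metric Set Polynomial
open Q240.LH (norm_twist mult_mul_exp)

theorem Base.loc {f : ℂ → ℂ} {L Y η A : ℝ} (h : Base f L Y η A) : Loc f L Y η A :=
  ⟨fun s h1 h2 h3 => h.an s h1 (by linarith) (by linarith),
    fun s h1 h2 h3 => h.big s h1 (by linarith) (by linarith),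
    fun s h1 h2 h3 => h.grow s h1 (by linarith) (by linarith),
    fun s h1 h2 => h.right s h1 (by linarith) (by linarith)⟩

theorem f_left (α η A : ℝ) (hα0 : 0 < α) (hα : α ≤ 1 / 2) (hη : 0 < η) (hA : 0 < A) : ∃ X e : ℝ, 1 ≤ X ∧ 0 < e ∧
    ∀ (f : ℂ → ℂ) (L Y T : ℝ), 1 ≤ L → Base f L Y e A → FE f L Y e → |T| + X ≤ Y →
    (∀ t : ℝ, |t - T| ≤ X → ‖f (⟨1 - α, t⟩ : ℂ)‖ ≤ Real.exp (η * L)) →
    ∀ s : ℂ, s.im = T → -1 ≤ s.re → s.re ≤ α →
      ‖f s‖ ≤ Real.exp (L * (1 / 2 - s.re + 3 * η)) := by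
  obtain ⟨X, e, hX, he, hpl⟩ := local_pl A η hA hη
  refine ⟨X, min e η, hX, lt_min he hη, fun f L Y T hL hf hfe hTY hb s hs1 hs2 hs3 => ?_⟩
  have h1 := hpl f L Y T (1 - α) η hL ((hf.loc).mono (by linarith) le_rfl (min_le_left _ _) le_rfl) hTY
    (by linarith) (by linarith) hη.le (fun z hz1 hz2 => by
    have h2 : z = ⟨1 - α, z.im⟩ := by
      apply Complex.ext
      · exact hz1
      · rfl
    rw [h2]
    exact hb z.im hz2) (1 - (starRingEnd ℂ) s) (by simp [hs1]) (by simp; linarith) (by simp; linarith)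
  have f1 := hfe s (by rw [hs1]; linarith) hs2 (by linarith)
  calc ‖f s‖ ≤ Real.exp (L * (1 / 2 - s.re + min e η)) * ‖f (1 - (starRingEnd ℂ) s)‖ := f1
    _ ≤ Real.exp (L * (1 / 2 - s.re + η)) * Real.exp ((η + η) * L) := by
        gcongr
        exact min_le_right _ _
    _ = _ := by
        rw [← Real.exp_add]
        congr 1; ring

theorem up (P : ℂ[X]) (S : Finset ℝ) (B A α e : ℝ) (hB : 0 ≤ B) (hA : 0 < A) (hα0 : 0 < α)
    (hα : α ≤ 1 / 2) (he : 0 < e) (he1 : e ≤ 1 / 2) : ∃ η X e0 L0 : ℝ, 0 < η ∧ 1 ≤ X ∧ 0 < e0 ∧ 1 ≤ L0 ∧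
    ∀ (f : ℂ → ℂ) (c : ℝ → ℂ) (L Y T : ℝ), L0 ≤ L → (∀ l ∈ S, ‖c l‖ ≤ B) → Base f L Y e0 A → FE f L Y e0 →
    |T| + X ≤ Y →
    (∀ t : ℝ, |t - T| ≤ X → ‖f (⟨1 - α, t⟩ : ℂ)‖ ≤ Real.exp (η * L)) →
    ∀ s : ℂ, s.im = T → -1 / 4 ≤ s.re → s.re ≤ α - e →
      ‖LD f P S c s‖ ≤ Real.exp (L * (1 / 2 - s.re + 2 * e)) := by
  obtain ⟨η, hη⟩ : ∃ η : ℝ, η = e / 12 := ⟨_, rfl⟩
  have hη0 : 0 < η := by rw [hη]; positivity
  obtain ⟨X, e0, hX, he0, hfl⟩ := f_left α η A hα0 hα hη0 hA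
  obtain ⟨M, hM, hES⟩ := ES_bound S B hB
  obtain ⟨W, hW⟩ : ∃ W : ℝ, W = ∑ i ∈ Finset.range (P.natDegree + 1), ‖P.coeff i‖ * (i.factorial / e ^ i) :=
    ⟨_, rfl⟩
  have hW0 : 0 ≤ W := by rw [hW]; positivity
  obtain ⟨L1, hL1, hx⟩ := exp_dom (W + M) (half_pos he) 0
  refine ⟨η, X + 1, e0, L1, hη0, by linarith, he0, hL1, fun f c L Y T hL hc hf hfe hTY hb s hs1 hs2 hs3 => ?_⟩
  have hx := hx L hL
  rw [pow_zero, mul_one] at hx
  have hL1' : 1 ≤ L := by linarith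
  obtain ⟨U, hU⟩ : ∃ U : ℝ, U = Real.exp (L * (1 / 2 - s.re + e + 3 * η)) := ⟨_, rfl⟩
  have hU1 : 1 ≤ U := by
    rw [hU]
    apply Real.one_le_exp
    have : 0 ≤ 1 / 2 - s.re + e + 3 * η := by linarith
    positivity
  have hball : ∀ w ∈ closedBall s e, DifferentiableAt ℂ f w ∧ ‖f w‖ ≤ U := by
    intro w hw
    rw [mem_closedBall, dist_eq_norm] at hw
    have h3 := abs_le.1 ((abs_re_le_norm (w - s)).trans hw)
    have h4 := (abs_im_le_norm (w - s)).trans hw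
    rw [sub_re] at h3
    rw [sub_im, hs1] at h4
    have h5 : |w.im| ≤ |T| + 1 := by
      calc |w.im| = |(w.im - T) + T| := by rw [sub_add_cancel]
        _ ≤ |w.im - T| + |T| := abs_add_le _ _
        _ ≤ _ := by linarith
    refine ⟨(hf.an w (by linarith) (by linarith) (by linarith)).differentiableAt, ?_⟩
    have h6 := hfl f L Y w.im hL1' hf hfe (by linarith) (fun t ht => by
      refine hb t ?_
      calc |t - T| = |(t - w.im) + (w.im - T)| := by congr 1; ring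
        _ ≤ |t - w.im| + |w.im - T| := abs_add_le _ _
        _ ≤ _ := by linarith) w rfl (by linarith) (by linarith)
    refine h6.trans ?_
    rw [hU]
    apply Real.exp_le_exp.2
    apply mul_le_mul_of_nonneg_left _ (by linarith)
    linarith
  have hD : DiffContOnCl ℂ f (ball s e) := by
    apply DifferentiableOn.diffContOnCl
    intro w hw
    exact (hball w (closure_ball_subset_closedBall hw)).1.differentiableWithinAt
  have hit : ∀ k : ℕ, ‖iteratedDeriv k f s‖ ≤ k.factorial / e ^ k * U := by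
    intro k
    have h1 := norm_iteratedDeriv_le_of_forall_mem_sphere_norm_le k he hD
      (fun z hz => (hball z (sphere_subset_closedBall hz)).2)
    refine h1.trans (le_of_eq ?_)
    ring
  have h1 : ‖∑ i ∈ Finset.range (P.natDegree + 1), P.coeff i * iteratedDeriv i f s‖ ≤ W * U := by
    rw [hW, Finset.sum_mul]
    refine norm_sum_le_of_le _ fun i _ => ?_
    rw [norm_mul, mul_assoc]
    exact mul_le_mul_of_nonneg_left (hit i) (norm_nonneg _)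
  have h2 : ‖∑ l ∈ S, c l * cexp (-(l * s))‖ ≤ M := hES c hc s (by rw [abs_le]; constructor <;> linarith)
  calc ‖LD f P S c s‖ ≤ W * U + M := (norm_add_le _ _).trans (add_le_add h1 h2)
    _ ≤ (W + M) * U := by nlinarith
    _ ≤ Real.exp (e / 2 * L) * U := by gcongr
    _ = Real.exp (e / 2 * L + (L * (1 / 2 - s.re + e + 3 * η))) := by
        rw [Real.exp_add, hU]
    _ ≤ _ := by
        apply Real.exp_le_exp.2
        rw [hη]
        nlinarith

/-- the zeros in a small piece of the strip -/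
theorem piece (α ε A : ℝ) (hε : 0 < ε) (hεα : ε ≤ α) (hα : α ≤ 1 / 2) :
    ∃ κ : ℝ, 0 < κ ∧ ∀ (F : ℂ → ℂ) (L Y T e : ℝ), 0 < e → e ≤ 1 → 1 ≤ L → Loc F L Y e A → |T| + 2 ≤ Y →
    (∀ s : ℂ, |s.im - T| ≤ 2 → -1 / 4 ≤ s.re → s.re ≤ α - ε / 2 →
      ‖F s‖ ≤ Real.exp (L * (1 / 2 - s.re + 2 * e))) →
    ∀ Z : Finset ℂ, (∀ z ∈ Z, -1 / 4 ≤ z.re ∧ z.re ≤ α - ε ∧ |z.im - T| ≤ ε / 2) →
      ∑ z ∈ Z, (H370.mult F z : ℝ) ≤ (3 * e * L) / κ := by
  obtain ⟨R, hR⟩ : ∃ R : ℝ, R = 1 + α - ε / 2 := ⟨_, rfl⟩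
  obtain ⟨r, hr⟩ : ∃ r : ℝ, r = 1 + α - 3 * ε / 4 := ⟨_, rfl⟩
  have hr0 : 0 < r := by rw [hr]; linarith
  have hrR : r < R := by rw [hr, hR]; linarith
  have hκ : 0 < Real.log (R / r) := Real.log_pos (by rw [lt_div_iff₀ hr0]; linarith)
  refine ⟨Real.log (R / r), hκ, fun F L Y T e he he1 hL hF hTY hb Z hZ => ?_⟩
  have hL0 : 0 < L := by linarith
  obtain ⟨c, hc⟩ : ∃ c : ℂ, c = ⟨-1, T⟩ := ⟨_, rfl⟩
  have hcre : c.re = -1 := by rw [hc]
  have hcim : c.im = T := by rw [hc]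
  obtain ⟨f, hf⟩ : ∃ f : ℂ → ℂ, f = fun w => F w * cexp ((w - 1 / 2) * L) := ⟨_, rfl⟩
  have hfn : ∀ z : ℂ, ‖f z‖ = ‖F z‖ * Real.exp ((z.re - 1 / 2) * L) := by
    intro z
    rw [hf]
    exact norm_twist F L z
  have hwin : ∀ z : ℂ, |z.im - T| ≤ 2 → |z.im| ≤ Y := by
    intro z hz
    calc |z.im| = |(z.im - T) + T| := by rw [sub_add_cancel]
      _ ≤ |z.im - T| + |T| := abs_add_le _ _
      _ ≤ Y := by linarith
  have hball : ∀ z ∈ closedBall c R, -5 / 2 ≤ z.re ∧ z.re ≤ α - ε / 2 ∧ |z.im - T| ≤ 2 := by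
    intro z hz
    rw [mem_closedBall, dist_eq_norm] at hz
    have h1 := abs_le.1 ((abs_re_le_norm (z - c)).trans hz)
    have h2 := (abs_im_le_norm (z - c)).trans hz
    rw [sub_re, hcre, hR] at h1
    rw [sub_im, hcim] at h2
    refine ⟨by linarith, by linarith, h2.trans ?_⟩
    rw [hR]; linarith
  have hup : ∀ z ∈ closedBall c R, ‖F z‖ ≤ Real.exp (L * (1 / 2 - z.re + 2 * e)) := by
    intro z hz
    obtain ⟨h1, h2, h3⟩ := hball z hz
    rcases le_total z.re (-1 / 4) with h4 | h4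
    · have h5 := (hF.big z (hwin z h3) (by linarith) h4).2
      refine h5.trans (Real.exp_le_exp.2 ?_)
      apply mul_le_mul_of_nonneg_left _ hL0.le
      linarith
    · exact hb z h3 h4 h2
  have hM : ∀ z ∈ closedBall c R, ‖f z‖ ≤ Real.exp (2 * e * L) := by
    intro z hz
    rw [hfn]
    calc _ ≤ Real.exp (L * (1 / 2 - z.re + 2 * e)) * Real.exp ((z.re - 1 / 2) * L) :=
          mul_le_mul_of_nonneg_right (hup z hz) (Real.exp_pos _).le
      _ = _ := by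
          rw [← Real.exp_add]
          congr 1; ring
  have hlow : Real.exp (-(e * L)) ≤ ‖f c‖ := by
    rw [hfn, hcre]
    have h7 := (hF.big c (hwin c (by rw [hcim]; simp)) (by rw [hcre]; norm_num) (by rw [hcre]; norm_num)).1
    rw [hcre] at h7
    calc Real.exp (-(e * L)) = Real.exp (L * (1 / 2 - -1 - e)) * Real.exp ((-1 - 1 / 2) * L) := by
          rw [← Real.exp_add]; congr 1; ring
      _ ≤ _ := mul_le_mul_of_nonneg_right h7 (Real.exp_pos _).le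
  have hfc : 0 < ‖f c‖ := lt_of_lt_of_le (Real.exp_pos _) hlow
  have hj := H370.Loc.jensen_mult (f := f) (c := c) (r := r) (R := R) (M := Real.exp (2 * e * L))
    hr0 hrR (Real.one_le_exp (by positivity))
    (fun w hw => by
      obtain ⟨h1, h2, h3⟩ := hball w hw
      rw [hf]
      exact (hF.an w (hwin w h3) (by linarith) (by linarith)).mul (by fun_prop))
    (norm_pos_iff.1 hfc) hM Z (fun z hz => by
      obtain ⟨h1, h2, h3⟩ := hZ z hz
      rw [mem_closedBall, dist_eq_norm]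
      have h4 : ‖z - c‖ ^ 2 ≤ r ^ 2 := by
        rw [← Complex.normSq_eq_norm_sq, normSq_apply, sub_re, sub_im, hcre, hcim]
        have h5 : (z.im - T) * (z.im - T) ≤ (ε / 2) * (ε / 2) := by
          have := abs_le.1 h3
          nlinarith
        have h6 : (z.re - -1) * (z.re - -1) ≤ (1 + α - ε) * (1 + α - ε) := by nlinarith
        rw [hr]
        nlinarith
      exact abs_le_of_sq_le_sq' h4 hr0.le |>.2)
  have hmult : ∑ z ∈ Z, (H370.mult f z : ℝ) = ∑ z ∈ Z, (H370.mult F z : ℝ) := by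
    refine Finset.sum_congr rfl fun z hz => ?_
    obtain ⟨h1, h2, h3⟩ := hZ z hz
    rw [hf, mult_mul_exp (hF.an z (hwin z (by linarith)) (by linarith) (by linarith))]
  rw [hmult] at hj
  refine hj.trans ?_
  apply div_le_div_of_nonneg_right _ hκ.le
  rw [Real.log_div (Real.exp_pos _).ne' hfc.ne', Real.log_exp]
  have h8 := Real.log_le_log (Real.exp_pos _) hlow
  rw [Real.log_exp] at h8
  nlinarith

/-- small values of `f` to the right imply few zeros of `F` to the left -/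
theorem f_few (P : ℂ[X]) (hP : P ≠ 0) (S : Finset ℝ) (B A α ε : ℝ) (hB : 0 ≤ B) (hA : 0 < A) (hα0 : 0 < α)
    (hα : α ≤ 1 / 2) (hε : 0 < ε) : ∃ η e0 L0 C : ℝ, 0 < η ∧ 0 < e0 ∧ 1 ≤ L0 ∧ 1 ≤ C ∧
    ∀ (f : ℂ → ℂ) (c : ℝ → ℂ) (L : ℝ), L0 ≤ L → (∀ l ∈ S, ‖c l‖ ≤ B) → Base f L (C + 2) e0 A →
    FE f L (C + 2) e0 →
    (∀ t : ℝ, |t| ≤ C → ‖f (⟨1 - α, t⟩ : ℂ)‖ ≤ Real.exp (η * L)) →
    ∀ Z : Finset ℂ, (∀ z ∈ Z, -1 / 4 ≤ z.re ∧ z.re ≤ α - ε ∧ |z.im| ≤ 1) →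
      ∑ z ∈ Z, (H370.mult (LD f P S c) z : ℝ) ≤ ε * L := by
  obtain ⟨ε0, hε0⟩ : ∃ ε0 : ℝ, ε0 = min ε α := ⟨_, rfl⟩
  have h00 : 0 < ε0 := by rw [hε0]; exact lt_min hε hα0
  have h01 : ε0 ≤ ε := by rw [hε0]; exact min_le_left _ _
  have h02 : ε0 ≤ α := by rw [hε0]; exact min_le_right _ _
  obtain ⟨κ, hκ, hpiece⟩ := piece α ε0 (A + 1) h00 h02 hα
  obtain ⟨N, hN⟩ : ∃ N : ℕ, N = ⌈4 / ε0⌉₊ + 1 := ⟨_, rfl⟩
  have hN1 : 4 / ε0 < N := by
    rw [hN]; push_cast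
    have := Nat.le_ceil (4 / ε0)
    linarith
  have hNp : (0 : ℝ) < N := lt_trans (by positivity) hN1
  obtain ⟨e, he⟩ : ∃ e : ℝ, e = min (ε0 / 2) (ε * κ / (3 * N)) := ⟨_, rfl⟩
  have he0 : 0 < e := by rw [he]; exact lt_min (by positivity) (by positivity)
  have he1 : e ≤ ε0 / 2 := by rw [he]; exact min_le_left _ _
  have he2 : e * (3 * N) ≤ ε * κ := by
    have : e ≤ ε * κ / (3 * N) := by rw [he]; exact min_le_right _ _
    rwa [le_div_iff₀ (by positivity)] at this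
  obtain ⟨η, X, e1, L1, hη, hX, he1', hL1, hup⟩ := up P S B A α e hB hA hα0 hα he0 (by linarith)
  obtain ⟨e2, L2, he2', hL2, hloc⟩ := loc_LD P hP S B A e hB hA he0
  obtain ⟨e3, he3⟩ : ∃ e3 : ℝ, e3 = min e1 e2 := ⟨_, rfl⟩
  refine ⟨η, e3, max L1 L2, X + 4, hη, by rw [he3]; exact lt_min he1' he2', hL1.trans (le_max_left _ _),
    by linarith, fun f c L hL hc hf hfe hb Z hZ => ?_⟩
  have g1 : L1 ≤ L := (le_max_left _ _).trans hL
  have g2 : L2 ≤ L := (le_max_right _ _).trans hL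
  have hL1' : 1 ≤ L := by linarith
  have hL0 : 0 ≤ L := by linarith
  have ha3 : e3 ≤ e1 := by rw [he3]; exact min_le_left _ _
  have ha4 : e3 ≤ e2 := by rw [he3]; exact min_le_right _ _
  have hLoc : Loc (LD f P S c) L 5 e (A + 1) := hloc f c L 5 g2 hc
    (hf.mono hL0 (by linarith) ha4 le_rfl)
  have hbd : ∀ s : ℂ, |s.im| ≤ 3 → -1 / 4 ≤ s.re → s.re ≤ α - ε0 / 2 →
      ‖LD f P S c s‖ ≤ Real.exp (L * (1 / 2 - s.re + 2 * e)) := by
    intro s h1 h2 h3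
    refine hup f c L (X + 4 + 2) s.im g1 hc (hf.mono hL0 le_rfl ha3 le_rfl) (hfe.mono hL0 le_rfl ha3)
      (by linarith) (fun t ht => hb t ?_) s rfl h2 (by linarith)
    calc |t| = |(t - s.im) + s.im| := by rw [sub_add_cancel]
      _ ≤ |t - s.im| + |s.im| := abs_add_le _ _
      _ ≤ _ := by linarith
  obtain ⟨τ, hτ⟩ : ∃ τ : ℕ → ℝ, τ = fun j : ℕ => -1 + (j : ℝ) * (ε0 / 2) := ⟨_, rfl⟩
  have hj : ∀ j ∈ Finset.range N, -1 ≤ τ j → τ j ≤ 1 →
      ∑ z ∈ Z.filter (fun z => |z.im - τ j| ≤ ε0 / 2), (H370.mult (LD f P S c) z : ℝ) ≤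
        (3 * e * L) / κ := by
    intro j _ h1 h2
    have hτ1 : |τ j| ≤ 1 := abs_le.2 ⟨h1, h2⟩
    exact hpiece (LD f P S c) L 5 (τ j) e he0 (by linarith) hL1' hLoc (by linarith) (fun s hs1 hs2 hs3 => by
      refine hbd s ?_ hs2 hs3
      calc |s.im| = |(s.im - τ j) + τ j| := by rw [sub_add_cancel]
        _ ≤ |s.im - τ j| + |τ j| := abs_add_le _ _
        _ ≤ _ := by linarith)
      (Z.filter (fun z => |z.im - τ j| ≤ ε0 / 2)) (fun z hz => by
        obtain ⟨hz1, hz2⟩ := Finset.mem_filter.1 hz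
        obtain ⟨a1, a2, a3⟩ := hZ z hz1
        exact ⟨a1, by linarith, hz2⟩)
  classical
  have hcov : ∀ z ∈ Z, (H370.mult (LD f P S c) z : ℝ) ≤ ∑ j ∈ Finset.range N,
      if (-1 ≤ τ j ∧ τ j ≤ 1) ∧ |z.im - τ j| ≤ ε0 / 2 then (H370.mult (LD f P S c) z : ℝ) else 0 := by
    intro z hz
    obtain ⟨a1, a2, a3⟩ := hZ z hz
    have a3' := abs_le.1 a3
    obtain ⟨j, hjd⟩ : ∃ j : ℕ, j = ⌊(z.im - (-1)) / (ε0 / 2)⌋₊ := ⟨_, rfl⟩
    have hnn : 0 ≤ (z.im - (-1)) / (ε0 / 2) := div_nonneg (by linarith) (by positivity)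
    have h1 : (j : ℝ) ≤ (z.im - (-1)) / (ε0 / 2) := by rw [hjd]; exact Nat.floor_le hnn
    have h2 : (z.im - (-1)) / (ε0 / 2) < j + 1 := by rw [hjd]; exact Nat.lt_floor_add_one _
    rw [le_div_iff₀ (by positivity)] at h1
    rw [div_lt_iff₀ (by positivity)] at h2
    have h3 : j < N := by
      have h4 : (j : ℝ) < N := by
        have h5 : (j : ℝ) ≤ 4 / ε0 := by
          rw [le_div_iff₀ h00]
          nlinarith
        linarith
      exact_mod_cast h4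
    have h6 : (-1 ≤ τ j ∧ τ j ≤ 1) ∧ |z.im - τ j| ≤ ε0 / 2 := by
      rw [hτ]
      simp only
      have h7 : (0 : ℝ) ≤ j * (ε0 / 2) := by positivity
      refine ⟨⟨by linarith, by linarith⟩, ?_⟩
      rw [abs_le]
      constructor <;> nlinarith
    refine le_trans ?_ (Finset.single_le_sum (f := fun j => if (-1 ≤ τ j ∧ τ j ≤ 1) ∧
      |z.im - τ j| ≤ ε0 / 2 then (H370.mult (LD f P S c) z : ℝ) else 0) (fun i _ => by
        split_ifs
        · positivity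
        · exact le_rfl) (Finset.mem_range.2 h3))
    rw [if_pos h6]
  refine (Finset.sum_le_sum hcov).trans ?_
  rw [Finset.sum_comm]
  have hterm : ∀ j ∈ Finset.range N, ∑ z ∈ Z, (if (-1 ≤ τ j ∧ τ j ≤ 1) ∧ |z.im - τ j| ≤ ε0 / 2 then
      (H370.mult (LD f P S c) z : ℝ) else 0) ≤ (3 * e * L) / κ := by
    intro j hjN
    by_cases h1 : -1 ≤ τ j ∧ τ j ≤ 1
    · have h2 := hj j hjN h1.1 h1.2
      rw [Finset.sum_filter] at h2
      refine le_trans (le_of_eq ?_) h2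
      refine Finset.sum_congr rfl fun z _ => ?_
      simp only [h1, true_and, and_self]
    · have h2 : ∀ z ∈ Z, (if (-1 ≤ τ j ∧ τ j ≤ 1) ∧ |z.im - τ j| ≤ ε0 / 2 then
          (H370.mult (LD f P S c) z : ℝ) else 0) = 0 := by
        intro z _
        rw [if_neg]
        exact fun h => h1 h.1
      rw [Finset.sum_eq_zero h2]
      positivity
  refine (Finset.sum_le_sum hterm).trans ?_
  rw [Finset.sum_const, Finset.card_range, nsmul_eq_mul, ← mul_div_assoc, div_le_iff₀ hκ]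
  have h9 : e * (3 * N) * L ≤ ε * κ * L := mul_le_mul_of_nonneg_right he2 hL0
  linarith

end Q240.GS
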