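import Pool.Agent.Q240.GS.BaseX
import Pool.Agent.Q240.GS.BaseL

/-!
# Zeros to the left and values to the right: uniform theorems for L-functions of degree `m`
-/

set_option autoImplicit false

open Complex Set MeasureTheory Filter Topology Polynomial
open scoped ComplexConjugate

namespace Q240.GS

open Pool.Agent.W169.HF H353.E H353.F

variable {m : ℕ}

/-- the twisted coefficients -/
noncomputable def tw (c : ℝ → ℂ) (T : ℝ) (l : ℝ) : ℂ := c l * cexp (-(l * (T * I)))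

lemma tw_norm (c : ℝ → ℂ) (T l : ℝ) : ‖tw c T l‖ = ‖c l‖ := by
  unfold tw
  rw [norm_mul, Complex.norm_exp]
  simp

lemma LD_shift (f : ℂ → ℂ) (P : ℂ[X]) (S : Finset ℝ) (c : ℝ → ℂ) (T : ℝ) (s : ℂ) :
    LD (fun z => f (z + T * I)) P S (tw c T) s = LD f P S c (s + T * I) := by
  unfold LD tw
  congr 1
  · refine Finset.sum_congr rfl fun i _ => ?_
    rw [it_shift]
  · refine Finset.sum_congr rfl fun l _ => ?_
    rw [mul_assoc, ← Complex.exp_add]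
    congr 2
    ring

lemma mult_shift (G : ℂ → ℂ) (a z : ℂ) : H370.mult (fun z => G (z + a)) z = H370.mult G (z + a) := by
  unfold H370.mult analyticOrderNatAt
  have h4 : AnalyticAt ℂ (fun u : ℂ => u + a) z := by fun_prop
  have h5 : deriv (fun u : ℂ => u + a) z ≠ 0 := by
    rw [deriv_add_const]
    simp
  have := analyticOrderAt_comp_of_deriv_ne_zero (f := G) h4 h5
  exact congrArg ENat.toNat this

/-- `F(s) = P(D) L(s) + ∑ c(l) exp (-l s)` -/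
noncomputable abbrev FF (μ : Fin m → ℂ) (Λ : ℂ → ℂ) (P : ℂ[X]) (S : Finset ℝ) (c : ℝ → ℂ) : ℂ → ℂ :=
  LD (LL μ Λ) P S c

/-- the zeros with `-2 ≤ Re s ≤ a`, `|Im s - T| ≤ h` have total multiplicity at most `x` -/
def AM (G : ℂ → ℂ) (a h T x : ℝ) : Prop := ∀ Z : Finset ℂ,
  (∀ z ∈ Z, G z = 0 ∧ -2 ≤ z.re ∧ z.re ≤ a ∧ |z.im - T| ≤ h) → ∑ z ∈ Z, (H370.mult G z : ℝ) ≤ x

lemma AM.mono {G : ℂ → ℂ} {a h T x a' h' T' x' : ℝ} (hG : AM G a h T x) (ha : a' ≤ a)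
    (hh : h' + |T' - T| ≤ h) (hx : x ≤ x') : AM G a' h' T' x' := by
  intro Z hZ
  refine (hG Z fun z hz => ?_).trans hx
  obtain ⟨h1, h2, h3, h4⟩ := hZ z hz
  refine ⟨h1, h2, h3.trans ha, ?_⟩
  calc |z.im - T| = |(z.im - T') + (T' - T)| := by congr 1; ring
    _ ≤ |z.im - T'| + |T' - T| := abs_add_le _ _
    _ ≤ h := by linarith

/-- from zeros near height `T` to zeros of the shifted function -/
lemma am_shift (μ : Fin m → ℂ) (Λ : ℂ → ℂ) (P : ℂ[X]) (S : Finset ℝ) (c : ℝ → ℂ) (T a h x : ℝ) :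
    AM (FF μ Λ P S c) a h T x ↔ ∀ Z : Finset ℂ,
      (∀ z ∈ Z, LD (fun s => LL μ Λ (s + T * I)) P S (tw c T) z = 0 ∧ -2 ≤ z.re ∧ z.re ≤ a ∧ |z.im| ≤ h) →
      ∑ z ∈ Z, (H370.mult (LD (fun s => LL μ Λ (s + T * I)) P S (tw c T)) z : ℝ) ≤ x := by
  classical
  have hfun : LD (fun s => LL μ Λ (s + T * I)) P S (tw c T) = fun s => FF μ Λ P S c (s + T * I) := by
    funext s
    exact LD_shift (LL μ Λ) P S c T s
  rw [hfun]
  constructor
  · intro h1 Z hZ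
    have h2 := h1 (Z.image fun z => z + T * I) (fun z hz => by
      obtain ⟨w, hw, rfl⟩ := Finset.mem_image.1 hz
      obtain ⟨q1, q2, q3, q4⟩ := hZ w hw
      refine ⟨q1, by simpa using q2, by simpa using q3, by simpa using q4⟩)
    rw [Finset.sum_image (fun x _ y _ hxy => by simpa using hxy)] at h2
    refine le_trans (le_of_eq (Finset.sum_congr rfl fun z _ => ?_)) h2
    rw [mult_shift]
  · intro h1 Z hZ
    have h2 := h1 (Z.image fun z => z - T * I) (fun z hz => by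
      obtain ⟨w, hw, rfl⟩ := Finset.mem_image.1 hz
      obtain ⟨q1, q2, q3, q4⟩ := hZ w hw
      refine ⟨by simpa using q1, by simpa using q2, by simpa using q3, by simpa using q4⟩)
    rw [Finset.sum_image (fun x _ y _ hxy => by simpa using hxy)] at h2
    refine le_trans (le_of_eq (Finset.sum_congr rfl fun z _ => ?_)) h2
    rw [mult_shift, sub_add_cancel]

/-- local data of the class -/
def Ob (N : ℝ) (μ : Fin m → ℂ) (Λ : ℂ → ℂ) : Prop := ∃ α ε, DatumT (1 / 2) N μ α ε Λ ∧ ∀ s : ℂ, 1 < s.re → Λ s ≠ 0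

/-- **(A)** few zeros to the left give small values on the right. -/
theorem few_L (hm : 1 ≤ m) (P : ℂ[X]) (hP : P ≠ 0) (S : Finset ℝ) (B α ε : ℝ) (hB : 0 ≤ B) (hα0 : 0 < α)
    (hα : α ≤ 1 / 2) (hε : 0 < ε) : ∃ η h C₀ : ℝ, 0 < η ∧ 0 < h ∧ ∀ (N : ℝ) (μ : Fin m → ℂ) (Λ : ℂ → ℂ),
    Ob N μ Λ → ∀ (c : ℝ → ℂ) (T : ℝ), (∀ l ∈ S, ‖c l‖ ≤ B) → C₀ ≤ Real.log (cnd N μ T) →
    AM (FF μ Λ P S c) (α - η) h T (η * Real.log (cnd N μ T)) →
    ‖LL μ Λ (⟨1 - α, T⟩ : ℂ)‖ ≤ Real.exp (ε * Real.log (cnd N μ T)) := by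
  obtain ⟨η, e, L0, C, δ0, hη, he, hL0, hC, hδ0, H⟩ := few_fE (5 * m) P hP S B 9 α (ε / 2) 1 hB (by norm_num)
    hα0 hα (by positivity) one_pos
  obtain ⟨C0, hC0, HB⟩ := base_ofE m hm (C + 2) e δ0 (by linarith) he hδ0
  have hm0 : (0 : ℝ) ≤ m := Nat.cast_nonneg m
  refine ⟨η / 2, C, L0 + C0 + 28 * m, by positivity, by linarith, ?_⟩
  rintro N μ Λ ⟨α', ε', d, hnz⟩ c T hc hC hZ
  obtain ⟨b1, b2⟩ := el_bd d.one_le d.re_le T
  obtain ⟨L, hL⟩ : ∃ L : ℝ, L = 2 * el N μ T := ⟨_, rfl⟩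
  obtain ⟨W, hW⟩ : ∃ W : ℝ, W = Real.log (cnd N μ T) := ⟨_, rfl⟩
  rw [← hL, ← hW] at b1 b2
  rw [← hW] at hC hZ ⊢
  obtain ⟨hb, hfe⟩ := HB N μ α' ε' Λ d hnz T (by rw [← hL]; linarith)
  rw [← hL] at hb hfe
  have key := H (fun s => LL μ Λ (s + T * I)) (tw c T) L (EX μ T) (by linarith) (EX_card μ T)
    (fun l hl => by rw [tw_norm]; exact hc l hl) hb hfe (by
      have hZ' := (am_shift μ Λ P S c T (α - η / 2) C (η / 2 * W)).1 hZ
      intro Z hz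
      refine (hZ' Z fun z hzZ => ?_).trans ?_
      · obtain ⟨q1, q2, q3, q4⟩ := hz z hzZ
        exact ⟨q1, q2, by linarith, q4⟩
      · have h1 : η / 2 * W ≤ η / 2 * (2 * L) := mul_le_mul_of_nonneg_left (by linarith) (by positivity)
        linarith) 0 (by rw [abs_zero]; norm_num)
  have e1 : (⟨1 - α, 0⟩ : ℂ) + T * I = ⟨1 - α, T⟩ := by
    apply Complex.ext <;> simp
  simp only [e1] at key
  refine key.trans (Real.exp_le_exp.2 ?_)
  have h1 : ε / 2 * L ≤ ε / 2 * (2 * W) := mul_le_mul_of_nonneg_left (by linarith) (by positivity)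
  linarith

/-- **(B)** small values on the right give few zeros to the left. -/
theorem L_few (hm : 1 ≤ m) (P : ℂ[X]) (hP : P ≠ 0) (S : Finset ℝ) (B α ε : ℝ) (hB : 0 ≤ B) (hα0 : 0 < α)
    (hα : α ≤ 1 / 2) (hε : 0 < ε) : ∃ η h C₀ : ℝ, 0 < η ∧ 0 < h ∧ ∀ (N : ℝ) (μ : Fin m → ℂ) (Λ : ℂ → ℂ),
    Ob N μ Λ → ∀ (c : ℝ → ℂ) (T : ℝ), (∀ l ∈ S, ‖c l‖ ≤ B) → C₀ ≤ Real.log (cnd N μ T) →
    (∀ t : ℝ, |t - T| ≤ h → ‖LL μ Λ (⟨1 - α, t⟩ : ℂ)‖ ≤ Real.exp (η * Real.log (cnd N μ t))) →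
    AM (FF μ Λ P S c) (α - ε) 1 T (ε * Real.log (cnd N μ T)) := by
  obtain ⟨η, e, L0, C, δ0, hη, he, hL0, hC, hδ0, H⟩ := f_fewE (5 * m) P hP S B 9 α (ε / 2) hB (by norm_num)
    hα0 hα (by positivity)
  obtain ⟨C0, hC0, HB⟩ := base_ofE m hm (C + 2) e δ0 (by linarith) he hδ0
  have hm0 : (0 : ℝ) ≤ m := Nat.cast_nonneg m
  have hlog : 0 ≤ m * Real.log (1 + C) := mul_nonneg hm0 (Real.log_nonneg (by linarith))
  refine ⟨η / 4, C, L0 + C0 + 28 * m + 28 * m + 2 * (m * Real.log (1 + C)), by positivity, by linarith, ?_⟩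
  rintro N μ Λ ⟨α', ε', d, hnz⟩ c T hc hC hv
  obtain ⟨b1, b2⟩ := el_bd d.one_le d.re_le T
  obtain ⟨L, hL⟩ : ∃ L : ℝ, L = 2 * el N μ T := ⟨_, rfl⟩
  obtain ⟨W, hW⟩ : ∃ W : ℝ, W = Real.log (cnd N μ T) := ⟨_, rfl⟩
  rw [← hL, ← hW] at b1 b2
  rw [← hW] at hC ⊢
  obtain ⟨hb, hfe⟩ := HB N μ α' ε' Λ d hnz T (by rw [← hL]; linarith)
  rw [← hL] at hb hfe
  rw [am_shift]
  intro Z hZ
  have key := H (fun s => LL μ Λ (s + T * I)) (tw c T) L (EX μ T) (by linarith) (EX_card μ T)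
    (EX_re d.re_le T) (fun l hl => by rw [tw_norm]; exact hc l hl) hb hfe (fun t ht => by
      have e1 : (⟨1 - α, t⟩ : ℂ) + T * I = ⟨1 - α, t + T⟩ := by
        apply Complex.ext <;> simp
      simp only [e1]
      refine (hv (t + T) (by rw [add_sub_cancel_right]; exact ht)).trans (Real.exp_le_exp.2 ?_)
      have h1 := logm_shift d.one_le μ (y := t + T) (y' := T) (R := C) (by
        rw [show T - (t + T) = -t by ring, abs_neg]
        exact ht.trans (le_abs_self C))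
      rw [abs_of_nonneg (by linarith : (0 : ℝ) ≤ C), ← hW] at h1
      calc η / 4 * Real.log (cnd N μ (t + T)) ≤ η / 4 * (2 * (2 * L)) :=
            mul_le_mul_of_nonneg_left (by linarith) (by positivity)
        _ = _ := by ring) Z (fun z hz => by
      obtain ⟨q1, q2, q3, q4⟩ := hZ z hz
      exact ⟨q2, by linarith, q4⟩)
  refine key.trans ?_
  have h1 : ε / 2 * L ≤ ε / 2 * (2 * W) := mul_le_mul_of_nonneg_left (by linarith) (by positivity)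
  linarith

/-- `F` is not identically zero -/
theorem F_ne (hm : 1 ≤ m) (P : ℂ[X]) (hP : P ≠ 0) (S : Finset ℝ) (B : ℝ) (hB : 0 ≤ B) :
    ∃ C₀ : ℝ, ∀ (N : ℝ) (μ : Fin m → ℂ) (Λ : ℂ → ℂ),
    Ob N μ Λ → ∀ (c : ℝ → ℂ) (T : ℝ), (∀ l ∈ S, ‖c l‖ ≤ B) → C₀ ≤ Real.log (cnd N μ T) →
    ∃ s : ℂ, FF μ Λ P S c s ≠ 0 := by
  obtain ⟨l, hl⟩ : ∃ l : ℝ, l = 1 / (32 * (((5 * m : ℕ) : ℝ) + 1)) := ⟨_, rfl⟩
  have hl0 : 0 < l := by rw [hl]; positivity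
  have hlM : (((5 * m : ℕ) : ℝ)) * (4 * l) ≤ 1 / 8 := by
    have : ((((5 * m : ℕ) : ℝ)) + 1) * (4 * l) = 1 / 8 := by rw [hl]; field_simp; norm_num
    nlinarith
  have hl1 : l ≤ 1 / 8 := by
    rw [hl]
    apply one_div_le_one_div_of_le (by norm_num)
    have : (0 : ℝ) ≤ ((5 * m : ℕ) : ℝ) := Nat.cast_nonneg _
    linarith
  obtain ⟨e, L0, he, hL0, H⟩ := loc_LDE P hP S B 9 1 (l / 3) hB (by norm_num) one_pos (by positivity) (by linarith)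
  obtain ⟨C0, hC0, HB⟩ := base_ofE m hm (0 + 1) e (l / 3) (by norm_num) he (by positivity)
  have hm0 : (0 : ℝ) ≤ m := Nat.cast_nonneg m
  refine ⟨L0 + C0 + 28 * m, ?_⟩
  rintro N μ Λ ⟨α', ε', d, hnz⟩ c T hc hC
  obtain ⟨b1, b2⟩ := el_bd d.one_le d.re_le T
  obtain ⟨L, hL⟩ : ∃ L : ℝ, L = 2 * el N μ T := ⟨_, rfl⟩
  rw [← hL] at b1 b2
  obtain ⟨hb, -⟩ := HB N μ α' ε' Λ d hnz T (by rw [← hL]; linarith)
  rw [← hL] at hb
  have hloc := H (fun s => LL μ Λ (s + T * I)) (tw c T) L 0 (EX μ T) (by linarith)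
    (fun l hl => by rw [tw_norm]; exact hc l hl) hb
  obtain ⟨x, hx1, hx2, hx3⟩ := good_pt (EX μ T) (5 * m) (EX_card μ T) (-1 / 2) 0 (4 * l) (by positivity)
  have key := hloc.low (⟨x, 0⟩ : ℂ) (by simp) (by simp only; linarith) (by simp only; linarith)
    (fun z hz => by have := hx3 z hz; linarith)
  refine ⟨(⟨x, 0⟩ : ℂ) + T * I, ?_⟩
  rw [LD_shift] at key
  intro h0
  rw [show LD (LL μ Λ) P S c ((⟨x, 0⟩ : ℂ) + T * I) = 0 from h0, norm_zero] at key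
  exact absurd key (not_le.2 (Real.exp_pos _))

end Q240.GS
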