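import Pool.Agent.Q240.GS.Fin

/-!
# Shadows at heights far from the poles of the gamma factor, and the trivial bound
-/

set_option autoImplicit false

open Complex Set MeasureTheory Filter Topology Polynomial
open scoped ComplexConjugate

namespace Q240.GS

open Pool.Agent.W169.HF H353.E H353.F

variable {m : ℕ}

lemma LD_congr (f : ℂ → ℂ) (P : ℂ[X]) (S : Finset ℝ) {c d : ℝ → ℂ} (h : ∀ l ∈ S, c l = d l) (s : ℂ) :
    LD f P S c s = LD f P S d s := by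
  unfold LD
  congr 1
  exact Finset.sum_congr rfl fun l hl => by rw [h l hl]

/-- the coefficients, extended by zero -/
noncomputable def ext0 (S : Finset ℝ) (c : ℝ → ℂ) (l : ℝ) : ℂ := by
  classical exact if l ∈ S then c l else 0

lemma ext0_mem (S : Finset ℝ) (c : ℝ → ℂ) {l : ℝ} (hl : l ∈ S) : ext0 S c l = c l := by
  unfold ext0; rw [if_pos hl]

lemma ext0_le (S : Finset ℝ) (c : ℝ → ℂ) {B : ℝ} (hB : 0 ≤ B) (h : ∀ l ∈ S, ‖c l‖ ≤ B) (l : ℝ) :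
    ‖ext0 S c l‖ ≤ B := by
  unfold ext0
  split_ifs with h1
  · exact h l h1
  · rw [norm_zero]; exact hB

/-- the conductor is large far from the parameters -/
lemma cnd_far (hm : 1 ≤ m) {N : ℝ} (hN : 1 ≤ N) (μ : Fin m → ℂ) {T X : ℝ} (hX : 0 ≤ X)
    (h : ∀ j, X ≤ |T - (μ j).im|) : 1 + X ≤ cnd N μ T := by
  have h1 : (1 + X) ^ m ≤ ∏ j, (1 + ‖(T : ℂ) * I - μ j‖) := by
    have h2 : ∏ _j : Fin m, (1 + X) ≤ ∏ j, (1 + ‖(T : ℂ) * I - μ j‖) := by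
      refine Finset.prod_le_prod (fun j _ => by positivity) fun j _ => ?_
      have h3 := abs_im_le_norm ((T : ℂ) * I - μ j)
      have h4 : ((T : ℂ) * I - μ j).im = T - (μ j).im := by simp
      rw [h4] at h3
      linarith [h j]
    rwa [Finset.prod_const, Finset.card_univ, Fintype.card_fin] at h2
  have h2 : 1 + X ≤ (1 + X) ^ m := le_self_pow₀ (by linarith) (by omega)
  unfold cnd
  have h3 : 1 ≤ ∏ j, (1 + ‖(T : ℂ) * I - μ j‖) := by linarith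
  nlinarith

/-- **Shadows.** -/
theorem shadow_L (hm : 1 ≤ m) (P Q : ℂ[X]) (hP : P ≠ 0) (hQ : Q ≠ 0) (S R : Finset ℝ) (B α ε : ℝ) (hB : 0 ≤ B)
    (hα : α ≤ 1 / 2) (hε : 0 < ε) : ∃ X : ℝ, 1 ≤ X ∧ ∀ (N : ℝ) (μ : Fin m → ℂ) (Λ : ℂ → ℂ), Ob N μ Λ →
    ∀ c d : ℝ → ℂ, (∀ l ∈ S, ‖c l‖ ≤ B) → (∀ l ∈ R, ‖d l‖ ≤ B) → ∀ ρ : ℂ, (∀ j, X ≤ |ρ.im - (μ j).im|) →
    FF μ Λ P S c ρ = 0 → -1 / 4 ≤ ρ.re → ρ.re ≤ α - ε →
      ∃ s : ℂ, FF μ Λ Q R d s = 0 ∧ -1 / 4 < s.re ∧ s.re < α ∧ |s.im - ρ.im| ≤ X := by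
  obtain ⟨e, L0, C, he, hL0, hC, H⟩ := shadow P Q hP hQ S R B 9 hB (by norm_num) α ε hε hα
  obtain ⟨C0, hC0, HB⟩ := base_of m hm C e (by linarith) he
  have hm0 : (0 : ℝ) ≤ m := Nat.cast_nonneg m
  obtain ⟨V, hV⟩ : ∃ V : ℝ, V = L0 + C0 + 28 * m := ⟨_, rfl⟩
  have hV0 : 0 ≤ V := by rw [hV]; positivity
  refine ⟨C + 1 + Real.exp V, by linarith [Real.exp_pos V], ?_⟩
  rintro N μ Λ ⟨α', ε', D, hnz⟩ c d hc hd ρ hfar hρ h1 h2
  obtain ⟨T, hT⟩ : ∃ T : ℝ, T = ρ.im := ⟨_, rfl⟩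
  have hexp := Real.exp_pos V
  have hcnd := cnd_far hm D.one_le μ (by linarith : 0 ≤ C + 1 + Real.exp V) hfar
  have hlog : V ≤ Real.log (cnd N μ T) := by
    have h3 : Real.exp V ≤ cnd N μ T := by rw [hT]; linarith
    have := Real.log_le_log hexp h3
    rwa [Real.log_exp] at this
  obtain ⟨b1, b2⟩ := el_bd D.one_le D.re_le T
  obtain ⟨hb, -⟩ := HB N μ α' ε' Λ D hnz T (by linarith) (fun j => by
    have := hfar j
    rw [hT]
    linarith)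
  obtain ⟨s, s1, s2, s3, s4⟩ := H (fun s => LL μ Λ (s + T * I)) (tw (ext0 S c) T) (tw (ext0 R d) T)
    (2 * el N μ T) C (by linarith) (fun l => by rw [tw_norm]; exact ext0_le S c hB hc l)
    (fun l => by rw [tw_norm]; exact ext0_le R d hB hd l) hb (ρ - T * I)
    (by
      rw [LD_shift, sub_add_cancel, LD_congr (LL μ Λ) P S (fun l hl => ext0_mem S c hl)]
      exact hρ)
    (by simpa using h1) (by simpa using h2) (by simp [hT])
  refine ⟨s + T * I, ?_, by simpa using s2, by simpa using s3, ?_⟩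
  · rw [LD_shift, LD_congr (LL μ Λ) Q R (fun l hl => ext0_mem R d hl)] at s1
    exact s1
  · have e1 : (s + T * I).im - ρ.im = s.im - (ρ - T * I).im := by simp; ring
    rw [e1]
    linarith

/-- the trivial bound -/
theorem triv_L (hm : 1 ≤ m) : ∃ B : ℝ, 0 ≤ B ∧ ∀ (N : ℝ) (μ : Fin m → ℂ) (Λ : ℂ → ℂ), Ob N μ Λ → ∀ σ T : ℝ,
    1 / 2 ≤ σ → σ ≤ 1 → ‖LL μ Λ (⟨σ, T⟩ : ℂ)‖ ≤ Real.exp (B + Real.log (cnd N μ T)) := by
  obtain ⟨Kn, hKn, hnd⟩ := nd_of m hm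
  have hm0 : (0 : ℝ) ≤ m := Nat.cast_nonneg m
  have hK := KE_nonneg m 0 (one_pos (α := ℝ)) 5
  refine ⟨KE m 0 1 5 + 2 * Kn + 22 * m, by positivity, ?_⟩
  rintro N μ Λ ⟨α', ε', d, hnz⟩ σ T h1 h2
  obtain ⟨b1, b2⟩ := el_bd d.one_le d.re_le T
  have nd := hnd N μ α' ε' Λ d hnz T
  have hW : 0 ≤ Real.log (cnd N μ T) := Real.log_nonneg (cnd_pos d.one_le μ T)
  obtain ⟨c1, -⟩ := cmp_winE hm d.one_le d.re_le Λ T 0 one_pos le_rfl (s := (⟨σ, 0⟩ : ℂ)) (by simp)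
    (by simp only; linarith) (by simp only; linarith)
  have e1 : (⟨σ, 0⟩ : ℂ) + T * I = ⟨σ, T⟩ := by
    apply Complex.ext <;> simp
  rw [e1] at c1
  have e2 : (⟨σ, 0⟩ : ℂ) - 1 / 2 = ((σ - 1 / 2 : ℝ) : ℂ) := by
    apply Complex.ext <;> simp
  rw [e2] at c1
  have u1 := nd.ud.up ((σ - 1 / 2 : ℝ) : ℂ)
  rw [ofReal_re, one_mul, abs_of_nonneg (by linarith), max_eq_right (by linarith), norm_real,
    Real.norm_of_nonneg (by linarith)] at u1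
  refine c1.trans ?_
  calc _ ≤ Real.exp (-(el N μ T * (σ - 1 / 2)) + KE m 0 1 5) *
        Real.exp (el N μ T * (3 / 2) + Kn * (1 + (σ - 1 / 2) ^ 2)) :=
          mul_le_mul_of_nonneg_left u1 (Real.exp_pos _).le
    _ = Real.exp ((-(el N μ T * (σ - 1 / 2)) + KE m 0 1 5) +
        (el N μ T * (3 / 2) + Kn * (1 + (σ - 1 / 2) ^ 2))) := (Real.exp_add _ _).symm
    _ ≤ _ := by
        apply Real.exp_le_exp.2
        have h3 : Kn * (1 + (σ - 1 / 2) ^ 2) ≤ Kn * 2 := by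
          apply mul_le_mul_of_nonneg_left _ (by linarith)
          nlinarith
        have h4 : el N μ T * (2 - σ) ≤ Real.log (cnd N μ T) + 22 * m := by
          have h5 : el N μ T ≤ 1 / 2 * Real.log (cnd N μ T) + 5 * m := by linarith
          calc el N μ T * (2 - σ) ≤ (1 / 2 * Real.log (cnd N μ T) + 5 * m) * (2 - σ) :=
                mul_le_mul_of_nonneg_right h5 (by linarith)
            _ ≤ (1 / 2 * Real.log (cnd N μ T) + 5 * m) * 2 :=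
                mul_le_mul_of_nonneg_left (by linarith) (by positivity)
            _ ≤ _ := by linarith
        linarith

end Q240.GS
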