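import Pool.Agent.Q240.GS.Slim

/-!
# The gamma factor in a window away from its poles, and the local data of an L-function
-/

set_option autoImplicit false

open Complex Set MeasureTheory Filter Topology
open scoped ComplexConjugate

namespace Q240.GS

open Pool.Agent.W169.HF H353.E H353.F

variable {m : ℕ} {N : ℝ} {μ : Fin m → ℂ}

/-- lower bound for the product of the linear factors, away from the poles -/
lemma le_fac1 (hN : 1 ≤ N) (y : ℝ) {u : ℂ} (hu : ∀ j, 1 ≤ ‖1 / 2 + (y : ℂ) * I + u - μ j‖) :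
    cnd N μ y ≤ N * (∏ j, (‖1 / 2 + (y : ℂ) * I + u - μ j‖ / (2 * Real.pi))) *
        Real.exp (m * (25 * (1 + ‖u‖ ^ 2))) := by
  have hN0 : 0 < N := by linarith
  have hpi := Real.pi_gt_three
  have hpi' : Real.pi < 3.15 := Real.pi_lt_d2
  have hu0 := norm_nonneg u
  have h1 : ∀ j, 1 + ‖(y : ℂ) * I - μ j‖ ≤ (‖1 / 2 + (y : ℂ) * I + u - μ j‖ / (2 * Real.pi)) *
      Real.exp (25 * (1 + ‖u‖ ^ 2)) := fun j => by
    have h2 : ‖(y : ℂ) * I - μ j‖ ≤ ‖1 / 2 + (y : ℂ) * I + u - μ j‖ + (1 / 2 + ‖u‖) := by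
      have e : (y : ℂ) * I - μ j = (1 / 2 + (y : ℂ) * I + u - μ j) - (1 / 2 + u) := by ring
      rw [e]
      refine (norm_sub_le _ _).trans ?_
      have := norm_add_le (1 / 2 : ℂ) u
      have e2 : ‖(1 / 2 : ℂ)‖ = 1 / 2 := by simp
      linarith
    have h3 := hu j
    obtain ⟨w, hw⟩ : ∃ w : ℝ, w = ‖1 / 2 + (y : ℂ) * I + u - μ j‖ := ⟨_, rfl⟩
    rw [← hw] at h2 h3 ⊢
    have hw0 : 0 < w := by linarith
    have h5 : 25 * (1 + ‖u‖ ^ 2) ≤ Real.exp (25 * (1 + ‖u‖ ^ 2)) := by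
      linarith [Real.add_one_le_exp (25 * (1 + ‖u‖ ^ 2))]
    have h6 : 1 + ‖(y : ℂ) * I - μ j‖ ≤ w + (3 / 2 + ‖u‖) := by linarith
    have h7 : w + (3 / 2 + ‖u‖) ≤ w * (5 / 2 + ‖u‖) := by
      nlinarith [mul_nonneg (sub_nonneg.2 h3) hu0]
    have h8 : w * (5 / 2 + ‖u‖) ≤ w / (2 * Real.pi) * (25 * (1 + ‖u‖ ^ 2)) := by
      rw [div_mul_eq_mul_div, le_div_iff₀ (by positivity)]
      have h9 : (5 / 2 + ‖u‖) * (2 * Real.pi) ≤ 25 * (1 + ‖u‖ ^ 2) := by nlinarith [sq_nonneg (‖u‖ - 1)]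
      have := mul_le_mul_of_nonneg_left h9 hw0.le
      linarith
    calc _ ≤ _ := h6
      _ ≤ _ := h7
      _ ≤ _ := h8
      _ ≤ _ := mul_le_mul_of_nonneg_left h5 (by positivity)
  have h7 : ∏ j, (1 + ‖(y : ℂ) * I - μ j‖) ≤ ∏ j, ((‖1 / 2 + (y : ℂ) * I + u - μ j‖ / (2 * Real.pi)) *
      Real.exp (25 * (1 + ‖u‖ ^ 2))) :=
    Finset.prod_le_prod (fun j _ => by positivity) fun j _ => h1 j
  rw [Finset.prod_mul_distrib, Finset.prod_const, Finset.card_univ, Fintype.card_fin,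
    ← Real.exp_nat_mul] at h7
  unfold cnd
  calc N * ∏ j, (1 + ‖(y : ℂ) * I - μ j‖) ≤ N * ((∏ j, (‖1 / 2 + (y : ℂ) * I + u - μ j‖ / (2 * Real.pi))) *
      Real.exp (m * (25 * (1 + ‖u‖ ^ 2)))) := mul_le_mul_of_nonneg_left h7 hN0.le
    _ = _ := by ring

/-- one step to the left -/
lemma gam_step (hN : 1 ≤ N) (hμ : ∀ j, (μ j).re ≤ 1 / 2) (y : ℝ) {G K : ℝ} (hG : 0 < G) {u : ℂ}
    (hu : ∀ j, 1 ≤ ‖1 / 2 + (y : ℂ) * I + u - μ j‖)
    (h1 : G * Real.exp (el N μ y * (u.re + 2) - K) ≤ ‖gaf N μ (1 / 2 + (y : ℂ) * I + (u + 2))‖)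
    (h2 : ‖gaf N μ (1 / 2 + (y : ℂ) * I + (u + 2))‖ ≤ G * Real.exp (el N μ y * (u.re + 2) + K)) :
    G * Real.exp (el N μ y * u.re - (K + (25 * m * (1 + ‖u‖ ^ 2) + 14 * m))) ≤
      ‖gaf N μ (1 / 2 + (y : ℂ) * I + u)‖ ∧
    ‖gaf N μ (1 / 2 + (y : ℂ) * I + u)‖ ≤
      G * Real.exp (el N μ y * u.re + (K + (25 * m * (1 + ‖u‖ ^ 2) + 14 * m))) := by
  have hN0 : 0 < N := by linarith
  obtain ⟨ℓ, hℓ⟩ : ∃ ℓ : ℝ, ℓ = el N μ y := ⟨_, rfl⟩
  obtain ⟨b1, b2⟩ := el_bd hN hμ y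
  rw [← hℓ] at h1 h2 b1 b2 ⊢
  obtain ⟨s, hs⟩ : ∃ s : ℂ, s = 1 / 2 + (y : ℂ) * I + u := ⟨_, rfl⟩
  have hup := fac_le (μ := μ) hN y u
  have hlo := le_fac1 hN y hu
  rw [← hs] at hu hup hlo ⊢
  have hz : ∀ j, s - μ j ≠ 0 := fun j h => by
    have := hu j
    rw [h, norm_zero] at this
    linarith
  have h3 := gaf_add_two hN0 hz
  rw [show (1 / 2 + (y : ℂ) * I + (u + 2) : ℂ) = s + 2 by rw [hs]; ring, h3, norm_mul, norm_fac hN0] at h1 h2
  obtain ⟨P, hP⟩ : ∃ P : ℝ, P = N * ∏ j, (‖s - μ j‖ / (2 * Real.pi)) := ⟨_, rfl⟩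
  rw [← hP] at h1 h2 hup hlo
  have hP0 : 0 < P := by
    rw [hP]
    refine mul_pos hN0 (Finset.prod_pos fun j _ => ?_)
    have := hu j
    have hpi := Real.pi_pos
    positivity
  have hc : cnd N μ y = Real.exp (Real.log (cnd N μ y)) := cnd_exp hN y
  have hn : 0 ≤ ‖u‖ ^ 2 := by positivity
  have hm0 : (0 : ℝ) ≤ m := Nat.cast_nonneg m
  have hmn : 0 ≤ (m : ℝ) * ‖u‖ ^ 2 := by positivity
  have hPup : P ≤ Real.exp (2 * ℓ + 14 * m + m * (1 + ‖u‖ ^ 2)) := by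
    refine hup.trans ?_
    rw [hc, ← Real.exp_add]
    apply Real.exp_le_exp.2
    linarith
  have hPlo : Real.exp (2 * ℓ - 10 * m - m * (25 * (1 + ‖u‖ ^ 2))) ≤ P := by
    have h4 : Real.exp (2 * ℓ - 10 * m) ≤ P * Real.exp (m * (25 * (1 + ‖u‖ ^ 2))) := by
      refine le_trans ?_ hlo
      rw [hc]
      apply Real.exp_le_exp.2
      linarith
    calc Real.exp (2 * ℓ - 10 * m - m * (25 * (1 + ‖u‖ ^ 2))) =
        Real.exp (2 * ℓ - 10 * m) * Real.exp (-(m * (25 * (1 + ‖u‖ ^ 2)))) := by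
          rw [← Real.exp_add]; congr 1
      _ ≤ (P * Real.exp (m * (25 * (1 + ‖u‖ ^ 2)))) * Real.exp (-(m * (25 * (1 + ‖u‖ ^ 2)))) := by gcongr
      _ = P := by rw [mul_assoc, ← Real.exp_add, add_neg_cancel, Real.exp_zero, mul_one]
  have hg : ‖gaf N μ s‖ = (‖gaf N μ s‖ * P) * P⁻¹ := by field_simp
  constructor
  · rw [hg]
    have h5 : Real.exp (-(2 * ℓ + 14 * m + m * (1 + ‖u‖ ^ 2))) ≤ P⁻¹ := by
      rw [Real.exp_neg]
      exact inv_anti₀ hP0 hPup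
    calc G * Real.exp (ℓ * u.re - (K + (25 * m * (1 + ‖u‖ ^ 2) + 14 * m))) ≤
        G * Real.exp ((ℓ * (u.re + 2) - K) + (-(2 * ℓ + 14 * m + m * (1 + ‖u‖ ^ 2)))) := by
          apply mul_le_mul_of_nonneg_left _ hG.le
          apply Real.exp_le_exp.2
          nlinarith
      _ = G * Real.exp (ℓ * (u.re + 2) - K) * Real.exp (-(2 * ℓ + 14 * m + m * (1 + ‖u‖ ^ 2))) := by
          rw [Real.exp_add, mul_assoc]
      _ ≤ _ := mul_le_mul h1 h5 (Real.exp_pos _).le (by positivity)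
  · rw [hg]
    have h5 : P⁻¹ ≤ Real.exp (-(2 * ℓ - 10 * m - m * (25 * (1 + ‖u‖ ^ 2)))) := by
      rw [Real.exp_neg]
      exact inv_anti₀ (Real.exp_pos _) hPlo
    calc (‖gaf N μ s‖ * P) * P⁻¹ ≤ (G * Real.exp (ℓ * (u.re + 2) + K)) *
          Real.exp (-(2 * ℓ - 10 * m - m * (25 * (1 + ‖u‖ ^ 2)))) :=
          mul_le_mul h2 h5 (by positivity) (by positivity)
      _ = G * Real.exp ((ℓ * (u.re + 2) + K) + (-(2 * ℓ - 10 * m - m * (25 * (1 + ‖u‖ ^ 2))))) := by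
          rw [Real.exp_add (_ + _), mul_assoc]
      _ ≤ _ := by
          apply mul_le_mul_of_nonneg_left _ hG.le
          apply Real.exp_le_exp.2
          nlinarith

/-- the gamma factor in a window away from its poles -/
theorem gam_win (hm : 1 ≤ m) (hN : 1 ≤ N) (hμ : ∀ j, (μ j).re ≤ 1 / 2) (y Y : ℝ) (hY : 0 ≤ Y)
    (hy : ∀ j, Y + 1 ≤ |y - (μ j).im|) (n : ℕ) : ∀ u : ℂ, |u.im| ≤ Y → -8 ≤ u.re → 1 / 2 ≤ u.re + 2 * n →
      u.re + 2 * n ≤ 18 →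
    (‖gaf N μ (3 / 2 + y * I)‖ * Real.exp (-(gaD N μ (3 / 2 + y * I)).re)) *
      Real.exp (el N μ y * u.re - (24 * m * (1 + (18 + Y) ^ 2) + n * (25 * m * (1 + (18 + Y) ^ 2) + 14 * m))) ≤
      ‖gaf N μ (1 / 2 + (y : ℂ) * I + u)‖ ∧
    ‖gaf N μ (1 / 2 + (y : ℂ) * I + u)‖ ≤
      (‖gaf N μ (3 / 2 + y * I)‖ * Real.exp (-(gaD N μ (3 / 2 + y * I)).re)) *
      Real.exp (el N μ y * u.re + (24 * m * (1 + (18 + Y) ^ 2) + n * (25 * m * (1 + (18 + Y) ^ 2) + 14 * m))) := by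
  have hm0 : (0 : ℝ) ≤ m := Nat.cast_nonneg m
  have hGpos := gpos hm hN hμ y
  have hsq : ∀ u : ℂ, |u.im| ≤ Y → |u.re| ≤ 18 → ‖u‖ ^ 2 ≤ (18 + Y) ^ 2 := by
    intro u h1 h2
    apply pow_le_pow_left₀ (norm_nonneg _)
    have := Complex.norm_le_abs_re_add_abs_im u
    linarith
  induction n with
  | zero =>
    intro u h1 h2 h3 h4
    rw [Nat.cast_zero, mul_zero, add_zero] at h3 h4
    have gp := gaf_GP hm hN hμ
    obtain ⟨q1, q2⟩ := gam_loc gp y (u := u) h3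
    have h5 := hsq u h1 (by rw [abs_le]; constructor <;> linarith)
    have h6 : (m : ℝ) * ‖u‖ ^ 2 ≤ m * (18 + Y) ^ 2 := mul_le_mul_of_nonneg_left h5 hm0
    constructor
    · refine le_trans ?_ q2
      apply mul_le_mul_of_nonneg_left _ hGpos.le
      apply Real.exp_le_exp.2
      show el N μ y * u.re - _ ≤ el N μ y * u.re - _
      push_cast
      linarith
    · refine q1.trans ?_
      apply mul_le_mul_of_nonneg_left _ hGpos.le
      apply Real.exp_le_exp.2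
      show el N μ y * u.re + _ ≤ el N μ y * u.re + _
      push_cast
      linarith
  | succ n ih =>
    intro u h1 h2 h3 h4
    push_cast at h3 h4
    have e1 : (u + 2).re = u.re + 2 := by simp
    have e2 : (u + 2).im = u.im := by simp
    obtain ⟨q1, q2⟩ := ih (u + 2) (by rw [e2]; exact h1) (by rw [e1]; linarith) (by rw [e1]; linarith)
      (by rw [e1]; linarith)
    rw [e1] at q1 q2
    have hu : ∀ j, 1 ≤ ‖1 / 2 + (y : ℂ) * I + u - μ j‖ := fun j => by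
      refine le_trans ?_ (abs_im_le_norm _)
      have e3 : (1 / 2 + (y : ℂ) * I + u - μ j).im = (y - (μ j).im) + u.im := by simp; ring
      rw [e3]
      have h5 := hy j
      have h6 : |y - (μ j).im| ≤ |(y - (μ j).im) + u.im| + |u.im| := by
        calc |y - (μ j).im| = |((y - (μ j).im) + u.im) - u.im| := by congr 1; ring
          _ ≤ _ := abs_sub _ _
      linarith
    obtain ⟨r1, r2⟩ := gam_step hN hμ y hGpos hu q1 q2
    have hn0 : (0 : ℝ) ≤ n := Nat.cast_nonneg n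
    have h5 := hsq u h1 (by rw [abs_le]; constructor <;> linarith)
    have h6 : (m : ℝ) * ‖u‖ ^ 2 ≤ m * (18 + Y) ^ 2 := mul_le_mul_of_nonneg_left h5 hm0
    constructor
    · refine le_trans ?_ r1
      apply mul_le_mul_of_nonneg_left _ hGpos.le
      apply Real.exp_le_exp.2
      push_cast
      linarith
    · refine r2.trans ?_
      apply mul_le_mul_of_nonneg_left _ hGpos.le
      apply Real.exp_le_exp.2
      push_cast
      linarith

end Q240.GS
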