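import Pool.Agent.Q240.GS.Gam
import Pool.Agent.Q240.GS.Ex4

/-!
# The gamma factor in a window, and the local data of an L-function at every height
-/

set_option autoImplicit false

open Complex Set MeasureTheory Filter Topology
open scoped ComplexConjugate

namespace Q240.GS

open Pool.Agent.W169.HF H353.E H353.F

variable {m : ℕ} {N : ℝ} {μ : Fin m → ℂ}

/-- lower bound for the product of the linear factors, away from the poles -/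
lemma le_facE (hN : 1 ≤ N) (y : ℝ) {δ : ℝ} (hδ : 0 < δ) (hδ1 : δ ≤ 1) {u : ℂ}
    (hu : ∀ j, δ ≤ ‖1 / 2 + (y : ℂ) * I + u - μ j‖) :
    cnd N μ y ≤ N * (∏ j, (‖1 / 2 + (y : ℂ) * I + u - μ j‖ / (2 * Real.pi))) *
        Real.exp (m * (25 / δ * (1 + ‖u‖ ^ 2))) := by
  have hN0 : 0 < N := by linarith
  have hpi := Real.pi_gt_three
  have hpi' : Real.pi < 3.15 := Real.pi_lt_d2
  have hu0 := norm_nonneg u
  have h1 : ∀ j, 1 + ‖(y : ℂ) * I - μ j‖ ≤ (‖1 / 2 + (y : ℂ) * I + u - μ j‖ / (2 * Real.pi)) *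
      Real.exp (25 / δ * (1 + ‖u‖ ^ 2)) := fun j => by
    have h2 : ‖(y : ℂ) * I - μ j‖ ≤ ‖1 / 2 + (y : ℂ) * I + u - μ j‖ + (1 / 2 + ‖u‖) := by
      have e : (y : ℂ) * I - μ j = (1 / 2 + (y : ℂ) * I + u - μ j) - (1 / 2 + u) := by ring
      rw [e]
      refine (norm_sub_le _ _).trans ?_
      have := norm_add_le (1 / 2 : ℂ) u
      have e2 : ‖(1 / 2 : ℂ)‖ = 1 / 2 := by simp
      linarith
    have h3 := hu j
    obtain ⟨w, hw⟩ : ∃ w : ℝ, w = ‖1 / 2 + (y : ℂ) * I + u - μ j‖ := ⟨_, rfl⟩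
    rw [← hw] at h2 h3 ⊢
    have hw0 : 0 < w := by linarith
    have h5 : 25 / δ * (1 + ‖u‖ ^ 2) ≤ Real.exp (25 / δ * (1 + ‖u‖ ^ 2)) := by
      linarith [Real.add_one_le_exp (25 / δ * (1 + ‖u‖ ^ 2))]
    have h6 : 1 + ‖(y : ℂ) * I - μ j‖ ≤ w + (3 / 2 + ‖u‖) := by linarith
    have h7 : w + (3 / 2 + ‖u‖) ≤ w / δ * (5 / 2 + ‖u‖) := by
      rw [div_mul_eq_mul_div, le_div_iff₀ hδ]
      nlinarith [mul_nonneg (sub_nonneg.2 h3) hu0, mul_nonneg hw0.le hu0]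
    have h8 : w / δ * (5 / 2 + ‖u‖) ≤ w / (2 * Real.pi) * (25 / δ * (1 + ‖u‖ ^ 2)) := by
      rw [div_mul_eq_mul_div, div_mul_eq_mul_div, div_le_div_iff₀ hδ (by positivity)]
      have h9 : (5 / 2 + ‖u‖) * (2 * Real.pi) ≤ 25 * (1 + ‖u‖ ^ 2) := by nlinarith [sq_nonneg (‖u‖ - 1)]
      have e9 : w * (25 / δ * (1 + ‖u‖ ^ 2)) * δ = w * (25 * (1 + ‖u‖ ^ 2)) := by field_simp
      rw [e9]
      have := mul_le_mul_of_nonneg_left h9 hw0.le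
      linarith
    calc _ ≤ _ := h6
      _ ≤ _ := h7
      _ ≤ _ := h8
      _ ≤ _ := mul_le_mul_of_nonneg_left h5 (by positivity)
  have h7 : ∏ j, (1 + ‖(y : ℂ) * I - μ j‖) ≤ ∏ j, ((‖1 / 2 + (y : ℂ) * I + u - μ j‖ / (2 * Real.pi)) *
      Real.exp (25 / δ * (1 + ‖u‖ ^ 2))) :=
    Finset.prod_le_prod (fun j _ => by positivity) fun j _ => h1 j
  rw [Finset.prod_mul_distrib, Finset.prod_const, Finset.card_univ, Fintype.card_fin,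
    ← Real.exp_nat_mul] at h7
  unfold cnd
  calc N * ∏ j, (1 + ‖(y : ℂ) * I - μ j‖) ≤ N * ((∏ j, (‖1 / 2 + (y : ℂ) * I + u - μ j‖ / (2 * Real.pi))) *
      Real.exp (m * (25 / δ * (1 + ‖u‖ ^ 2)))) := mul_le_mul_of_nonneg_left h7 hN0.le
    _ = _ := by ring

/-- one step to the left, the inverse -/
lemma gam_stepI (hN : 1 ≤ N) (hμ : ∀ j, (μ j).re ≤ 1 / 2) (y : ℝ) {G K : ℝ} (hG : 0 < G) {u : ℂ}
    (h2 : ‖(gaf N μ (1 / 2 + (y : ℂ) * I + (u + 2)))⁻¹‖ ≤ G⁻¹ * Real.exp (-(el N μ y * (u.re + 2)) + K)) :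
    ‖(gaf N μ (1 / 2 + (y : ℂ) * I + u))⁻¹‖ ≤
      G⁻¹ * Real.exp (-(el N μ y * u.re) + (K + (m * (1 + ‖u‖ ^ 2) + 14 * m))) := by
  have hN0 : 0 < N := by linarith
  obtain ⟨ℓ, hℓ⟩ : ∃ ℓ : ℝ, ℓ = el N μ y := ⟨_, rfl⟩
  obtain ⟨b1, b2⟩ := el_bd hN hμ y
  rw [← hℓ] at h2 b1 b2 ⊢
  obtain ⟨s, hs⟩ : ∃ s : ℂ, s = 1 / 2 + (y : ℂ) * I + u := ⟨_, rfl⟩
  have hup := fac_le (μ := μ) hN y u
  rw [← hs] at hup ⊢
  rw [show (1 / 2 + (y : ℂ) * I + (u + 2) : ℂ) = s + 2 by rw [hs]; ring] at h2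
  have hc : cnd N μ y = Real.exp (Real.log (cnd N μ y)) := cnd_exp hN y
  have hpole : (∃ j, ∃ i : ℕ, s - μ j = -(2 * i)) → ‖(gaf N μ s)⁻¹‖ ≤
      G⁻¹ * Real.exp (-(ℓ * u.re) + (K + (m * (1 + ‖u‖ ^ 2) + 14 * m))) := by
    rintro ⟨j, i, hj⟩
    have h1 : gaf N μ s = 0 := by
      unfold gaf
      rw [Finset.prod_eq_zero (Finset.mem_univ j), mul_zero]
      rw [hj, Gammaℝ_eq_zero_iff]
      exact ⟨i, by simp⟩
    rw [h1, inv_zero, norm_zero]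
    positivity
  rcases eq_or_ne (gaf N μ (s + 2)) 0 with h3 | h3
  · have h4 : ∃ j, Gammaℝ (s + 2 - μ j) = 0 := by
      unfold gaf at h3
      rcases mul_eq_zero.1 h3 with h5 | h5
      · exact absurd (Complex.cpow_eq_zero_iff _ _ |>.1 h5).1 (by exact_mod_cast hN0.ne')
      · obtain ⟨j, -, hj⟩ := Finset.prod_eq_zero_iff.1 h5
        exact ⟨j, hj⟩
    obtain ⟨j, hj⟩ := h4
    obtain ⟨n, hn⟩ := Gammaℝ_eq_zero_iff.1 hj
    refine hpole ⟨j, n + 1, ?_⟩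
    push_cast
    linear_combination hn
  by_cases hz : ∀ j, s - μ j ≠ 0
  swap
  · push Not at hz
    obtain ⟨j, hj⟩ := hz
    exact hpole ⟨j, 0, by simp [hj]⟩
  have h1 := gaf_add_two hN0 hz
  have h4 : (gaf N μ s)⁻¹ = (gaf N μ (s + 2))⁻¹ * (N * ∏ j, ((s - μ j) / 2 / Real.pi)) := by
    have h6 : gaf N μ s ≠ 0 := fun h => h3 (by rw [h1, h, zero_mul])
    have h7 : (N * ∏ j, ((s - μ j) / 2 / Real.pi) : ℂ) ≠ 0 := fun h => h3 (by rw [h1, h, mul_zero])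
    rw [h1, mul_inv, mul_assoc, inv_mul_cancel₀ h7, mul_one]
  rw [h4, norm_mul, norm_fac hN0]
  obtain ⟨P, hP⟩ : ∃ P : ℝ, P = N * ∏ j, (‖s - μ j‖ / (2 * Real.pi)) := ⟨_, rfl⟩
  rw [← hP] at hup ⊢
  have hP0 : 0 ≤ P := by
    rw [hP]
    have hpi := Real.pi_pos
    positivity
  have hPup : P ≤ Real.exp (2 * ℓ + 14 * m + m * (1 + ‖u‖ ^ 2)) := by
    refine hup.trans ?_
    rw [hc, ← Real.exp_add]
    apply Real.exp_le_exp.2
    linarith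
  calc ‖(gaf N μ (s + 2))⁻¹‖ * P ≤ (G⁻¹ * Real.exp (-(ℓ * (u.re + 2)) + K)) *
        Real.exp (2 * ℓ + 14 * m + m * (1 + ‖u‖ ^ 2)) := mul_le_mul h2 hPup hP0 (by positivity)
    _ = G⁻¹ * Real.exp ((-(ℓ * (u.re + 2)) + K) + (2 * ℓ + 14 * m + m * (1 + ‖u‖ ^ 2))) := by
        rw [mul_assoc, ← Real.exp_add]
    _ = _ := by
        congr 2
        ring

/-- one step to the left, away from the poles -/
lemma gam_stepU (hN : 1 ≤ N) (hμ : ∀ j, (μ j).re ≤ 1 / 2) (y : ℝ) {δ : ℝ} (hδ : 0 < δ) (hδ1 : δ ≤ 1)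
    {G K : ℝ} (hG : 0 < G) {u : ℂ}
    (hu : ∀ j, δ ≤ ‖1 / 2 + (y : ℂ) * I + u - μ j‖)
    (h1 : gaf N μ (1 / 2 + (y : ℂ) * I + (u + 2)) ≠ 0)
    (h2 : ‖gaf N μ (1 / 2 + (y : ℂ) * I + (u + 2))‖ ≤ G * Real.exp (el N μ y * (u.re + 2) + K)) :
    gaf N μ (1 / 2 + (y : ℂ) * I + u) ≠ 0 ∧ ‖gaf N μ (1 / 2 + (y : ℂ) * I + u)‖ ≤
      G * Real.exp (el N μ y * u.re + (K + (25 / δ * (m * (1 + ‖u‖ ^ 2)) + 14 * m))) := by
  have hN0 : 0 < N := by linarith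
  obtain ⟨ℓ, hℓ⟩ : ∃ ℓ : ℝ, ℓ = el N μ y := ⟨_, rfl⟩
  obtain ⟨b1, b2⟩ := el_bd hN hμ y
  rw [← hℓ] at h2 b1 b2 ⊢
  obtain ⟨s, hs⟩ : ∃ s : ℂ, s = 1 / 2 + (y : ℂ) * I + u := ⟨_, rfl⟩
  have hlo := le_facE hN y hδ hδ1 hu
  rw [← hs] at hu hlo ⊢
  have hz : ∀ j, s - μ j ≠ 0 := fun j h => by
    have := hu j
    rw [h, norm_zero] at this
    linarith
  have h3 := gaf_add_two hN0 hz
  rw [show (1 / 2 + (y : ℂ) * I + (u + 2) : ℂ) = s + 2 by rw [hs]; ring] at h1 h2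
  have h6 : gaf N μ s ≠ 0 := fun h => h1 (by rw [h3, h, zero_mul])
  refine ⟨h6, ?_⟩
  rw [h3, norm_mul, norm_fac hN0] at h2
  obtain ⟨P, hP⟩ : ∃ P : ℝ, P = N * ∏ j, (‖s - μ j‖ / (2 * Real.pi)) := ⟨_, rfl⟩
  rw [← hP] at h2 hlo
  have hP0 : 0 < P := by
    rw [hP]
    refine mul_pos hN0 (Finset.prod_pos fun j _ => ?_)
    have := hu j
    have hpi := Real.pi_pos
    have : 0 < ‖s - μ j‖ := by linarith
    positivity
  have hc : cnd N μ y = Real.exp (Real.log (cnd N μ y)) := cnd_exp hN y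
  have hm0 : (0 : ℝ) ≤ m := Nat.cast_nonneg m
  obtain ⟨V, hV⟩ : ∃ V : ℝ, V = 25 / δ * (m * (1 + ‖u‖ ^ 2)) := ⟨_, rfl⟩
  rw [show (m : ℝ) * (25 / δ * (1 + ‖u‖ ^ 2)) = V by rw [hV]; ring] at hlo
  rw [← hV]
  have hPlo : Real.exp (2 * ℓ - 10 * m - V) ≤ P := by
    have h4 : Real.exp (2 * ℓ - 10 * m) ≤ P * Real.exp V := by
      refine le_trans ?_ hlo
      rw [hc]
      apply Real.exp_le_exp.2
      linarith
    calc Real.exp (2 * ℓ - 10 * m - V) =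
        Real.exp (2 * ℓ - 10 * m) * Real.exp (-V) := by
          rw [← Real.exp_add]; congr 1
      _ ≤ (P * Real.exp V) * Real.exp (-V) := by gcongr
      _ = P := by rw [mul_assoc, ← Real.exp_add, add_neg_cancel, Real.exp_zero, mul_one]
  have hg : ‖gaf N μ s‖ = (‖gaf N μ s‖ * P) * P⁻¹ := by field_simp
  rw [hg]
  have h5 : P⁻¹ ≤ Real.exp (-(2 * ℓ - 10 * m - V)) := by
    rw [Real.exp_neg]
    exact inv_anti₀ (Real.exp_pos _) hPlo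
  calc (‖gaf N μ s‖ * P) * P⁻¹ ≤ (G * Real.exp (ℓ * (u.re + 2) + K)) *
        Real.exp (-(2 * ℓ - 10 * m - V)) :=
        mul_le_mul h2 h5 (by positivity) (by positivity)
    _ = G * Real.exp ((ℓ * (u.re + 2) + K) + (-(2 * ℓ - 10 * m - V))) := by
        rw [mul_assoc, ← Real.exp_add]
    _ ≤ _ := by
        apply mul_le_mul_of_nonneg_left _ hG.le
        apply Real.exp_le_exp.2
        nlinarith

/-- the constant in the comparison -/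
noncomputable def KE (m : ℕ) (Y δ : ℝ) (n : ℕ) : ℝ :=
  24 * m * (1 + (18 + Y) ^ 2) + n * (25 / δ * (m * (1 + (18 + Y) ^ 2)) + 14 * m)

lemma KE_nonneg (m : ℕ) (Y : ℝ) {δ : ℝ} (hδ : 0 < δ) (n : ℕ) : 0 ≤ KE m Y δ n := by unfold KE; positivity

lemma KE_succ (m : ℕ) (Y δ : ℝ) (n : ℕ) :
    KE m Y δ (n + 1) = KE m Y δ n + (25 / δ * (m * (1 + (18 + Y) ^ 2)) + 14 * m) := by
  unfold KE; push_cast; ring

/-- the gamma factor in a window -/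
theorem gam_winE (hm : 1 ≤ m) (hN : 1 ≤ N) (hμ : ∀ j, (μ j).re ≤ 1 / 2) (y Y : ℝ) {δ : ℝ} (hδ : 0 < δ)
    (hδ1 : δ ≤ 1) (n : ℕ) : ∀ u : ℂ, |u.im| ≤ Y → -8 ≤ u.re → 1 / 2 ≤ u.re + 2 * n →
      u.re + 2 * n ≤ 18 →
    ‖(gaf N μ (1 / 2 + (y : ℂ) * I + u))⁻¹‖ ≤
      (‖gaf N μ (3 / 2 + y * I)‖ * Real.exp (-(gaD N μ (3 / 2 + y * I)).re))⁻¹ *
      Real.exp (-(el N μ y * u.re) + KE m Y δ n) ∧
    ((∀ j, ∀ i : ℕ, i < n → δ ≤ ‖1 / 2 + (y : ℂ) * I + u + 2 * i - μ j‖) →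
      gaf N μ (1 / 2 + (y : ℂ) * I + u) ≠ 0 ∧
      ‖gaf N μ (1 / 2 + (y : ℂ) * I + u)‖ ≤
      (‖gaf N μ (3 / 2 + y * I)‖ * Real.exp (-(gaD N μ (3 / 2 + y * I)).re)) *
      Real.exp (el N μ y * u.re + KE m Y δ n)) := by
  have hm0 : (0 : ℝ) ≤ m := Nat.cast_nonneg m
  have hGpos := gpos hm hN hμ y
  have hsq : ∀ u : ℂ, |u.im| ≤ Y → |u.re| ≤ 18 → ‖u‖ ^ 2 ≤ (18 + Y) ^ 2 := by
    intro u h1 h2
    apply pow_le_pow_left₀ (norm_nonneg _)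
    have := Complex.norm_le_abs_re_add_abs_im u
    linarith
  induction n with
  | zero =>
    intro u h1 h2 h3 h4
    rw [Nat.cast_zero, mul_zero, add_zero] at h3 h4
    have gp := gaf_GP hm hN hμ
    obtain ⟨q1, q2⟩ := gam_loc gp y (u := u) h3
    have h5 := hsq u h1 (by rw [abs_le]; constructor <;> linarith)
    have h6 : (m : ℝ) * ‖u‖ ^ 2 ≤ m * (18 + Y) ^ 2 := mul_le_mul_of_nonneg_left h5 hm0
    have hK : KE m Y δ 0 = 24 * m * (1 + (18 + Y) ^ 2) := by unfold KE; push_cast; ring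
    have hpos : 0 < ‖gaf N μ (1 / 2 + (y : ℂ) * I + u)‖ := lt_of_lt_of_le (by positivity) q2
    obtain ⟨G, hG⟩ : ∃ G : ℝ, G = ‖gaf N μ (3 / 2 + y * I)‖ * Real.exp (-(gaD N μ (3 / 2 + y * I)).re) :=
      ⟨_, rfl⟩
    rw [← hG] at q1 q2 hGpos ⊢
    have e1 : (gaD N μ (3 / 2 + y * I)).re = el N μ y := rfl
    rw [e1] at q1 q2
    refine ⟨?_, fun _ => ⟨norm_pos_iff.1 hpos, ?_⟩⟩
    · rw [norm_inv]
      calc ‖gaf N μ (1 / 2 + (y : ℂ) * I + u)‖⁻¹ ≤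
          (G * Real.exp (el N μ y * u.re - 4 * (6 * m) * (1 + ‖u‖ ^ 2)))⁻¹ := inv_anti₀ (by positivity) q2
        _ = G⁻¹ * Real.exp (-(el N μ y * u.re - 4 * (6 * m) * (1 + ‖u‖ ^ 2))) := by
            rw [mul_inv, ← Real.exp_neg]
        _ ≤ _ := by
            apply mul_le_mul_of_nonneg_left _ (by positivity)
            apply Real.exp_le_exp.2
            rw [hK]
            linarith
    · refine q1.trans ?_
      apply mul_le_mul_of_nonneg_left _ hGpos.le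
      apply Real.exp_le_exp.2
      rw [hK]
      linarith
  | succ n ih =>
    intro u h1 h2 h3 h4
    push_cast at h3 h4
    have e1 : (u + 2).re = u.re + 2 := by simp
    have e2 : (u + 2).im = u.im := by simp
    obtain ⟨q1, q2⟩ := ih (u + 2) (by rw [e2]; exact h1) (by rw [e1]; linarith) (by rw [e1]; linarith)
      (by rw [e1]; linarith)
    rw [e1] at q1 q2
    have hn0 : (0 : ℝ) ≤ n := Nat.cast_nonneg n
    have h5 := hsq u h1 (by rw [abs_le]; constructor <;> linarith)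
    have h6 : (m : ℝ) * (1 + ‖u‖ ^ 2) ≤ m * (1 + (18 + Y) ^ 2) :=
      mul_le_mul_of_nonneg_left (by linarith) hm0
    have h7 : 1 ≤ 25 / δ := by
      rw [le_div_iff₀ hδ]
      linarith
    have h8 : (m : ℝ) * (1 + ‖u‖ ^ 2) ≤ 25 / δ * (m * (1 + (18 + Y) ^ 2)) := by
      calc (m : ℝ) * (1 + ‖u‖ ^ 2) ≤ m * (1 + (18 + Y) ^ 2) := h6
        _ = 1 * (m * (1 + (18 + Y) ^ 2)) := (one_mul _).symm
        _ ≤ _ := mul_le_mul_of_nonneg_right h7 (by positivity)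
    have h9 : 25 / δ * ((m : ℝ) * (1 + ‖u‖ ^ 2)) ≤ 25 / δ * (m * (1 + (18 + Y) ^ 2)) :=
      mul_le_mul_of_nonneg_left h6 (by positivity)
    refine ⟨?_, fun hd => ?_⟩
    · refine (gam_stepI hN hμ y hGpos q1).trans ?_
      apply mul_le_mul_of_nonneg_left _ (by positivity)
      apply Real.exp_le_exp.2
      rw [KE_succ]
      linarith
    · obtain ⟨p1, p2⟩ := q2 (fun j i hi => by
        have := hd j (i + 1) (by omega)
        push_cast at this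
        rwa [show (1 / 2 + (y : ℂ) * I + (u + 2) + 2 * i - μ j) =
          1 / 2 + (y : ℂ) * I + u + 2 * ((i : ℂ) + 1) - μ j by ring])
      obtain ⟨r1, r2⟩ := gam_stepU hN hμ y hδ hδ1 hGpos (fun j => by
        have := hd j 0 (by omega)
        rwa [Nat.cast_zero, mul_zero, add_zero] at this) p1 p2
      refine ⟨r1, r2.trans ?_⟩
      apply mul_le_mul_of_nonneg_left _ hGpos.le
      apply Real.exp_le_exp.2
      rw [KE_succ]
      linarith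

end Q240.GS
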