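import Pool.Agent.Q240.GS.Down

/-!
# Derivatives to the left of the critical strip
-/

set_option autoImplicit false

namespace Q240.GS

open Complex Filter Topology Metric Set

/-- size and analyticity in a rectangle -/
structure Half (F : ℂ → ℂ) (L Y x0 x1 η : ℝ) : Prop where
  an : ∀ s : ℂ, |s.im| ≤ Y → x0 ≤ s.re → s.re ≤ x1 → AnalyticAt ℂ F s
  big : ∀ s : ℂ, |s.im| ≤ Y → x0 ≤ s.re → s.re ≤ x1 →
    Real.exp (L * (1 / 2 - s.re - η)) ≤ ‖F s‖ ∧ ‖F s‖ ≤ Real.exp (L * (1 / 2 - s.re + η))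

theorem Half.mono {F : ℂ → ℂ} {L Y x0 x1 η Y' x0' x1' η' : ℝ} (h : Half F L Y x0 x1 η) (hL : 0 ≤ L)
    (hY : Y' ≤ Y) (h0 : x0 ≤ x0') (h1 : x1' ≤ x1) (hη : η ≤ η') : Half F L Y' x0' x1' η' := by
  refine ⟨fun s a1 a2 a3 => h.an s (a1.trans hY) (h0.trans a2) (a3.trans h1), fun s a1 a2 a3 => ?_⟩
  obtain ⟨a, b⟩ := h.big s (a1.trans hY) (h0.trans a2) (a3.trans h1)
  refine ⟨le_trans (Real.exp_le_exp.2 ?_) a, b.trans (Real.exp_le_exp.2 ?_)⟩ <;>
  · apply mul_le_mul_of_nonneg_left _ hL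
    linarith

/-- the logarithmic derivative inside -/
theorem half_ld (ρ η : ℝ) (hρ : 0 < ρ) (hη : 0 < η) : ∃ e : ℝ, 0 < e ∧
    ∀ (F : ℂ → ℂ) (L Y x0 x1 : ℝ), 1 ≤ L → Half F L Y x0 x1 e →
    ∀ s : ℂ, |s.im| ≤ Y - 10 * ρ → x0 + 10 * ρ ≤ s.re → s.re ≤ x1 - 10 * ρ →
      F s ≠ 0 ∧ ‖deriv F s + L * F s‖ ≤ η * L * ‖F s‖ := by
  obtain ⟨e0, he0, hS⟩ := Pool.Agent.H986R2.K4.sab (1 / 4) (η * ρ) 1 (by norm_num) le_rfl (by positivity) one_pos
  obtain ⟨e, he⟩ : ∃ e : ℝ, e = min e0 1 := ⟨_, rfl⟩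
  have hep : 0 < e := by rw [he]; exact lt_min he0 one_pos
  have he1 : e ≤ 1 := by rw [he]; exact min_le_right _ _
  have he2 : e ≤ e0 := by rw [he]; exact min_le_left _ _
  refine ⟨e, hep, ?_⟩
  intro F L Y x0 x1 hL hF s h1 h2 h3
  have hL0 : 0 < L := by linarith
  obtain ⟨pt, hpt⟩ : ∃ pt : ℂ → ℂ, pt = fun u => s + (ρ : ℂ) * (3 / 2) - (ρ : ℂ) * u := ⟨_, rfl⟩
  have hptre : ∀ u, (pt u).re = s.re + ρ * (3 / 2) - ρ * u.re := by intro u; simp [hpt]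
  have hptim : ∀ u, (pt u).im = s.im - ρ * u.im := by intro u; simp [hpt]
  have hptd : ∀ u, HasDerivAt pt (-(ρ : ℂ)) u := by
    intro u
    have h0 := ((hasDerivAt_id u).const_mul (ρ : ℂ)).const_sub (s + (ρ : ℂ) * (3 / 2))
    rw [hpt]
    exact h0.congr_deriv (by rw [mul_one])
  obtain ⟨g, hg⟩ : ∃ g : ℂ → ℂ, g = fun u => F (pt u) * cexp ((L : ℂ) * (pt u - 1 / 2)) := ⟨_, rfl⟩
  have hgn : ∀ u, ‖g u‖ = ‖F (pt u)‖ * Real.exp (L * ((pt u).re - 1 / 2)) := by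
    intro u
    rw [hg, norm_mul, Complex.norm_exp]
    congr 2
    simp [sub_re]
  have hgeo : ∀ u : ℂ, 0 < u.re → u.re ≤ 10 → |u.im| ≤ 10 → |(pt u).im| ≤ Y ∧ x0 ≤ (pt u).re ∧
      (pt u).re ≤ x1 := by
    intro u a1 a2 a3
    rw [hptre, hptim]
    have e1 : 0 < ρ * u.re := mul_pos hρ a1
    have e2 : ρ * u.re ≤ ρ * 10 := mul_le_mul_of_nonneg_left a2 hρ.le
    have e3 : |ρ * u.im| ≤ ρ * 10 := by
      rw [abs_mul, abs_of_pos hρ]
      exact mul_le_mul_of_nonneg_left a3 hρ.le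
    refine ⟨?_, by linarith, by linarith⟩
    calc |s.im - ρ * u.im| ≤ |s.im| + |ρ * u.im| := abs_sub _ _
      _ ≤ Y := by linarith
  have hsz : ∀ u : ℂ, 0 < u.re → u.re ≤ 10 → |u.im| ≤ 10 →
      Real.exp (-(e * L)) ≤ ‖g u‖ ∧ ‖g u‖ ≤ Real.exp (e * L) := by
    intro u a1 a2 a3
    obtain ⟨q1, q2, q3⟩ := hgeo u a1 a2 a3
    obtain ⟨b1, b2⟩ := hF.big (pt u) q1 q2 q3
    obtain ⟨x, hx⟩ : ∃ x : ℝ, x = 1 / 2 - (pt u).re := ⟨_, rfl⟩
    rw [← hx] at b1 b2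
    rw [hgn, show L * ((pt u).re - 1 / 2) = -(L * x) by rw [hx]; ring]
    constructor
    · calc Real.exp (-(e * L)) = Real.exp (L * (x - e)) * Real.exp (-(L * x)) := by
            rw [← Real.exp_add]
            congr 1; ring
        _ ≤ _ := by gcongr
    · calc ‖F (pt u)‖ * Real.exp (-(L * x)) ≤ Real.exp (L * (x + e)) * Real.exp (-(L * x)) := by gcongr
        _ = _ := by
            rw [← Real.exp_add]
            congr 1; ring
  have hps : pt ((3 / 2 : ℝ) : ℂ) = s := by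
    apply Complex.ext
    · rw [hptre, ofReal_re]; ring
    · rw [hptim, ofReal_im, mul_zero, sub_zero]
  have hsY : |s.im| ≤ Y := by linarith
  have hsan : AnalyticAt ℂ F s := hF.an s hsY (by linarith) (by linarith)
  obtain ⟨m1, -, -⟩ := hS L g hL (fun u a1 a2 a3 => by
      obtain ⟨q1, q2, q3⟩ := hgeo u a1 a2 a3
      obtain ⟨b1, b2⟩ := hsz u a1 a2 a3
      refine ⟨?_, ?_, ?_⟩
      · have hd1 : DifferentiableAt ℂ (fun u => F (pt u)) u :=
          DifferentiableAt.comp u (hF.an (pt u) q1 q2 q3).differentiableAt (hptd u).differentiableAt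
        have hd2 : DifferentiableAt ℂ (fun u => cexp ((L : ℂ) * (pt u - 1 / 2))) u :=
          (((hptd u).differentiableAt.sub_const _).const_mul _).cexp
        rw [hg]
        exact hd1.mul hd2
      · exact norm_pos_iff.1 (lt_of_lt_of_le (Real.exp_pos _) b1)
      · refine b2.trans (Real.exp_le_exp.2 ?_)
        exact mul_le_mul_of_nonneg_right he1 hL0.le) (fun u a1 a2 a3 => by
      obtain ⟨b1, b2⟩ := hsz u (by linarith) a2 a3
      have h4 : e * L ≤ e0 * L := mul_le_mul_of_nonneg_right he2 hL0.le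
      exact ⟨le_trans (Real.exp_le_exp.2 (by linarith)) b1, b2.trans (Real.exp_le_exp.2 h4)⟩)
    ((3 / 2 : ℝ) : ℂ) (by rw [ofReal_re]; norm_num) (by rw [ofReal_re]; norm_num) (by simp)
  have hne : F s ≠ 0 := by
    obtain ⟨b1, -⟩ := hsz ((3 / 2 : ℝ) : ℂ) (by rw [ofReal_re]; norm_num) (by rw [ofReal_re]; norm_num) (by simp)
    intro h0
    rw [hgn, hps, h0, norm_zero, zero_mul] at b1
    exact absurd b1 (not_le.2 (Real.exp_pos _))
  refine ⟨hne, ?_⟩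
  have hld : logDeriv g ((3 / 2 : ℝ) : ℂ) = -(ρ : ℂ) * (logDeriv F s + L) := by
    have hd1 : HasDerivAt (fun u => F (pt u)) (deriv F s * (-(ρ : ℂ))) ((3 / 2 : ℝ) : ℂ) := by
      have h1 : HasDerivAt F (deriv F s) (pt ((3 / 2 : ℝ) : ℂ)) := by
        rw [hps]; exact hsan.differentiableAt.hasDerivAt
      exact HasDerivAt.comp ((3 / 2 : ℝ) : ℂ) h1 (hptd ((3 / 2 : ℝ) : ℂ))
    have hd2 : HasDerivAt (fun u => cexp ((L : ℂ) * (pt u - 1 / 2)))
        (cexp ((L : ℂ) * (s - 1 / 2)) * ((L : ℂ) * (-(ρ : ℂ)))) ((3 / 2 : ℝ) : ℂ) := by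
      have := (((hptd ((3 / 2 : ℝ) : ℂ)).sub_const (1 / 2)).const_mul (L : ℂ)).cexp
      rw [hps] at this
      exact this
    have hd3 := hd1.mul hd2
    have hE := Complex.exp_ne_zero ((L : ℂ) * (s - 1 / 2))
    rw [logDeriv_apply, hg]
    have h1 : deriv (fun u => F (pt u) * cexp ((L : ℂ) * (pt u - 1 / 2))) ((3 / 2 : ℝ) : ℂ) =
        deriv F s * (-(ρ : ℂ)) * cexp ((L : ℂ) * (pt ((3 / 2 : ℝ) : ℂ) - 1 / 2)) +
        F (pt ((3 / 2 : ℝ) : ℂ)) * (cexp ((L : ℂ) * (s - 1 / 2)) * ((L : ℂ) * (-(ρ : ℂ)))) := hd3.deriv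
    rw [h1]
    simp only [hps]
    rw [logDeriv_apply]
    field_simp
    ring
  rw [hld, norm_mul, norm_neg, norm_real, Real.norm_of_nonneg hρ.le] at m1
  have h5 : ‖logDeriv F s + (L : ℂ)‖ ≤ η * L := by
    have : ρ * ‖logDeriv F s + (L : ℂ)‖ ≤ ρ * (η * L) := by
      calc _ ≤ η * ρ * L := m1
        _ = _ := by ring
    exact le_of_mul_le_mul_left this hρ
  have h6 : deriv F s + L * F s = (logDeriv F s + L) * F s := by
    rw [logDeriv_apply]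
    field_simp
  rw [h6, norm_mul]
  exact mul_le_mul_of_nonneg_right h5 (norm_nonneg _)

/-- the derivative has the same size -/
theorem half_deriv (ρ η : ℝ) (hρ : 0 < ρ) (hη : 0 < η) : ∃ e L0 : ℝ, 0 < e ∧ 1 ≤ L0 ∧
    ∀ (F : ℂ → ℂ) (L Y x0 x1 : ℝ), L0 ≤ L → Half F L Y x0 x1 e →
      Half (deriv F) L (Y - 10 * ρ) (x0 + 10 * ρ) (x1 - 10 * ρ) η ∧
      ∀ s : ℂ, |s.im| ≤ Y - 10 * ρ → x0 + 10 * ρ ≤ s.re → s.re ≤ x1 - 10 * ρ →
        F s ≠ 0 ∧ ‖deriv F s + L * F s‖ ≤ η * L * ‖F s‖ := by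
  obtain ⟨e0, he0, h0⟩ := half_ld ρ (min η (1 / 2)) hρ (lt_min hη (by norm_num))
  obtain ⟨L1, hL1, hx⟩ := exp_dom (3 / 2) (half_pos hη) 1
  refine ⟨min e0 (η / 2), max L1 2, lt_min he0 (by positivity), hL1.trans (le_max_left _ _),
    fun F L Y x0 x1 hL hF => ?_⟩
  have hLa : L1 ≤ L := (le_max_left _ _).trans hL
  have hLb : 2 ≤ L := (le_max_right _ _).trans hL
  have hL0 : 0 < L := by linarith
  have hF0 := hF.mono hL0.le le_rfl le_rfl le_rfl (min_le_left e0 (η / 2))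
  have key := h0 F L Y x0 x1 (by linarith) hF0
  have hx := hx L hLa
  rw [pow_one] at hx
  refine ⟨⟨fun s a1 a2 a3 => ?_, fun s a1 a2 a3 => ?_⟩, fun s a1 a2 a3 => ?_⟩
  · exact (hF.an s (by linarith) (by linarith) (by linarith)).deriv
  · obtain ⟨k1, k2⟩ := key s a1 a2 a3
    obtain ⟨b1, b2⟩ := hF.big s (by linarith) (by linarith) (by linarith)
    have k3 : min η (1 / 2) * L * ‖F s‖ ≤ 1 / 2 * L * ‖F s‖ := by gcongr; exact min_le_right _ _
    have k4 : ‖(L : ℂ) * F s‖ = L * ‖F s‖ := by rw [norm_mul, norm_real, Real.norm_of_nonneg hL0.le]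
    have k5 : L * ‖F s‖ ≤ ‖deriv F s + L * F s‖ + ‖deriv F s‖ := by
      rw [← k4]
      calc ‖(L : ℂ) * F s‖ = ‖(deriv F s + L * F s) - deriv F s‖ := by congr 1; ring
        _ ≤ _ := norm_sub_le _ _
    have k6 : ‖deriv F s‖ ≤ ‖deriv F s + L * F s‖ + L * ‖F s‖ := by
      rw [← k4]
      calc ‖deriv F s‖ = ‖(deriv F s + L * F s) - L * F s‖ := by congr 1; ring
        _ ≤ _ := norm_sub_le _ _
    have hmin := min_le_right e0 (η / 2)
    have hmin0 : 0 < min e0 (η / 2) := lt_min he0 (by positivity)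
    constructor
    · have k7 : 1 * ‖F s‖ ≤ 1 / 2 * L * ‖F s‖ := by gcongr; linarith
      calc Real.exp (L * (1 / 2 - s.re - η)) ≤ Real.exp (L * (1 / 2 - s.re - min e0 (η / 2))) := by
            apply Real.exp_le_exp.2
            apply mul_le_mul_of_nonneg_left _ hL0.le
            linarith
        _ ≤ ‖F s‖ := b1
        _ ≤ _ := by linarith
    · calc ‖deriv F s‖ ≤ (3 / 2 * L) * ‖F s‖ := by linarith
        _ ≤ Real.exp (η / 2 * L) * Real.exp (L * (1 / 2 - s.re + min e0 (η / 2))) := by gcongr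
        _ = Real.exp (η / 2 * L + L * (1 / 2 - s.re + min e0 (η / 2))) := by rw [Real.exp_add]
        _ ≤ _ := by
            apply Real.exp_le_exp.2
            have : L * min e0 (η / 2) ≤ L * (η / 2) := by gcongr
            linarith
  · obtain ⟨k1, k2⟩ := key s a1 a2 a3
    refine ⟨k1, k2.trans ?_⟩
    gcongr
    exact min_le_left _ _

/-- all derivatives -/
theorem half_iter (k : ℕ) : ∀ (ρ η : ℝ), 0 < ρ → 0 < η → ∃ e L0 : ℝ, 0 < e ∧ 1 ≤ L0 ∧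
    ∀ (F : ℂ → ℂ) (L Y x0 x1 : ℝ), L0 ≤ L → Half F L Y x0 x1 e →
      Half (iteratedDeriv k F) L (Y - 10 * (k * ρ)) (x0 + 10 * (k * ρ)) (x1 - 10 * (k * ρ)) η ∧
      ∀ s : ℂ, |s.im| ≤ Y - 10 * (k * ρ) → x0 + 10 * (k * ρ) ≤ s.re → s.re ≤ x1 - 10 * (k * ρ) →
        ‖iteratedDeriv k F s - (-(L : ℂ)) ^ k * F s‖ ≤ η * L ^ k * ‖F s‖ := by
  induction k with
  | zero =>
    intro ρ η hρ hη
    refine ⟨η, 1, hη, le_rfl, fun F L Y x0 x1 hL hF => ?_⟩
    constructor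
    · simpa using hF
    · intro s _ _ _
      simp only [iteratedDeriv_zero, pow_zero, one_mul, sub_self, norm_zero, mul_one]
      positivity
  | succ k ih =>
    intro ρ η hρ hη
    obtain ⟨δ, hδ⟩ : ∃ δ : ℝ, δ = min (η / 4) (1 / 2) := ⟨_, rfl⟩
    have hδ0 : 0 < δ := by rw [hδ]; exact lt_min (by positivity) (by norm_num)
    have hδ1 : δ ≤ η / 4 := by rw [hδ]; exact min_le_left _ _
    have hδ2 : δ ≤ 1 / 2 := by rw [hδ]; exact min_le_right _ _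
    obtain ⟨e1, L1, he1, hL1, h1⟩ := half_deriv ρ δ hρ hδ0
    obtain ⟨e2, L2, he2, hL2, h2⟩ := ih ρ (min δ e1) hρ (lt_min hδ0 he1)
    refine ⟨e2, max L1 L2, he2, hL1.trans (le_max_left _ _), fun F L Y x0 x1 hL hF => ?_⟩
    have hLa : L1 ≤ L := (le_max_left _ _).trans hL
    have hLb : L2 ≤ L := (le_max_right _ _).trans hL
    have hL0 : 0 < L := by linarith
    obtain ⟨q1, q2⟩ := h2 F L Y x0 x1 hLb hF
    obtain ⟨r1, r2⟩ := h1 (iteratedDeriv k F) L _ _ _ hLa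
      (q1.mono hL0.le le_rfl le_rfl le_rfl (min_le_right δ e1))
    have eY : Y - 10 * (((k + 1 : ℕ) : ℝ) * ρ) = Y - 10 * (k * ρ) - 10 * ρ := by push_cast; ring
    have e0 : x0 + 10 * (((k + 1 : ℕ) : ℝ) * ρ) = x0 + 10 * (k * ρ) + 10 * ρ := by push_cast; ring
    have e1' : x1 - 10 * (((k + 1 : ℕ) : ℝ) * ρ) = x1 - 10 * (k * ρ) - 10 * ρ := by push_cast; ring
    rw [eY, e0, e1', iteratedDeriv_succ]
    refine ⟨r1.mono hL0.le le_rfl le_rfl le_rfl (by linarith), fun s a1 a2 a3 => ?_⟩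
    obtain ⟨-, s2⟩ := r2 s a1 a2 a3
    have s3 := q2 s (by linarith) (by linarith) (by linarith)
    have s4 : ‖(-(L : ℂ)) ^ k * F s‖ = L ^ k * ‖F s‖ := by
      rw [norm_mul, norm_pow, norm_neg, norm_real, Real.norm_of_nonneg hL0.le]
    have s5 : ‖iteratedDeriv k F s‖ ≤ min δ e1 * L ^ k * ‖F s‖ + L ^ k * ‖F s‖ := by
      have := norm_le_norm_sub_add (iteratedDeriv k F s) ((-(L : ℂ)) ^ k * F s)
      rw [s4] at this
      linarith
    have hp : 0 ≤ L ^ k * ‖F s‖ := by positivity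
    have s6 : ‖iteratedDeriv k F s‖ ≤ 2 * (L ^ k * ‖F s‖) := by
      have : min δ e1 * (L ^ k * ‖F s‖) ≤ 1 / 2 * (L ^ k * ‖F s‖) :=
        mul_le_mul_of_nonneg_right ((min_le_left _ _).trans hδ2) hp
      linarith
    have s7 : deriv (iteratedDeriv k F) s - (-(L : ℂ)) ^ (k + 1) * F s =
        (deriv (iteratedDeriv k F) s + L * iteratedDeriv k F s) -
          L * (iteratedDeriv k F s - (-(L : ℂ)) ^ k * F s) := by ring
    rw [s7]
    refine (norm_sub_le _ _).trans ?_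
    rw [norm_mul, norm_real, Real.norm_of_nonneg hL0.le]
    have s8 : δ * L * ‖iteratedDeriv k F s‖ ≤ δ * L * (2 * (L ^ k * ‖F s‖)) := by gcongr
    have s9 : L * ‖iteratedDeriv k F s - (-(L : ℂ)) ^ k * F s‖ ≤ L * (δ * L ^ k * ‖F s‖) := by
      gcongr
      refine s3.trans ?_
      gcongr
      exact min_le_left _ _
    have hp' : 0 ≤ L * (L ^ k * ‖F s‖) := by positivity
    calc _ ≤ δ * L * (2 * (L ^ k * ‖F s‖)) + L * (δ * L ^ k * ‖F s‖) := by linarith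
      _ = (3 * δ) * (L * (L ^ k * ‖F s‖)) := by ring
      _ ≤ η * (L * (L ^ k * ‖F s‖)) := mul_le_mul_of_nonneg_right (by linarith) hp'
      _ = _ := by rw [pow_succ]; ring

end Q240.GS
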