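import Pool.Agent.Q240.SH.Down

/-!
# Local data of a function near the left edge of the critical strip, and its logarithmic derivative
-/

set_option autoImplicit false

namespace Q240.GS

open Complex Filter Topology Metric Set

/-- local data in the window `|Im s| ≤ Y`: to the left of the critical strip the size is `exp (L (1/2 - Re s))`,
up to `exp (η L)`; growth at most `exp (A L)`; on `Re s = 2` at most `exp (η L)` -/
structure Loc (F : ℂ → ℂ) (L Y η A : ℝ) : Prop where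
  an : ∀ s : ℂ, |s.im| ≤ Y → -6 ≤ s.re → s.re ≤ 4 → AnalyticAt ℂ F s
  big : ∀ s : ℂ, |s.im| ≤ Y → -6 ≤ s.re → s.re ≤ -1 / 4 →
    Real.exp (L * (1 / 2 - s.re - η)) ≤ ‖F s‖ ∧ ‖F s‖ ≤ Real.exp (L * (1 / 2 - s.re + η))
  grow : ∀ s : ℂ, |s.im| ≤ Y → -6 ≤ s.re → s.re ≤ 4 → ‖F s‖ ≤ Real.exp (A * L)
  right : ∀ s : ℂ, |s.im| ≤ Y → s.re = 2 → ‖F s‖ ≤ Real.exp (η * L)

theorem Loc.mono {F : ℂ → ℂ} {L Y η A Y' η' A' : ℝ} (h : Loc F L Y η A) (hL : 0 ≤ L) (hY : Y' ≤ Y)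
    (hη : η ≤ η') (hA : A ≤ A') : Loc F L Y' η' A' := by
  refine ⟨fun s h1 => h.an s (h1.trans hY), fun s h1 h2 h3 => ?_, fun s h1 h2 h3 => ?_, fun s h1 h2 => ?_⟩
  · obtain ⟨a, b⟩ := h.big s (h1.trans hY) h2 h3
    refine ⟨le_trans (Real.exp_le_exp.2 ?_) a, b.trans (Real.exp_le_exp.2 ?_)⟩ <;>
    · apply mul_le_mul_of_nonneg_left _ hL
      linarith
  · exact (h.grow s (h1.trans hY) h2 h3).trans (Real.exp_le_exp.2 (mul_le_mul_of_nonneg_right hA hL))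
  · exact (h.right s (h1.trans hY) h2).trans (Real.exp_le_exp.2 (mul_le_mul_of_nonneg_right hη hL))

theorem Loc.ne {F : ℂ → ℂ} {L Y η A : ℝ} (h : Loc F L Y η A) {s : ℂ} (h1 : |s.im| ≤ Y) (h2 : -6 ≤ s.re)
    (h3 : s.re ≤ -1 / 4) : F s ≠ 0 := by
  intro h0
  have := (h.big s h1 h2 h3).1
  rw [h0, norm_zero] at this
  exact absurd this (not_le.2 (Real.exp_pos _))

theorem logder (α ε η A : ℝ) (hε : 0 < ε) (hεα : ε - 1 / 4 ≤ α) (hα : α ≤ 1 / 2) (hη : 0 < η) (hA : 0 < A) :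
    ∃ e L0 : ℝ, 0 < e ∧ 1 ≤ L0 ∧ ∀ (F : ℂ → ℂ) (L Y T : ℝ), L0 ≤ L → Loc F L Y e A → |T| + 5 ≤ Y →
    (∀ s : ℂ, -1 / 4 < s.re → s.re < α → |s.im - T| ≤ 5 → F s ≠ 0) →
    ∀ s : ℂ, s.im = T → -1 / 4 ≤ s.re → s.re ≤ α - ε → F s ≠ 0 ∧
      ‖logDeriv F s + L‖ ≤ η * L ∧
      Real.exp (L * (1 / 2 - s.re - η)) ≤ ‖F s‖ ∧
      ‖F s‖ ≤ Real.exp (L * (1 / 2 - s.re + η)) := by
  obtain ⟨r, hr⟩ : ∃ r : ℝ, r = 2 / 3 * (α + 1 / 4) := ⟨_, rfl⟩
  have hr0 : 0 < r := by rw [hr]; linarith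
  have hr1 : r ≤ 1 / 2 := by rw [hr]; linarith
  have hrε : 0 < ε / r := by positivity
  obtain ⟨e, he, hS⟩ := Pool.Agent.H986R2.K4.sab (min (1 / 4) (ε / r)) (η * r) A
    (lt_min (by norm_num) hrε) (min_le_left _ _) (by positivity) hA
  refine ⟨e, 1, he, le_rfl, ?_⟩
  intro F L Y T hL hF hTY hz s hs hs1 hs2
  have hL0 : 0 < L := by linarith
  obtain ⟨pt, hpt⟩ : ∃ pt : ℂ → ℂ, pt = fun u => (α : ℂ) + (T : ℂ) * I - (r : ℂ) * u := ⟨_, rfl⟩
  have hptre : ∀ u, (pt u).re = α - r * u.re := by intro u; simp [hpt]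
  have hptim : ∀ u, (pt u).im = T - r * u.im := by intro u; simp [hpt]
  have hptd : ∀ u, HasDerivAt pt (-(r : ℂ)) u := by
    intro u
    have h0 := ((hasDerivAt_id u).const_mul (r : ℂ)).const_sub ((α : ℂ) + (T : ℂ) * I)
    rw [hpt]
    exact h0.congr_deriv (by rw [mul_one])
  obtain ⟨g, hg⟩ : ∃ g : ℂ → ℂ, g = fun u => F (pt u) * cexp ((L : ℂ) * (pt u - 1 / 2)) := ⟨_, rfl⟩
  have hgn : ∀ u, ‖g u‖ = ‖F (pt u)‖ * Real.exp (L * ((pt u).re - 1 / 2)) := by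
    intro u
    rw [hg, norm_mul, Complex.norm_exp]
    congr 2
    simp [sub_re]
  -- the geometry
  have hgeo : ∀ u : ℂ, 0 < u.re → u.re ≤ 10 → |u.im| ≤ 10 → (pt u).re < α ∧ -6 ≤ (pt u).re ∧
      |(pt u).im - T| ≤ 5 ∧ |(pt u).im| ≤ Y := by
    intro u h1 h2 h3
    rw [hptre, hptim]
    have e1 : 0 < r * u.re := mul_pos hr0 h1
    have e2 : r * u.re ≤ 1 / 2 * 10 := mul_le_mul hr1 h2 h1.le (by norm_num)
    have e3 : |T - r * u.im - T| ≤ 5 := by
      rw [show T - r * u.im - T = -(r * u.im) by ring, abs_neg, abs_mul, abs_of_pos hr0]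
      calc r * |u.im| ≤ 1 / 2 * 10 := mul_le_mul hr1 h3 (abs_nonneg _) (by norm_num)
        _ ≤ 5 := by norm_num
    refine ⟨by linarith, by linarith, e3, ?_⟩
    calc |T - r * u.im| = |T + (T - r * u.im - T)| := by congr 1; ring
      _ ≤ |T| + |T - r * u.im - T| := abs_add_le _ _
      _ ≤ Y := by linarith
  have hne : ∀ u : ℂ, 0 < u.re → u.re ≤ 10 → |u.im| ≤ 10 → F (pt u) ≠ 0 := by
    intro u h1 h2 h3
    obtain ⟨h4, h5, h6, h6'⟩ := hgeo u h1 h2 h3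
    rcases lt_or_ge (-1 / 4) (pt u).re with h7 | h7
    · exact hz _ h7 h4 h6
    · exact hF.ne h6' h5 h7
  have hmain := hS L g (by linarith) (by
    intro u h1 h2 h3
    obtain ⟨h4, h5, h6, h6'⟩ := hgeo u h1 h2 h3
    have h7 := hne u h1 h2 h3
    refine ⟨?_, ?_, ?_⟩
    · have hd1 : DifferentiableAt ℂ (fun u => F (pt u)) u :=
        DifferentiableAt.comp u (hF.an (pt u) h6' h5 (by linarith)).differentiableAt (hptd u).differentiableAt
      have hd2 : DifferentiableAt ℂ (fun u => cexp ((L : ℂ) * (pt u - 1 / 2))) u :=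
        (((hptd u).differentiableAt.sub_const _).const_mul _).cexp
      rw [hg]
      exact hd1.mul hd2
    · rw [hg]
      exact mul_ne_zero h7 (Complex.exp_ne_zero _)
    · rw [hgn]
      have h8 := hF.grow (pt u) h6' h5 (by linarith)
      calc ‖F (pt u)‖ * Real.exp (L * ((pt u).re - 1 / 2)) ≤ Real.exp (A * L) * 1 := by
            gcongr
            rw [Real.exp_le_one_iff]
            exact mul_nonpos_of_nonneg_of_nonpos hL0.le (by linarith)
        _ = _ := by rw [mul_one]) (by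
    intro u h1 h2 h3
    obtain ⟨h4, h5, h6, h6'⟩ := hgeo u (by linarith) h2 h3
    have h7 : (pt u).re ≤ -1 / 4 := by
      rw [hptre]
      have e1 : r * (3 / 2) ≤ r * u.re := mul_le_mul_of_nonneg_left h1 hr0.le
      rw [hr] at e1 ⊢
      linarith
    obtain ⟨b1, b2⟩ := hF.big (pt u) h6' h5 h7
    obtain ⟨x, hx⟩ : ∃ x : ℝ, x = 1 / 2 - (pt u).re := ⟨_, rfl⟩
    rw [← hx] at b1 b2
    rw [hgn, show L * ((pt u).re - 1 / 2) = -(L * x) by rw [hx]; ring]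
    constructor
    · calc Real.exp (-(e * L)) = Real.exp (L * (x - e)) * Real.exp (-(L * x)) := by
            rw [← Real.exp_add]
            congr 1; ring
        _ ≤ _ := by gcongr
    · calc ‖F (pt u)‖ * Real.exp (-(L * x)) ≤ Real.exp (L * (x + e)) * Real.exp (-(L * x)) := by gcongr
        _ = _ := by
            rw [← Real.exp_add]
            congr 1; ring)
  -- the point
  obtain ⟨x, hx⟩ : ∃ x : ℝ, x = (α - s.re) / r := ⟨_, rfl⟩
  have hxr : r * x = α - s.re := by rw [hx]; field_simp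
  have hps : pt (x : ℂ) = s := by
    apply Complex.ext
    · rw [hptre, ofReal_re, hxr]; ring
    · rw [hptim, ofReal_im, mul_zero, sub_zero, hs]
  have hx1 : min (1 / 4) (ε / r) ≤ x := by
    refine (min_le_right _ _).trans ?_
    rw [hx]
    apply div_le_div_of_nonneg_right _ hr0.le
    linarith
  have hx2 : x ≤ 3 / 2 := by
    rw [hx, div_le_iff₀ hr0, hr]
    linarith
  have hx0 : 0 < x := lt_of_lt_of_le (lt_min (by norm_num) hrε) hx1
  have hnes := hne (x : ℂ) (by rw [ofReal_re]; exact hx0) (by rw [ofReal_re]; linarith)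
    (by rw [ofReal_im]; norm_num)
  obtain ⟨m1, m2, m3⟩ := hmain (x : ℂ) (by rw [ofReal_re]; exact hx1) (by rw [ofReal_re]; linarith)
    (by rw [ofReal_im]; norm_num)
  have hsi : |s.im| ≤ Y := by rw [hs]; linarith
  have hsan : AnalyticAt ℂ F s := hF.an s hsi (by linarith) (by linarith)
  rw [hps] at hnes
  have hld : logDeriv g (x : ℂ) = -(r : ℂ) * (logDeriv F s + L) := by
    have hd1 : HasDerivAt (fun u => F (pt u)) (deriv F s * (-(r : ℂ))) (x : ℂ) := by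
      have h1 : HasDerivAt F (deriv F s) (pt (x : ℂ)) := by
        rw [hps]; exact hsan.differentiableAt.hasDerivAt
      exact HasDerivAt.comp (x : ℂ) h1 (hptd (x : ℂ))
    have hd2 : HasDerivAt (fun u => cexp ((L : ℂ) * (pt u - 1 / 2)))
        (cexp ((L : ℂ) * (s - 1 / 2)) * ((L : ℂ) * (-(r : ℂ)))) (x : ℂ) := by
      have := (((hptd (x : ℂ)).sub_const (1 / 2)).const_mul (L : ℂ)).cexp
      rw [hps] at this
      exact this
    have hd3 := hd1.mul hd2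
    have hE := Complex.exp_ne_zero ((L : ℂ) * (s - 1 / 2))
    rw [logDeriv_apply, hg]
    have h1 : deriv (fun u => F (pt u) * cexp ((L : ℂ) * (pt u - 1 / 2))) (x : ℂ) =
        deriv F s * (-(r : ℂ)) * cexp ((L : ℂ) * (pt (x : ℂ) - 1 / 2)) +
        F (pt (x : ℂ)) * (cexp ((L : ℂ) * (s - 1 / 2)) * ((L : ℂ) * (-(r : ℂ)))) := hd3.deriv
    rw [h1]
    simp only [hps]
    rw [logDeriv_apply]
    field_simp
    ring
  rw [hld, norm_mul, norm_neg, norm_real, Real.norm_of_nonneg hr0.le] at m1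
  rw [hgn, hps] at m2 m3
  refine ⟨hnes, ?_, ?_, ?_⟩
  · have : r * ‖logDeriv F s + (L : ℂ)‖ ≤ r * (η * L) := by
      calc _ ≤ η * r * L := m1
        _ = _ := by ring
    exact le_of_mul_le_mul_left this hr0
  · have h1 : Real.exp (-(η * r * L)) * Real.exp (L * (1 / 2 - s.re)) ≤ ‖F s‖ := by
      calc _ ≤ (‖F s‖ * Real.exp (L * (s.re - 1 / 2))) * Real.exp (L * (1 / 2 - s.re)) := by gcongr
        _ = ‖F s‖ := by
            rw [mul_assoc, ← Real.exp_add, show L * (s.re - 1 / 2) + L * (1 / 2 - s.re) = 0 by ring,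
              Real.exp_zero, mul_one]
    refine le_trans ?_ h1
    rw [← Real.exp_add]
    apply Real.exp_le_exp.2
    have : η * r * L ≤ η * 1 * L := by gcongr; linarith
    linarith
  · have h1 : ‖F s‖ ≤ Real.exp (η * r * L) * Real.exp (L * (1 / 2 - s.re)) := by
      calc ‖F s‖ = (‖F s‖ * Real.exp (L * (s.re - 1 / 2))) * Real.exp (L * (1 / 2 - s.re)) := by
            rw [mul_assoc, ← Real.exp_add, show L * (s.re - 1 / 2) + L * (1 / 2 - s.re) = 0 by ring,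
              Real.exp_zero, mul_one]
        _ ≤ _ := by gcongr
    refine h1.trans ?_
    rw [← Real.exp_add]
    apply Real.exp_le_exp.2
    have : η * r * L ≤ η * 1 * L := by gcongr; linarith
    linarith

/-- zeros of `F' - a F` are close to zeros of `F` -/
theorem step_up (α ε B A : ℝ) (hε : 0 < ε) (hα : α ≤ 1 / 2) (hA : 0 < A) :
    ∃ e L0 C : ℝ, 0 < e ∧ 1 ≤ L0 ∧ 1 ≤ C ∧ ∀ (F G : ℂ → ℂ) (a : ℂ) (L Y : ℝ), L0 ≤ L → Loc F L Y e A →
      ‖a‖ ≤ B →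
      (∀ s : ℂ, |s.im| ≤ Y → -6 ≤ s.re → s.re ≤ 4 → G s = deriv F s - a * F s) →
      ∀ ρ : ℂ, G ρ = 0 → -1 / 4 ≤ ρ.re → ρ.re ≤ α - ε → |ρ.im| + C ≤ Y →
      ∃ s : ℂ, F s = 0 ∧ -1 / 4 < s.re ∧ s.re < α ∧ |s.im - ρ.im| ≤ C := by
  rcases lt_or_ge α (ε - 1 / 4) with h | h
  · exact ⟨1, 1, 1, one_pos, le_rfl, le_rfl, fun F G a L Y _ _ _ _ ρ _ h1 h2 _ => absurd h1 (by linarith)⟩
  obtain ⟨e, L0, he, hL0, hld⟩ := logder α ε (1 / 2) A hε h hα (by norm_num) hA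
  refine ⟨e, max L0 (2 * B + 1), 5, he, hL0.trans (le_max_left _ _), by norm_num,
    fun F G a L Y hL hF ha hG ρ h0 h1 h2 h3 => ?_⟩
  by_contra hcon
  push Not at hcon
  have hLa : L0 ≤ L := (le_max_left _ _).trans hL
  have hLb : 2 * B + 1 ≤ L := (le_max_right _ _).trans hL
  obtain ⟨q1, q2, -, -⟩ := hld F L Y ρ.im hLa hF h3
    (fun s s1 s2 s3 s4 => absurd (hcon s s4 s1 s2) (not_lt.2 s3)) ρ rfl h1 h2
  rw [hG ρ (by linarith) (by linarith) (by linarith)] at h0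
  have h4 : logDeriv F ρ = a := by
    rw [logDeriv_apply, div_eq_iff q1]
    exact sub_eq_zero.1 h0
  rw [h4] at q2
  have h5 : L ≤ ‖a + (L : ℂ)‖ + ‖a‖ := by
    have h6 : ‖((L : ℝ) : ℂ)‖ ≤ ‖a + (L : ℂ)‖ + ‖a‖ := by
      calc ‖((L : ℝ) : ℂ)‖ = ‖(a + (L : ℂ)) - a‖ := by
            congr 1; ring
        _ ≤ _ := norm_sub_le _ _
    rw [norm_real] at h6
    exact (le_abs_self _).trans h6
  linarith

end Q240.GS
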