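import Pool.Agent.Q240.GS.Half

/-!
# Linear differential polynomials in `f` plus exponential sums
-/

set_option autoImplicit false

namespace Q240.GS

open Complex Filter Topology Metric Set Polynomial

/-- `P(D) f (s) + ∑ c(l) exp (-l s)` -/
noncomputable def LD (f : ℂ → ℂ) (P : ℂ[X]) (S : Finset ℝ) (c : ℝ → ℂ) (s : ℂ) : ℂ :=
  ∑ i ∈ Finset.range (P.natDegree + 1), P.coeff i * iteratedDeriv i f s +
    ∑ l ∈ S, c l * cexp (-(l * s))

/-- the exponential part -/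
noncomputable def ES (S : Finset ℝ) (c : ℝ → ℂ) (s : ℂ) : ℂ := ∑ l ∈ S, c l * cexp (-(l * s))

theorem ES_deriv (S : Finset ℝ) (c : ℝ → ℂ) (s : ℂ) :
    HasDerivAt (ES S c) (ES S (fun l => -l * c l) s) s := by
  unfold ES
  apply HasDerivAt.fun_sum
  intro l _
  have h1 : HasDerivAt (fun z : ℂ => cexp (-(l * z))) (cexp (-(l * s)) * (-l)) s := by
    have h2 := ((hasDerivAt_id s).const_mul (l : ℂ)).neg.cexp
    rw [mul_one] at h2
    exact h2
  refine (h1.const_mul (c l)).congr_deriv ?_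
  ring

/-- the homogeneous part -/
noncomputable def LP (f : ℂ → ℂ) (P : ℂ[X]) (s : ℂ) : ℂ := P.sum fun i a => a * iteratedDeriv i f s

theorem LD_eq (f : ℂ → ℂ) (P : ℂ[X]) (S : Finset ℝ) (c : ℝ → ℂ) (s : ℂ) :
    LD f P S c s = LP f P s + ES S c s := by
  rw [LD, LP, ES, Polynomial.sum_over_range]
  intro n
  simp

theorem LP_range (f : ℂ → ℂ) (P : ℂ[X]) (s : ℂ) :
    LP f P s = ∑ i ∈ Finset.range (P.natDegree + 1), P.coeff i * iteratedDeriv i f s := by
  rw [LP, Polynomial.sum_over_range]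
  intro n; simp

theorem LP_add (f : ℂ → ℂ) (P Q : ℂ[X]) (s : ℂ) : LP f (P + Q) s = LP f P s + LP f Q s := by
  rw [LP, LP, LP, Polynomial.sum_add_index]
  · intro i; simp
  · intro i a b; ring

theorem LP_monomial (f : ℂ → ℂ) (n : ℕ) (a : ℂ) (s : ℂ) : LP f (monomial n a) s = a * iteratedDeriv n f s := by
  rw [LP, Polynomial.sum_monomial_index]
  simp

theorem LP_C_mul (f : ℂ → ℂ) (a : ℂ) (P : ℂ[X]) (s : ℂ) : LP f (C a * P) s = a * LP f P s := by
  induction P using Polynomial.induction_on' with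
  | add P Q hP hQ => rw [mul_add, LP_add, LP_add, hP, hQ, mul_add]
  | monomial n b => rw [C_mul_monomial, LP_monomial, LP_monomial, mul_assoc]

theorem LP_deriv {f : ℂ → ℂ} (P : ℂ[X]) {s : ℂ} (hs : AnalyticAt ℂ f s) :
    HasDerivAt (LP f P) (LP f (X * P) s) s := by
  induction P using Polynomial.induction_on' with
  | add P Q hP hQ =>
    have h1 : LP f (P + Q) = fun s => LP f P s + LP f Q s := by funext s; exact LP_add f P Q s
    rw [h1, mul_add, LP_add]
    exact hP.add hQ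
  | monomial n b =>
    have h1 : LP f (monomial n b) = fun s => b * iteratedDeriv n f s := by
      funext s; exact LP_monomial f n b s
    rw [h1, X_mul_monomial, LP_monomial, iteratedDeriv_succ]
    have h2 : AnalyticAt ℂ (iteratedDeriv n f) s := by
      rw [iteratedDeriv_eq_iterate]
      exact hs.iterated_deriv n
    exact h2.differentiableAt.hasDerivAt.const_mul b

theorem LP_an {f : ℂ → ℂ} (P : ℂ[X]) {s : ℂ} (hs : AnalyticAt ℂ f s) : AnalyticAt ℂ (LP f P) s := by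
  have h1 : LP f P = fun s => ∑ i ∈ Finset.range (P.natDegree + 1), P.coeff i * iteratedDeriv i f s := by
    funext s; exact LP_range f P s
  rw [h1]
  refine Finset.analyticAt_fun_sum _ fun i _ => ?_
  have h2 : AnalyticAt ℂ (iteratedDeriv i f) s := by
    rw [iteratedDeriv_eq_iterate]
    exact hs.iterated_deriv i
  exact analyticAt_const.mul h2

theorem ES_an (S : Finset ℝ) (c : ℝ → ℂ) (s : ℂ) : AnalyticAt ℂ (ES S c) s := by
  have hd : Differentiable ℂ (ES S c) := fun z => (ES_deriv S c z).differentiableAt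
  exact hd.analyticAt s

theorem LD_an {f : ℂ → ℂ} (P : ℂ[X]) (S : Finset ℝ) (c : ℝ → ℂ) {s : ℂ} (hs : AnalyticAt ℂ f s) :
    AnalyticAt ℂ (LD f P S c) s := by
  have hfun : LD f P S c = fun s => LP f P s + ES S c s := by funext s; exact LD_eq f P S c s
  rw [hfun]
  exact (LP_an P hs).add (ES_an S c s)

theorem ES_bound (S : Finset ℝ) (B : ℝ) (hB : 0 ≤ B) : ∃ M : ℝ, 0 < M ∧ ∀ (c : ℝ → ℂ), (∀ l ∈ S, ‖c l‖ ≤ B) →
    ∀ s : ℂ, |s.re| ≤ 7 → ‖ES S c s‖ ≤ M := by
  refine ⟨∑ l ∈ S, B * Real.exp (|l| * 7) + 1, by positivity, fun c hc s hs => ?_⟩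
  have h1 : ‖ES S c s‖ ≤ ∑ l ∈ S, B * Real.exp (|l| * 7) := by
    refine norm_sum_le_of_le _ fun l hl => ?_
    rw [norm_mul, Complex.norm_exp]
    refine mul_le_mul (hc l hl) (Real.exp_le_exp.2 ?_) (Real.exp_pos _).le hB
    rw [neg_re, re_ofReal_mul]
    calc -(l * s.re) ≤ |l * s.re| := neg_le_abs _
      _ = |l| * |s.re| := abs_mul _ _
      _ ≤ |l| * 7 := by gcongr
  linarith

/-- local data of an L-function: size `exp (L (1/2 - Re s))` to the left of the critical strip, at most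
`exp (η L)` to the right -/
structure Base (f : ℂ → ℂ) (L Y η A : ℝ) : Prop where
  an : ∀ s : ℂ, |s.im| ≤ Y → -7 ≤ s.re → s.re ≤ 5 → AnalyticAt ℂ f s
  big : ∀ s : ℂ, |s.im| ≤ Y → -7 ≤ s.re → s.re ≤ -1 / 8 →
    Real.exp (L * (1 / 2 - s.re - η)) ≤ ‖f s‖ ∧ ‖f s‖ ≤ Real.exp (L * (1 / 2 - s.re + η))
  grow : ∀ s : ℂ, |s.im| ≤ Y → -7 ≤ s.re → s.re ≤ 5 → ‖f s‖ ≤ Real.exp (A * L)
  right : ∀ s : ℂ, |s.im| ≤ Y → 3 / 2 ≤ s.re → s.re ≤ 5 / 2 → ‖f s‖ ≤ Real.exp (η * L)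

theorem Base.mono {f : ℂ → ℂ} {L Y η A Y' η' A' : ℝ} (h : Base f L Y η A) (hL : 0 ≤ L) (hY : Y' ≤ Y)
    (hη : η ≤ η') (hA : A ≤ A') : Base f L Y' η' A' := by
  refine ⟨fun s h1 => h.an s (h1.trans hY), fun s h1 h2 h3 => ?_, fun s h1 h2 h3 => ?_, fun s h1 h2 h3 => ?_⟩
  · obtain ⟨a, b⟩ := h.big s (h1.trans hY) h2 h3
    refine ⟨le_trans (Real.exp_le_exp.2 ?_) a, b.trans (Real.exp_le_exp.2 ?_)⟩ <;>
    · apply mul_le_mul_of_nonneg_left _ hL
      linarith
  · exact (h.grow s (h1.trans hY) h2 h3).trans (Real.exp_le_exp.2 (mul_le_mul_of_nonneg_right hA hL))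
  · exact (h.right s (h1.trans hY) h2 h3).trans (Real.exp_le_exp.2 (mul_le_mul_of_nonneg_right hη hL))

theorem Base.half {f : ℂ → ℂ} {L Y η A : ℝ} (h : Base f L Y η A) : Half f L Y (-7) (-1 / 8) η :=
  ⟨fun s h1 h2 h3 => h.an s h1 h2 (by linarith), h.big⟩

/-- uniformity over finitely many indices -/
theorem ex_min {Q : ℕ → ℝ → ℝ → Prop} (n : ℕ) (h : ∀ i, ∃ e L0 : ℝ, 0 < e ∧ 1 ≤ L0 ∧ Q i e L0)
    (hm : ∀ i e e' L L', Q i e L → e' ≤ e → L ≤ L' → Q i e' L') :
    ∃ e L0 : ℝ, 0 < e ∧ 1 ≤ L0 ∧ ∀ i, i < n → Q i e L0 := by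
  induction n with
  | zero => exact ⟨1, 1, one_pos, le_rfl, fun i hi => absurd hi (Nat.not_lt_zero _)⟩
  | succ n ih =>
    obtain ⟨e1, L1, he1, hL1, h1⟩ := ih
    obtain ⟨e2, L2, he2, hL2, h2⟩ := h n
    refine ⟨min e1 e2, max L1 L2, lt_min he1 he2, hL1.trans (le_max_left _ _), fun i hi => ?_⟩
    rcases Nat.lt_succ_iff_lt_or_eq.1 hi with h3 | h3
    · exact hm i _ _ _ _ (h1 i h3) (min_le_left _ _) (le_max_left _ _)
    · rw [h3]
      exact hm n _ _ _ _ h2 (min_le_right _ _) (le_max_right _ _)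

theorem it_bound {f : ℂ → ℂ} {L Y η A : ℝ} (h : Base f L (Y + 1) η A) (k : ℕ) {s : ℂ} (h1 : |s.im| ≤ Y)
    (h2 : -6 ≤ s.re) (h3 : s.re ≤ 4) : ‖iteratedDeriv k f s‖ ≤ k.factorial * Real.exp (A * L) := by
  have hball : ∀ w ∈ closedBall s 1, |w.im| ≤ Y + 1 ∧ -7 ≤ w.re ∧ w.re ≤ 5 := by
    intro w hw
    rw [mem_closedBall, dist_eq_norm] at hw
    have h4 := abs_le.1 ((abs_re_le_norm (w - s)).trans hw)
    have h5 := (abs_im_le_norm (w - s)).trans hw
    rw [sub_re] at h4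
    rw [sub_im] at h5
    refine ⟨?_, by linarith, by linarith⟩
    calc |w.im| = |(w.im - s.im) + s.im| := by rw [sub_add_cancel]
      _ ≤ |w.im - s.im| + |s.im| := abs_add_le _ _
      _ ≤ Y + 1 := by linarith
  have hD : DiffContOnCl ℂ f (ball s 1) := by
    apply DifferentiableOn.diffContOnCl
    intro w hw
    obtain ⟨a, b, c⟩ := hball w (closure_ball_subset_closedBall hw)
    exact (h.an w a b c).differentiableAt.differentiableWithinAt
  have h6 := norm_iteratedDeriv_le_of_forall_mem_sphere_norm_le k one_pos hD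
    (fun z hz => by
      obtain ⟨a, b, c⟩ := hball z (sphere_subset_closedBall hz)
      exact h.grow z a b c)
  refine h6.trans (le_of_eq ?_)
  rw [one_pow, div_one]

theorem it_right {f : ℂ → ℂ} {L Y η A : ℝ} (h : Base f L (Y + 1) η A) (k : ℕ) {s : ℂ} (h1 : |s.im| ≤ Y)
    (h2 : s.re = 2) : ‖iteratedDeriv k f s‖ ≤ k.factorial * 2 ^ k * Real.exp (η * L) := by
  have hball : ∀ w ∈ closedBall s (1 / 2), |w.im| ≤ Y + 1 ∧ 3 / 2 ≤ w.re ∧ w.re ≤ 5 / 2 := by
    intro w hw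
    rw [mem_closedBall, dist_eq_norm] at hw
    have h4 := abs_le.1 ((abs_re_le_norm (w - s)).trans hw)
    have h5 := (abs_im_le_norm (w - s)).trans hw
    rw [sub_re] at h4
    rw [sub_im] at h5
    refine ⟨?_, by linarith, by linarith⟩
    calc |w.im| = |(w.im - s.im) + s.im| := by rw [sub_add_cancel]
      _ ≤ |w.im - s.im| + |s.im| := abs_add_le _ _
      _ ≤ Y + 1 := by linarith
  have hD : DiffContOnCl ℂ f (ball s (1 / 2)) := by
    apply DifferentiableOn.diffContOnCl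
    intro w hw
    obtain ⟨a, b, c⟩ := hball w (closure_ball_subset_closedBall hw)
    exact (h.an w a (by linarith) (by linarith)).differentiableAt.differentiableWithinAt
  have h6 := norm_iteratedDeriv_le_of_forall_mem_sphere_norm_le k (by norm_num : (0 : ℝ) < 1 / 2) hD
    (fun z hz => by
      obtain ⟨a, b, c⟩ := hball z (sphere_subset_closedBall hz)
      exact h.right z a b c)
  refine h6.trans (le_of_eq ?_)
  rw [div_pow, one_pow]
  field_simp

end Q240.GS
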