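import Pool.Agent.Q240.GS.Fam

/-!
# Local data of a function in a narrow strip to the left of the critical strip
-/

set_option autoImplicit false

namespace Q240.GS

open Complex Filter Topology Metric Set

/-- local data in the window `|Im s| ≤ Y`; the size is known for `-3/8 ≤ Re s ≤ -1/4` only -/
structure LocN (F : ℂ → ℂ) (L Y η A : ℝ) : Prop where
  an : ∀ s : ℂ, |s.im| ≤ Y → -3 / 8 ≤ s.re → s.re ≤ 4 → AnalyticAt ℂ F s
  big : ∀ s : ℂ, |s.im| ≤ Y → -3 / 8 ≤ s.re → s.re ≤ -1 / 4 →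
    Real.exp (L * (1 / 2 - s.re - η)) ≤ ‖F s‖ ∧ ‖F s‖ ≤ Real.exp (L * (1 / 2 - s.re + η))
  grow : ∀ s : ℂ, |s.im| ≤ Y → -3 / 8 ≤ s.re → s.re ≤ 4 → ‖F s‖ ≤ Real.exp (A * L)
  right : ∀ s : ℂ, |s.im| ≤ Y → s.re = 2 → ‖F s‖ ≤ Real.exp (η * L)

theorem LocN.mono {F : ℂ → ℂ} {L Y η A Y' η' A' : ℝ} (h : LocN F L Y η A) (hL : 0 ≤ L) (hY : Y' ≤ Y)
    (hη : η ≤ η') (hA : A ≤ A') : LocN F L Y' η' A' := by
  refine ⟨fun s h1 => h.an s (h1.trans hY), fun s h1 h2 h3 => ?_, fun s h1 h2 h3 => ?_, fun s h1 h2 => ?_⟩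
  · obtain ⟨a, b⟩ := h.big s (h1.trans hY) h2 h3
    refine ⟨le_trans (Real.exp_le_exp.2 ?_) a, b.trans (Real.exp_le_exp.2 ?_)⟩ <;>
    · apply mul_le_mul_of_nonneg_left _ hL
      linarith
  · exact (h.grow s (h1.trans hY) h2 h3).trans (Real.exp_le_exp.2 (mul_le_mul_of_nonneg_right hA hL))
  · exact (h.right s (h1.trans hY) h2).trans (Real.exp_le_exp.2 (mul_le_mul_of_nonneg_right hη hL))

theorem LocN.ne {F : ℂ → ℂ} {L Y η A : ℝ} (h : LocN F L Y η A) {s : ℂ} (h1 : |s.im| ≤ Y) (h2 : -3 / 8 ≤ s.re)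
    (h3 : s.re ≤ -1 / 4) : F s ≠ 0 := by
  intro h0
  have := (h.big s h1 h2 h3).1
  rw [h0, norm_zero] at this
  exact absurd this (not_le.2 (Real.exp_pos _))

/-- size information for `-3/8 ≤ Re s ≤ x` -/
def Inf (F : ℂ → ℂ) (L e x T W : ℝ) : Prop := ∀ s : ℂ, |s.im - T| ≤ W → -3 / 8 ≤ s.re → s.re ≤ x →
  Real.exp (L * (1 / 2 - s.re - e)) ≤ ‖F s‖ ∧ ‖F s‖ ≤ Real.exp (L * (1 / 2 - s.re + e))

theorem Inf.ne {F : ℂ → ℂ} {L e x T W : ℝ} (h : Inf F L e x T W) {s : ℂ} (h1 : |s.im - T| ≤ W)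
    (h2 : -3 / 8 ≤ s.re) (h3 : s.re ≤ x) : F s ≠ 0 := by
  intro h0
  have := (h s h1 h2 h3).1
  rw [h0, norm_zero] at this
  exact absurd this (not_le.2 (Real.exp_pos _))

/-- one step to the right, from `x` to `x' = x + 3 r / 2`, `10 r ≤ x' + 3/8` -/
theorem ext_gen (η0 η A : ℝ) (hη0 : 0 < η0) (hη01 : η0 ≤ 1 / 4) (hη : 0 < η) (hA : 0 < A) : ∃ e : ℝ, 0 < e ∧
    ∀ (F : ℂ → ℂ) (L x' r T W : ℝ), 1 ≤ L → 0 < r → r ≤ 1 / 8 → x' ≤ 1 / 2 → 10 * r ≤ x' + 3 / 8 →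
    (∀ s : ℂ, |s.im - T| ≤ W → -3 / 8 ≤ s.re → s.re ≤ 4 → AnalyticAt ℂ F s ∧ ‖F s‖ ≤ Real.exp (A * L)) →
    Inf F L e (x' - 3 / 2 * r) T W →
    (∀ s : ℂ, |s.im - T| ≤ W → -3 / 8 ≤ s.re → s.re < x' → F s ≠ 0) →
    ∀ s : ℂ, |s.im - T| ≤ W - 2 → x' - 3 / 2 * r ≤ s.re → s.re ≤ x' - η0 * r →
      F s ≠ 0 ∧ ‖logDeriv F s + L‖ ≤ η / r * L ∧
      Real.exp (L * (1 / 2 - s.re - η)) ≤ ‖F s‖ ∧
      ‖F s‖ ≤ Real.exp (L * (1 / 2 - s.re + η)) := by
  obtain ⟨e, he, hS⟩ := Pool.Agent.H986R2.K4.sab η0 η A hη0 hη01 hη hA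
  refine ⟨e, he, fun F L x' r T W hL hr0 hr1 hx'1 hr10 hF hI hz s hs hs1 hs2 => ?_⟩
  have hL0 : 0 < L := by linarith
  obtain ⟨τ, hτ⟩ : ∃ τ : ℝ, τ = s.im := ⟨_, rfl⟩
  obtain ⟨pt, hpt⟩ : ∃ pt : ℂ → ℂ, pt = fun u => (x' : ℂ) + (τ : ℂ) * I - (r : ℂ) * u := ⟨_, rfl⟩
  have hptre : ∀ u, (pt u).re = x' - r * u.re := by intro u; simp [hpt]
  have hptim : ∀ u, (pt u).im = τ - r * u.im := by intro u; simp [hpt]
  have hptd : ∀ u, HasDerivAt pt (-(r : ℂ)) u := by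
    intro u
    have h0 := ((hasDerivAt_id u).const_mul (r : ℂ)).const_sub ((x' : ℂ) + (τ : ℂ) * I)
    rw [hpt]
    exact h0.congr_deriv (by rw [mul_one])
  obtain ⟨g, hg⟩ : ∃ g : ℂ → ℂ, g = fun u => F (pt u) * cexp ((L : ℂ) * (pt u - 1 / 2)) := ⟨_, rfl⟩
  have hgn : ∀ u, ‖g u‖ = ‖F (pt u)‖ * Real.exp (L * ((pt u).re - 1 / 2)) := by
    intro u
    rw [hg, norm_mul, Complex.norm_exp]
    congr 2
    simp [sub_re]
  -- the geometry
  have hgeo : ∀ u : ℂ, 0 < u.re → u.re ≤ 10 → |u.im| ≤ 10 → (pt u).re < x' ∧ -3 / 8 ≤ (pt u).re ∧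
      |(pt u).im - T| ≤ W := by
    intro u h1 h2 h3
    rw [hptre, hptim]
    have e1 : 0 < r * u.re := mul_pos hr0 h1
    have e2 : r * u.re ≤ r * 10 := mul_le_mul_of_nonneg_left h2 hr0.le
    have e3 : |r * u.im| ≤ 2 := by
      rw [abs_mul, abs_of_pos hr0]
      calc r * |u.im| ≤ 1 / 8 * 10 := mul_le_mul hr1 h3 (abs_nonneg _) (by norm_num)
        _ ≤ 2 := by norm_num
    refine ⟨by linarith, by linarith, ?_⟩
    calc |τ - r * u.im - T| = |(s.im - T) - r * u.im| := by rw [hτ]; congr 1; ring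
      _ ≤ |s.im - T| + |r * u.im| := abs_sub _ _
      _ ≤ W := by linarith
  have hne : ∀ u : ℂ, 0 < u.re → u.re ≤ 10 → |u.im| ≤ 10 → F (pt u) ≠ 0 := by
    intro u h1 h2 h3
    obtain ⟨h4, h5, h6⟩ := hgeo u h1 h2 h3
    exact hz _ h6 h5 h4
  have hmain := hS L g (by linarith) (by
    intro u h1 h2 h3
    obtain ⟨h4, h5, h6⟩ := hgeo u h1 h2 h3
    have h7 := hne u h1 h2 h3
    obtain ⟨q1, q2⟩ := hF (pt u) h6 h5 (by linarith)
    refine ⟨?_, ?_, ?_⟩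
    · have hd1 : DifferentiableAt ℂ (fun u => F (pt u)) u :=
        DifferentiableAt.comp u q1.differentiableAt (hptd u).differentiableAt
      have hd2 : DifferentiableAt ℂ (fun u => cexp ((L : ℂ) * (pt u - 1 / 2))) u :=
        (((hptd u).differentiableAt.sub_const _).const_mul _).cexp
      rw [hg]
      exact hd1.mul hd2
    · rw [hg]
      exact mul_ne_zero h7 (Complex.exp_ne_zero _)
    · rw [hgn]
      calc ‖F (pt u)‖ * Real.exp (L * ((pt u).re - 1 / 2)) ≤ Real.exp (A * L) * 1 := by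
            gcongr
            rw [Real.exp_le_one_iff]
            exact mul_nonpos_of_nonneg_of_nonpos hL0.le (by linarith)
        _ = _ := by rw [mul_one]) (by
    intro u h1 h2 h3
    obtain ⟨h4, h5, h6⟩ := hgeo u (by linarith) h2 h3
    have h7 : (pt u).re ≤ x' - 3 / 2 * r := by
      rw [hptre]
      have e1 : r * (3 / 2) ≤ r * u.re := mul_le_mul_of_nonneg_left h1 hr0.le
      linarith
    obtain ⟨b1, b2⟩ := hI (pt u) h6 h5 h7
    obtain ⟨x, hx⟩ : ∃ x : ℝ, x = 1 / 2 - (pt u).re := ⟨_, rfl⟩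
    rw [← hx] at b1 b2
    rw [hgn, show L * ((pt u).re - 1 / 2) = -(L * x) by rw [hx]; ring]
    constructor
    · calc Real.exp (-(e * L)) = Real.exp (L * (x - e)) * Real.exp (-(L * x)) := by
            rw [← Real.exp_add]
            congr 1; ring
        _ ≤ _ := by gcongr
    · calc ‖F (pt u)‖ * Real.exp (-(L * x)) ≤ Real.exp (L * (x + e)) * Real.exp (-(L * x)) := by gcongr
        _ = _ := by
            rw [← Real.exp_add]
            congr 1; ring)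
  -- the point
  obtain ⟨x, hx⟩ : ∃ x : ℝ, x = (x' - s.re) / r := ⟨_, rfl⟩
  have hxr : r * x = x' - s.re := by rw [hx]; field_simp
  have hps : pt (x : ℂ) = s := by
    apply Complex.ext
    · rw [hptre, ofReal_re, hxr]; ring
    · rw [hptim, ofReal_im, mul_zero, sub_zero, hτ]
  have hx1 : η0 ≤ x := by
    rw [hx, le_div_iff₀ hr0]
    linarith
  have hx2 : x ≤ 3 / 2 := by
    rw [hx, div_le_iff₀ hr0]
    linarith
  have hx0 : 0 < x := lt_of_lt_of_le hη0 hx1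
  have hnes := hne (x : ℂ) (by rw [ofReal_re]; exact hx0) (by rw [ofReal_re]; linarith)
    (by rw [ofReal_im]; norm_num)
  obtain ⟨m1, m2, m3⟩ := hmain (x : ℂ) (by rw [ofReal_re]; exact hx1) (by rw [ofReal_re]; linarith)
    (by rw [ofReal_im]; norm_num)
  have hW0 : |s.im - T| ≤ W := by linarith
  have hsan : AnalyticAt ℂ F s := (hF s hW0 (by linarith) (by
    have : 0 ≤ η0 * r := by positivity
    linarith)).1
  rw [hps] at hnes
  have hld : logDeriv g (x : ℂ) = -(r : ℂ) * (logDeriv F s + L) := by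
    have hd1 : HasDerivAt (fun u => F (pt u)) (deriv F s * (-(r : ℂ))) (x : ℂ) := by
      have h1 : HasDerivAt F (deriv F s) (pt (x : ℂ)) := by
        rw [hps]; exact hsan.differentiableAt.hasDerivAt
      exact HasDerivAt.comp (x : ℂ) h1 (hptd (x : ℂ))
    have hd2 : HasDerivAt (fun u => cexp ((L : ℂ) * (pt u - 1 / 2)))
        (cexp ((L : ℂ) * (s - 1 / 2)) * ((L : ℂ) * (-(r : ℂ)))) (x : ℂ) := by
      have := (((hptd (x : ℂ)).sub_const (1 / 2)).const_mul (L : ℂ)).cexp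
      rw [hps] at this
      exact this
    have hd3 := hd1.mul hd2
    have hE := Complex.exp_ne_zero ((L : ℂ) * (s - 1 / 2))
    rw [logDeriv_apply, hg]
    have h1 : deriv (fun u => F (pt u) * cexp ((L : ℂ) * (pt u - 1 / 2))) (x : ℂ) =
        deriv F s * (-(r : ℂ)) * cexp ((L : ℂ) * (pt (x : ℂ) - 1 / 2)) +
        F (pt (x : ℂ)) * (cexp ((L : ℂ) * (s - 1 / 2)) * ((L : ℂ) * (-(r : ℂ)))) := hd3.deriv
    rw [h1]
    simp only [hps]
    rw [logDeriv_apply]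
    field_simp
    ring
  rw [hld, norm_mul, norm_neg, norm_real, Real.norm_of_nonneg hr0.le] at m1
  rw [hgn, hps] at m2 m3
  refine ⟨hnes, ?_, ?_, ?_⟩
  · have h1 : r * ‖logDeriv F s + (L : ℂ)‖ ≤ r * (η / r * L) := by
      calc _ ≤ η * L := m1
        _ = _ := by field_simp
    exact le_of_mul_le_mul_left h1 hr0
  · have h1 : Real.exp (-(η * L)) * Real.exp (L * (1 / 2 - s.re)) ≤ ‖F s‖ := by
      calc _ ≤ (‖F s‖ * Real.exp (L * (s.re - 1 / 2))) * Real.exp (L * (1 / 2 - s.re)) := by gcongr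
        _ = ‖F s‖ := by
            rw [mul_assoc, ← Real.exp_add, show L * (s.re - 1 / 2) + L * (1 / 2 - s.re) = 0 by ring,
              Real.exp_zero, mul_one]
    refine le_trans (le_of_eq ?_) h1
    rw [← Real.exp_add]
    congr 1; ring
  · have h1 : ‖F s‖ ≤ Real.exp (η * L) * Real.exp (L * (1 / 2 - s.re)) := by
      calc ‖F s‖ = (‖F s‖ * Real.exp (L * (s.re - 1 / 2))) * Real.exp (L * (1 / 2 - s.re)) := by
            rw [mul_assoc, ← Real.exp_add, show L * (s.re - 1 / 2) + L * (1 / 2 - s.re) = 0 by ring,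
              Real.exp_zero, mul_one]
        _ ≤ _ := by gcongr
    refine h1.trans (le_of_eq ?_)
    rw [← Real.exp_add]
    congr 1; ring

/-- the size propagates to the right: `n` steps -/
theorem ext_iter (A : ℝ) (hA : 0 < A) (n : ℕ) : ∀ η : ℝ, 0 < η → ∃ e : ℝ, 0 < e ∧
    ∀ (F : ℂ → ℂ) (L α T W : ℝ), 1 ≤ L → α ≤ 1 / 2 →
    (∀ s : ℂ, |s.im - T| ≤ W → -3 / 8 ≤ s.re → s.re ≤ 4 → AnalyticAt ℂ F s ∧ ‖F s‖ ≤ Real.exp (A * L)) →
    Inf F L e (-1 / 4) T W →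
    (∀ s : ℂ, |s.im - T| ≤ W → -1 / 4 < s.re → s.re < α → F s ≠ 0) →
    ∀ x : ℝ, x + 3 / 8 ≤ (39 / 34) ^ n / 8 → x + 3 / 8 ≤ 17 / 20 * (α + 3 / 8) → Inf F L η x T (W - 2 * n) := by
  induction n with
  | zero =>
    intro η hη
    refine ⟨η, hη, fun F L α T W hL hα hF hI hz x hx1 hx2 s h1 h2 h3 => ?_⟩
    rw [pow_zero] at hx1
    rw [Nat.cast_zero, mul_zero, sub_zero] at h1
    exact hI s h1 h2 (by linarith)
  | succ n ih =>
    intro η hη
    obtain ⟨e1, he1, h1⟩ := ext_gen (1 / 4) η A (by norm_num) le_rfl hη hA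
    obtain ⟨e2, he2, h2⟩ := ih (min e1 η) (lt_min he1 hη)
    refine ⟨e2, he2, fun F L α T W hL hα hF hI hz x hx1 hx2 s s1 s2 s3 => ?_⟩
    have hL0 : 0 ≤ L := by linarith
    have hn0 : (0 : ℝ) ≤ n := Nat.cast_nonneg n
    rw [Nat.cast_succ] at s1
    obtain ⟨y, hy⟩ : ∃ y : ℝ, y = max (1 / 8) ((x + 3 / 8) / (39 / 34)) := ⟨_, rfl⟩
    have hpow : (1 : ℝ) ≤ (39 / 34) ^ n := one_le_pow₀ (by norm_num)
    have hI2 : ∀ x0 : ℝ, x0 + 3 / 8 ≤ (39 / 34) ^ n / 8 → x0 + 3 / 8 ≤ 17 / 20 * (α + 3 / 8) →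
        Inf F L (min e1 η) x0 T (W - 2 * n) := h2 F L α T W hL hα hF hI hz
    rcases le_or_gt s.re (-1 / 4) with hs4 | hs4
    · have hbase : ∀ x0 : ℝ, x0 = min (-1 / 4) x → Inf F L (min e1 η) x0 T (W - 2 * n) := by
        intro x0 hx0
        apply hI2
        · rw [hx0]
          have := min_le_left (-1 / 4) x
          linarith
        · rw [hx0]
          have := min_le_right (-1 / 4) x
          linarith
      obtain ⟨b1, b2⟩ := hbase _ rfl s (by linarith) s2 (le_min hs4 s3)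
      refine ⟨le_trans (Real.exp_le_exp.2 ?_) b1, b2.trans (Real.exp_le_exp.2 ?_)⟩ <;>
      · apply mul_le_mul_of_nonneg_left _ hL0
        linarith [min_le_right e1 η]
    · have hx4 : -1 / 4 < x := by linarith
      have hy1 : 1 / 8 ≤ y := by rw [hy]; exact le_max_left _ _
      have hy2 : x + 3 / 8 ≤ 39 / 34 * y := by
        have : (x + 3 / 8) / (39 / 34) ≤ y := by rw [hy]; exact le_max_right _ _
        rw [div_le_iff₀ (by norm_num)] at this
        linarith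
      have hy3 : y ≤ (39 / 34) ^ n / 8 := by
        rw [hy]
        apply max_le
        · linarith
        · rw [div_le_iff₀ (by norm_num)]
          rw [pow_succ] at hx1
          linarith
      have hy4 : y ≤ 17 / 20 * (α + 3 / 8) := by
        rw [hy]
        apply max_le
        · linarith
        · rw [div_le_iff₀ (by norm_num)]
          have : 0 ≤ 17 / 20 * (α + 3 / 8) := by linarith
          linarith
      obtain ⟨r, hr⟩ : ∃ r : ℝ, r = 2 / 17 * y := ⟨_, rfl⟩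
      have hr0 : 0 < r := by rw [hr]; linarith
      obtain ⟨x', hx'⟩ : ∃ x' : ℝ, x' = 20 / 17 * y - 3 / 8 := ⟨_, rfl⟩
      have hx'α : x' ≤ α := by rw [hx']; linarith
      have e0 : x' - 3 / 2 * r = y - 3 / 8 := by rw [hx', hr]; ring
      have hI3 := hI2 (y - 3 / 8) (by linarith) (by linarith)
      rcases le_total s.re (y - 3 / 8) with hsy | hsy
      · obtain ⟨b1, b2⟩ := hI3 s (by linarith) s2 hsy
        refine ⟨le_trans (Real.exp_le_exp.2 ?_) b1, b2.trans (Real.exp_le_exp.2 ?_)⟩ <;>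
        · apply mul_le_mul_of_nonneg_left _ hL0
          linarith [min_le_right e1 η]
      · have key := h1 F L x' r T (W - 2 * n) hL hr0 (by rw [hr]; linarith) (by linarith)
          (by rw [hx', hr]; linarith)
          (fun s a1 a2 a3 => hF s (by linarith) a2 a3) (by
            rw [e0]
            intro z z1 z2 z3
            obtain ⟨b1, b2⟩ := hI3 z z1 z2 z3
            refine ⟨le_trans (Real.exp_le_exp.2 ?_) b1, b2.trans (Real.exp_le_exp.2 ?_)⟩ <;>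
            · apply mul_le_mul_of_nonneg_left _ hL0
              linarith [min_le_left e1 η])
          (fun z z1 z2 z3 => by
            rcases lt_or_ge (-1 / 4) z.re with z4 | z4
            · exact hz z (by linarith) z4 (by linarith)
            · exact hI.ne (by linarith) z2 z4) s (by linarith) (by rw [e0]; exact hsy)
          (by rw [hx', hr]; linarith)
        exact ⟨key.2.2.1, key.2.2.2⟩

theorem logderN (α ε η A : ℝ) (hε : 0 < ε) (hεα : ε - 1 / 4 ≤ α) (hα : α ≤ 1 / 2) (hη : 0 < η) (hA : 0 < A) :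
    ∃ e L0 : ℝ, 0 < e ∧ 1 ≤ L0 ∧ ∀ (F : ℂ → ℂ) (L Y T : ℝ), L0 ≤ L → LocN F L Y e A → |T| + 45 ≤ Y →
    (∀ s : ℂ, -1 / 4 < s.re → s.re < α → |s.im - T| ≤ 45 → F s ≠ 0) →
    ∀ s : ℂ, s.im = T → -1 / 4 ≤ s.re → s.re ≤ α - ε → F s ≠ 0 ∧
      ‖logDeriv F s + L‖ ≤ η * L ∧
      Real.exp (L * (1 / 2 - s.re - η)) ≤ ‖F s‖ ∧
      ‖F s‖ ≤ Real.exp (L * (1 / 2 - s.re + η)) := by
  obtain ⟨Z, hZ⟩ : ∃ Z : ℝ, Z = α + 3 / 8 := ⟨_, rfl⟩
  have hZ0 : 1 / 8 < Z := by linarith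
  have hZ1 : Z ≤ 7 / 8 := by linarith
  -- the last step
  obtain ⟨r, hr⟩ : ∃ r : ℝ, r = min ε (1 / 80) := ⟨_, rfl⟩
  have hr0 : 0 < r := by rw [hr]; exact lt_min hε (by norm_num)
  have hr1 : r ≤ ε := by rw [hr]; exact min_le_left _ _
  have hr2 : r ≤ 1 / 80 := by rw [hr]; exact min_le_right _ _
  obtain ⟨e1, he1, h1⟩ := ext_gen (1 / 4) (η * r) A (by norm_num) le_rfl (by positivity) hA
  -- the size up to `α - ε`
  obtain ⟨η0, hη0⟩ : ∃ η0 : ℝ, η0 = min (1 / 4) (ε / (Z / 10)) := ⟨_, rfl⟩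
  have hη00 : 0 < η0 := by rw [hη0]; exact lt_min (by norm_num) (by positivity)
  have hη01 : η0 ≤ 1 / 4 := by rw [hη0]; exact min_le_left _ _
  have hη02 : η0 * (Z / 10) ≤ ε := by
    have : η0 ≤ ε / (Z / 10) := by rw [hη0]; exact min_le_right _ _
    rwa [le_div_iff₀ (by positivity)] at this
  obtain ⟨e2, he2, h2⟩ := ext_gen η0 e1 A hη00 hη01 he1 hA
  obtain ⟨e3, he3, h3⟩ := ext_iter A hA 15 (min e1 e2) (lt_min he1 he2)
  refine ⟨e3, 1, he3, le_rfl, fun F L Y T hL hF hTY hz s hs hs1 hs2 => ?_⟩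
  have hL0 : 0 ≤ L := by linarith
  have hwin : ∀ z : ℂ, |z.im - T| ≤ 45 → |z.im| ≤ Y := by
    intro z hz
    calc |z.im| = |(z.im - T) + T| := by rw [sub_add_cancel]
      _ ≤ |z.im - T| + |T| := abs_add_le _ _
      _ ≤ Y := by linarith
  have hreg : ∀ z : ℂ, |z.im - T| ≤ 45 → -3 / 8 ≤ z.re → z.re ≤ 4 →
      AnalyticAt ℂ F z ∧ ‖F z‖ ≤ Real.exp (A * L) := fun z z1 z2 z3 =>
    ⟨hF.an z (hwin z z1) z2 z3, hF.grow z (hwin z z1) z2 z3⟩
  have hI0 : Inf F L e3 (-1 / 4) T 45 := fun z z1 z2 z3 => hF.big z (hwin z z1) z2 z3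
  have hI1 : ∀ x : ℝ, x + 3 / 8 ≤ 17 / 20 * Z → Inf F L (min e1 e2) x T 15 := by
    intro x hx
    have h4 := h3 F L α T 45 hL hα hreg hI0 (fun z z1 z2 z3 => hz z z2 z3 z1) x
      (by
        refine hx.trans ?_
        have : (17 / 20 * (7 / 8) : ℝ) ≤ (39 / 34) ^ 15 / 8 := by norm_num
        linarith) (by rw [← hZ]; exact hx)
    have e0 : (45 - 2 * ((15 : ℕ) : ℝ) : ℝ) = 15 := by norm_num
    rwa [e0] at h4
  have hnz : ∀ z : ℂ, |z.im - T| ≤ 45 → -3 / 8 ≤ z.re → z.re < α → F z ≠ 0 := by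
    intro z z1 z2 z3
    rcases lt_or_ge (-1 / 4) z.re with z4 | z4
    · exact hz z z4 z3 z1
    · exact hI0.ne z1 z2 z4
  have hI2 : Inf F L e1 (α - ε) T 13 := by
    intro z z1 z2 z3
    rcases le_total z.re (17 / 20 * Z - 3 / 8) with z4 | z4
    · obtain ⟨b1, b2⟩ := hI1 (17 / 20 * Z - 3 / 8) (by linarith) z (by linarith) z2 z4
      refine ⟨le_trans (Real.exp_le_exp.2 ?_) b1, b2.trans (Real.exp_le_exp.2 ?_)⟩ <;>
      · apply mul_le_mul_of_nonneg_left _ hL0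
        linarith [min_le_left e1 e2]
    · have e0 : α - 3 / 2 * (Z / 10) = 17 / 20 * Z - 3 / 8 := by rw [hZ]; ring
      have key := h2 F L α (Z / 10) T 15 hL (by positivity) (by linarith) hα (by linarith)
        (fun w w1 w2 w3 => hreg w (by linarith) w2 w3) (by
          rw [e0]
          intro w w1 w2 w3
          obtain ⟨b1, b2⟩ := hI1 (17 / 20 * Z - 3 / 8) (by linarith) w w1 w2 w3
          refine ⟨le_trans (Real.exp_le_exp.2 ?_) b1, b2.trans (Real.exp_le_exp.2 ?_)⟩ <;>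
          · apply mul_le_mul_of_nonneg_left _ hL0
            linarith [min_le_right e1 e2])
        (fun w w1 w2 w3 => hnz w (by linarith) w2 w3) z (by linarith) (by rw [e0]; exact z4) (by linarith)
      exact ⟨key.2.2.1, key.2.2.2⟩
  have key := h1 F L (s.re + r) r T 13 hL hr0 (by linarith) (by linarith) (by linarith)
    (fun w w1 w2 w3 => hreg w (by linarith) w2 w3) (fun w w1 w2 w3 => hI2 w w1 w2 (by linarith))
    (fun w w1 w2 w3 => hnz w (by linarith) w2 (by linarith)) s (by rw [hs]; norm_num) (by linarith) (by linarith)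
  obtain ⟨k1, k2, k3, k4⟩ := key
  have hη1 : η * r ≤ η := by nlinarith
  refine ⟨k1, ?_, le_trans (Real.exp_le_exp.2 ?_) k3, k4.trans (Real.exp_le_exp.2 ?_)⟩
  · have e0 : η * r / r = η := by field_simp
    rwa [e0] at k2
  · apply mul_le_mul_of_nonneg_left _ hL0
    linarith
  · apply mul_le_mul_of_nonneg_left _ hL0
    linarith

end Q240.GS
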