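import Pool.Agent.Q240.GS.N2

/-!
# Linear differential polynomials plus exponential sums: the local data, narrow version
-/

set_option autoImplicit false

namespace Q240.GS

open Complex Filter Topology Metric Set Polynomial

/-- local data of an L-function: size `exp (L (1/2 - Re s))` to the left of the critical strip, at most
`exp (η L)` to the right -/
structure BaseN (f : ℂ → ℂ) (L Y η A : ℝ) : Prop where
  an : ∀ s : ℂ, |s.im| ≤ Y → -7 / 16 ≤ s.re → s.re ≤ 5 → AnalyticAt ℂ f s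
  big : ∀ s : ℂ, |s.im| ≤ Y → -7 / 16 ≤ s.re → s.re ≤ -1 / 8 →
    Real.exp (L * (1 / 2 - s.re - η)) ≤ ‖f s‖ ∧ ‖f s‖ ≤ Real.exp (L * (1 / 2 - s.re + η))
  grow : ∀ s : ℂ, |s.im| ≤ Y → -7 / 16 ≤ s.re → s.re ≤ 5 → ‖f s‖ ≤ Real.exp (A * L)
  right : ∀ s : ℂ, |s.im| ≤ Y → 3 / 2 ≤ s.re → s.re ≤ 5 / 2 → ‖f s‖ ≤ Real.exp (η * L)

theorem BaseN.mono {f : ℂ → ℂ} {L Y η A Y' η' A' : ℝ} (h : BaseN f L Y η A) (hL : 0 ≤ L) (hY : Y' ≤ Y)
    (hη : η ≤ η') (hA : A ≤ A') : BaseN f L Y' η' A' := by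
  refine ⟨fun s h1 => h.an s (h1.trans hY), fun s h1 h2 h3 => ?_, fun s h1 h2 h3 => ?_, fun s h1 h2 h3 => ?_⟩
  · obtain ⟨a, b⟩ := h.big s (h1.trans hY) h2 h3
    refine ⟨le_trans (Real.exp_le_exp.2 ?_) a, b.trans (Real.exp_le_exp.2 ?_)⟩ <;>
    · apply mul_le_mul_of_nonneg_left _ hL
      linarith
  · exact (h.grow s (h1.trans hY) h2 h3).trans (Real.exp_le_exp.2 (mul_le_mul_of_nonneg_right hA hL))
  · exact (h.right s (h1.trans hY) h2 h3).trans (Real.exp_le_exp.2 (mul_le_mul_of_nonneg_right hη hL))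

theorem BaseN.half {f : ℂ → ℂ} {L Y η A : ℝ} (h : BaseN f L Y η A) : Half f L Y (-7 / 16) (-1 / 8) η :=
  ⟨fun s h1 h2 h3 => h.an s h1 h2 (by linarith), h.big⟩

theorem it_boundN {f : ℂ → ℂ} {L Y η A : ℝ} (h : BaseN f L (Y + 1) η A) (k : ℕ) {s : ℂ} (h1 : |s.im| ≤ Y)
    (h2 : -3 / 8 ≤ s.re) (h3 : s.re ≤ 4) : ‖iteratedDeriv k f s‖ ≤ k.factorial * 16 ^ k * Real.exp (A * L) := by
  have hball : ∀ w ∈ closedBall s (1 / 16), |w.im| ≤ Y + 1 ∧ -7 / 16 ≤ w.re ∧ w.re ≤ 5 := by
    intro w hw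
    rw [mem_closedBall, dist_eq_norm] at hw
    have h4 := abs_le.1 ((abs_re_le_norm (w - s)).trans hw)
    have h5 := (abs_im_le_norm (w - s)).trans hw
    rw [sub_re] at h4
    rw [sub_im] at h5
    refine ⟨?_, by linarith, by linarith⟩
    calc |w.im| = |(w.im - s.im) + s.im| := by rw [sub_add_cancel]
      _ ≤ |w.im - s.im| + |s.im| := abs_add_le _ _
      _ ≤ Y + 1 := by linarith
  have hD : DiffContOnCl ℂ f (ball s (1 / 16)) := by
    apply DifferentiableOn.diffContOnCl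
    intro w hw
    obtain ⟨a, b, c⟩ := hball w (closure_ball_subset_closedBall hw)
    exact (h.an w a b c).differentiableAt.differentiableWithinAt
  have h6 := norm_iteratedDeriv_le_of_forall_mem_sphere_norm_le k (by norm_num : (0 : ℝ) < 1 / 16) hD
    (fun z hz => by
      obtain ⟨a, b, c⟩ := hball z (sphere_subset_closedBall hz)
      exact h.grow z a b c)
  refine h6.trans (le_of_eq ?_)
  rw [div_pow, one_pow]
  field_simp

theorem it_rightN {f : ℂ → ℂ} {L Y η A : ℝ} (h : BaseN f L (Y + 1) η A) (k : ℕ) {s : ℂ} (h1 : |s.im| ≤ Y)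
    (h2 : s.re = 2) : ‖iteratedDeriv k f s‖ ≤ k.factorial * 2 ^ k * Real.exp (η * L) := by
  have hball : ∀ w ∈ closedBall s (1 / 2), |w.im| ≤ Y + 1 ∧ 3 / 2 ≤ w.re ∧ w.re ≤ 5 / 2 := by
    intro w hw
    rw [mem_closedBall, dist_eq_norm] at hw
    have h4 := abs_le.1 ((abs_re_le_norm (w - s)).trans hw)
    have h5 := (abs_im_le_norm (w - s)).trans hw
    rw [sub_re] at h4
    rw [sub_im] at h5
    refine ⟨?_, by linarith, by linarith⟩
    calc |w.im| = |(w.im - s.im) + s.im| := by rw [sub_add_cancel]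
      _ ≤ |w.im - s.im| + |s.im| := abs_add_le _ _
      _ ≤ Y + 1 := by linarith
  have hD : DiffContOnCl ℂ f (ball s (1 / 2)) := by
    apply DifferentiableOn.diffContOnCl
    intro w hw
    obtain ⟨a, b, c⟩ := hball w (closure_ball_subset_closedBall hw)
    exact (h.an w a (by linarith) (by linarith)).differentiableAt.differentiableWithinAt
  have h6 := norm_iteratedDeriv_le_of_forall_mem_sphere_norm_le k (by norm_num : (0 : ℝ) < 1 / 2) hD
    (fun z hz => by
      obtain ⟨a, b, c⟩ := hball z (sphere_subset_closedBall hz)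
      exact h.right z a b c)
  refine h6.trans (le_of_eq ?_)
  rw [div_pow, one_pow]
  field_simp


theorem loc_LDN (P : ℂ[X]) (hP : P ≠ 0) (S : Finset ℝ) (B A η : ℝ) (hB : 0 ≤ B) (hA : 0 < A) (hη : 0 < η) :
    ∃ e L0 : ℝ, 0 < e ∧ 1 ≤ L0 ∧ ∀ (f : ℂ → ℂ) (c : ℝ → ℂ) (L Y : ℝ), L0 ≤ L → (∀ l ∈ S, ‖c l‖ ≤ B) →
      BaseN f L (Y + 1) e A → LocN (LD f P S c) L Y η (A + 1) := by
  obtain ⟨M, hM, hES⟩ := ES_bound S B hB
  obtain ⟨W, hW⟩ : ∃ W : ℝ, W = ∑ i ∈ Finset.range (P.natDegree + 1), ‖P.coeff i‖ := ⟨_, rfl⟩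
  have hW0 : 0 ≤ W := by rw [hW]; positivity
  obtain ⟨m, hm⟩ : ∃ m : ℕ, m = P.natDegree := ⟨_, rfl⟩
  obtain ⟨p, hp⟩ : ∃ p : ℝ, p = ‖P.coeff m‖ := ⟨_, rfl⟩
  have hp0 : 0 < p := by
    rw [hp, hm]
    exact norm_pos_iff.2 (by rw [Polynomial.coeff_natDegree]; exact Polynomial.leadingCoeff_ne_zero.2 hP)
  obtain ⟨ρ, hρ⟩ : ∃ ρ : ℝ, ρ = 1 / (160 * (m + 1)) := ⟨_, rfl⟩
  have hρ0 : 0 < ρ := by rw [hρ]; positivity
  obtain ⟨e1, L1, he1, hL1, h1⟩ := ex_min (m + 1) (Q := fun i e L0 => ∀ (f : ℂ → ℂ) (L Y : ℝ), 1 ≤ L → L0 ≤ L →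
      BaseN f L (Y + 1) e A → ∀ s : ℂ, |s.im| ≤ Y → -3 / 8 ≤ s.re → s.re ≤ -1 / 4 → i ≤ m →
      ‖iteratedDeriv i f s - (-(L : ℂ)) ^ i * f s‖ ≤ 1 / 8 * L ^ i * ‖f s‖) (fun i => by
    obtain ⟨e, L0, he, hL0, h⟩ := half_iter i ρ (1 / 8) hρ0 (by norm_num)
    refine ⟨e, L0, he, hL0, fun f L Y _ hL hf s a1 a2 a3 him => ?_⟩
    have hiρ : 10 * ((i : ℝ) * ρ) ≤ 1 / 16 := by
      have : (i : ℝ) ≤ m + 1 := by exact_mod_cast him.trans (Nat.le_succ m)
      have h2 : (i : ℝ) * ρ ≤ (m + 1) * ρ := mul_le_mul_of_nonneg_right this hρ0.le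
      have h3 : ((m : ℝ) + 1) * ρ = 1 / 160 := by rw [hρ]; field_simp
      linarith
    exact (h f L (Y + 1) (-7 / 16) (-1 / 8) hL hf.half).2 s (by linarith) (by linarith) (by linarith))
    (fun i e e' L L' h he hL f L2 Y hL1 hL2 hf s a1 a2 a3 him =>
      h f L2 Y hL1 (hL.trans hL2) (hf.mono (by linarith) le_rfl he le_rfl) s a1 a2 a3 him)
  obtain ⟨L4, hL4, h4⟩ := exp_dom (2 * p) (half_pos hη) m
  obtain ⟨L5, hL5, h5⟩ := exp_dom (2 / p) (half_pos hη) 0
  obtain ⟨L6, hL6, h6⟩ := exp_dom (8 * M / p) (show (0 : ℝ) < 1 / 4 by norm_num) 0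
  obtain ⟨V, hV⟩ : ∃ V : ℝ, V = ∑ i ∈ Finset.range (m + 1), ‖P.coeff i‖ * (i.factorial * 16 ^ i) + M := ⟨_, rfl⟩
  have hV0 : 0 ≤ V := by rw [hV]; positivity
  obtain ⟨L7, hL7, h7⟩ := exp_dom V (show 0 < min 1 (η / 2) from lt_min one_pos (half_pos hη)) 0
  obtain ⟨e, he⟩ : ∃ e : ℝ, e = min e1 (min (η / 2) (1 / 4)) := ⟨_, rfl⟩
  have hep : 0 < e := by rw [he]; exact lt_min he1 (lt_min (by positivity) (by norm_num))
  have hee1 : e ≤ e1 := by rw [he]; exact min_le_left _ _
  have hmin1 : e ≤ η / 2 := by rw [he]; exact (min_le_right _ _).trans (min_le_left _ _)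
  have hmin2 : e ≤ 1 / 4 := by rw [he]; exact (min_le_right _ _).trans (min_le_right _ _)
  refine ⟨e, max (max L1 (16 * W / p + 1)) (max (max L4 L5) (max L6 L7)), hep,
    hL1.trans ((le_max_left _ _).trans (le_max_left _ _)), fun f c L Y hL hc hf => ?_⟩
  have a1 : L1 ≤ L := ((le_max_left _ _).trans (le_max_left _ _)).trans hL
  have h7' : 16 * W / p + 1 ≤ L := ((le_max_right _ _).trans (le_max_left _ _)).trans hL
  have a4 : L4 ≤ L := ((le_max_left _ _).trans ((le_max_left _ _).trans (le_max_right _ _))).trans hL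
  have a5 : L5 ≤ L := ((le_max_right _ _).trans ((le_max_left _ _).trans (le_max_right _ _))).trans hL
  have a6 : L6 ≤ L := ((le_max_left _ _).trans ((le_max_right _ _).trans (le_max_right _ _))).trans hL
  have a7 : L7 ≤ L := ((le_max_right _ _).trans ((le_max_right _ _).trans (le_max_right _ _))).trans hL
  have h4 := h4 L a4
  have h5 := h5 L a5
  have h6 := h6 L a6
  have h7 := h7 L a7
  rw [pow_zero, mul_one] at h5 h6 h7
  have hWp : 0 ≤ 16 * W / p := by positivity
  have hL1' : 1 ≤ L := by linarith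
  have hL0 : 0 < L := by linarith
  have hf1 := hf.mono hL0.le le_rfl hee1 le_rfl
  have hES := hES c hc
  have hVm : V ≤ Real.exp (1 * L) := h7.trans (Real.exp_le_exp.2 (by gcongr; exact min_le_left _ _))
  have hVη : V ≤ Real.exp (η / 2 * L) := h7.trans (Real.exp_le_exp.2 (by gcongr; exact min_le_right _ _))
  refine ⟨fun s b1 b2 b3 => LD_an P S c (hf.an s (by linarith) (by linarith) (by linarith)), ?_, ?_, ?_⟩
  · intro s b1 b2 b3
    have hrat : ∀ i, i ≤ m → ‖iteratedDeriv i f s - (-(L : ℂ)) ^ i * f s‖ ≤ 1 / 8 * L ^ i * ‖f s‖ :=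
      fun i hi => h1 i (Nat.lt_succ_of_le hi) f L Y hL1' a1 hf1 s b1 b2 b3 hi
    obtain ⟨z1, z2⟩ := hf.big s (by linarith) (by linarith) (by linarith)
    obtain ⟨Z, hZ⟩ : ∃ Z : ℝ, Z = ‖f s‖ := ⟨_, rfl⟩
    rw [← hZ] at hrat z1 z2
    have hZ0 : 0 < Z := lt_of_lt_of_le (Real.exp_pos _) z1
    have hLm : 1 ≤ L ^ m := one_le_pow₀ hL1'
    -- the main term
    obtain ⟨w, hw⟩ : ∃ w : ℂ, w = P.coeff m * ((-(L : ℂ)) ^ m * f s) := ⟨_, rfl⟩
    have hwn : ‖w‖ = p * (L ^ m * Z) := by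
      rw [hw, norm_mul, norm_mul, norm_pow, norm_neg, norm_real, Real.norm_of_nonneg hL0.le, ← hp, ← hZ]
    have hdiff : ‖LD f P S c s - w‖ ≤ p * (L ^ m * Z) / 2 := by
      rw [LD_eq, LP_range, ← hm, Finset.sum_range_succ]
      have e1 : ∑ i ∈ Finset.range m, P.coeff i * iteratedDeriv i f s +
          P.coeff m * iteratedDeriv m f s + ES S c s - w =
          ∑ i ∈ Finset.range m, P.coeff i * iteratedDeriv i f s +
          P.coeff m * (iteratedDeriv m f s - (-(L : ℂ)) ^ m * f s) + ES S c s := by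
        rw [hw]; ring
      rw [e1]
      have e2 : ‖∑ i ∈ Finset.range m, P.coeff i * iteratedDeriv i f s‖ ≤ p * (L ^ m * Z) / 8 := by
        have e3 : ‖∑ i ∈ Finset.range m, P.coeff i * iteratedDeriv i f s‖ ≤
            ∑ i ∈ Finset.range m, ‖P.coeff i‖ * (2 * (L ^ m * Z) / L) := by
          refine norm_sum_le_of_le _ fun i hi => ?_
          rw [norm_mul]
          gcongr
          have hi' := Finset.mem_range.1 hi
          have e4 := hrat i hi'.le
          have e5 : ‖(-(L : ℂ)) ^ i * f s‖ = L ^ i * Z := by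
            rw [norm_mul, norm_pow, norm_neg, norm_real, Real.norm_of_nonneg hL0.le, ← hZ]
          have e6 : ‖iteratedDeriv i f s‖ ≤ 2 * (L ^ i * Z) := by
            have := norm_le_norm_sub_add (iteratedDeriv i f s) ((-(L : ℂ)) ^ i * f s)
            rw [e5] at this
            have h0 : 0 ≤ L ^ i * Z := by positivity
            linarith
          refine e6.trans ?_
          rw [le_div_iff₀ hL0]
          have e7 : L ^ i * L ≤ L ^ m := by
            rw [← pow_succ]
            exact pow_le_pow_right₀ hL1' hi'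
          calc 2 * (L ^ i * Z) * L = 2 * ((L ^ i * L) * Z) := by ring
            _ ≤ 2 * (L ^ m * Z) := by gcongr
        refine e3.trans ?_
        rw [← Finset.sum_mul]
        have e8 : ∑ i ∈ Finset.range m, ‖P.coeff i‖ ≤ W := by
          rw [hW, ← hm, Finset.sum_range_succ]
          linarith [norm_nonneg (P.coeff m)]
        have e9 : 16 * W ≤ p * L := by
          have : 16 * W / p ≤ L := by linarith
          rwa [div_le_iff₀ hp0, mul_comm L] at this
        calc (∑ i ∈ Finset.range m, ‖P.coeff i‖) * (2 * (L ^ m * Z) / L) ≤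
            W * (2 * (L ^ m * Z) / L) := by gcongr
          _ = (16 * W) * ((L ^ m * Z) / L) / 8 := by ring
          _ ≤ (p * L) * ((L ^ m * Z) / L) / 8 := by gcongr
          _ = p * (L ^ m * Z) / 8 := by field_simp
      have e3 : ‖P.coeff m * (iteratedDeriv m f s - (-(L : ℂ)) ^ m * f s)‖ ≤ p * (L ^ m * Z) / 8 := by
        rw [norm_mul, ← hp]
        calc p * ‖iteratedDeriv m f s - (-(L : ℂ)) ^ m * f s‖ ≤ p * (1 / 8 * L ^ m * Z) := by
              gcongr
              exact hrat m le_rfl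
          _ = _ := by ring
      have e4 : ‖ES S c s‖ ≤ p * (L ^ m * Z) / 8 := by
        refine (hES s (by rw [abs_le]; constructor <;> linarith)).trans ?_
        have e5 : Real.exp (1 / 4 * L) ≤ Z := by
          refine le_trans ?_ z1
          apply Real.exp_le_exp.2
          have : 1 / 4 ≤ 1 / 2 - s.re - e := by linarith
          calc 1 / 4 * L ≤ (1 / 2 - s.re - e) * L := by gcongr
            _ = _ := mul_comm _ _
        have e6 : 8 * M / p ≤ L ^ m * Z := by
          calc 8 * M / p ≤ Z := h6.trans e5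
            _ = 1 * Z := (one_mul _).symm
            _ ≤ L ^ m * Z := by gcongr
        rw [div_le_iff₀ hp0] at e6
        linarith
      refine (norm_add_le _ _).trans ((add_le_add (norm_add_le _ _) le_rfl).trans ?_)
      have : 0 ≤ p * (L ^ m * Z) := by positivity
      linarith
    have hlow : p * (L ^ m * Z) / 2 ≤ ‖LD f P S c s‖ := by
      have := norm_sub_norm_le w (LD f P S c s)
      rw [norm_sub_rev, hwn] at this
      linarith
    have hupp : ‖LD f P S c s‖ ≤ 2 * (p * (L ^ m * Z)) := by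
      have := norm_le_norm_sub_add (LD f P S c s) w
      rw [hwn] at this
      have h0 : 0 ≤ p * (L ^ m * Z) := by positivity
      linarith
    constructor
    · refine le_trans ?_ hlow
      have e1 : Real.exp (L * (1 / 2 - s.re - η)) * Real.exp (η / 2 * L) ≤ Z := by
        rw [← Real.exp_add]
        refine le_trans ?_ z1
        apply Real.exp_le_exp.2
        have : L * e ≤ L * (η / 2) := by gcongr
        linarith
      have e2 : Real.exp (L * (1 / 2 - s.re - η)) * (2 / p) ≤ Z := by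
        refine le_trans ?_ e1
        gcongr
      have e3 : Real.exp (L * (1 / 2 - s.re - η)) ≤ Z * (p / 2) := by
        calc Real.exp (L * (1 / 2 - s.re - η)) = (Real.exp (L * (1 / 2 - s.re - η)) * (2 / p)) * (p / 2) := by
              field_simp
          _ ≤ Z * (p / 2) := by gcongr
      calc Real.exp (L * (1 / 2 - s.re - η)) ≤ Z * (p / 2) := e3
        _ = p * (1 * Z) / 2 := by ring
        _ ≤ p * (L ^ m * Z) / 2 := by gcongr
    · refine hupp.trans ?_
      calc 2 * (p * (L ^ m * Z)) = (2 * p * L ^ m) * Z := by ring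
        _ ≤ Real.exp (η / 2 * L) * Real.exp (L * (1 / 2 - s.re + e)) := by gcongr
        _ = Real.exp (η / 2 * L + L * (1 / 2 - s.re + e)) := by rw [Real.exp_add]
        _ ≤ _ := by
            apply Real.exp_le_exp.2
            have : L * e ≤ L * (η / 2) := by gcongr
            linarith
  · intro s b1 b2 b3
    rw [LD_eq, LP_range, ← hm]
    have e1 : ‖∑ i ∈ Finset.range (m + 1), P.coeff i * iteratedDeriv i f s‖ ≤
        (V - M) * Real.exp (A * L) := by
      rw [hV, add_sub_cancel_right, Finset.sum_mul]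
      refine norm_sum_le_of_le _ fun i hi => ?_
      rw [norm_mul, mul_assoc]
      gcongr
      exact it_boundN hf i b1 b2 b3
    have e2 := hES s (by rw [abs_le]; constructor <;> linarith)
    have e3 : 1 ≤ Real.exp (A * L) := Real.one_le_exp (by positivity)
    calc _ ≤ (V - M) * Real.exp (A * L) + M := (norm_add_le _ _).trans (add_le_add e1 e2)
      _ ≤ (V - M) * Real.exp (A * L) + M * Real.exp (A * L) := by
          gcongr
          exact le_mul_of_one_le_right hM.le e3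
      _ = V * Real.exp (A * L) := by ring
      _ ≤ Real.exp (1 * L) * Real.exp (A * L) := by gcongr
      _ = _ := by rw [← Real.exp_add]; congr 1; ring
  · intro s b1 b2
    rw [LD_eq, LP_range, ← hm]
    have e1 : ‖∑ i ∈ Finset.range (m + 1), P.coeff i * iteratedDeriv i f s‖ ≤
        (V - M) * Real.exp (e * L) := by
      rw [hV, add_sub_cancel_right, Finset.sum_mul]
      refine norm_sum_le_of_le _ fun i hi => ?_
      rw [norm_mul, mul_assoc]
      gcongr
      exact (it_rightN hf i b1 b2).trans (by gcongr; norm_num)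
    have e2 := hES s (by rw [b2]; norm_num)
    have e3 : 1 ≤ Real.exp (e * L) := Real.one_le_exp (by positivity)
    calc _ ≤ (V - M) * Real.exp (e * L) + M := (norm_add_le _ _).trans (add_le_add e1 e2)
      _ ≤ (V - M) * Real.exp (e * L) + M * Real.exp (e * L) := by
          gcongr
          exact le_mul_of_one_le_right hM.le e3
      _ = V * Real.exp (e * L) := by ring
      _ ≤ Real.exp (η / 2 * L) * Real.exp (η / 2 * L) := by gcongr
      _ = _ := by rw [← Real.exp_add]; congr 1; ring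


end Q240.GS
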