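import Pool.Agent.Q240.GS.Fin

/-!
# The number of the zeros of `F` in a window
-/

set_option autoImplicit false

open Complex Set MeasureTheory Filter Topology Polynomial Metric
open scoped ComplexConjugate

namespace Q240.GS

open Pool.Agent.W169.HF H353.E H353.F

variable {m : ℕ}

/-- at most `K log C` zeros with `-2 ≤ Re s ≤ 1/2` in a window, `C` the analytic conductor -/
theorem left_count (hm : 1 ≤ m) (P : ℂ[X]) (hP : P ≠ 0) (S : Finset ℝ) (B : ℝ) (hB : 0 ≤ B) :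
    ∃ K C₀ : ℝ, 0 < K ∧ ∀ (N : ℝ) (μ : Fin m → ℂ) (Λ : ℂ → ℂ),
    Ob N μ Λ → ∀ (c : ℝ → ℂ) (T : ℝ), (∀ l ∈ S, ‖c l‖ ≤ B) → C₀ ≤ Real.log (cnd N μ T) →
    AM (FF μ Λ P S c) (1 / 2) 1 T (K * Real.log (cnd N μ T)) := by
  obtain ⟨l, hl⟩ : ∃ l : ℝ, l = 1 / (32 * (((5 * m : ℕ) : ℝ) + 1)) := ⟨_, rfl⟩
  have hl0 : 0 < l := by rw [hl]; positivity
  have hlM : (((5 * m : ℕ) : ℝ)) * (4 * l) ≤ 1 / 8 := by
    have : ((((5 * m : ℕ) : ℝ)) + 1) * (4 * l) = 1 / 8 := by rw [hl]; field_simp; norm_num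
    nlinarith
  have hl1 : l ≤ 1 / 8 := by
    rw [hl]
    apply one_div_le_one_div_of_le (by norm_num)
    have : (0 : ℝ) ≤ ((5 * m : ℕ) : ℝ) := Nat.cast_nonneg _
    linarith
  obtain ⟨e, L0, he, hL0, H⟩ := loc_LDE P hP S B 9 (1 / 2) (l / 3) hB (by norm_num) (by norm_num) (by positivity)
    (by linarith)
  obtain ⟨C0, hC0, HB⟩ := base_ofE m hm (4 + 1) e (l / 3) (by norm_num) he (by positivity)
  have hm0 : (0 : ℝ) ≤ m := Nat.cast_nonneg m
  have hlog2 : 0 < Real.log 2 := Real.log_pos one_lt_two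
  refine ⟨20 / Real.log 2, L0 + C0 + 28 * m, by positivity, ?_⟩
  rintro N μ Λ ⟨α', ε', d, hnz⟩ c T hc hC
  obtain ⟨b1, b2⟩ := el_bd d.one_le d.re_le T
  obtain ⟨L, hL⟩ : ∃ L : ℝ, L = 2 * el N μ T := ⟨_, rfl⟩
  obtain ⟨W, hW⟩ : ∃ W : ℝ, W = Real.log (cnd N μ T) := ⟨_, rfl⟩
  rw [← hL, ← hW] at b1 b2
  rw [← hW] at hC ⊢
  obtain ⟨hb, -⟩ := HB N μ α' ε' Λ d hnz T (by rw [← hL]; linarith)
  rw [← hL] at hb
  have hloc := H (fun s => LL μ Λ (s + T * I)) (tw c T) L 4 (EX μ T) (by linarith)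
    (fun l hl => by rw [tw_norm]; exact hc l hl) hb
  obtain ⟨x, hx1, hx2, hx3⟩ := good_pt (EX μ T) (5 * m) (EX_card μ T) (-1 / 2) 0 (4 * l) (by positivity)
  have hx4 : x ≤ -3 / 8 := by linarith
  have hL1 : 1 ≤ L := by linarith
  have key := hloc.low (⟨x, 0⟩ : ℂ) (by simp) (by simp only; linarith) (by simp only; linarith)
    (fun z hz => by have := hx3 z hz; linarith)
  obtain ⟨F, hF⟩ : ∃ F : ℂ → ℂ, F = LD (fun s => LL μ Λ (s + T * I)) P S (tw c T) := ⟨_, rfl⟩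
  rw [← hF] at hloc key
  obtain ⟨z0, hz0⟩ : ∃ z0 : ℂ, z0 = ⟨x, 0⟩ := ⟨_, rfl⟩
  rw [← hz0] at key
  have e0 : z0.re = x := by rw [hz0]
  have e0' : z0.im = 0 := by rw [hz0]
  rw [e0] at key
  have hone : 1 ≤ ‖F z0‖ := by
    refine le_trans (Real.one_le_exp ?_) key
    apply mul_nonneg (by linarith)
    linarith
  rw [am_shift, ← hF]
  intro Z hZ
  have hball : ∀ w ∈ closedBall z0 4, |w.im| ≤ 4 ∧ -6 ≤ w.re ∧ w.re ≤ 4 := by
    intro w hw
    rw [mem_closedBall, dist_eq_norm] at hw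
    have h4 := abs_le.1 ((abs_re_le_norm (w - z0)).trans hw)
    have h5 := (abs_im_le_norm (w - z0)).trans hw
    rw [sub_re, e0] at h4
    rw [sub_im, e0', sub_zero] at h5
    exact ⟨h5, by linarith, by linarith⟩
  have hj := H370.Loc.jensen_mult (f := F) (c := z0) (r := 2) (R := 4) (M := Real.exp ((9 + 1) * L))
    (by norm_num) (by norm_num) (Real.one_le_exp (by positivity))
    (fun w hw => by
      obtain ⟨h1, h2, h3⟩ := hball w hw
      exact hloc.an w h1 h2 h3)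
    (norm_pos_iff.1 (by linarith))
    (fun w hw => by
      obtain ⟨h1, h2, h3⟩ := hball w hw
      exact hloc.grow w h1 h2 h3) Z (fun z hz => by
      obtain ⟨h0, h1, h2, h3⟩ := hZ z hz
      rw [mem_closedBall, dist_eq_norm]
      have h4 : ‖z - z0‖ ^ 2 ≤ 2 ^ 2 := by
        rw [← Complex.normSq_eq_norm_sq, normSq_apply, sub_re, sub_im, e0, e0', sub_zero]
        have h5 := abs_le.1 h3
        have h6 : -(13 / 8) ≤ z.re - x := by linarith
        have h7 : z.re - x ≤ 1 := by linarith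
        nlinarith
      exact abs_le_of_sq_le_sq' h4 (by norm_num) |>.2)
  refine hj.trans ?_
  rw [show (4 : ℝ) / 2 = 2 by norm_num, Real.log_div (Real.exp_pos _).ne' (by linarith), Real.log_exp]
  have h8 := Real.log_nonneg hone
  calc ((9 + 1) * L - Real.log ‖F z0‖) / Real.log 2 ≤ (20 * W) / Real.log 2 := by
        apply div_le_div_of_nonneg_right _ hlog2.le
        linarith
    _ = _ := by ring

end Q240.GS
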