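import Pool.Agent.Q240.GS.N6
import Pool.Agent.Q240.GS.EC2

/-!
# The number of the zeros to the left, for newforms of weight two
-/

set_option autoImplicit false

open Complex UpperHalfPlane MatrixGroups CongruenceSubgroup Filter Topology Set MeasureTheory Polynomial
open scoped ComplexConjugate ENNReal

namespace Q240.GS

open Pool.Agent.W169.HF H353.E H353.F

/-- the number of zeros with `1/4 ≤ Re ρ ≤ 1 - δ`, `|Im ρ| ≤ U`, with multiplicities -/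
noncomputable def zleft (F : ℂ → ℂ) (δ U : ℝ) : ℝ≥0∞ :=
  ∑' ρ : ℂ, if F ρ = 0 ∧ 1 / 4 ≤ ρ.re ∧ ρ.re ≤ 1 - δ ∧ |ρ.im| ≤ U then
    ((analyticOrderAt F ρ : ℕ∞) : ℝ≥0∞) else 0

theorem LD_entire {f : ℂ → ℂ} (hf : Differentiable ℂ f) (P : ℂ[X]) (S : Finset ℝ) (c : ℝ → ℂ) (z : ℂ) :
    AnalyticAt ℂ (LD f P S c) z := by
  have h1 : AnalyticAt ℂ f z := hf.analyticAt z
  exact LD_an P S c h1

theorem order_ne_top {F : ℂ → ℂ} (hF : ∀ z, AnalyticAt ℂ F z) (h0 : ∃ s, F s ≠ 0) (z : ℂ) :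
    analyticOrderAt F z ≠ ⊤ := by
  intro h
  obtain ⟨s, hs⟩ := h0
  have h1 := analyticOrderAt_eq_top.1 h
  have hFan : AnalyticOnNhd ℂ F univ := fun z _ => hF z
  exact hs (hFan.eqOn_zero_of_preconnected_of_eventuallyEq_zero isPreconnected_univ (mem_univ z) h1 (mem_univ s))

theorem count_ec (P : ℂ[X]) (hP : P ≠ 0) (S : Finset ℝ) (B : ℝ) (hB : 0 ≤ B) :
    ∃ K X₀ : ℝ, 0 < K ∧ ∀ (N : ℕ) [NeZero N]
    (f : CuspForm (Gamma0 N : Subgroup (GL (Fin 2) ℝ)) 2) (w : ℝ), IsForm N f w → ∀ Λ : ℂ → ℂ, IsCompleted f Λ →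
    ∀ c : ℝ → ℂ, (∀ l ∈ S, ‖c l‖ ≤ B) → X₀ ≤ N → ∀ δ U : ℝ, 0 ≤ δ → 0 ≤ U →
      zleft (LD (LE N Λ) P S c) δ U ≤ ENNReal.ofReal (K * (1 + U) ^ 2 * (1 + Real.log N)) := by
  classical
  obtain ⟨E, hE⟩ : ∃ E : ℝ, E = ∑ l ∈ S, Real.exp (-(l * (1 / 2))) := ⟨_, rfl⟩
  have hE0 : 0 ≤ E := by rw [hE]; exact Finset.sum_nonneg fun _ _ => (Real.exp_pos _).le
  obtain ⟨K, C₀, hK, H⟩ := left_count (m := 2) (by norm_num) P hP S (B * E) (by positivity)
  obtain ⟨C₁, HF⟩ := F_ne (m := 2) (by norm_num) P hP S (B * E) (by positivity)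
  refine ⟨8 * K, Real.exp (max C₀ C₁), by positivity, ?_⟩
  intro N _ f w hform Λ hΛ c hc hN δ U hδ hU
  have hN0 : 0 < N := Nat.pos_of_ne_zero (NeZero.ne N)
  have hN1 : (1 : ℝ) ≤ N := by exact_mod_cast hN0
  have hlogN : 0 ≤ Real.log N := Real.log_nonneg hN1
  have hO := ob_nf hform hΛ
  have hcb : ∀ l ∈ S, ‖hf c l‖ ≤ B * E := fun l hl => by rw [hE]; exact hf_bound S hB hc l hl
  have hbig : ∀ t : ℝ, max C₀ C₁ ≤ Real.log (cnd N mu2 t) := by
    intro t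
    refine big_log hN1 (hN.trans ?_)
    have h4 := abs_nonneg t
    have h1 : 1 ≤ (1 + |t|) ^ 2 := by nlinarith
    nlinarith
  obtain ⟨G, hG⟩ : ∃ G : ℂ → ℂ, G = LD (LE N Λ) P S c := ⟨_, rfl⟩
  have hFG : FF mu2 (sdn N Λ) P S (hf c) = fun s => G (s + 1 / 2) := by
    funext s
    rw [hG]
    exact FF_half hN0 Λ P S c s
  -- `G` is not identically zero
  have hGne : ∃ s, G s ≠ 0 := by
    obtain ⟨s, hs⟩ := HF N mu2 (sdn N Λ) hO (hf c) 0 hcb ((le_max_right _ _).trans (hbig 0))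
    rw [hFG] at hs
    exact ⟨_, hs⟩
  have hLE : Differentiable ℂ (LE N Λ) := by
    have h1 : Differentiable ℂ (LL mu2 (sdn N Λ)) := by
      obtain ⟨α, ε, D, -⟩ := hO
      exact LL_diff D.entire
    have h2 : LE N Λ = fun s => LL mu2 (sdn N Λ) (s - 1 / 2) := by
      funext s
      rw [LL_sdn hN0, sub_add_cancel]
    rw [h2]
    exact h1.comp (by fun_prop)
  have hGan : ∀ z, AnalyticAt ℂ G z := fun z => by rw [hG]; exact LD_entire hLE P S c z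
  have hord := order_ne_top hGan hGne
  -- the count
  obtain ⟨n, hn⟩ : ∃ n : ℕ, n = ⌈U⌉₊ := ⟨_, rfl⟩
  have hn1 : U ≤ n := by rw [hn]; exact Nat.le_ceil U
  have hn2 : (n : ℝ) ≤ U + 1 := by rw [hn]; exact (Nat.ceil_lt_add_one hU).le
  obtain ⟨x, hx⟩ : ∃ x : ℝ, x = K * (Real.log N + 2 * (U + 1) + 2) := ⟨_, rfl⟩
  have hAM : AM (FF mu2 (sdn N Λ) P S (hf c)) (1 / 2) U 0 ((n + 1) * x) := by
    refine AM_cover n hn1 fun t ht => ?_
    rw [sub_zero] at ht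
    refine (H N mu2 (sdn N Λ) hO (hf c) t hcb ((le_max_left _ _).trans (hbig t))).mono le_rfl (by simp) ?_
    rw [hx]
    apply mul_le_mul_of_nonneg_left _ hK.le
    have h1 := (log_cnd2 hN1 t).2
    have h2 := abs_nonneg t
    have h3 : Real.log (N * (1 + |t|) ^ 2) = Real.log N + 2 * Real.log (1 + |t|) := by
      rw [Real.log_mul (by linarith) (by positivity), Real.log_pow]
      norm_num
    have h4 : Real.log (1 + |t|) ≤ |t| := by
      have := Real.log_le_sub_one_of_pos (show 0 < 1 + |t| by linarith)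
      linarith
    linarith
  have htot : (n + 1) * x ≤ 8 * K * (1 + U) ^ 2 * (1 + Real.log N) := by
    rw [hx]
    have h1 : (n : ℝ) + 1 ≤ 2 * (1 + U) := by linarith
    have h2 : Real.log N + 2 * (U + 1) + 2 ≤ 4 * (1 + U) * (1 + Real.log N) := by nlinarith
    have h3 : 0 ≤ Real.log N + 2 * (U + 1) + 2 := by linarith
    calc ((n : ℝ) + 1) * (K * (Real.log N + 2 * (U + 1) + 2)) ≤
        (2 * (1 + U)) * (K * (4 * (1 + U) * (1 + Real.log N))) := by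
          apply mul_le_mul h1 _ (mul_nonneg hK.le h3) (by linarith)
          exact mul_le_mul_of_nonneg_left h2 hK.le
      _ = _ := by ring
  rw [← hG]
  unfold zleft
  rw [ENNReal.tsum_eq_iSup_sum]
  refine iSup_le fun s => ?_
  rw [← Finset.sum_filter]
  obtain ⟨Z, hZ⟩ : ∃ Z : Finset ℂ, Z = s.filter (fun ρ => G ρ = 0 ∧ 1 / 4 ≤ ρ.re ∧ ρ.re ≤ 1 - δ ∧ |ρ.im| ≤ U) :=
    ⟨_, rfl⟩
  rw [← hZ]
  have h1 := hAM (Z.image fun z => z - 1 / 2) (fun z hz => by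
    obtain ⟨w, hw, rfl⟩ := Finset.mem_image.1 hz
    rw [hZ] at hw
    obtain ⟨q1, q2, q3, q4⟩ := (Finset.mem_filter.1 hw).2
    refine ⟨?_, ?_, ?_, ?_⟩
    · show FF mu2 (sdn N Λ) P S (hf c) (w - 1 / 2) = 0
      rw [hFG]
      simp only [sub_add_cancel]
      exact q1
    · simp; linarith
    · simp; linarith
    · simpa using q4)
  rw [Finset.sum_image (fun x _ y _ hxy => by simpa using hxy)] at h1
  have h2 : ∀ ρ ∈ Z, ((analyticOrderAt G ρ : ℕ∞) : ℝ≥0∞) =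
      ENNReal.ofReal (H370.mult (FF mu2 (sdn N Λ) P S (hf c)) (ρ - 1 / 2) : ℝ) := by
    intro ρ _
    have h3 : H370.mult (FF mu2 (sdn N Λ) P S (hf c)) (ρ - 1 / 2) = H370.mult G ρ := by
      rw [hFG, mult_shift, sub_add_cancel]
    rw [h3, ENNReal.ofReal_natCast]
    have h4 : H370.mult G ρ = (analyticOrderAt G ρ).toNat := rfl
    rw [h4]
    conv_lhs => rw [← ENat.natCast_toNat (hord ρ)]
    exact ENat.toENNReal_coe _
  rw [Finset.sum_congr rfl h2, ← ENNReal.ofReal_sum_of_nonneg (fun _ _ => Nat.cast_nonneg _)]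
  exact ENNReal.ofReal_le_ofReal (h1.trans htot)

end Q240.GS
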