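import Pool.Agent.Q240.GS.Mem2

/-!
# Linear differential polynomials: the lower bound at a point away from the exceptional set
-/

set_option autoImplicit false

namespace Q240.GS

open Complex Filter Topology Metric Set Polynomial

theorem it_shift (k : ℕ) (f : ℂ → ℂ) (a w : ℂ) :
    iteratedDeriv k (fun z => f (z + a)) w = iteratedDeriv k f (w + a) := by
  rw [iteratedDeriv_comp_add_const]

/-- iterated derivatives at the centre of a small square -/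
theorem pt_iter (k : ℕ) (δ η : ℝ) (hδ : 0 < δ) (hη : 0 < η) : ∃ e L0 : ℝ, 0 < e ∧ 1 ≤ L0 ∧
    ∀ (f : ℂ → ℂ) (L : ℝ) (s : ℂ), L0 ≤ L →
    (∀ w : ℂ, |w.re - s.re| ≤ δ → |w.im - s.im| ≤ δ → AnalyticAt ℂ f w ∧
      Real.exp (L * (1 / 2 - w.re - e)) ≤ ‖f w‖ ∧ ‖f w‖ ≤ Real.exp (L * (1 / 2 - w.re + e))) →
    ‖iteratedDeriv k f s - (-(L : ℂ)) ^ k * f s‖ ≤ η * L ^ k * ‖f s‖ := by
  obtain ⟨ρ, hρ⟩ : ∃ ρ : ℝ, ρ = δ / (10 * (k + 1)) := ⟨_, rfl⟩
  have hρ0 : 0 < ρ := by rw [hρ]; positivity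
  have hkρ : 10 * ((k : ℝ) * ρ) ≤ δ := by
    have h1 : 10 * (((k : ℝ) + 1) * ρ) = δ := by rw [hρ]; field_simp
    nlinarith
  obtain ⟨e, L0, he, hL0, h⟩ := half_iter k ρ η hρ0 hη
  refine ⟨e, L0, he, hL0, fun f L s hL hs => ?_⟩
  obtain ⟨g, hg⟩ : ∃ g : ℂ → ℂ, g = fun z => f (z + (s.im : ℂ) * I) := ⟨_, rfl⟩
  have hre : ∀ z : ℂ, (z + (s.im : ℂ) * I).re = z.re := fun z => by simp
  have him : ∀ z : ℂ, (z + (s.im : ℂ) * I).im = z.im + s.im := fun z => by simp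
  have hsq : ∀ z : ℂ, |z.im| ≤ δ → s.re - δ ≤ z.re → z.re ≤ s.re + δ →
      AnalyticAt ℂ f (z + (s.im : ℂ) * I) ∧ Real.exp (L * (1 / 2 - z.re - e)) ≤ ‖f (z + (s.im : ℂ) * I)‖ ∧
      ‖f (z + (s.im : ℂ) * I)‖ ≤ Real.exp (L * (1 / 2 - z.re + e)) := by
    intro z h1 h2 h3
    have := hs (z + (s.im : ℂ) * I) (by rw [hre, abs_le]; constructor <;> linarith)
      (by rw [him, add_sub_cancel_right]; exact h1)
    rwa [hre] at this
  have hH : Half g L δ (s.re - δ) (s.re + δ) e := by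
    refine ⟨fun z h1 h2 h3 => ?_, fun z h1 h2 h3 => ?_⟩
    · rw [hg]
      exact (hsq z h1 h2 h3).1.comp (f := fun z => z + (s.im : ℂ) * I) (by fun_prop)
    · rw [hg]
      exact (hsq z h1 h2 h3).2
  have key := (h g L δ (s.re - δ) (s.re + δ) hL hH).2 ((s.re : ℝ) : ℂ) (by rw [ofReal_im, abs_zero]; linarith)
    (by rw [ofReal_re]; linarith) (by rw [ofReal_re]; linarith)
  have e1 : ((s.re : ℝ) : ℂ) + (s.im : ℂ) * I = s := Complex.re_add_im s
  rw [hg, it_shift] at key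
  simp only [e1] at key
  exact key

theorem low_pt (P : ℂ[X]) (hP : P ≠ 0) (S : Finset ℝ) (B δ η : ℝ) (hB : 0 ≤ B) (hδ : 0 < δ) (hη : 0 < η) :
    ∃ e L0 : ℝ, 0 < e ∧ 1 ≤ L0 ∧ ∀ (f : ℂ → ℂ) (c : ℝ → ℂ) (L : ℝ) (s : ℂ), L0 ≤ L → (∀ l ∈ S, ‖c l‖ ≤ B) →
    -7 ≤ s.re → s.re ≤ -1 / 4 →
    (∀ w : ℂ, |w.re - s.re| ≤ δ → |w.im - s.im| ≤ δ → AnalyticAt ℂ f w ∧
      Real.exp (L * (1 / 2 - w.re - e)) ≤ ‖f w‖ ∧ ‖f w‖ ≤ Real.exp (L * (1 / 2 - w.re + e))) →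
    Real.exp (L * (1 / 2 - s.re - η)) ≤ ‖LD f P S c s‖ := by
  obtain ⟨M, hM, hES⟩ := ES_bound S B hB
  obtain ⟨W, hW⟩ : ∃ W : ℝ, W = ∑ i ∈ Finset.range (P.natDegree + 1), ‖P.coeff i‖ := ⟨_, rfl⟩
  have hW0 : 0 ≤ W := by rw [hW]; positivity
  obtain ⟨m, hm⟩ : ∃ m : ℕ, m = P.natDegree := ⟨_, rfl⟩
  obtain ⟨p, hp⟩ : ∃ p : ℝ, p = ‖P.coeff m‖ := ⟨_, rfl⟩
  have hp0 : 0 < p := by
    rw [hp, hm]
    exact norm_pos_iff.2 (by rw [Polynomial.coeff_natDegree]; exact Polynomial.leadingCoeff_ne_zero.2 hP)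
  obtain ⟨e1, L1, he1, hL1, h1⟩ := ex_min (m + 1) (Q := fun i e L0 => ∀ (f : ℂ → ℂ) (L : ℝ) (s : ℂ), 1 ≤ L →
      L0 ≤ L → (∀ w : ℂ, |w.re - s.re| ≤ δ → |w.im - s.im| ≤ δ → AnalyticAt ℂ f w ∧
      Real.exp (L * (1 / 2 - w.re - e)) ≤ ‖f w‖ ∧ ‖f w‖ ≤ Real.exp (L * (1 / 2 - w.re + e))) →
      ‖iteratedDeriv i f s - (-(L : ℂ)) ^ i * f s‖ ≤ 1 / 8 * L ^ i * ‖f s‖) (fun i => by
    obtain ⟨e, L0, he, hL0, h⟩ := pt_iter i δ (1 / 8) hδ (by norm_num)
    exact ⟨e, L0, he, hL0, fun f L s _ hL hs => h f L s hL hs⟩)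
    (fun i e e' L L' h he hL f L2 s hL1 hL2 hs => h f L2 s hL1 (hL.trans hL2) (fun w a1 a2 => by
      obtain ⟨b1, b2, b3⟩ := hs w a1 a2
      refine ⟨b1, le_trans (Real.exp_le_exp.2 ?_) b2, b3.trans (Real.exp_le_exp.2 ?_)⟩ <;>
      · apply mul_le_mul_of_nonneg_left _ (by linarith : (0 : ℝ) ≤ L2)
        linarith))
  obtain ⟨L5, hL5, h5⟩ := exp_dom (2 / p) (half_pos hη) 0
  obtain ⟨L6, hL6, h6⟩ := exp_dom (8 * M / p) (show (0 : ℝ) < 1 / 4 by norm_num) 0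
  obtain ⟨e, he⟩ : ∃ e : ℝ, e = min e1 (min (η / 2) (1 / 4)) := ⟨_, rfl⟩
  have hep : 0 < e := by rw [he]; exact lt_min he1 (lt_min (by positivity) (by norm_num))
  have hee1 : e ≤ e1 := by rw [he]; exact min_le_left _ _
  have hmin1 : e ≤ η / 2 := by rw [he]; exact (min_le_right _ _).trans (min_le_left _ _)
  have hmin2 : e ≤ 1 / 4 := by rw [he]; exact (min_le_right _ _).trans (min_le_right _ _)
  refine ⟨e, max (max L1 (16 * W / p + 1)) (max L5 L6), hep,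
    hL1.trans ((le_max_left _ _).trans (le_max_left _ _)), fun f c L s hL hc b2 b3 hs => ?_⟩
  have a1 : L1 ≤ L := ((le_max_left _ _).trans (le_max_left _ _)).trans hL
  have h7' : 16 * W / p + 1 ≤ L := ((le_max_right _ _).trans (le_max_left _ _)).trans hL
  have a5 : L5 ≤ L := ((le_max_left _ _).trans (le_max_right _ _)).trans hL
  have a6 : L6 ≤ L := ((le_max_right _ _).trans (le_max_right _ _)).trans hL
  have h5 := h5 L a5
  have h6 := h6 L a6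
  rw [pow_zero, mul_one] at h5 h6
  have hWp : 0 ≤ 16 * W / p := by positivity
  have hL1' : 1 ≤ L := by linarith
  have hL0 : 0 < L := by linarith
  have hES := hES c hc
  have hs1 : ∀ w : ℂ, |w.re - s.re| ≤ δ → |w.im - s.im| ≤ δ → AnalyticAt ℂ f w ∧
      Real.exp (L * (1 / 2 - w.re - e1)) ≤ ‖f w‖ ∧ ‖f w‖ ≤ Real.exp (L * (1 / 2 - w.re + e1)) := by
    intro w a1 a2
    obtain ⟨b1, b2, b3⟩ := hs w a1 a2
    refine ⟨b1, le_trans (Real.exp_le_exp.2 ?_) b2, b3.trans (Real.exp_le_exp.2 ?_)⟩ <;>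
    · apply mul_le_mul_of_nonneg_left _ hL0.le
      linarith
  have hrat : ∀ i, i ≤ m → ‖iteratedDeriv i f s - (-(L : ℂ)) ^ i * f s‖ ≤ 1 / 8 * L ^ i * ‖f s‖ :=
    fun i hi => h1 i (Nat.lt_succ_of_le hi) f L s hL1' a1 hs1
  obtain ⟨-, z1, z2⟩ := hs s (by rw [sub_self, abs_zero]; exact hδ.le) (by rw [sub_self, abs_zero]; exact hδ.le)
  obtain ⟨Z, hZ⟩ : ∃ Z : ℝ, Z = ‖f s‖ := ⟨_, rfl⟩
  rw [← hZ] at hrat z1 z2
  have hZ0 : 0 < Z := lt_of_lt_of_le (Real.exp_pos _) z1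
  have hLm : 1 ≤ L ^ m := one_le_pow₀ hL1'
  -- the main term
  obtain ⟨w, hw⟩ : ∃ w : ℂ, w = P.coeff m * ((-(L : ℂ)) ^ m * f s) := ⟨_, rfl⟩
  have hwn : ‖w‖ = p * (L ^ m * Z) := by
    rw [hw, norm_mul, norm_mul, norm_pow, norm_neg, norm_real, Real.norm_of_nonneg hL0.le, ← hp, ← hZ]
  have hdiff : ‖LD f P S c s - w‖ ≤ p * (L ^ m * Z) / 2 := by
    rw [LD_eq, LP_range, ← hm, Finset.sum_range_succ]
    have e1 : ∑ i ∈ Finset.range m, P.coeff i * iteratedDeriv i f s +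
        P.coeff m * iteratedDeriv m f s + ES S c s - w =
        ∑ i ∈ Finset.range m, P.coeff i * iteratedDeriv i f s +
        P.coeff m * (iteratedDeriv m f s - (-(L : ℂ)) ^ m * f s) + ES S c s := by
      rw [hw]; ring
    rw [e1]
    have e2 : ‖∑ i ∈ Finset.range m, P.coeff i * iteratedDeriv i f s‖ ≤ p * (L ^ m * Z) / 8 := by
      have e3 : ‖∑ i ∈ Finset.range m, P.coeff i * iteratedDeriv i f s‖ ≤
          ∑ i ∈ Finset.range m, ‖P.coeff i‖ * (2 * (L ^ m * Z) / L) := by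
        refine norm_sum_le_of_le _ fun i hi => ?_
        rw [norm_mul]
        gcongr
        have hi' := Finset.mem_range.1 hi
        have e4 := hrat i hi'.le
        have e5 : ‖(-(L : ℂ)) ^ i * f s‖ = L ^ i * Z := by
          rw [norm_mul, norm_pow, norm_neg, norm_real, Real.norm_of_nonneg hL0.le, ← hZ]
        have e6 : ‖iteratedDeriv i f s‖ ≤ 2 * (L ^ i * Z) := by
          have := norm_le_norm_sub_add (iteratedDeriv i f s) ((-(L : ℂ)) ^ i * f s)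
          rw [e5] at this
          have h0 : 0 ≤ L ^ i * Z := by positivity
          linarith
        refine e6.trans ?_
        rw [le_div_iff₀ hL0]
        have e7 : L ^ i * L ≤ L ^ m := by
          rw [← pow_succ]
          exact pow_le_pow_right₀ hL1' hi'
        calc 2 * (L ^ i * Z) * L = 2 * ((L ^ i * L) * Z) := by ring
          _ ≤ 2 * (L ^ m * Z) := by gcongr
      refine e3.trans ?_
      rw [← Finset.sum_mul]
      have e8 : ∑ i ∈ Finset.range m, ‖P.coeff i‖ ≤ W := by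
        rw [hW, ← hm, Finset.sum_range_succ]
        linarith [norm_nonneg (P.coeff m)]
      have e9 : 16 * W ≤ p * L := by
        have : 16 * W / p ≤ L := by linarith
        rwa [div_le_iff₀ hp0, mul_comm L] at this
      calc (∑ i ∈ Finset.range m, ‖P.coeff i‖) * (2 * (L ^ m * Z) / L) ≤
          W * (2 * (L ^ m * Z) / L) := by gcongr
        _ = (16 * W) * ((L ^ m * Z) / L) / 8 := by ring
        _ ≤ (p * L) * ((L ^ m * Z) / L) / 8 := by gcongr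
        _ = p * (L ^ m * Z) / 8 := by field_simp
    have e3 : ‖P.coeff m * (iteratedDeriv m f s - (-(L : ℂ)) ^ m * f s)‖ ≤ p * (L ^ m * Z) / 8 := by
      rw [norm_mul, ← hp]
      calc p * ‖iteratedDeriv m f s - (-(L : ℂ)) ^ m * f s‖ ≤ p * (1 / 8 * L ^ m * Z) := by
            gcongr
            exact hrat m le_rfl
        _ = _ := by ring
    have e4 : ‖ES S c s‖ ≤ p * (L ^ m * Z) / 8 := by
      refine (hES s (by rw [abs_le]; constructor <;> linarith)).trans ?_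
      have e5 : Real.exp (1 / 4 * L) ≤ Z := by
        refine le_trans ?_ z1
        apply Real.exp_le_exp.2
        have : 1 / 4 ≤ 1 / 2 - s.re - e := by linarith
        calc 1 / 4 * L ≤ (1 / 2 - s.re - e) * L := by gcongr
          _ = _ := mul_comm _ _
      have e6 : 8 * M / p ≤ L ^ m * Z := by
        calc 8 * M / p ≤ Z := h6.trans e5
          _ = 1 * Z := (one_mul _).symm
          _ ≤ L ^ m * Z := by gcongr
      rw [div_le_iff₀ hp0] at e6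
      linarith
    refine (norm_add_le _ _).trans ((add_le_add (norm_add_le _ _) le_rfl).trans ?_)
    have : 0 ≤ p * (L ^ m * Z) := by positivity
    linarith
  have hlow : p * (L ^ m * Z) / 2 ≤ ‖LD f P S c s‖ := by
    have := norm_sub_norm_le w (LD f P S c s)
    rw [norm_sub_rev, hwn] at this
    linarith
  refine le_trans ?_ hlow
  have e1 : Real.exp (L * (1 / 2 - s.re - η)) * Real.exp (η / 2 * L) ≤ Z := by
    rw [← Real.exp_add]
    refine le_trans ?_ z1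
    apply Real.exp_le_exp.2
    have : L * e ≤ L * (η / 2) := by gcongr
    linarith
  have e2 : Real.exp (L * (1 / 2 - s.re - η)) * (2 / p) ≤ Z := by
    refine le_trans ?_ e1
    gcongr
  have e3 : Real.exp (L * (1 / 2 - s.re - η)) ≤ Z * (p / 2) := by
    calc Real.exp (L * (1 / 2 - s.re - η)) = (Real.exp (L * (1 / 2 - s.re - η)) * (2 / p)) * (p / 2) := by
          field_simp
      _ ≤ Z * (p / 2) := by gcongr
  calc Real.exp (L * (1 / 2 - s.re - η)) ≤ Z * (p / 2) := e3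
    _ = p * (1 * Z) / 2 := by ring
    _ ≤ p * (L ^ m * Z) / 2 := by gcongr

end Q240.GS
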