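import Mathlib

/-!
# Bounds for local factors
-/

set_option autoImplicit false

open Complex

namespace Q240.GS

/-- lower bound for a quadratic factor with both zeros on the unit circle -/
theorem quad_low {t : ℝ} (ht : |t| ≤ 2) {y : ℂ} {r : ℝ} (hy : ‖y‖ ≤ r) (hr : r ≤ 1) :
    (1 - r) ^ 2 ≤ ‖1 - t * y + y ^ 2‖ := by
  have ht' := abs_le.1 ht
  obtain ⟨θ, hθ⟩ : ∃ θ : ℝ, θ = Real.arccos (t / 2) := ⟨_, rfl⟩
  have hc : t = 2 * Real.cos θ := by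
    rw [hθ, Real.cos_arccos (by linarith) (by linarith)]
    ring
  have e1 : (1 - t * y + y ^ 2 : ℂ) = (1 - cexp (θ * I) * y) * (1 - cexp (-(θ * I)) * y) := by
    have h1 : (t : ℂ) = cexp (θ * I) + cexp (-(θ * I)) := by
      rw [hc]
      push_cast
      rw [Complex.cos, ← neg_mul]
      ring
    have h2 : cexp (θ * I) * cexp (-(θ * I)) = 1 := by
      rw [← Complex.exp_add, add_neg_cancel, Complex.exp_zero]
    rw [h1]
    linear_combination (-(y ^ 2)) * h2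
  have h3 : ∀ w : ℂ, ‖w‖ = 1 → 1 - r ≤ ‖1 - w * y‖ := by
    intro w hw
    have h4 : ‖(1 : ℂ)‖ - ‖w * y‖ ≤ ‖1 - w * y‖ := norm_sub_norm_le _ _
    rw [norm_one, norm_mul, hw, one_mul] at h4
    linarith
  have h5 : ‖cexp (θ * I)‖ = 1 := Complex.norm_exp_ofReal_mul_I θ
  have h6 : ‖cexp (-(θ * I))‖ = 1 := by
    rw [show (-((θ : ℂ) * I)) = ((-θ : ℝ) : ℂ) * I by push_cast; ring]
    exact Complex.norm_exp_ofReal_mul_I _
  rw [e1, norm_mul, sq]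
  exact mul_le_mul (h3 _ h5) (h3 _ h6) (by linarith) (norm_nonneg _)

/-- the local factor `1 - c p^{-s} + u p^{1-2s}` -/
noncomputable def lfac (c u : ℝ) (p : ℕ) (s : ℂ) : ℂ := 1 - c * (p : ℂ) ^ (-s) + u * (p : ℂ) ^ (1 - 2 * s)

/-- admissible parameters -/
def adm (c u : ℝ) (p : ℕ) : Prop := (u = 1 ∧ |c| ≤ 2 * Real.sqrt p) ∨ (u = 0 ∧ |c| ≤ 1)

lemma lfac_diff (c u : ℝ) {p : ℕ} (hp : p.Prime) : Differentiable ℂ (lfac c u p) := by
  have hp0 : (p : ℂ) ≠ 0 := by exact_mod_cast hp.ne_zero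
  unfold lfac
  have h1 : Differentiable ℂ (fun s : ℂ => (p : ℂ) ^ (-s)) := fun s =>
    (differentiableAt_id.neg).const_cpow (Or.inl hp0)
  have h2 : Differentiable ℂ (fun s : ℂ => (p : ℂ) ^ (1 - 2 * s)) := fun s =>
    ((differentiableAt_const _).sub ((differentiableAt_const _).mul differentiableAt_id)).const_cpow (Or.inl hp0)
  exact ((differentiable_const _).sub ((differentiable_const _).mul h1)).add ((differentiable_const _).mul h2)

lemma pow_half {p : ℕ} (hp : p.Prime) {σ : ℝ} (hs : 1 ≤ σ) : (p : ℝ) ^ (1 / 2 - σ) ≤ 3 / 4 := by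
  have hp2 : (2 : ℝ) ≤ p := by exact_mod_cast hp.two_le
  have hsq : Real.sqrt 2 ≥ 4 / 3 := by
    apply Real.le_sqrt_of_sq_le
    norm_num
  calc (p : ℝ) ^ (1 / 2 - σ) ≤ (p : ℝ) ^ (-(1 / 2) : ℝ) :=
        Real.rpow_le_rpow_of_exponent_le (by linarith) (by linarith)
    _ ≤ (2 : ℝ) ^ (-(1 / 2) : ℝ) := by
        rw [Real.rpow_neg (by linarith), Real.rpow_neg (by norm_num)]
        exact inv_anti₀ (Real.rpow_pos_of_pos (by norm_num) _)
          (Real.rpow_le_rpow (by norm_num) hp2 (by norm_num))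
    _ = (Real.sqrt 2)⁻¹ := by rw [Real.rpow_neg (by norm_num), Real.sqrt_eq_rpow]
    _ ≤ (4 / 3 : ℝ)⁻¹ := inv_anti₀ (by norm_num) hsq
    _ = 3 / 4 := by norm_num

/-- lower bound: `(1 - r)² ≤ |fac|` if `p^(1/2 - σ) ≤ r ≤ 1` -/
theorem lfac_low {c u : ℝ} {p : ℕ} (hp : p.Prime) (h : adm c u p) {s : ℂ} {r : ℝ}
    (hr : (p : ℝ) ^ (1 / 2 - s.re) ≤ r) (hr1 : r ≤ 1) : (1 - r) ^ 2 ≤ ‖lfac c u p s‖ := by
  have hp0 : (p : ℂ) ≠ 0 := by exact_mod_cast hp.ne_zero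
  have hp1 : (1 : ℝ) < p := by exact_mod_cast hp.one_lt
  have hpr : (0 : ℝ) < p := by linarith
  have hsq : (0 : ℝ) < Real.sqrt p := Real.sqrt_pos.2 hpr
  have hr0 : 0 < r := lt_of_lt_of_le (Real.rpow_pos_of_pos hpr _) hr
  rcases h with ⟨hu, hc⟩ | ⟨hu, hc⟩
  · obtain ⟨y, hy⟩ : ∃ y : ℂ, y = (Real.sqrt p : ℂ) * (p : ℂ) ^ (-s) := ⟨_, rfl⟩
    have hyn : ‖y‖ ≤ r := by
      rw [hy, norm_mul, norm_real, Real.norm_eq_abs, abs_of_pos hsq, norm_natCast_cpow_of_pos hp.pos,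
        neg_re, Real.sqrt_eq_rpow, ← Real.rpow_add hpr]
      refine le_trans (le_of_eq ?_) hr
      congr 1
    have ht : |c / Real.sqrt p| ≤ 2 := by
      rw [abs_div, abs_of_pos hsq, div_le_iff₀ hsq]
      exact hc
    have h1 := quad_low ht hyn hr1
    have hsqc : (Real.sqrt p : ℂ) ≠ 0 := by exact_mod_cast hsq.ne'
    have hsq2 : (Real.sqrt p : ℂ) ^ 2 = p := by
      rw [← ofReal_pow, Real.sq_sqrt hpr.le]
      simp
    have e1 : ((c / Real.sqrt p : ℝ) : ℂ) * y = c * (p : ℂ) ^ (-s) := by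
      rw [hy]
      push_cast
      field_simp
    have e2 : y ^ 2 = (p : ℂ) ^ (1 - 2 * s) := by
      rw [hy, mul_pow, hsq2, Complex.cpow_sub _ _ hp0, Complex.cpow_one, div_eq_mul_inv, ← Complex.cpow_neg,
        ← Complex.cpow_nat_mul]
      congr 2
      push_cast
      ring
    unfold lfac
    rw [hu, ← e1, ← e2, ofReal_one, one_mul]
    exact h1
  · have h2 : ‖(c : ℂ) * (p : ℂ) ^ (-s)‖ ≤ r := by
      rw [norm_mul, norm_real, Real.norm_eq_abs, norm_natCast_cpow_of_pos hp.pos, neg_re]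
      calc |c| * (p : ℝ) ^ (-s.re) ≤ 1 * (p : ℝ) ^ (1 / 2 - s.re) := by
            apply mul_le_mul hc _ (Real.rpow_nonneg hpr.le _) zero_le_one
            exact Real.rpow_le_rpow_of_exponent_le hp1.le (by linarith)
        _ ≤ r := by rw [one_mul]; exact hr
    unfold lfac
    rw [hu, ofReal_zero, zero_mul, add_zero]
    have h4 : ‖(1 : ℂ)‖ - ‖(c : ℂ) * (p : ℂ) ^ (-s)‖ ≤ ‖1 - (c : ℂ) * (p : ℂ) ^ (-s)‖ := norm_sub_norm_le _ _
    rw [norm_one] at h4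
    nlinarith

theorem lfac_upp {c u : ℝ} {p : ℕ} (hp : p.Prime) (h : adm c u p) {s : ℂ} (hs : 1 / 2 ≤ s.re) :
    ‖lfac c u p s‖ ≤ 4 := by
  have hp0 : (p : ℂ) ≠ 0 := by exact_mod_cast hp.ne_zero
  have hp1 : (1 : ℝ) < p := by exact_mod_cast hp.one_lt
  have hpr : (0 : ℝ) < p := by linarith
  have hsq : (0 : ℝ) < Real.sqrt p := Real.sqrt_pos.2 hpr
  have hs1 : 1 ≤ Real.sqrt p := by
    rw [Real.one_le_sqrt]; exact hp1.le
  have hc : |c| ≤ 2 * Real.sqrt p := by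
    rcases h with ⟨-, h⟩ | ⟨-, h⟩
    · exact h
    · linarith
  have hu : |u| ≤ 1 := by
    rcases h with ⟨h, -⟩ | ⟨h, -⟩ <;> rw [h] <;> norm_num
  have h1 : ‖(c : ℂ) * (p : ℂ) ^ (-s)‖ ≤ 2 := by
    rw [norm_mul, norm_real, Real.norm_eq_abs, norm_natCast_cpow_of_pos hp.pos, neg_re]
    calc |c| * (p : ℝ) ^ (-s.re) ≤ (2 * Real.sqrt p) * (p : ℝ) ^ (-(1 / 2) : ℝ) := by
          apply mul_le_mul hc _ (Real.rpow_nonneg hpr.le _) (by positivity)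
          exact Real.rpow_le_rpow_of_exponent_le hp1.le (by linarith)
      _ = 2 := by
          rw [Real.sqrt_eq_rpow, mul_assoc, ← Real.rpow_add hpr]
          norm_num
  have h2 : ‖(u : ℂ) * (p : ℂ) ^ (1 - 2 * s)‖ ≤ 1 := by
    rw [norm_mul, norm_real, Real.norm_eq_abs, norm_natCast_cpow_of_pos hp.pos]
    have e : (1 - 2 * s : ℂ).re = 1 - 2 * s.re := by simp
    rw [e]
    calc |u| * (p : ℝ) ^ (1 - 2 * s.re) ≤ 1 * 1 := by
          apply mul_le_mul hu _ (Real.rpow_nonneg hpr.le _) zero_le_one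
          exact Real.rpow_le_one_of_one_le_of_nonpos hp1.le (by linarith)
      _ = 1 := one_mul 1
  unfold lfac
  calc _ ≤ ‖(1 : ℂ) - c * (p : ℂ) ^ (-s)‖ + ‖(u : ℂ) * (p : ℂ) ^ (1 - 2 * s)‖ := norm_add_le _ _
    _ ≤ (‖(1 : ℂ)‖ + ‖(c : ℂ) * (p : ℂ) ^ (-s)‖) + ‖(u : ℂ) * (p : ℂ) ^ (1 - 2 * s)‖ := by
        gcongr
        exact norm_sub_le _ _
    _ ≤ 4 := by
        rw [norm_one]
        linarith

theorem lfac_ne {c u : ℝ} {p : ℕ} (hp : p.Prime) (h : adm c u p) {s : ℂ} (hs : 1 / 2 < s.re) :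
    lfac c u p s ≠ 0 := by
  have hp1 : (1 : ℝ) < p := by exact_mod_cast hp.one_lt
  have h1 : (p : ℝ) ^ (1 / 2 - s.re) < 1 := Real.rpow_lt_one_of_one_lt_of_neg hp1 (by linarith)
  have h2 := lfac_low hp h (s := s) le_rfl h1.le
  intro h0
  rw [h0, norm_zero] at h2
  have h3 : 0 < 1 - (p : ℝ) ^ (1 / 2 - s.re) := by linarith
  have := pow_pos h3 2
  linarith

theorem lfac_low1 {c u : ℝ} {p : ℕ} (hp : p.Prime) (h : adm c u p) {s : ℂ} (hs : 1 ≤ s.re) :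
    1 / 16 ≤ ‖lfac c u p s‖ := by
  have h1 := lfac_low hp h (s := s) (pow_half hp hs) (by norm_num)
  norm_num at h1
  linarith

/-- a finite product of local factors -/
theorem prod_bd {S : Finset ℕ} (hS : ∀ p ∈ S, p.Prime) (c u : ℕ → ℝ) (h : ∀ p ∈ S, adm (c p) (u p) p) {s : ℂ}
    (hs : 1 ≤ s.re) : ‖∏ p ∈ S, lfac (c p) (u p) p s‖ ≤ 4 ^ S.card ∧
      (1 / 16) ^ S.card ≤ ‖∏ p ∈ S, lfac (c p) (u p) p s‖ := by
  rw [norm_prod]
  constructor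
  · rw [← Finset.prod_const]
    exact Finset.prod_le_prod (fun p _ => norm_nonneg _) fun p hp => lfac_upp (hS p hp) (h p hp) (by linarith)
  · rw [← Finset.prod_const]
    exact Finset.prod_le_prod (fun p _ => by norm_num) fun p hp => lfac_low1 (hS p hp) (h p hp) hs

theorem prod_ne {S : Finset ℕ} (hS : ∀ p ∈ S, p.Prime) (c u : ℕ → ℝ) (h : ∀ p ∈ S, adm (c p) (u p) p) {s : ℂ}
    (hs : 1 / 2 < s.re) : ∏ p ∈ S, lfac (c p) (u p) p s ≠ 0 :=
  Finset.prod_ne_zero_iff.2 fun p hp => lfac_ne (hS p hp) (h p hp) hs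

theorem prod_diff {S : Finset ℕ} (hS : ∀ p ∈ S, p.Prime) (c u : ℕ → ℝ) :
    Differentiable ℂ (fun s => ∏ p ∈ S, lfac (c p) (u p) p s) :=
  Differentiable.fun_finsetProd fun p hp => lfac_diff _ _ (hS p hp)

end Q240.GS
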