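import Pool.Agent.W169.HF.Aut1
import Pool.Agent.W45.HF.Prof
import Pool.Agent.W351.HF.TC
import Pool.Agent.W397.HF.Lcx
import Pool.Agent.Q240.GS.Up

/-!
# The normalised L-function near a point, and its size

A slim version of parts of the library `W169.HF` (its modules `Loc`, `Gam`) and of `Q270.GD.C9`.
-/

set_option autoImplicit false

open Complex Set MeasureTheory Filter Topology Metric
open scoped ComplexConjugate NNReal ENNReal

namespace Q240.GS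

open Pool.Agent.W169.HF H353.E H353.F

/-- the analytic conductor at height `y` -/
noncomputable def cnd {m : ℕ} (N : ℝ) (μ : Fin m → ℂ) (y : ℝ) : ℝ :=
  N * ∏ j, (1 + ‖(y : ℂ) * I - μ j‖)

lemma one_le_prod {m : ℕ} (μ : Fin m → ℂ) (y : ℝ) : 1 ≤ ∏ j, (1 + ‖(y : ℂ) * I - μ j‖) := by
  refine Finset.prod_induction _ (fun x => (1 : ℝ) ≤ x) (fun a b ha hb => ?_) le_rfl fun j _ => ?_
  · nlinarith
  · linarith [norm_nonneg ((y : ℂ) * I - μ j)]

lemma le_cnd {m : ℕ} {N : ℝ} (hN : 1 ≤ N) (μ : Fin m → ℂ) (y : ℝ) : N ≤ cnd N μ y := by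
  unfold cnd
  have := one_le_prod μ y
  nlinarith

variable {m : ℕ}

lemma cndm_shift {N : ℝ} (hN : 0 ≤ N) (μ : Fin m → ℂ) {y y' R : ℝ} (h : |y' - y| ≤ R) :
    cnd N μ y ≤ cnd N μ y' * (1 + R) ^ m := by
  have hR : 0 ≤ R := (abs_nonneg _).trans h
  have h1 : ∀ j, 1 + ‖(y : ℂ) * I - μ j‖ ≤ (1 + ‖(y' : ℂ) * I - μ j‖) * (1 + R) := fun j => by
    have e : (y : ℂ) * I - μ j = ((y' : ℂ) * I - μ j) - ((y' - y : ℝ) : ℂ) * I := by push_cast; ring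
    have h2 : ‖(y : ℂ) * I - μ j‖ ≤ ‖(y' : ℂ) * I - μ j‖ + R := by
      rw [e]
      refine (norm_sub_le _ _).trans ?_
      rw [norm_mul, Complex.norm_real, Complex.norm_I, Real.norm_eq_abs, mul_one]
      linarith
    have h3 := norm_nonneg ((y' : ℂ) * I - μ j)
    nlinarith
  have h2 : ∏ j, (1 + ‖(y : ℂ) * I - μ j‖) ≤ ∏ j, ((1 + ‖(y' : ℂ) * I - μ j‖) * (1 + R)) :=
    Finset.prod_le_prod (fun j _ => by positivity) fun j _ => h1 j
  rw [Finset.prod_mul_distrib, Finset.prod_const, Finset.card_univ, Fintype.card_fin] at h2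
  unfold cnd
  calc _ ≤ N * ((∏ j, (1 + ‖(y' : ℂ) * I - μ j‖)) * (1 + R) ^ m) := mul_le_mul_of_nonneg_left h2 hN
    _ = _ := by ring

lemma cnd_pos {N : ℝ} (hN : 1 ≤ N) (μ : Fin m → ℂ) (y : ℝ) : 1 ≤ cnd N μ y := hN.trans (le_cnd hN μ y)

lemma logm_shift {N : ℝ} (hN : 1 ≤ N) (μ : Fin m → ℂ) {y y' R : ℝ} (h : |y' - y| ≤ |R|) :
    Real.log (cnd N μ y) ≤ Real.log (cnd N μ y') + m * Real.log (1 + |R|) := by
  have hp := cnd_pos hN μ y
  have hp' := cnd_pos hN μ y'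
  have h3 := cndm_shift (N := N) (by linarith) μ h
  have h4 : Real.log (cnd N μ y' * (1 + |R|) ^ m) = Real.log (cnd N μ y') + m * Real.log (1 + |R|) := by
    rw [Real.log_mul (by linarith) (by positivity), Real.log_pow]
  rw [← h4]
  exact Real.log_le_log (by linarith) h3

/-- the conductor of the problem and the local conductor, normalised data -/
lemma cnd_norm {N : ℝ} (hN : 1 ≤ N) (μ : Fin m → ℂ) (hm : 1 ≤ m) (hsum : ∑ j, (μ j).im = 0) (y : ℝ) :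
    Real.log ((1 + |y|) * (N * ∏ j, (1 + ‖μ j‖))) ≤ (m + 2) * Real.log (cnd N μ y) ∧
    Real.log (cnd N μ y) ≤ m * Real.log ((1 + |y|) * (N * ∏ j, (1 + ‖μ j‖))) := by
  have hm' : (1 : ℝ) ≤ m := by exact_mod_cast hm
  have hy := abs_nonneg y
  have hc := cnd_pos hN μ y
  have hp1 : 1 ≤ ∏ j, (1 + ‖μ j‖) := by
    refine Finset.prod_induction _ (fun x => (1 : ℝ) ≤ x) (fun a b ha hb => ?_) le_rfl fun j _ => ?_
    · nlinarith
    · linarith [norm_nonneg (μ j)]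
  have hC : 1 ≤ N * ∏ j, (1 + ‖μ j‖) := by nlinarith
  have hC2 : 1 ≤ (1 + |y|) * (N * ∏ j, (1 + ‖μ j‖)) := by nlinarith
  -- comparison of products
  have hA : ∏ j, (1 + ‖(y : ℂ) * I - μ j‖) ≤ (1 + |y|) ^ m * ∏ j, (1 + ‖μ j‖) := by
    have h1 : ∀ j, 1 + ‖(y : ℂ) * I - μ j‖ ≤ (1 + |y|) * (1 + ‖μ j‖) := fun j => by
      have h2 := norm_sub_le ((y : ℂ) * I) (μ j)
      rw [norm_mul, Complex.norm_real, Complex.norm_I, mul_one, Real.norm_eq_abs] at h2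
      have := norm_nonneg (μ j)
      nlinarith
    have h2 := Finset.prod_le_prod (s := (Finset.univ : Finset (Fin m))) (fun j _ => by positivity)
      fun j _ => h1 j
    rwa [Finset.prod_mul_distrib, Finset.prod_const, Finset.card_univ, Fintype.card_fin] at h2
  have hB : ∏ j, (1 + ‖μ j‖) ≤ (1 + |y|) ^ m * ∏ j, (1 + ‖(y : ℂ) * I - μ j‖) := by
    have h1 : ∀ j, 1 + ‖μ j‖ ≤ (1 + |y|) * (1 + ‖(y : ℂ) * I - μ j‖) := fun j => by
      have h2 := norm_sub_le ((y : ℂ) * I) ((y : ℂ) * I - μ j)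
      rw [sub_sub_cancel, norm_mul, Complex.norm_real, Complex.norm_I, mul_one, Real.norm_eq_abs] at h2
      have := norm_nonneg ((y : ℂ) * I - μ j)
      nlinarith
    have h2 := Finset.prod_le_prod (s := (Finset.univ : Finset (Fin m))) (fun j _ => by positivity)
      fun j _ => h1 j
    rwa [Finset.prod_mul_distrib, Finset.prod_const, Finset.card_univ, Fintype.card_fin] at h2
  -- the height
  have hD : 1 + |y| ≤ ∏ j, (1 + ‖(y : ℂ) * I - μ j‖) := by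
    have h1 : |y| ≤ ∑ j, ‖(y : ℂ) * I - μ j‖ := by
      have h2 : ∑ j, ((y : ℂ) * I - μ j).im = m * y := by
        simp only [sub_im, mul_im, ofReal_re, I_im, mul_one, ofReal_im, I_re, mul_zero, add_zero]
        rw [Finset.sum_sub_distrib, hsum, Finset.sum_const, Finset.card_univ, Fintype.card_fin, nsmul_eq_mul,
          sub_zero]
      have h3 : |(m : ℝ) * y| ≤ ∑ j, ‖(y : ℂ) * I - μ j‖ := by
        rw [← h2]
        refine (Finset.abs_sum_le_sum_abs _ _).trans (Finset.sum_le_sum fun j _ => abs_im_le_norm _)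
      rw [abs_mul, abs_of_nonneg (by linarith : (0 : ℝ) ≤ m)] at h3
      nlinarith
    have h4 : ∀ s : Finset (Fin m), 1 + ∑ j ∈ s, ‖(y : ℂ) * I - μ j‖ ≤
        ∏ j ∈ s, (1 + ‖(y : ℂ) * I - μ j‖) := by
      classical
      intro s
      induction s using Finset.induction_on with
      | empty => simp
      | insert a s ha ih =>
        rw [Finset.sum_insert ha, Finset.prod_insert ha]
        have h5 := norm_nonneg ((y : ℂ) * I - μ a)
        have h6 : 0 ≤ ∑ j ∈ s, ‖(y : ℂ) * I - μ j‖ := Finset.sum_nonneg fun j _ => norm_nonneg _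
        nlinarith
    linarith [h4 Finset.univ]
  have hD' : 1 + |y| ≤ cnd N μ y := by
    unfold cnd
    nlinarith
  have hlog1 : 0 ≤ Real.log (cnd N μ y) := Real.log_nonneg hc
  constructor
  · have h1 : (1 + |y|) * (N * ∏ j, (1 + ‖μ j‖)) ≤ cnd N μ y ^ (m + 2) := by
      calc (1 + |y|) * (N * ∏ j, (1 + ‖μ j‖)) ≤
          (1 + |y|) * (N * ((1 + |y|) ^ m * ∏ j, (1 + ‖(y : ℂ) * I - μ j‖))) := by gcongr
        _ = (1 + |y|) * ((1 + |y|) ^ m * cnd N μ y) := by unfold cnd; ring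
        _ ≤ cnd N μ y * (cnd N μ y ^ m * cnd N μ y) := by gcongr
        _ = _ := by ring
    have h2 := Real.log_le_log (by linarith) h1
    rw [Real.log_pow] at h2
    push_cast at h2
    exact h2
  · have h1 : cnd N μ y ≤ ((1 + |y|) * (N * ∏ j, (1 + ‖μ j‖))) ^ m := by
      calc cnd N μ y ≤ N * ((1 + |y|) ^ m * ∏ j, (1 + ‖μ j‖)) := by
            unfold cnd
            gcongr
        _ = (1 + |y|) ^ m * (N * ∏ j, (1 + ‖μ j‖)) := by ring
        _ ≤ (1 + |y|) ^ m * (N * ∏ j, (1 + ‖μ j‖)) ^ m := by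
            apply mul_le_mul_of_nonneg_left _ (by positivity)
            exact le_self_pow₀ hC (by omega)
        _ = _ := by rw [← mul_pow]
    have h2 := Real.log_le_log (by linarith) h1
    rwa [Real.log_pow] at h2

theorem prof_all : S_PROF := Pool.Agent.W45.HF.prof_of Pool.Agent.W351.HF.tc Pool.Agent.W397.HF.lcx

theorem slow_shift {f : ℂ → ℂ} (hf : Slow f) (c : ℂ) : Slow (fun w => f (w + c)) := by
  obtain ⟨hd, hs⟩ := hf
  refine ⟨hd.comp (differentiable_id.add_const c), fun δ hδ => ?_⟩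
  obtain ⟨K, hK, hb⟩ := hs (δ / 2) (by positivity)
  refine ⟨K * Real.exp (δ * ‖c‖ ^ 2), by positivity, fun z => ?_⟩
  refine (hb (z + c)).trans ?_
  rw [mul_assoc, ← Real.exp_add]
  refine mul_le_mul_of_nonneg_left (Real.exp_le_exp.2 ?_) hK.le
  have h1 := norm_add_le z c
  have h2 : ‖z + c‖ ^ 2 ≤ 2 * ‖z‖ ^ 2 + 2 * ‖c‖ ^ 2 := by
    have h3 : ‖z + c‖ ^ 2 ≤ (‖z‖ + ‖c‖) ^ 2 := pow_le_pow_left₀ (norm_nonneg _) h1 2
    nlinarith [sq_nonneg (‖z‖ - ‖c‖)]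
  nlinarith

section ud

variable {C B σ : ℝ} {Sg : ℝ → ℝ} {Λ γ D : ℂ → ℂ}

/-- the gamma factor near the point `1/2 + i y` -/
lemma gam_loc (gp : GP C Sg γ D) (y : ℝ) {u : ℂ} (hu : 1 / 2 ≤ u.re) :
    ‖γ (1 / 2 + (y : ℂ) * I + u)‖ ≤ ‖γ (3 / 2 + y * I)‖ * Real.exp (-(D (3 / 2 + y * I)).re) *
      Real.exp ((D (3 / 2 + y * I)).re * u.re + 4 * C * (1 + ‖u‖ ^ 2)) ∧
    ‖γ (3 / 2 + y * I)‖ * Real.exp (-(D (3 / 2 + y * I)).re) *
      Real.exp ((D (3 / 2 + y * I)).re * u.re - 4 * C * (1 + ‖u‖ ^ 2)) ≤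
      ‖γ (1 / 2 + (y : ℂ) * I + u)‖ := by
  have hC := gp.C_nonneg
  obtain ⟨ℓ, hℓ⟩ : ∃ ℓ : ℝ, ℓ = (D (3 / 2 + y * I)).re := ⟨_, rfl⟩
  rw [← hℓ]
  obtain ⟨v, hv⟩ : ∃ v : ℂ, v = u - 1 := ⟨_, rfl⟩
  have e1 : (1 / 2 + (y : ℂ) * I + u : ℂ) = 3 / 2 + y * I + v := by rw [hv]; ring
  have hs : (3 / 2 + y * I : ℂ).re = 3 / 2 := by simp
  have hvre : v.re = u.re - 1 := by rw [hv]; simp
  have hsv : 1 ≤ (3 / 2 + y * I + v : ℂ).re := by rw [add_re, hs, hvre]; linarith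
  have hs1 : 1 ≤ (3 / 2 + y * I : ℂ).re := by rw [hs]; norm_num
  have hvn : ‖v‖ ≤ ‖u‖ + 1 := by
    rw [hv]
    refine (norm_sub_le _ _).trans ?_
    simp
  have hv0 := norm_nonneg v
  have hu0 := norm_nonneg u
  have hpath : ∀ t ∈ Icc (0 : ℝ) 1, ‖D (3 / 2 + y * I + t * v) - ℓ‖ ≤ C * (1 + ‖v‖) := by
    intro t ht
    have hre : 1 ≤ (3 / 2 + y * I + t * v : ℂ).re := by
      rw [add_re, hs, Complex.re_ofReal_mul]
      rw [add_re, hs] at hsv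
      nlinarith [ht.1, ht.2]
    have h1 := gp.lipD (ρ := 1) le_rfl hre hs1
    have e2 : (3 / 2 + y * I + t * v : ℂ) - (3 / 2 + y * I) = t * v := by ring
    rw [e2, norm_mul, Complex.norm_real, Real.norm_eq_abs, abs_of_nonneg ht.1, div_one] at h1
    have h2 : ‖D (3 / 2 + y * I) - ℓ‖ ≤ C := by
      have e3 : D (3 / 2 + y * I) - ℓ = ((D (3 / 2 + y * I)).im : ℂ) * I := by
        rw [hℓ]
        apply Complex.ext <;> simp
      rw [e3, norm_mul, Complex.norm_I, mul_one, Complex.norm_real, Real.norm_eq_abs]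
      exact gp.im _ hs1
    have h3 : D (3 / 2 + y * I + t * v) - ℓ =
      (D (3 / 2 + y * I + t * v) - D (3 / 2 + y * I)) + (D (3 / 2 + y * I) - ℓ) := by ring
    rw [h3]
    refine (norm_add_le _ _).trans ?_
    have h4 : C * (t * ‖v‖) ≤ C * (1 * ‖v‖) := by
      apply mul_le_mul_of_nonneg_left _ hC
      exact mul_le_mul_of_nonneg_right ht.2 hv0
    linarith
  have hfin : C * (1 + ‖v‖) * ‖v‖ ≤ 4 * C * (1 + ‖u‖ ^ 2) := by
    have h1 : (1 + ‖v‖) * ‖v‖ ≤ 4 * (1 + ‖u‖ ^ 2) := by nlinarith [sq_nonneg (‖u‖ - 1)]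
    calc C * (1 + ‖v‖) * ‖v‖ = C * ((1 + ‖v‖) * ‖v‖) := by ring
      _ ≤ C * (4 * (1 + ‖u‖ ^ 2)) := mul_le_mul_of_nonneg_left h1 hC
      _ = _ := by ring
  rw [e1]
  constructor
  · have h1 := gam_move gp hs1 hsv hpath
    refine h1.trans ?_
    rw [mul_assoc ‖γ (3 / 2 + y * I)‖, ← Real.exp_add]
    apply mul_le_mul_of_nonneg_left _ (norm_nonneg _)
    apply Real.exp_le_exp.2
    rw [hvre]
    linarith
  · have hback : 1 ≤ (3 / 2 + y * I + v + -v : ℂ).re := by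
      rw [add_neg_cancel_right]; exact hs1
    have h1 := gam_move gp (ℓ := ℓ) (K := C * (1 + ‖v‖)) hsv hback (fun t ht => by
      have e4 : (3 / 2 + y * I + v + t * -v : ℂ) = 3 / 2 + y * I + ((1 - t : ℝ) : ℂ) * v := by
        push_cast; ring
      rw [e4]
      exact hpath (1 - t) ⟨by linarith [ht.2], by linarith [ht.1]⟩)
    rw [add_neg_cancel_right, neg_re, norm_neg] at h1
    calc ‖γ (3 / 2 + y * I)‖ * Real.exp (-ℓ) * Real.exp (ℓ * u.re - 4 * C * (1 + ‖u‖ ^ 2))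
        ≤ ‖γ (3 / 2 + y * I + v)‖ * Real.exp (ℓ * -v.re + C * (1 + ‖v‖) * ‖v‖) * Real.exp (-ℓ) *
          Real.exp (ℓ * u.re - 4 * C * (1 + ‖u‖ ^ 2)) := by gcongr
      _ = ‖γ (3 / 2 + y * I + v)‖ * Real.exp (ℓ * -v.re + C * (1 + ‖v‖) * ‖v‖ + -ℓ +
          (ℓ * u.re - 4 * C * (1 + ‖u‖ ^ 2))) := by
          rw [Real.exp_add (ℓ * -v.re + C * (1 + ‖v‖) * ‖v‖ + -ℓ),
            Real.exp_add (ℓ * -v.re + C * (1 + ‖v‖) * ‖v‖)]
          ring
      _ ≤ ‖γ (3 / 2 + y * I + v)‖ * 1 := by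
          apply mul_le_mul_of_nonneg_left _ (norm_nonneg _)
          apply Real.exp_le_one_iff.2
          rw [hvre]
          linarith
      _ = _ := mul_one _

theorem ud_of_sharp (S : Sharp C B σ Sg Λ γ D) (hslow : Slow Λ) (hσ2 : σ ≤ 5 / 2) (y : ℝ) :
    UD (Real.log B + 20 * C) (σ - 1 / 2) (D (3 / 2 + y * I)).re
      (‖γ (3 / 2 + y * I)‖ * Real.exp (-(D (3 / 2 + y * I)).re))
      (fun u : ℂ => Λ (1 / 2 + (y : ℂ) * I + u)) := by
  have hC := S.hC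
  have hB := S.hB
  have hσ := S.hσ
  have hlogB : 0 ≤ Real.log B := Real.log_nonneg hB
  have hBexp : B = Real.exp (Real.log B) := (Real.exp_log (by linarith)).symm
  obtain ⟨ε, hε, hfe⟩ := S.fe
  have hs1 : 1 ≤ (3 / 2 + y * I : ℂ).re := by simp; norm_num
  have hre : ∀ u : ℂ, (1 / 2 + (y : ℂ) * I + u : ℂ).re = 1 / 2 + u.re := fun u => by simp
  obtain ⟨ℓ, hℓ⟩ : ∃ ℓ : ℝ, ℓ = (D (3 / 2 + y * I)).re := ⟨_, rfl⟩
  obtain ⟨G, hG⟩ : ∃ G : ℝ, G = ‖γ (3 / 2 + y * I)‖ * Real.exp (-ℓ) := ⟨_, rfl⟩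
  have hfe' : ∀ u : ℂ, Λ (1 / 2 + (y : ℂ) * I + u) = ε * conj (Λ (1 / 2 + (y : ℂ) * I + -conj u)) := by
    intro u
    rw [hfe]
    congr 3
    simp only [map_add, map_mul, map_div₀, map_one, map_ofNat, conj_ofReal, conj_I]
    ring
  rw [← hℓ, ← hG]
  have hGpos : 0 < G := by
    rw [hG]
    have := norm_pos_iff.2 (S.gp.ne _ hs1)
    positivity
  have hup0 : ∀ u : ℂ, 0 ≤ u.re → ‖Λ (1 / 2 + (y : ℂ) * I + u)‖ ≤
      G * Real.exp (ℓ * max u.re (σ - 1 / 2) + (Real.log B + 20 * C) * (1 + ‖u‖ ^ 2)) := by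
    intro u hu
    have hu2 : 0 ≤ ‖u‖ ^ 2 := by positivity
    rcases le_total (σ - 1 / 2) u.re with h | h
    · have h1 := S.hi (1 / 2 + (y : ℂ) * I + u) (by rw [hre]; linarith)
      have h2 := (gam_loc S.gp y (u := u) (by linarith)).1
      rw [← hℓ, ← hG] at h2
      rw [max_eq_left h]
      calc ‖Λ (1 / 2 + (y : ℂ) * I + u)‖ ≤ B * ‖γ (1 / 2 + (y : ℂ) * I + u)‖ := h1
        _ ≤ B * (G * Real.exp (ℓ * u.re + 4 * C * (1 + ‖u‖ ^ 2))) := by gcongr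
        _ = G * Real.exp (Real.log B + (ℓ * u.re + 4 * C * (1 + ‖u‖ ^ 2))) := by
            rw [Real.exp_add (Real.log B), ← hBexp]; ring
        _ ≤ _ := by
            apply mul_le_mul_of_nonneg_left _ hGpos.le
            apply Real.exp_le_exp.2
            nlinarith [mul_nonneg hlogB hu2]
    · have h1 := S.strip (1 / 2 + (y : ℂ) * I + u) (by rw [hre]; linarith) (by rw [hre]; linarith)
      have him : (1 / 2 + (y : ℂ) * I + u : ℂ).im = y + u.im := by simp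
      rw [him] at h1
      obtain ⟨u', hu'⟩ : ∃ u' : ℂ, u' = ((σ - 1 / 2 : ℝ) : ℂ) + (u.im : ℂ) * I := ⟨_, rfl⟩
      have hu're : u'.re = σ - 1 / 2 := by rw [hu']; simp
      have hu'im : u'.im = u.im := by rw [hu']; simp
      have e1 : (σ + ((y + u.im : ℝ) : ℂ) * I : ℂ) = 1 / 2 + (y : ℂ) * I + u' := by
        rw [hu']; push_cast; ring
      rw [e1] at h1
      have h2 := (gam_loc S.gp y (u := u') (by rw [hu're]; linarith)).1
      rw [← hℓ, ← hG, hu're] at h2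
      have hn : ‖u'‖ ^ 2 ≤ 4 + ‖u‖ ^ 2 := by
        rw [Complex.sq_norm, Complex.sq_norm, Complex.normSq_apply, Complex.normSq_apply, hu're, hu'im]
        nlinarith [mul_self_nonneg u.re]
      rw [max_eq_right h]
      calc ‖Λ (1 / 2 + (y : ℂ) * I + u)‖ ≤ B * ‖γ (1 / 2 + (y : ℂ) * I + u')‖ := h1
        _ ≤ B * (G * Real.exp (ℓ * (σ - 1 / 2) + 4 * C * (1 + ‖u'‖ ^ 2))) := by gcongr
        _ = G * Real.exp (Real.log B + (ℓ * (σ - 1 / 2) + 4 * C * (1 + ‖u'‖ ^ 2))) := by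
            rw [Real.exp_add (Real.log B), ← hBexp]; ring
        _ ≤ _ := by
            apply mul_le_mul_of_nonneg_left _ hGpos.le
            apply Real.exp_le_exp.2
            nlinarith [mul_nonneg hlogB hu2]
  refine { slow := ?_, fe := ⟨ε, hε, fun u => hfe' u⟩, hG := hGpos, up := fun u => ?_, lo := fun u hu => ?_ }
  · have := slow_shift hslow (1 / 2 + (y : ℂ) * I)
    have e : (fun w : ℂ => Λ (w + (1 / 2 + (y : ℂ) * I))) = fun u : ℂ => Λ (1 / 2 + (y : ℂ) * I + u) := by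
      funext w
      rw [add_comm]
    rw [← e]
    exact this
  · show ‖Λ (1 / 2 + (y : ℂ) * I + u)‖ ≤ _
    rcases le_total 0 u.re with h | h
    · rw [abs_of_nonneg h]
      exact hup0 u h
    · have h1 := hup0 (-conj u) (by rw [neg_re, conj_re]; linarith)
      rw [norm_neg, Complex.norm_conj, neg_re, conj_re] at h1
      rw [hfe' u, norm_mul, hε, one_mul, Complex.norm_conj, abs_of_nonpos h]
      exact h1
  · show _ ≤ ‖Λ (1 / 2 + (y : ℂ) * I + u)‖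
    have hu2 : 0 ≤ ‖u‖ ^ 2 := by positivity
    have h1 := S.lo (1 / 2 + (y : ℂ) * I + u) (by rw [hre]; linarith)
    have h2 := (gam_loc S.gp y (u := u) (by linarith)).2
    rw [← hℓ, ← hG] at h2
    have h3 := h2.trans h1
    have h4 : G * Real.exp (ℓ * u.re - (Real.log B + 20 * C) * (1 + ‖u‖ ^ 2)) * B ≤
        G * Real.exp (ℓ * u.re - 4 * C * (1 + ‖u‖ ^ 2)) := by
      have e5 : G * Real.exp (ℓ * u.re - (Real.log B + 20 * C) * (1 + ‖u‖ ^ 2)) * B =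
          G * Real.exp (ℓ * u.re - (Real.log B + 20 * C) * (1 + ‖u‖ ^ 2) + Real.log B) := by
        rw [Real.exp_add _ (Real.log B), ← hBexp]; ring
      rw [e5]
      apply mul_le_mul_of_nonneg_left _ hGpos.le
      apply Real.exp_le_exp.2
      nlinarith [mul_nonneg hlogB hu2]
    have h5 := h4.trans h3
    nlinarith

end ud

/-- the finite L-function: the completed one divided by the gamma factors -/
noncomputable def LL {m : ℕ} (μ : Fin m → ℂ) (Λ : ℂ → ℂ) (s : ℂ) : ℂ :=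
  Λ s * ∏ j, (Gammaℝ (s - μ j))⁻¹

lemma LL_diff {m : ℕ} {μ : Fin m → ℂ} {Λ : ℂ → ℂ} (h : Differentiable ℂ Λ) : Differentiable ℂ (LL μ Λ) := by
  unfold LL
  refine h.mul (Differentiable.fun_finsetProd fun j _ => ?_)
  exact Complex.differentiable_Gammaℝ_inv.comp (differentiable_id.sub_const (μ j))

lemma LL_eq {m : ℕ} {N : ℝ} (hN : 0 < N) (μ : Fin m → ℂ) (Λ : ℂ → ℂ) (s : ℂ) :
    LL μ Λ s = XX N Λ s * (gaf N μ s)⁻¹ := by
  unfold LL XX gaf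
  have h : (N : ℂ) ^ (s / 2) ≠ 0 := by
    rw [Ne, Complex.cpow_eq_zero_iff]
    rintro ⟨h, -⟩
    exact hN.ne' (by exact_mod_cast h)
  rw [mul_inv, ← Finset.prod_inv_distrib]
  field_simp

variable {m : ℕ} {N : ℝ} {μ : Fin m → ℂ}

lemma gaf_add_two (hN : 0 < N) {s : ℂ} (hs : ∀ j, s - μ j ≠ 0) :
    gaf N μ (s + 2) = gaf N μ s * (N * ∏ j, ((s - μ j) / 2 / Real.pi)) := by
  unfold gaf
  have h1 : (N : ℂ) ^ ((s + 2) / 2) = (N : ℂ) ^ (s / 2) * N := by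
    rw [show (s + 2) / 2 = s / 2 + 1 by ring, cpow_add _ _ (by exact_mod_cast hN.ne'), cpow_one]
  have h2 : ∀ j, Gammaℝ (s + 2 - μ j) = Gammaℝ (s - μ j) * ((s - μ j) / 2 / Real.pi) := fun j => by
    rw [show s + 2 - μ j = s - μ j + 2 by ring, Gammaℝ_add_two (hs j)]
    ring
  rw [h1, Finset.prod_congr rfl fun j _ => h2 j, Finset.prod_mul_distrib]
  ring

lemma norm_fac (hN : 0 < N) (s : ℂ) :
    ‖((N : ℂ) * ∏ j, ((s - μ j) / 2 / Real.pi))‖ = N * ∏ j, (‖s - μ j‖ / (2 * Real.pi)) := by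
  rw [norm_mul, norm_prod, Complex.norm_real, Real.norm_eq_abs, abs_of_pos hN]
  congr 1
  refine Finset.prod_congr rfl fun j _ => ?_
  rw [norm_div, norm_div, Complex.norm_real, Real.norm_eq_abs, abs_of_pos Real.pi_pos, Complex.norm_ofNat,
    div_div]

lemma cnd_exp (hN : 1 ≤ N) (y : ℝ) : cnd N μ y = Real.exp (Real.log (cnd N μ y)) :=
  (Real.exp_log (lt_of_lt_of_le (by linarith) (le_cnd hN μ y))).symm

/-- upper bound for the product of the linear factors -/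
lemma fac_le (hN : 1 ≤ N) (y : ℝ) (u : ℂ) :
    N * ∏ j, (‖1 / 2 + (y : ℂ) * I + u - μ j‖ / (2 * Real.pi)) ≤
      cnd N μ y * Real.exp (m * (1 + ‖u‖ ^ 2)) := by
  have hN0 : 0 < N := by linarith
  have hpi := Real.pi_gt_three
  have hu := norm_nonneg u
  have h1 : ∀ j, ‖1 / 2 + (y : ℂ) * I + u - μ j‖ / (2 * Real.pi) ≤
      (1 + ‖(y : ℂ) * I - μ j‖) * Real.exp (1 + ‖u‖ ^ 2) := fun j => by
    have h2 : ‖1 / 2 + (y : ℂ) * I + u - μ j‖ ≤ 1 / 2 + ‖u‖ + ‖(y : ℂ) * I - μ j‖ := by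
      have e : 1 / 2 + (y : ℂ) * I + u - μ j = (1 / 2 + u) + (y * I - μ j) := by ring
      rw [e]
      refine (norm_add_le _ _).trans ?_
      have := norm_add_le (1 / 2 : ℂ) u
      have e2 : ‖(1 / 2 : ℂ)‖ = 1 / 2 := by simp
      linarith
    have h3 : ‖1 / 2 + (y : ℂ) * I + u - μ j‖ / (2 * Real.pi) ≤ ‖1 / 2 + (y : ℂ) * I + u - μ j‖ :=
      div_le_self (norm_nonneg _) (by linarith)
    have h4 := norm_nonneg ((y : ℂ) * I - μ j)
    have h5 : 1 + ‖u‖ ≤ Real.exp (1 + ‖u‖ ^ 2) := by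
      have := Real.add_one_le_exp (1 + ‖u‖ ^ 2)
      nlinarith [sq_nonneg (‖u‖ - 1)]
    have h6 : 1 / 2 + ‖u‖ + ‖(y : ℂ) * I - μ j‖ ≤ (1 + ‖(y : ℂ) * I - μ j‖) * (1 + ‖u‖) := by nlinarith
    calc _ ≤ _ := h3
      _ ≤ _ := h2
      _ ≤ _ := h6
      _ ≤ _ := mul_le_mul_of_nonneg_left h5 (by linarith)
  have h7 : ∏ j, (‖1 / 2 + (y : ℂ) * I + u - μ j‖ / (2 * Real.pi)) ≤
      ∏ j, ((1 + ‖(y : ℂ) * I - μ j‖) * Real.exp (1 + ‖u‖ ^ 2)) :=
    Finset.prod_le_prod (fun j _ => by positivity) fun j _ => h1 j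
  rw [Finset.prod_mul_distrib, Finset.prod_const, Finset.card_univ, Fintype.card_fin,
    ← Real.exp_nat_mul] at h7
  unfold cnd
  calc N * ∏ j, (‖1 / 2 + (y : ℂ) * I + u - μ j‖ / (2 * Real.pi)) ≤
      N * ((∏ j, (1 + ‖(y : ℂ) * I - μ j‖)) * Real.exp (m * (1 + ‖u‖ ^ 2))) :=
        mul_le_mul_of_nonneg_left h7 hN0.le
    _ = _ := by ring

/-- normalised local data of an L-function -/
structure ND (K ℓ : ℝ) (f : ℂ → ℂ) : Prop where
  ud : UD K (3 / 2) ℓ 1 f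
  zer : ∀ u, f u = 0 → |u.re| ≤ 1 / 2

lemma ud_scale {K ϑ0 ℓ G : ℝ} {f : ℂ → ℂ} (h : UD K ϑ0 ℓ G f) :
    UD K ϑ0 ℓ 1 (fun u => ((G⁻¹ : ℝ) : ℂ) * f u) := by
  have hG := h.hG
  have hn : ∀ u, ‖((G⁻¹ : ℝ) : ℂ) * f u‖ = G⁻¹ * ‖f u‖ := fun u => by
    rw [norm_mul, Complex.norm_real, Real.norm_of_nonneg (by positivity)]
  refine ⟨⟨h.slow.1.const_mul _, fun δ hδ => ?_⟩, ?_, one_pos, fun u => ?_, fun u hu => ?_⟩
  · obtain ⟨M, hM, h1⟩ := h.slow.2 δ hδ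
    refine ⟨G⁻¹ * M, by positivity, fun z => ?_⟩
    rw [hn, mul_assoc]
    exact mul_le_mul_of_nonneg_left (h1 z) (by positivity)
  · obtain ⟨ε, hε, h1⟩ := h.fe
    refine ⟨ε, hε, fun u => ?_⟩
    rw [map_mul, conj_ofReal, h1 u]
    ring
  · rw [hn, one_mul, inv_mul_le_iff₀ hG]
    exact h.up u
  · rw [hn, one_mul, le_inv_mul_iff₀ hG]
    exact h.lo u hu

/-- the normalised function at height `y` -/
noncomputable def fn {m : ℕ} (N : ℝ) (μ : Fin m → ℂ) (Λ : ℂ → ℂ) (y : ℝ) (u : ℂ) : ℂ :=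
  (((‖gaf N μ (3 / 2 + y * I)‖ * Real.exp (-(gaD N μ (3 / 2 + y * I)).re))⁻¹ : ℝ) : ℂ) *
    XX N Λ (1 / 2 + (y : ℂ) * I + u)

/-- half the logarithm of the conductor at height `y` -/
noncomputable def el {m : ℕ} (N : ℝ) (μ : Fin m → ℂ) (y : ℝ) : ℝ := (gaD N μ (3 / 2 + y * I)).re

lemma XX_zero {N : ℝ} (hN : 0 < N) {Λ : ℂ → ℂ} {z : ℂ} : XX N Λ z = 0 ↔ Λ z = 0 := by
  unfold XX
  have hN0 : (N : ℂ) ≠ 0 := by exact_mod_cast hN.ne'
  rw [mul_eq_zero, Complex.cpow_eq_zero_iff]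
  constructor
  · rintro (⟨h, -⟩ | h)
    · exact absurd h hN0
    · exact h
  · exact Or.inr

lemma gpos {m : ℕ} (hm : 1 ≤ m) {N : ℝ} {μ : Fin m → ℂ} (hN : 1 ≤ N) (hμ : ∀ j, (μ j).re ≤ 1 / 2) (y : ℝ) :
    0 < ‖gaf N μ (3 / 2 + y * I)‖ * Real.exp (-(gaD N μ (3 / 2 + y * I)).re) := by
  have := norm_pos_iff.2 ((gaf_GP hm hN hμ).ne (3 / 2 + y * I) (by simp; norm_num))
  positivity

lemma fn_zero {m : ℕ} (hm : 1 ≤ m) {N : ℝ} {μ : Fin m → ℂ} (hN : 1 ≤ N) (hμ : ∀ j, (μ j).re ≤ 1 / 2)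
    {Λ : ℂ → ℂ} {y : ℝ} {u : ℂ} : fn N μ Λ y u = 0 ↔ Λ (1 / 2 + (y : ℂ) * I + u) = 0 := by
  unfold fn
  have h1 := gpos hm hN hμ y
  have h2 : (((‖gaf N μ (3 / 2 + y * I)‖ * Real.exp (-(gaD N μ (3 / 2 + y * I)).re))⁻¹ : ℝ) : ℂ) ≠ 0 := by
    rw [ofReal_ne_zero]
    positivity
  rw [mul_eq_zero, XX_zero (by linarith)]
  constructor
  · rintro (h | h)
    · exact absurd h h2
    · exact h
  · exact Or.inr

/-- the local data -/
theorem nd_of (m : ℕ) (hm : 1 ≤ m) : ∃ K : ℝ, 1 ≤ K ∧ ∀ (N : ℝ) (μ : Fin m → ℂ) (α : Fin m → ℕ → ℂ) (e : ℂ)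
    (Λ : ℂ → ℂ), DatumT (1 / 2) N μ α e Λ → (∀ s : ℂ, 1 < s.re → Λ s ≠ 0) → ∀ y : ℝ,
      ND K (el N μ y) (fn N μ Λ y) := by
  have hm' : (1 : ℝ) ≤ m := by exact_mod_cast hm
  obtain ⟨B, hB, HS⟩ := sharpX m hm (show (0 : ℝ) ≤ 1 / 2 by norm_num) le_rfl
    (show (0 : ℝ) < 1 / 2 by norm_num) (by norm_num)
  have hlogB : 0 ≤ Real.log B := Real.log_nonneg hB
  refine ⟨Real.log B + 20 * (6 * m), by linarith, fun N μ α e Λ d hnz y => ?_⟩
  obtain ⟨S, hslow, hfe, hzer, hne⟩ := HS N μ α e Λ d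
  have ud := ud_of_sharp S hslow (by norm_num) y
  rw [show (1 + 1 / 2 + 1 / 2 - 1 / 2 : ℝ) = 3 / 2 by norm_num] at ud
  have ud1 := ud_scale ud
  have hright : ∀ u : ℂ, fn N μ Λ y u = 0 → u.re ≤ 1 / 2 := by
    intro u hu
    rw [fn_zero hm d.one_le d.re_le] at hu
    by_contra hcon
    push Not at hcon
    refine hnz _ ?_ hu
    simp
    linarith
  refine ⟨ud1, fun u hu => ?_⟩
  rw [abs_le]
  refine ⟨?_, hright u hu⟩
  obtain ⟨ε, hε, h1⟩ := ud1.fe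
  have h2 : fn N μ Λ y (-conj u) = 0 := by
    have h3 := h1 (-conj u)
    have e1 : -conj (-conj u) = u := by simp
    rw [e1] at h3
    have h4 : fn N μ Λ y (-conj u) = ε * conj (fn N μ Λ y u) := h3
    rw [h4, hu, map_zero, mul_zero]
  have h3 := hright _ h2
  simp at h3
  linarith

/-- the bounds for `el` -/
lemma el_bd {m : ℕ} {N : ℝ} {μ : Fin m → ℂ} (hN : 1 ≤ N) (hμ : ∀ j, (μ j).re ≤ 1 / 2) (y : ℝ) :
    Real.log (cnd N μ y) ≤ 2 * el N μ y + 14 * m ∧ 2 * el N μ y ≤ Real.log (cnd N μ y) + 10 * m := by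
  have hlo := gaD_re_ge hN hμ y
  have hup := gaD_re_le hN hμ y
  change 1 / 2 * Real.log (cnd N μ y) - 7 * m ≤ el N μ y at hlo
  change el N μ y ≤ 1 / 2 * Real.log (cnd N μ y) + 5 * m at hup
  constructor <;> linarith

end Q240.GS
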