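import Pool.Agent.Y818.QT13b
import Pool.Agent.Q240.GS.EC2

/-!
# The L-function of a newform of weight two as a Dirichlet series
-/

set_option autoImplicit false

namespace Q240.GS

open Complex UpperHalfPlane MatrixGroups CongruenceSubgroup Filter Topology
open Pool.Agent.Y19.QT (IsFormOf)
open Pool.Agent.Y818.QT13b (fac fac_diff euler fac_ne_zero entire coef_zero summable_coef)

variable {a b : ℤ} {N : ℕ} {f : CuspForm (Gamma0 N : Subgroup (GL (Fin 2) ℝ)) 2}

theorem formW_of (hf : IsFormOf a b N f) : ∃ w : ℝ, Pool.Agent.W169.HF.IsForm N f w := by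
  obtain ⟨w, hw, hfr⟩ := hf.fricke
  refine ⟨w, ?_⟩
  exact
  { one := hf.one
    real := hf.real
    mul := hf.mul
    pow := hf.pow
    sign := hw
    fricke := hfr
    good := hf.good
    bad := fun p hp hpN => by
      have h1 : (1 : ℝ) ≤ Real.sqrt p := by
        rw [Real.one_le_sqrt]
        exact_mod_cast hp.one_le
      exact (hf.bad p hp hpN).trans h1 }

lemma base_ne {N : ℕ} (hN : 0 < N) (s : ℂ) : (((Real.sqrt N / (2 * Real.pi) : ℝ) : ℂ) ^ s) ≠ 0 := by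
  rw [Ne, Complex.cpow_eq_zero_iff]
  intro h
  have h5 : (0 : ℝ) < Real.sqrt N / (2 * Real.pi) := by
    have : (0 : ℝ) < N := by exact_mod_cast hN
    have := Real.sqrt_pos.2 this
    positivity
  have h6 : ((Real.sqrt N / (2 * Real.pi) : ℝ) : ℂ) ≠ 0 := by exact_mod_cast h5.ne'
  exact h6 h.1

theorem LE_entire (hN : 0 < N) {Λ : ℂ → ℂ} (hΛ : Differentiable ℂ Λ) : Differentiable ℂ (LE N Λ) := by
  have h5 : (0 : ℝ) < Real.sqrt N / (2 * Real.pi) := by
    have : (0 : ℝ) < N := by exact_mod_cast hN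
    have := Real.sqrt_pos.2 this
    positivity
  have h6 : ((Real.sqrt N / (2 * Real.pi) : ℝ) : ℂ) ≠ 0 := by exact_mod_cast h5.ne'
  have hfun : LE N Λ = fun s => (((Real.sqrt N / (2 * Real.pi) : ℝ) : ℂ) ^ s)⁻¹ * (Complex.Gamma s)⁻¹ * Λ s := by
    funext s
    unfold LE
    rw [mul_inv]
  rw [hfun]
  intro s
  have h1 : DifferentiableAt ℂ (fun s : ℂ => (((Real.sqrt N / (2 * Real.pi) : ℝ) : ℂ) ^ s)⁻¹) s := by
    refine DifferentiableAt.inv ?_ (base_ne hN s)
    exact differentiableAt_id.const_cpow (Or.inl h6)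
  exact (h1.mul (Complex.differentiable_one_div_Gamma s)).mul (hΛ s)

theorem LE_sum (hf : IsFormOf a b N f) {Λ : ℂ → ℂ} (hΛ : Pool.Agent.W169.HF.IsCompleted f Λ) (s : ℂ)
    (hs : (3 : ℝ) / 2 < s.re) : LE N Λ s = ∑' n : ℕ, Pool.Agent.Y19.QT.coef f n * (n : ℂ) ^ (-s) := by
  obtain ⟨L, hL, hL2⟩ := entire hf
  have hLE := LE_entire hf.pos hΛ.1
  have h2 : ∀ s : ℂ, 2 < s.re → LE N Λ s = L s := by
    intro s hs
    rw [hL2 s (by linarith)]
    unfold LE
    rw [hΛ.2 s hs, ← mul_assoc, inv_mul_cancel₀ (mul_ne_zero (base_ne hf.pos s)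
      (Complex.Gamma_ne_zero_of_re_pos (by linarith))), one_mul]
    have h3 := (Summable.of_norm (summable_coef hf (s := s) (by linarith))).tsum_eq_zero_add
    rw [coef_zero hf, zero_mul, zero_add] at h3
    rw [h3]
    rfl
  have heq : LE N Λ = L := by
    refine AnalyticOnNhd.eq_of_eventuallyEq (fun z _ => hLE.analyticAt z) (fun z _ => hL.analyticAt z)
      (z₀ := (3 : ℂ)) ?_
    have hopen : IsOpen {s : ℂ | 2 < s.re} := isOpen_lt continuous_const Complex.continuous_re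
    filter_upwards [hopen.mem_nhds (show (3 : ℂ) ∈ {s : ℂ | 2 < s.re} by simp; norm_num)] with s hs
    exact h2 s hs
  rw [heq]
  exact hL2 s hs

/-- the functional equation -/
theorem fe_nf [NeZero N] {w : ℝ} (hf : Pool.Agent.W169.HF.IsForm N f w) {Λ : ℂ → ℂ}
    (hΛ : Pool.Agent.W169.HF.IsCompleted f Λ) (s : ℂ) : Λ (2 - s) = (w : ℂ) * Λ s := by
  obtain ⟨Λ', hΛ', hfe, -, -⟩ := Pool.Agent.W174.HF.nf1 N f w hf
  have heq : Λ' = Λ := completed_un hΛ' hΛ
  rw [← heq]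
  exact hfe s

/-- the primes dividing `2 (4a³ + 27b²)` -/
def BB (a b : ℤ) : Finset ℕ := (2 * (4 * a ^ 3 + 27 * b ^ 2)).natAbs.primeFactors

open Pool.Agent.Y19.QT in
/-- the incomplete L-function -/
theorem lfun_of (hab : 4 * a ^ 3 + 27 * b ^ 2 ≠ 0) (hf : IsFormOf a b N f) {L : ℂ → ℂ}
    (hL : Differentiable ℂ L) (hL2 : ∀ s : ℂ, (3 : ℝ) / 2 < s.re → L s = ∑' n : ℕ, coef f n * (n : ℂ) ^ (-s)) :
    IsLFun a b (fun s => L s * ∏ p ∈ BB a b, fac f p s) := by
  have hD : (2 * (4 * a ^ 3 + 27 * b ^ 2)).natAbs ≠ 0 := by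
    rw [Int.natAbs_ne_zero]
    exact mul_ne_zero two_ne_zero hab
  obtain ⟨B, hB⟩ : ∃ B : Finset ℕ, B = (2 * (4 * a ^ 3 + 27 * b ^ 2)).natAbs.primeFactors := ⟨_, rfl⟩
  have hBmem : ∀ p : ℕ, p ∈ B ↔ p.Prime ∧ (p : ℤ) ∣ 2 * (4 * a ^ 3 + 27 * b ^ 2) := by
    intro p
    rw [hB, Nat.mem_primeFactors, Int.natCast_dvd]
    tauto
  have hdvd : ∀ p : ℕ, (p : ℤ) ∣ 2 * (-4 * a ^ 3 - 27 * b ^ 2) ↔
      (p : ℤ) ∣ 2 * (4 * a ^ 3 + 27 * b ^ 2) := by
    intro p
    rw [show 2 * (-4 * a ^ 3 - 27 * b ^ 2) = -(2 * (4 * a ^ 3 + 27 * b ^ 2)) by ring, dvd_neg]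
  have hBB : BB a b = B := by rw [hB]; rfl
  rw [hBB]
  refine ⟨?_, ?_⟩
  · refine hL.mul ?_
    intro s
    exact DifferentiableAt.fun_finsetProd fun p hp => fac_diff p ((hBmem p).1 hp).1 s
  · intro s hs
    have h1 := euler hf hs
    rw [← hL2 s hs] at h1
    have h2 : HasProd (fun p : Nat.Primes => (fun p : ℕ => (fac f p s)⁻¹) (p : ℕ)) (L s) := h1
    have h3 : HasProd ({p : ℕ | p.Prime}.mulIndicator (fun p : ℕ => (fac f p s)⁻¹)) (L s) :=
      (hasProd_subtype_iff_mulIndicator (s := {p : ℕ | p.Prime})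
        (f := fun p : ℕ => (fac f p s)⁻¹)).1 h2
    have h4 : HasProd (fun p : ℕ => if p ∈ B then fac f p s else 1) (∏ p ∈ B, fac f p s) := by
      have h5 : HasProd (fun p : ℕ => if p ∈ B then fac f p s else 1)
          (∏ p ∈ B, if p ∈ B then fac f p s else 1) :=
        hasProd_prod_of_ne_finset_one (fun p hp => by simp [hp])
      convert h5 using 1
      exact Finset.prod_congr rfl fun p hp => by simp [hp]
    have h6 := h3.mul h4
    refine h6.congr_fun fun p => ?_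
    by_cases hp : p.Prime
    · by_cases hpB : p ∈ B
      · have : ¬ (p.Prime ∧ ¬ ((p : ℤ) ∣ 2 * (-4 * a ^ 3 - 27 * b ^ 2))) := by
          rw [hdvd]
          have := ((hBmem p).1 hpB).2
          tauto
        rw [if_neg this]
        simp only [Set.mulIndicator, Set.mem_ofPred_eq, hp, if_true, hpB]
        exact (inv_mul_cancel₀ (fac_ne_zero hf hs hp)).symm
      · have hnd : ¬ ((p : ℤ) ∣ 2 * (4 * a ^ 3 + 27 * b ^ 2)) := by
          intro h
          exact hpB ((hBmem p).2 ⟨hp, h⟩)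
        have : (p.Prime ∧ ¬ ((p : ℤ) ∣ 2 * (-4 * a ^ 3 - 27 * b ^ 2))) := by
          rw [hdvd]
          exact ⟨hp, hnd⟩
        rw [if_pos this]
        simp only [Set.mulIndicator, Set.mem_ofPred_eq, hp, if_true, hpB, if_false, mul_one]
        obtain ⟨h7, h8⟩ := hf.points p hp hnd
        unfold fac
        rw [if_neg h7, h8]
        simp only [ap]
        push_cast
        rfl
    · have hpB : p ∉ B := fun h => hp ((hBmem p).1 h).1
      simp [Set.mulIndicator, hp, hpB]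


end Q240.GS
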