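import Pool.Agent.Y203.QTZ5
import Pool.Agent.Y19.QT.ZD2
import Pool.Agent.Q240.GS.Cond
import Pool.Agent.Q240.GS.Quad
import Pool.Agent.Q240.GS.TwA

/-!
# Quadratic twists: identification of the L-functions and of the conductors
-/

set_option autoImplicit false

namespace Q240.GS

open Pool.Agent.Y19.QT Complex Pool.Agent.Y705.QT
open Pool.Agent.H306R2.RZ (js)
open UpperHalfPlane MatrixGroups CongruenceSubgroup Filter Topology
open Pool.Agent.Y818.QT13b (fac fac_diff euler fac_ne_zero entire coef_zero summable_coef)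

/-- the identity behind task Z5 of the project QT -/
theorem z5id (a b : ℤ) (Q : ℕ) (lam : ℕ → ℝ) (T : Twists Q lam)
    (hQ : ∀ p : ℕ, p.Prime → (p : ℤ) ∣ 2 * (4 * a ^ 3 + 27 * b ^ 2) → p ∣ Q)
    (hlam : ∀ p : ℕ, p.Prime → ¬ p ∣ Q → lam p = ap a b p / Real.sqrt p)
    (d : ℤ) (hd : Squarefree d) (F : ℂ → ℂ) (hF : IsLFun (a * d ^ 2) (b * d ^ 3) F) :
    (∃ S : Finset ℕ, (∀ p ∈ S, p.Prime ∧ p ≠ 2) ∧ ∀ s : ℂ, 1 / 4 < s.re →
      LSeries (fun n => (T.e' d n : ℂ)) s * T.ell d s =
        F (s + 1 / 2) * ∏ p ∈ S, pf (a * d ^ 2) (b * d ^ 3) (s + 1 / 2) p) ∧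
    ∀ s : ℂ, 1 / 4 ≤ s.re →
      LSeries (fun n => (T.e d n : ℂ)) s * LSeries (fun n => (T.e' d n : ℂ)) s = 1 := by
  have hell : ∀ d : ℤ, Squarefree d → Differentiable ℂ (T.ell d) ∧
      ∀ s : ℂ, 2 < s.re → T.ell d s = ∑' n : ℕ, (T.cf d n : ℂ) * (n : ℂ) ^ (-s) := fun d hd =>
    ⟨(Pool.Agent.Y703.QT8.T8a T d hd).1, (Pool.Agent.Y703.QT8.T8a T d hd).2.1⟩
  classical
  have H := T.hecke
  obtain ⟨hFd, hFp⟩ := hF
  obtain ⟨hed, hes⟩ := hell d hd
  set a' : ℤ := a * d ^ 2 with ha'
  set b' : ℤ := b * d ^ 3 with hb'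
  set D' : ℤ := 2 * (-4 * a' ^ 3 - 27 * b' ^ 2) with hD'
  have hDD : D' = -(2 * (4 * a ^ 3 + 27 * b ^ 2)) * d ^ 6 := by rw [hD', ha', hb']; ring
  set S : Finset ℕ := Q.primeFactors.filter (fun p => ¬ (p : ℤ) ∣ D') with hS
  have hSp : ∀ q ∈ S, q.Prime := fun q hq => Nat.prime_of_mem_primeFactors (Finset.mem_filter.mp hq).1
  -- the Euler product
  have key : ∀ s : ℂ, 10 < s.re → F (s + 1 / 2) * ∏ p ∈ S, pf a' b' (s + 1 / 2) p =
      LSeries (hL lam d) s := by
    intro s hs
    have h1 := hFp (s + 1 / 2) (by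
      have : (s + 1 / 2).re = s.re + 1 / 2 := by simp
      rw [this]; linarith)
    have h2 := hL_euler H d s (by linarith)
    have h3 : HasProd (fun p => if p ∈ S then (pf a' b' (s + 1 / 2) p)⁻¹ else 1)
        (∏ p ∈ S, (pf a' b' (s + 1 / 2) p)⁻¹) := by
      have h4 : HasProd (fun p => if p ∈ S then (pf a' b' (s + 1 / 2) p)⁻¹ else 1)
          (∏ p ∈ S, if p ∈ S then (pf a' b' (s + 1 / 2) p)⁻¹ else 1) :=
        hasProd_prod_of_ne_finset_one (fun p hp => if_neg hp)
      rwa [Finset.prod_congr rfl fun p hp => if_pos hp] at h4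
    have h4 := h2.mul h3
    have h5 : F (s + 1 / 2) = LSeries (hL lam d) s * ∏ p ∈ S, (pf a' b' (s + 1 / 2) p)⁻¹ := by
      refine h1.unique ?_
      convert h4 using 1
      funext p
      by_cases hp : p.Prime
      swap
      · rw [if_neg (by tauto), lf, if_neg (by tauto), if_neg (fun h => hp (hSp p h)), one_mul]
      have hpf : ∀ s, (1 - ((p : ℂ) - (Nat.card {q : ZMod p × ZMod p //
            q.2 ^ 2 = q.1 ^ 3 + (a' : ZMod p) * q.1 + (b' : ZMod p)} : ℂ))
            * (p : ℂ) ^ (-s) + (p : ℂ) ^ (1 - 2 * s))⁻¹ = (pf a' b' s p)⁻¹ := by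
        intro s
        unfold pf ap
        push_cast
        rfl
      rw [hpf]
      by_cases hpQ : p ∣ Q
      · have e1 : lf Q lam d s p = 1 := by rw [lf, if_neg (by tauto)]
        rw [e1, one_mul]
        by_cases hpD : (p : ℤ) ∣ D'
        · rw [if_neg (by tauto), if_neg]
          intro h
          exact (Finset.mem_filter.mp h).2 hpD
        · rw [if_pos ⟨hp, hpD⟩, if_pos]
          exact Finset.mem_filter.mpr ⟨Nat.mem_primeFactors.mpr ⟨hp, hpQ, H.pos.ne'⟩, hpD⟩
      · have hpS : p ∉ S := fun h => hpQ (Nat.dvd_of_mem_primeFactors (Finset.mem_filter.mp h).1)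
        rw [if_neg hpS, mul_one]
        have hpΔ : ¬ (p : ℤ) ∣ 2 * (4 * a ^ 3 + 27 * b ^ 2) := fun h => hpQ (hQ p hp h)
        have hpi : Prime (p : ℤ) := Nat.prime_iff_prime_int.mp hp
        have hp2 : p ≠ 2 := by
          rintro rfl
          exact hpΔ (dvd_mul_right _ _)
        have : Fact p.Prime := ⟨hp⟩
        by_cases hpd : (p : ℤ) ∣ d
        · have e1 : js d p = 0 := by
            rw [js_prime, (ZMod.intCast_zmod_eq_zero_iff_dvd d p).mpr hpd]
            simp
          rw [if_neg, lf, e1]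
          · simp
          · rintro ⟨_, h⟩
            apply h
            rw [hDD]
            exact (dvd_pow hpd (by norm_num)).mul_left _
        · have hpD : ¬ (p : ℤ) ∣ D' := by
            rw [hDD]
            intro h
            rcases hpi.dvd_or_dvd h with h | h
            · exact hpΔ ((dvd_neg).mp h)
            · exact hpd (hpi.dvd_of_dvd_pow h)
          rw [if_pos ⟨hp, hpD⟩, lf, if_pos ⟨hp, hpQ⟩]
          congr 1
          unfold pf
          have e1 : (js d p : ℂ) ^ 2 = 1 := by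
            have hd0 : (d : ZMod p) ≠ 0 := by
              rwa [Ne, ZMod.intCast_zmod_eq_zero_iff_dvd]
            rw [js_prime]
            have e2 := quadraticChar_sq_one hd0
            exact_mod_cast congrArg (fun z : ℤ => (z : ℂ)) e2
          have hp0 : (p : ℂ) ≠ 0 := by exact_mod_cast hp.ne_zero
          have e2 : (ap a' b' p : ℂ) = js d p * ap a b p := by
            exact_mod_cast congrArg (fun z : ℝ => (z : ℂ)) (ap_twist a b d p hp hp2 hpd)
          have e3 : (p : ℂ) ^ (-(s + 1 / 2)) = (p : ℂ) ^ (-s) * (Real.sqrt p : ℂ)⁻¹ := by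
            rw [neg_add, Complex.cpow_add _ _ hp0, Complex.cpow_neg _ (1 / 2)]
            congr 2
            rw [Real.sqrt_eq_rpow, Complex.ofReal_cpow (by positivity)]
            push_cast
            rfl
          have e4 : (p : ℂ) ^ (1 - 2 * (s + 1 / 2)) = ((p : ℂ) ^ (-s)) ^ 2 := by
            rw [← Complex.cpow_nat_mul]
            congr 1
            push_cast
            ring
          rw [e2, e3, e4, hlam p hp hpQ, mul_pow, e1]
          push_cast
          ring
    rw [h5, mul_assoc, ← Finset.prod_mul_distrib, Finset.prod_eq_one, mul_one]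
    intro p hp
    refine inv_mul_cancel₀ (pf_big a' b' (hSp p hp) _ ?_)
    have : (s + 1 / 2).re = s.re + 1 / 2 := by simp
    rw [this]; linarith
  -- the series of `e`, `e'`
  have sE : ∀ s : ℂ, 1 / 4 ≤ s.re → LSeriesSummable (fun n => (T.e d n : ℂ)) s := fun s hs =>
    (hE_bound _ _ (T.e_sum d hd) s hs).1
  have sE' : ∀ s : ℂ, 1 / 4 ≤ s.re → LSeriesSummable (fun n => (T.e' d n : ℂ)) s := fun s hs =>
    (hE_bound _ _ (T.e'_sum d hd) s hs).1
  have hEE : ∀ s : ℂ, 1 / 4 ≤ s.re →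
      LSeries (fun n => (T.e d n : ℂ)) s * LSeries (fun n => (T.e' d n : ℂ)) s = 1 := by
    intro s hs
    rw [← LSeries_convolution' (sE s hs) (sE' s hs)]
    have h5 : LSeries (LSeries.convolution (fun n => (T.e d n : ℂ)) (fun n => (T.e' d n : ℂ))) s =
        LSeries LSeries.delta s := by
      apply LSeries_congr
      intro n hn
      rw [LSeries.convolution_def]
      show ∑ p ∈ n.divisorsAntidiagonal, (T.e d p.1 : ℂ) * (T.e' d p.2 : ℂ) = LSeries.delta n
      have h6 := T.e_inv d hd n (Nat.one_le_iff_ne_zero.mpr hn)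
      have h7 : ((∑ x ∈ n.divisorsAntidiagonal, T.e d x.1 * T.e' d x.2 : ℝ) : ℂ) =
          ((if n = 1 then 1 else 0 : ℝ) : ℂ) := by rw [h6]
      rw [ofReal_sum] at h7
      simp only [ofReal_mul] at h7
      rw [h7, LSeries.delta]
      split_ifs <;> simp
    rw [h5, LSeries_delta]
    rfl
  have hell2 : ∀ s : ℂ, 2 < s.re →
      T.ell d s = LSeries (fun n => (T.e d n : ℂ)) s * LSeries (hL lam d) s := by
    intro s hs
    have c3 : (fun n : ℕ => (T.cf d n : ℂ)) =
        LSeries.convolution (fun n => (T.e d n : ℂ)) (hL lam d) := by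
      rw [LSeries.convolution_def]
      funext n
      unfold Twists.cf hL
      push_cast
      rfl
    rw [hes s hs, tsum_eq_ls (fun n => (T.cf d n : ℂ)) (by simp [Twists.cf]) s, c3,
      LSeries_convolution' (sE s (by linarith)) (hL_summable H d s hs)]
  -- two analytic functions on a half plane
  set U : Set ℂ := {s | 1 / 4 < s.re} with hU
  have hUo : IsOpen U := isOpen_lt continuous_const Complex.continuous_re
  have hUc : IsPreconnected U := (convex_halfSpace_re_gt (1 / 4)).isPreconnected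
  have hdE' : DifferentiableOn ℂ (LSeries (fun n => (T.e' d n : ℂ))) U :=
    ls_diff _ (1 / 4) fun y hy => sE' (y : ℂ) (by rw [ofReal_re]; exact hy.le)
  have hA1 : AnalyticOnNhd ℂ (LSeries (fun n => (T.e' d n : ℂ))) U :=
    hdE'.analyticOnNhd hUo
  have hA2 : AnalyticOnNhd ℂ (T.ell d) U := hed.differentiableOn.analyticOnNhd hUo
  have hd3 : Differentiable ℂ (fun s => F (s + 1 / 2)) := hFd.comp (differentiable_id.add_const _)
  have hA3 : AnalyticOnNhd ℂ (fun s => F (s + 1 / 2)) U := hd3.differentiableOn.analyticOnNhd hUo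
  have hd4 : Differentiable ℂ (fun s => ∏ p ∈ S, pf a' b' (s + 1 / 2) p) := by
    apply Differentiable.fun_finsetProd
    intro p hp
    exact (pf_diff a' b' (hSp p hp)).comp (differentiable_id.add_const _)
  have hA4 : AnalyticOnNhd ℂ (fun s => ∏ p ∈ S, pf a' b' (s + 1 / 2) p) U :=
    hd4.differentiableOn.analyticOnNhd hUo
  have hV : ∀ s ∈ {s : ℂ | 10 < s.re}, (LSeries (fun n => (T.e' d n : ℂ)) * T.ell d) s =
      ((fun s => F (s + 1 / 2)) * fun s => ∏ p ∈ S, pf a' b' (s + 1 / 2) p) s := by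
    intro s hs
    have hs' : 10 < s.re := hs
    show LSeries (fun n => (T.e' d n : ℂ)) s * T.ell d s = F (s + 1 / 2) *
      ∏ p ∈ S, pf a' b' (s + 1 / 2) p
    rw [key s hs', hell2 s (by linarith), ← mul_assoc, mul_comm (LSeries _ s) (LSeries _ s),
      hEE s (by linarith), one_mul]
  have hVo : IsOpen {s : ℂ | 10 < s.re} := isOpen_lt continuous_const Complex.continuous_re
  have h20 : (20 : ℂ) ∈ U := by
    show 1 / 4 < (20 : ℂ).re
    norm_num
  have hEq : Set.EqOn (LSeries (fun n => (T.e' d n : ℂ)) * T.ell d)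
      ((fun s => F (s + 1 / 2)) * fun s => ∏ p ∈ S, pf a' b' (s + 1 / 2) p) U :=
    (hA1.mul hA2).eqOn_of_preconnected_of_eventuallyEq (hA3.mul hA4) hUc h20
      (Filter.eventually_of_mem (hVo.mem_nhds (by
        show 10 < (20 : ℂ).re
        norm_num)) hV)
  refine ⟨⟨S, fun p hp => ⟨hSp p hp, ?_⟩, fun s hs => hEq hs⟩, hEE⟩
  rintro rfl
  exact (Finset.mem_filter.mp hp).2 (dvd_mul_right _ _)

end Q240.GS
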