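import Pool.Agent.Q240.GS.TwC

/-!
# The conductors of quadratic twists
-/

set_option autoImplicit false

namespace Q240.GS

open Pool.Agent.Y19.QT Complex Pool.Agent.Y705.QT
open Pool.Agent.H306R2.RZ (js)
open UpperHalfPlane MatrixGroups CongruenceSubgroup Filter Topology
open Pool.Agent.Y818.QT13b (fac fac_diff euler fac_ne_zero entire coef_zero summable_coef)

section

variable {a b : ℤ} {N : ℕ} {f : CuspForm (Gamma0 N : Subgroup (GL (Fin 2) ℝ)) 2}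

open Classical in
lemma fac_lfac (hf : IsFormOf a b N f) (p : ℕ) (s : ℂ) :
    fac f p s = lfac (coef f p).re (if p ∣ N then 0 else 1) p s := by
  have h1 : coef f p = ((coef f p).re : ℂ) := by
    apply Complex.ext
    · simp
    · simp [hf.real p]
  unfold fac lfac
  rw [← h1]
  split_ifs <;> simp

open Classical in
lemma fac_adm (hf : IsFormOf a b N f) {p : ℕ} (hp : p.Prime) :
    adm (coef f p).re (if p ∣ N then 0 else 1) p := by
  by_cases h : p ∣ N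
  · right
    exact ⟨if_pos h, (abs_re_le_norm _).trans (hf.bad p hp h)⟩
  · left
    exact ⟨if_neg h, (abs_re_le_norm _).trans (hf.good p hp h)⟩

lemma pf_lfac (a b : ℤ) (p : ℕ) (s : ℂ) : pf a b s p = lfac (ap a b p) 1 p s := by
  unfold pf lfac
  push_cast
  ring

lemma pf_adm (a b : ℤ) {p : ℕ} (hp : p.Prime) (h2 : p ≠ 2) : adm (ap a b p : ℝ) 1 p :=
  Or.inl ⟨rfl, Pool.Agent.Y203.QTZ5.hasse a b hp h2⟩

lemma BB_prime (a b : ℤ) : ∀ p ∈ BB a b, p.Prime := fun _ hp => Nat.prime_of_mem_primeFactors hp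

/-- the ratio of the L-functions -/
noncomputable def VV {Q : ℕ} {lam : ℕ → ℝ} (T : Twists Q lam) (d : ℤ) (a b : ℤ)
    (f : CuspForm (Gamma0 N : Subgroup (GL (Fin 2) ℝ)) 2) (S : Finset ℕ) (s : ℂ) : ℂ :=
  (∏ p ∈ BB a b, fac f p s) * (∏ p ∈ S, pf a b s p) * LSeries (fun n => (T.e d n : ℂ)) (s - 1 / 2)

/-- its inverse -/
noncomputable def VI {Q : ℕ} {lam : ℕ → ℝ} (T : Twists Q lam) (d : ℤ) (a b : ℤ)
    (f : CuspForm (Gamma0 N : Subgroup (GL (Fin 2) ℝ)) 2) (S : Finset ℕ) (s : ℂ) : ℂ :=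
  ((∏ p ∈ BB a b, fac f p s) * (∏ p ∈ S, pf a b s p))⁻¹ * LSeries (fun n => (T.e' d n : ℂ)) (s - 1 / 2)

end

variable {Q : ℕ} {lam : ℕ → ℝ}

lemma half_re (s : ℂ) : (s - 1 / 2 : ℂ).re = s.re - 1 / 2 := by simp

section

variable {a b : ℤ} {N : ℕ} {f : CuspForm (Gamma0 N : Subgroup (GL (Fin 2) ℝ)) 2}

lemma prods (hf : IsFormOf a b N f) {S : Finset ℕ} (hS : ∀ p ∈ S, p.Prime ∧ p ≠ 2) :
    (∀ s : ℂ, 1 / 2 < s.re → (∏ p ∈ BB a b, fac f p s) * (∏ p ∈ S, pf a b s p) ≠ 0) ∧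
    (∀ s : ℂ, 1 ≤ s.re → ‖(∏ p ∈ BB a b, fac f p s) * (∏ p ∈ S, pf a b s p)‖ ≤ 4 ^ (BB a b).card * 4 ^ S.card ∧
      ‖((∏ p ∈ BB a b, fac f p s) * (∏ p ∈ S, pf a b s p))⁻¹‖ ≤ 16 ^ (BB a b).card * 16 ^ S.card) ∧
    Differentiable ℂ (fun s => (∏ p ∈ BB a b, fac f p s) * (∏ p ∈ S, pf a b s p)) := by
  classical
  have e1 : ∀ s : ℂ, ∏ p ∈ BB a b, fac f p s =
      ∏ p ∈ BB a b, lfac ((fun p => (coef f p).re) p) ((fun p => if p ∣ N then 0 else 1) p) p s := fun s =>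
    Finset.prod_congr rfl fun p _ => fac_lfac hf p s
  have e2 : ∀ s : ℂ, ∏ p ∈ S, pf a b s p =
      ∏ p ∈ S, lfac ((fun p => (ap a b p : ℝ)) p) ((fun _ => 1) p) p s := fun s =>
    Finset.prod_congr rfl fun p _ => pf_lfac a b p s
  have a1 : ∀ p ∈ BB a b, adm ((fun p => (coef f p).re) p) ((fun p => if p ∣ N then 0 else 1) p) p :=
    fun p hp => fac_adm hf (BB_prime a b p hp)
  have a2 : ∀ p ∈ S, adm ((fun p => (ap a b p : ℝ)) p) ((fun _ => 1) p) p :=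
    fun p hp => pf_adm a b (hS p hp).1 (hS p hp).2
  refine ⟨fun s hs => ?_, fun s hs => ?_, ?_⟩
  · rw [e1, e2]
    exact mul_ne_zero (prod_ne (BB_prime a b) _ _ a1 hs) (prod_ne (fun p hp => (hS p hp).1) _ _ a2 hs)
  · obtain ⟨u1, l1⟩ := prod_bd (BB_prime a b) _ _ a1 hs
    obtain ⟨u2, l2⟩ := prod_bd (fun p hp => (hS p hp).1) _ _ a2 hs
    rw [e1, e2]
    constructor
    · rw [norm_mul]
      exact mul_le_mul u1 u2 (norm_nonneg _) (by positivity)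
    · rw [mul_inv, norm_mul, norm_inv, norm_inv]
      have l1' := inv_anti₀ (by positivity) l1
      have l2' := inv_anti₀ (by positivity) l2
      rw [← inv_pow] at l1' l2'
      rw [show ((1 : ℝ) / 16)⁻¹ = 16 by norm_num] at l1' l2'
      exact mul_le_mul l1' l2' (inv_nonneg.2 (norm_nonneg _)) (by positivity)
  · have hfun : (fun s => (∏ p ∈ BB a b, fac f p s) * (∏ p ∈ S, pf a b s p)) = fun s =>
        (∏ p ∈ BB a b, lfac ((fun p => (coef f p).re) p) ((fun p => if p ∣ N then 0 else 1) p) p s) *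
        (∏ p ∈ S, lfac ((fun p => (ap a b p : ℝ)) p) ((fun _ => 1) p) p s) := by
      funext s
      rw [e1, e2]
    rw [hfun]
    exact (prod_diff (BB_prime a b) _ _).mul (prod_diff (fun p hp => (hS p hp).1) _ _)

end

theorem disc_ne2 {a b : ℤ} (hab : 4 * a ^ 3 + 27 * b ^ 2 ≠ 0) {d : ℤ} (hd : d ≠ 0) :
    4 * (a * d ^ 2) ^ 3 + 27 * (b * d ^ 3) ^ 2 ≠ 0 := by
  have e : 4 * (a * d ^ 2) ^ 3 + 27 * (b * d ^ 3) ^ 2 = d ^ 6 * (4 * a ^ 3 + 27 * b ^ 2) := by ring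
  rw [e]
  exact mul_ne_zero (pow_ne_zero _ hd) hab

theorem cond_eq (a b : ℤ) (hab : 4 * a ^ 3 + 27 * b ^ 2 ≠ 0) (T : Twists Q lam)
    (hQ : ∀ p : ℕ, p.Prime → (p : ℤ) ∣ 2 * (4 * a ^ 3 + 27 * b ^ 2) → p ∣ Q)
    (hlam : ∀ p : ℕ, p.Prime → ¬ p ∣ Q → lam p = ap a b p / Real.sqrt p)
    {d : ℤ} (hd : Squarefree d) {N : ℕ} {f : CuspForm (Gamma0 N : Subgroup (GL (Fin 2) ℝ)) 2}
    (hf : IsFormOf (a * d ^ 2) (b * d ^ 3) N f) {Λ : ℂ → ℂ} (hΛ : Pool.Agent.W169.HF.IsCompleted f Λ) :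
    T.q d = Real.sqrt N := by
  have : NeZero N := ⟨hf.pos.ne'⟩
  obtain ⟨w', hform⟩ := formW_of hf
  have hfe := fe_nf hform hΛ
  have hw' : (w' : ℂ) ≠ 0 := by
    rcases hform.sign with h | h <;> rw [h] <;> norm_num
  have hw : (T.w d : ℂ) ≠ 0 := by
    have := T.w_sq d hd
    intro h
    have h' : T.w d = 0 := by exact_mod_cast h
    rw [h'] at this
    norm_num at this
  have hN0 : (0 : ℝ) < N := by exact_mod_cast hf.pos
  have hsN : 0 < Real.sqrt N := Real.sqrt_pos.2 hN0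
  have hq : 0 < T.q d := Pool.Agent.Y703.QT8.q_pos T hd
  have hpi := Real.pi_pos
  have hLF := lfun_of (disc_ne2 hab hd.ne_zero) hf (LE_entire hf.pos hΛ.1) (LE_sum hf hΛ)
  obtain ⟨⟨S, hS, hid⟩, hEE⟩ := z5id a b Q lam T hQ hlam d hd _ hLF
  obtain ⟨a', ha'⟩ : ∃ a' : ℤ, a' = a * d ^ 2 := ⟨_, rfl⟩
  obtain ⟨b', hb'⟩ : ∃ b' : ℤ, b' = b * d ^ 3 := ⟨_, rfl⟩
  rw [← ha', ← hb'] at hf hid hLF
  obtain ⟨hne, hbd, hdf⟩ := prods hf hS
  obtain ⟨M, hM⟩ : ∃ M : ℂ → ℂ, M = fun s => mellin (fun u : ℝ => T.F d (u : ℂ)) s := ⟨_, rfl⟩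
  have hMfe : ∀ s, M (2 - s) = T.w d * M s := fun s => by rw [hM]; exact mellin_fe T hd s
  have sE : ∀ s : ℂ, 1 / 4 ≤ s.re → LSeriesSummable (fun n => (T.e d n : ℂ)) s ∧
      ‖LSeries (fun n => (T.e d n : ℂ)) s‖ ≤ T.c := fun s hs => hE_bound _ _ (T.e_sum d hd) s hs
  have sE' : ∀ s : ℂ, 1 / 4 ≤ s.re → LSeriesSummable (fun n => (T.e' d n : ℂ)) s ∧
      ‖LSeries (fun n => (T.e' d n : ℂ)) s‖ ≤ T.c := fun s hs => hE_bound _ _ (T.e'_sum d hd) s hs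
  -- the ratio
  have hrat : ∀ s : ℂ, 3 / 4 < s.re → T.ell d (s - 1 / 2) = LE N Λ s * VV T d a' b' f S s := by
    intro s hs
    have h1 := hid (s - 1 / 2) (by rw [half_re]; linarith)
    have h2 := hEE (s - 1 / 2) (by rw [half_re]; linarith)
    rw [sub_add_cancel] at h1
    unfold VV
    calc T.ell d (s - 1 / 2) = (LSeries (fun n => (T.e d n : ℂ)) (s - 1 / 2) *
          LSeries (fun n => (T.e' d n : ℂ)) (s - 1 / 2)) * T.ell d (s - 1 / 2) := by rw [h2, one_mul]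
      _ = LSeries (fun n => (T.e d n : ℂ)) (s - 1 / 2) * (LSeries (fun n => (T.e' d n : ℂ)) (s - 1 / 2) *
          T.ell d (s - 1 / 2)) := by ring
      _ = _ := by rw [h1]; ring
  have hx : (0 : ℝ) < 2 * Real.pi / T.q d := by positivity
  have hy : (0 : ℝ) < Real.sqrt N / (2 * Real.pi) := by positivity
  have hell : ∀ s : ℂ, T.ell d (s - 1 / 2) = (((2 * Real.pi / T.q d : ℝ)) : ℂ) ^ s * (Complex.Gamma s)⁻¹ * M s := by
    intro s
    unfold Twists.ell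
    rw [sub_add_cancel, hM]
    push_cast
    rfl
  have hbase : ∀ {x : ℝ}, 0 < x → ∀ s : ℂ, ((x : ℂ) ^ s) ≠ 0 := by
    intro x hx s
    rw [Ne, Complex.cpow_eq_zero_iff]
    intro h
    have h6 : (x : ℂ) ≠ 0 := by exact_mod_cast hx.ne'
    exact h6 h.1
  have hMV : ∀ s : ℂ, 3 / 4 < s.re →
      (((2 * Real.pi / T.q d : ℝ)) : ℂ) ^ s * ((Real.sqrt N / (2 * Real.pi) : ℝ) : ℂ) ^ s * M s =
        VV T d a' b' f S s * Λ s := by
    intro s hs
    have h1 := hrat s hs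
    rw [hell s] at h1
    have hG : Complex.Gamma s ≠ 0 := Complex.Gamma_ne_zero_of_re_pos (by linarith)
    have hyb := hbase hy s
    unfold LE at h1
    rw [mul_inv] at h1
    have h2 : (((2 * Real.pi / T.q d : ℝ)) : ℂ) ^ s * M s =
        (((Real.sqrt N / (2 * Real.pi) : ℝ) : ℂ) ^ s)⁻¹ * Λ s * VV T d a' b' f S s := by
      have h3 : (Complex.Gamma s)⁻¹ * ((((2 * Real.pi / T.q d : ℝ)) : ℂ) ^ s * M s) = (Complex.Gamma s)⁻¹ *
          ((((Real.sqrt N / (2 * Real.pi) : ℝ) : ℂ) ^ s)⁻¹ * Λ s * VV T d a' b' f S s) := by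
        linear_combination h1
      exact mul_left_cancel₀ (inv_ne_zero hG) h3
    calc _ = ((Real.sqrt N / (2 * Real.pi) : ℝ) : ℂ) ^ s * ((((2 * Real.pi / T.q d : ℝ)) : ℂ) ^ s * M s) := by ring
      _ = _ := by
          rw [h2]
          field_simp
  have hpow : ∀ s : ℂ, (((2 * Real.pi / T.q d : ℝ)) : ℂ) ^ s * ((Real.sqrt N / (2 * Real.pi) : ℝ) : ℂ) ^ s *
      ((T.q d / Real.sqrt N : ℝ) : ℂ) ^ s = 1 := by
    intro s
    rw [← Complex.mul_cpow_ofReal_nonneg hx.le hy.le, ← Complex.ofReal_mul,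
      ← Complex.mul_cpow_ofReal_nonneg (by positivity) (by positivity), ← Complex.ofReal_mul]
    have : 2 * Real.pi / T.q d * (Real.sqrt N / (2 * Real.pi)) * (T.q d / Real.sqrt N) = 1 := by
      field_simp
    rw [this, Complex.ofReal_one, Complex.one_cpow]
  have hpow' : ∀ s : ℂ, ((T.q d / Real.sqrt N : ℝ) : ℂ) ^ s * ((Real.sqrt N / T.q d : ℝ) : ℂ) ^ s = 1 := by
    intro s
    rw [← Complex.mul_cpow_ofReal_nonneg (by positivity) (by positivity), ← Complex.ofReal_mul]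
    have : T.q d / Real.sqrt N * (Real.sqrt N / T.q d) = 1 := by field_simp
    rw [this, Complex.ofReal_one, Complex.one_cpow]
  have hAB : ∀ s : ℂ, 3 / 4 < s.re → M s = ((T.q d / Real.sqrt N : ℝ) : ℂ) ^ s * VV T d a' b' f S s * Λ s := by
    intro s hs
    have h1 := hMV s hs
    have h2 := hpow s
    calc M s = ((((2 * Real.pi / T.q d : ℝ)) : ℂ) ^ s * ((Real.sqrt N / (2 * Real.pi) : ℝ) : ℂ) ^ s *
          ((T.q d / Real.sqrt N : ℝ) : ℂ) ^ s) * M s := by rw [h2, one_mul]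
      _ = ((T.q d / Real.sqrt N : ℝ) : ℂ) ^ s * ((((2 * Real.pi / T.q d : ℝ)) : ℂ) ^ s *
          ((Real.sqrt N / (2 * Real.pi) : ℝ) : ℂ) ^ s * M s) := by ring
      _ = _ := by rw [h1]; ring
  have hVI : ∀ s : ℂ, 3 / 4 < s.re → VV T d a' b' f S s * VI T d a' b' f S s = 1 := by
    intro s hs
    have h1 := hne s (by linarith)
    have h2 := hEE (s - 1 / 2) (by rw [half_re]; linarith)
    unfold VV VI
    calc _ = (((∏ p ∈ BB a' b', fac f p s) * (∏ p ∈ S, pf a' b' s p)) *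
          ((∏ p ∈ BB a' b', fac f p s) * (∏ p ∈ S, pf a' b' s p))⁻¹) *
          (LSeries (fun n => (T.e d n : ℂ)) (s - 1 / 2) * LSeries (fun n => (T.e' d n : ℂ)) (s - 1 / 2)) := by ring
      _ = 1 := by rw [h2, mul_inv_cancel₀ h1, one_mul]
  have hBA : ∀ s : ℂ, 3 / 4 < s.re → Λ s = ((Real.sqrt N / T.q d : ℝ) : ℂ) ^ s * VI T d a' b' f S s * M s := by
    intro s hs
    rw [hAB s hs]
    calc Λ s = (((T.q d / Real.sqrt N : ℝ) : ℂ) ^ s * ((Real.sqrt N / T.q d : ℝ) : ℂ) ^ s) *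
          (VV T d a' b' f S s * VI T d a' b' f S s) * Λ s := by rw [hpow' s, hVI s hs]; ring
      _ = _ := by ring
  -- differentiability
  have hop : IsOpen {s : ℂ | 3 / 4 < s.re} := isOpen_lt continuous_const continuous_re
  have hdE : ∀ e : ℕ → ℝ, (∀ s : ℂ, 1 / 4 ≤ s.re → LSeriesSummable (fun n => (e n : ℂ)) s) →
      DifferentiableOn ℂ (fun s => LSeries (fun n => (e n : ℂ)) (s - 1 / 2)) {s : ℂ | 3 / 4 < s.re} := by
    intro e he
    have h1 : DifferentiableOn ℂ (LSeries (fun n => (e n : ℂ))) {s : ℂ | 1 / 4 < s.re} :=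
      ls_diff _ (1 / 4) fun y hy => he (y : ℂ) (by rw [ofReal_re]; exact hy.le)
    exact h1.comp (f := fun s : ℂ => s - 1 / 2) (by fun_prop) (fun s hs => by
      have hs' : 3 / 4 < s.re := hs
      show 1 / 4 < (s - 1 / 2 : ℂ).re
      rw [half_re]
      linarith)
  have hVd : DifferentiableOn ℂ (VV T d a' b' f S) {s : ℂ | 3 / 4 < s.re} :=
    hdf.differentiableOn.mul (hdE (T.e d) fun s hs => (sE s hs).1)
  have hVId : DifferentiableOn ℂ (VI T d a' b' f S) {s : ℂ | 3 / 4 < s.re} :=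
    (hdf.differentiableOn.inv fun s hs => hne s (by
      have hs' : 3 / 4 < s.re := hs
      linarith)).mul (hdE (T.e' d) fun s hs => (sE' s hs).1)
  have hMd : Differentiable ℂ M := by
    have h0 : |(0 : ℝ)| < Real.pi / 2 := by rw [abs_zero]; positivity
    have h1 := Pool.Agent.Y703.QT8.mm_diff T hd h0
    have h2 : Pool.Agent.Y703.QT8.MM T d 0 = M := by
      funext s
      rw [hM, Pool.Agent.Y703.QT8.mm_zero]
    rwa [h2] at h1
  obtain ⟨s0, hs0⟩ : ∃ s : ℂ, 3 / 4 < s.re ∧ Λ s ≠ 0 := by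
    obtain ⟨-, -, -, hnz⟩ := ob_nf hform hΛ
    refine ⟨3, by norm_num, ?_⟩
    have h1 := hnz (5 / 2) (by norm_num)
    rw [Ne, sdn_zero hf.pos] at h1
    have e : (5 / 2 + 1 / 2 : ℂ) = 3 := by norm_num
    rwa [e] at h1
  have hk1 : 0 < T.q d / Real.sqrt N := by positivity
  have hk2 : 0 < Real.sqrt N / T.q d := by positivity
  have hc0 : 0 ≤ T.c := by linarith [T.one_le_c]
  have r1 := cond_le (A := M) (B := Λ) (V := VV T d a' b' f S) (σ := 3 / 4)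
    (C := 4 ^ (BB a' b').card * 4 ^ S.card * T.c) hk1 (by norm_num) hw hw' hMfe hfe hΛ.1 ⟨s0, hs0.2⟩ hVd
    (left_ne_zero_of_mul_eq_one (hVI 1 (by norm_num))) (fun s hs => by
      unfold VV
      rw [norm_mul]
      exact mul_le_mul (hbd s hs).1 (sE _ (by rw [half_re]; linarith)).2 (norm_nonneg _) (by positivity)) hAB
  have r2 := cond_le (A := Λ) (B := M) (V := VI T d a' b' f S) (σ := 3 / 4)
    (C := 16 ^ (BB a' b').card * 16 ^ S.card * T.c) hk2 (by norm_num) hw' hw hfe hMfe hMd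
    ⟨s0, fun h => hs0.2 (by rw [hBA s0 hs0.1, h, mul_zero])⟩ hVId
    (right_ne_zero_of_mul_eq_one (hVI 1 (by norm_num))) (fun s hs => by
      unfold VI
      rw [norm_mul]
      exact mul_le_mul (hbd s hs).2 (sE' _ (by rw [half_re]; linarith)).2 (norm_nonneg _) (by positivity)) hBA
  rw [one_le_div hsN] at r1
  rw [one_le_div hq] at r2
  exact le_antisymm r2 r1

end Q240.GS
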