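import Pool.Agent.Q240.GS.TwD
import Pool.Agent.Q240.GS.N7
import Pool.Agent.Y19.QT.ZD3

/-!
# Density of the left zeros in families of quadratic twists
-/

set_option autoImplicit false

namespace Q240.GS

open Pool.Agent.Y19.QT Complex
open UpperHalfPlane MatrixGroups CongruenceSubgroup Filter Topology Polynomial
open scoped ENNReal
open Pool.Agent.Y818.QT13b (fac)

lemma LE_one {N : ℕ} (Λ : ℂ → ℂ) (c : ℝ → ℂ) (s : ℂ) : LD (LE N Λ) 1 ∅ c s = LE N Λ s := by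
  unfold LD
  simp

/-- elementary: powers of the logarithm -/
lemma log_pow_bd (A : ℕ) {κ : ℝ} (hκ : 0 < κ) : ∃ C : ℝ, 0 < C ∧ ∀ X : ℕ, 3 ≤ X →
    Real.log X ^ A ≤ C * (X : ℝ) ^ κ := by
  refine ⟨(A.factorial : ℝ) * (1 / κ) ^ A, by positivity, fun X hX => ?_⟩
  have hX0 : (0 : ℝ) < X := by exact_mod_cast (by omega : 0 < X)
  have hl : 0 ≤ Real.log X := Real.log_nonneg (by exact_mod_cast (by omega : 1 ≤ X))
  have h1 := Real.pow_div_factorial_le_exp (κ * Real.log X) (by positivity) A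
  rw [div_le_iff₀ (by positivity)] at h1
  have h2 : Real.exp (κ * Real.log X) = (X : ℝ) ^ κ := by
    rw [Real.rpow_def_of_pos hX0, mul_comm]
  rw [h2, mul_pow] at h1
  have h3 : Real.log X ^ A = (1 / κ) ^ A * (κ ^ A * Real.log X ^ A) := by
    rw [← mul_assoc, ← mul_pow, one_div_mul_cancel hκ.ne', one_pow, one_mul]
  rw [h3]
  calc (1 / κ) ^ A * (κ ^ A * Real.log X ^ A) ≤ (1 / κ) ^ A * ((X : ℝ) ^ κ * A.factorial) :=
        mul_le_mul_of_nonneg_left h1 (by positivity)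
    _ = _ := by ring

/-- **Density of the zeros to the left, for quadratic twists.** -/
theorem twist_left (a b : ℤ) (hab : 4 * a ^ 3 + 27 * b ^ 2 ≠ 0) (N : ℤ → ℕ)
    (f : ∀ g : ℤ, CuspForm (Gamma0 (N g) : Subgroup (GL (Fin 2) ℝ)) 2) (Λ : ℤ → ℂ → ℂ)
    (hf : ∀ g : ℤ, g ≠ 0 → IsFormOf (a * g ^ 2) (b * g ^ 3) (N g) (f g))
    (hΛ : ∀ g : ℤ, g ≠ 0 → Pool.Agent.W169.HF.IsCompleted (f g) (Λ g)) :
    ∃ (c : ℝ) (A B : ℕ), 0 < c ∧ ∀ (P : ℂ[X]) (S : Finset ℝ) (M δ : ℝ), P ≠ 0 → 0 < δ → ∃ C : ℝ,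
      ∀ co : ℤ → ℝ → ℂ, (∀ d, ∀ l ∈ S, ‖co d l‖ ≤ M) → ∀ X : ℕ, 3 ≤ X →
      (∀ U : ℝ, 0 ≤ U → ∑ d ∈ (sqf X).filter (fun d : ℤ => C ≤ |(d : ℝ)|),
        zleft (LD (LE (N d) (Λ d)) P S (co d)) δ U ≤
          ENNReal.ofReal (C * (1 + U) ^ B * (X : ℝ) ^ (1 - c * δ) * Real.log X ^ A)) ∧
      ∀ D : Finset ℤ, D ⊆ sqf X → (∀ d ∈ D, ∃ ρ : ℂ, LD (LE (N d) (Λ d)) P S (co d) ρ = 0 ∧ 1 / 4 ≤ ρ.re ∧
        ρ.re ≤ 1 - δ ∧ |ρ.im| ≤ (X : ℝ) ^ (c * δ)) → (D.card : ℝ) ≤ C * (X : ℝ) ^ (1 - c * δ) := by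
  classical
  have hmod : TwistsModular a b := fun g hg => ⟨N g, f g, hf g hg⟩
  obtain ⟨Q, lam, ⟨T⟩, hQ, hlam⟩ := hasTwists_of a b hab hmod
  obtain ⟨-, hlaw⟩ := densityLaw_modular hab hmod
  obtain ⟨F, hF⟩ : ∃ F : ℤ → ℂ → ℂ, F = fun d s =>
    LE (N d) (Λ d) s * ∏ p ∈ BB (a * d ^ 2) (b * d ^ 3), fac (f d) p s := ⟨_, rfl⟩
  have hFL : ∀ d : ℤ, Squarefree d → IsLFun (a * d ^ 2) (b * d ^ 3) (F d) := by
    intro d hd
    rw [hF]
    exact lfun_of (disc_ne2 hab hd.ne_zero) (hf d hd.ne_zero) (LE_entire (hf d hd.ne_zero).pos (hΛ d hd.ne_zero).1)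
      (LE_sum (hf d hd.ne_zero) (hΛ d hd.ne_zero))
  obtain ⟨⟨C1, c1, A, B, hc1, hden⟩, -⟩ := hlaw F hFL
  have hT1 := T.one_le_c
  -- conductors
  have hN : ∀ d : ℤ, Squarefree d → |(d : ℝ)| ≤ T.c * Real.sqrt (N d) ∧ Real.sqrt (N d) ≤ T.c * |(d : ℝ)| := by
    intro d hd
    have h1 := cond_eq a b hab T hQ hlam hd (hf d hd.ne_zero) (hΛ d hd.ne_zero)
    rw [← h1]
    exact ⟨T.q_lower d hd, T.q_upper d hd⟩
  obtain ⟨c, hc⟩ : ∃ c : ℝ, c = min (c1 / (2 * ((B : ℝ) + 2))) 1 := ⟨_, rfl⟩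
  have hB0 : (0 : ℝ) ≤ B := Nat.cast_nonneg B
  have hc0 : 0 < c := by rw [hc]; exact lt_min (by positivity) one_pos
  have hcle : c ≤ 1 := by rw [hc]; exact min_le_right _ _
  have hcB : c * ((B : ℝ) + 2) ≤ c1 / 2 := by
    have h1 : c ≤ c1 / (2 * ((B : ℝ) + 2)) := by rw [hc]; exact min_le_left _ _
    calc c * ((B : ℝ) + 2) ≤ c1 / (2 * ((B : ℝ) + 2)) * ((B : ℝ) + 2) :=
          mul_le_mul_of_nonneg_right h1 (by linarith)
      _ = c1 / 2 := by field_simp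
  have hc12 : c ≤ c1 / 2 := by nlinarith
  refine ⟨c, A + 1, B + 2, hc0, fun P S M δ hP hδ => ?_⟩
  obtain ⟨M', hM'⟩ : ∃ M' : ℝ, M' = max M 0 := ⟨_, rfl⟩
  have hM0 : 0 ≤ M' := by rw [hM']; exact le_max_right _ _
  have hMM : M ≤ M' := by rw [hM']; exact le_max_left _ _
  obtain ⟨X1, hX1, Hs⟩ := shadow_ec P 1 hP one_ne_zero S ∅ M' (1 - δ / 2) (δ / 2) hM0 (by linarith) (by positivity)
  obtain ⟨K, X0, hK, Hc⟩ := count_ec P hP S M' hM0
  obtain ⟨κ, hκ⟩ : ∃ κ : ℝ, κ = c * δ := ⟨_, rfl⟩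
  have hκ0 : 0 < κ := by rw [hκ]; positivity
  obtain ⟨C3, hC3, hlogA⟩ := log_pow_bd A hκ0
  -- bounds for the conductors
  obtain ⟨D0, hD0⟩ : ∃ D0 : ℝ, D0 = T.c * max X1 (max X0 1) := ⟨_, rfl⟩
  have hm1 : 1 ≤ max X1 (max X0 1) := (le_max_right _ _).trans (le_max_right _ _)
  have hD01 : 1 ≤ D0 := by rw [hD0]; nlinarith
  have hNbig : ∀ d : ℤ, Squarefree d → D0 ≤ |(d : ℝ)| → max X1 (max X0 1) ≤ N d := by
    intro d hd h
    have h1 := (hN d hd).1
    have h2 : T.c * max X1 (max X0 1) ≤ T.c * Real.sqrt (N d) := by rw [← hD0]; exact h.trans h1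
    have h3 : max X1 (max X0 1) ≤ Real.sqrt (N d) := le_of_mul_le_mul_left h2 (by linarith)
    have h4 : 1 ≤ Real.sqrt (N d) := hm1.trans h3
    have h5 : Real.sqrt (N d) ^ 2 = N d := Real.sq_sqrt (Nat.cast_nonneg _)
    nlinarith
  have hlogN : ∀ (X : ℕ) (d : ℤ), 3 ≤ X → d ∈ sqf X → 1 + Real.log (N d) ≤ (2 * T.c + 3) * Real.log X := by
    intro X d hX hd
    obtain ⟨hdX, hsq⟩ := mem_sqf.1 hd
    have h1 := (hN d hsq).2
    have hX3 : (3 : ℝ) ≤ X := by exact_mod_cast hX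
    have hdX' : |(d : ℝ)| ≤ X := by exact_mod_cast hdX
    have hNp : 0 < (N d : ℝ) := by exact_mod_cast (hf d hsq.ne_zero).pos
    have h2 : Real.sqrt (N d) ≤ T.c * X := h1.trans (mul_le_mul_of_nonneg_left hdX' (by linarith))
    have h3 : Real.log (N d) = 2 * Real.log (Real.sqrt (N d)) := by
      rw [Real.log_sqrt hNp.le]; ring
    have h4 : Real.log (Real.sqrt (N d)) ≤ Real.log (T.c * X) := Real.log_le_log (Real.sqrt_pos.2 hNp) h2
    rw [Real.log_mul (by linarith) (by linarith)] at h4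
    have h5 : Real.log T.c ≤ T.c - 1 := Real.log_le_sub_one_of_pos (by linarith)
    have h6 := one_le_log hX
    nlinarith
  -- one zero gives one zero on the right
  have hone : ∀ (co : ℤ → ℝ → ℂ), (∀ d, ∀ l ∈ S, ‖co d l‖ ≤ M) → ∀ d : ℤ, Squarefree d → D0 ≤ |(d : ℝ)| →
      ∀ U : ℝ, ∀ ρ : ℂ, LD (LE (N d) (Λ d)) P S (co d) ρ = 0 → 1 / 4 ≤ ρ.re → ρ.re ≤ 1 - δ → |ρ.im| ≤ U →
      1 ≤ zcount (F d) (1 + δ / 2) (U + X1) := by
    intro co hco d hd hdD U ρ h0 h1 h2 h3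
    have hg := hf d hd.ne_zero
    have : NeZero (N d) := ⟨hg.pos.ne'⟩
    obtain ⟨w, hform⟩ := formW_of hg
    obtain ⟨s, s1, s2, s3, s4⟩ := Hs (N d) (f d) w hform (Λ d) (hΛ d hd.ne_zero) (co d) (fun _ => 0)
      (fun l hl => (hco d l hl).trans hMM) (by simp) ρ (by
        have h4 := ((le_max_left _ _).trans (hNbig d hd hdD) : X1 ≤ N d)
        have h5 := abs_nonneg ρ.im
        have h6 : 1 ≤ (1 + |ρ.im|) ^ 2 := by nlinarith
        nlinarith) h0 h1 (by linarith)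
    rw [LE_one] at s1
    have hG : Complex.Gamma s ≠ 0 := Complex.Gamma_ne_zero_of_re_pos (by linarith)
    have hL0 : Λ d s = 0 := by
      unfold LE at s1
      exact (mul_eq_zero.1 s1).resolve_left (inv_ne_zero (mul_ne_zero (base_ne hg.pos s) hG))
    have hL1 : Λ d (2 - s) = 0 := by rw [fe_nf hform (hΛ d hd.ne_zero), hL0, mul_zero]
    have hF0 : F d (2 - s) = 0 := by
      rw [hF]
      simp only
      unfold LE
      rw [hL1, mul_zero, zero_mul]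
    have e1 : (2 - s : ℂ).re = 2 - s.re := by simp
    have e2 : (2 - s : ℂ).im = -s.im := by simp
    refine one_le_zcount (hFL d hd).1 hF0 (by rw [e1]; linarith) ?_
    rw [e2, abs_neg]
    calc |s.im| = |(s.im - ρ.im) + ρ.im| := by rw [sub_add_cancel]
      _ ≤ |s.im - ρ.im| + |ρ.im| := abs_add_le _ _
      _ ≤ U + X1 := by linarith
  obtain ⟨C1', hC1'⟩ : ∃ C1' : ℝ, C1' = max C1 0 := ⟨_, rfl⟩
  have hC10 : 0 ≤ C1' := by rw [hC1']; exact le_max_right _ _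
  have hC11 : C1 ≤ C1' := by rw [hC1']; exact le_max_left _ _
  obtain ⟨Ca, hCa⟩ : ∃ Ca : ℝ, Ca = K * (2 * T.c + 3) * (C1' * (1 + X1) ^ B) := ⟨_, rfl⟩
  obtain ⟨Cb, hCb⟩ : ∃ Cb : ℝ, Cb = 2 * D0 + 1 + C1' * (2 + X1) ^ B * C3 := ⟨_, rfl⟩
  have hCa0 : 0 ≤ Ca := by rw [hCa]; positivity
  have hCb0 : 0 ≤ Cb := by rw [hCb]; positivity
  refine ⟨max D0 (max Ca Cb), fun co hco X hX => ⟨fun U hU => ?_, fun D hD hDρ => ?_⟩⟩
  · have hX3 : (3 : ℝ) ≤ X := by exact_mod_cast hX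
    have hl := one_le_log hX
    have hd1 := hden X (1 + δ / 2) (U + X1) hX (by linarith) (by linarith)
    have hpt : ∀ d ∈ (sqf X).filter (fun d : ℤ => max D0 (max Ca Cb) ≤ |(d : ℝ)|),
        zleft (LD (LE (N d) (Λ d)) P S (co d)) δ U ≤
          ENNReal.ofReal (K * (1 + U) ^ 2 * ((2 * T.c + 3) * Real.log X)) * zcount (F d) (1 + δ / 2) (U + X1) := by
      intro d hd
      obtain ⟨hd1, hd2⟩ := Finset.mem_filter.1 hd
      have hdD : D0 ≤ |(d : ℝ)| := (le_max_left _ _).trans hd2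
      have hsq := (mem_sqf.1 hd1).2
      by_cases hz : ∃ ρ : ℂ, LD (LE (N d) (Λ d)) P S (co d) ρ = 0 ∧ 1 / 4 ≤ ρ.re ∧ ρ.re ≤ 1 - δ ∧ |ρ.im| ≤ U
      · obtain ⟨ρ, r1, r2, r3, r4⟩ := hz
        have h1 := hone co hco d hsq hdD U ρ r1 r2 r3 r4
        have hg := hf d hsq.ne_zero
        have : NeZero (N d) := ⟨hg.pos.ne'⟩
        obtain ⟨w, hform⟩ := formW_of hg
        have h2 := Hc (N d) (f d) w hform (Λ d) (hΛ d hsq.ne_zero) (co d) (fun l hl => (hco d l hl).trans hMM)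
          ((le_max_left X0 1).trans ((le_max_right _ _).trans (hNbig d hsq hdD))) δ U hδ.le hU
        refine h2.trans ?_
        calc ENNReal.ofReal (K * (1 + U) ^ 2 * (1 + Real.log (N d))) ≤
              ENNReal.ofReal (K * (1 + U) ^ 2 * ((2 * T.c + 3) * Real.log X)) := by
                apply ENNReal.ofReal_le_ofReal
                exact mul_le_mul_of_nonneg_left (hlogN X d hX hd1) (by positivity)
          _ = ENNReal.ofReal (K * (1 + U) ^ 2 * ((2 * T.c + 3) * Real.log X)) * 1 := (mul_one _).symm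
          _ ≤ _ := by gcongr
      · have h1 : zleft (LD (LE (N d) (Λ d)) P S (co d)) δ U = 0 := by
          unfold zleft
          rw [ENNReal.tsum_eq_zero]
          intro ρ
          rw [if_neg]
          intro h
          exact hz ⟨ρ, h⟩
        rw [h1]
        simp
    refine (Finset.sum_le_sum hpt).trans ?_
    rw [← Finset.mul_sum]
    have h2 : ∑ d ∈ (sqf X).filter (fun d : ℤ => max D0 (max Ca Cb) ≤ |(d : ℝ)|),
        zcount (F d) (1 + δ / 2) (U + X1) ≤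
        ENNReal.ofReal (C1 * (1 + (U + X1)) ^ B * (X : ℝ) ^ (1 - c1 * (1 + δ / 2 - 1)) * Real.log X ^ A) :=
      (Finset.sum_le_sum_of_subset (Finset.filter_subset _ _)).trans hd1
    refine (mul_le_mul_right h2 _).trans ?_
    rw [← ENNReal.ofReal_mul (by positivity)]
    apply ENNReal.ofReal_le_ofReal
    have hexp : (X : ℝ) ^ (1 - c1 * (1 + δ / 2 - 1)) ≤ (X : ℝ) ^ (1 - c * δ) := by
      apply Real.rpow_le_rpow_of_exponent_le (by linarith)
      have : c * δ ≤ c1 / 2 * δ := mul_le_mul_of_nonneg_right hc12 hδ.le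
      linarith
    have hUX : (1 + (U + X1)) ^ B ≤ (1 + U) ^ B * (1 + X1) ^ B := by
      rw [← mul_pow]
      apply pow_le_pow_left₀ (by linarith)
      nlinarith
    have hX0 : 0 ≤ (X : ℝ) ^ (1 - c * δ) := Real.rpow_nonneg (by linarith) _
    calc K * (1 + U) ^ 2 * ((2 * T.c + 3) * Real.log X) *
          (C1 * (1 + (U + X1)) ^ B * (X : ℝ) ^ (1 - c1 * (1 + δ / 2 - 1)) * Real.log X ^ A) ≤
        K * (1 + U) ^ 2 * ((2 * T.c + 3) * Real.log X) *
          (C1' * ((1 + U) ^ B * (1 + X1) ^ B) * (X : ℝ) ^ (1 - c * δ) * Real.log X ^ A) := by gcongr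
      _ = Ca * (1 + U) ^ (B + 2) * (X : ℝ) ^ (1 - c * δ) * Real.log X ^ (A + 1) := by
          rw [hCa]; ring
      _ ≤ _ := by
          have h5 : Ca ≤ max D0 (max Ca Cb) := (le_max_left _ _).trans (le_max_right _ _)
          gcongr
  · have hX3 : (3 : ℝ) ≤ X := by exact_mod_cast hX
    have hX0 : 0 < (X : ℝ) := by linarith
    have hl := one_le_log hX
    rcases lt_or_ge (3 / 4) δ with hδ1 | hδ1
    · have h1 : D = ∅ := by
        rw [Finset.eq_empty_iff_forall_notMem]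
        intro d hd
        obtain ⟨ρ, -, r2, r3, -⟩ := hDρ d hd
        linarith
      rw [h1, Finset.card_empty, Nat.cast_zero]
      have h5 : 0 ≤ max D0 (max Ca Cb) := hCa0.trans ((le_max_left _ _).trans (le_max_right _ _))
      exact mul_nonneg h5 (Real.rpow_nonneg hX0.le _)
    · obtain ⟨U, hU⟩ : ∃ U : ℝ, U = (X : ℝ) ^ (c * δ) := ⟨_, rfl⟩
      have hU1 : 1 ≤ U := by
        rw [hU]
        exact Real.one_le_rpow (by linarith) (by positivity)
      rw [← hU] at hDρ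
      have hd1 := hden X (1 + δ / 2) (U + X1) hX (by linarith) (by linarith)
      obtain ⟨D1, hD1⟩ : ∃ D1 : Finset ℤ, D1 = D.filter (fun d : ℤ => |(d : ℝ)| < D0) := ⟨_, rfl⟩
      obtain ⟨D2, hD2⟩ : ∃ D2 : Finset ℤ, D2 = D.filter (fun d : ℤ => ¬ |(d : ℝ)| < D0) := ⟨_, rfl⟩
      have hcard : D1.card + D2.card = D.card := by
        rw [hD1, hD2]
        exact Finset.card_filter_add_card_filter_not _
      have hD1c : (D1.card : ℝ) ≤ 2 * D0 + 1 := by
        have h1 : D1 ⊆ Finset.Icc (-⌊D0⌋) ⌊D0⌋ := by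
          intro d hd
          rw [hD1] at hd
          have h2 := (Finset.mem_filter.1 hd).2
          have h3 : |d| ≤ ⌊D0⌋ := by
            rw [Int.le_floor]
            push_cast
            exact h2.le
          rw [Finset.mem_Icc]
          exact abs_le.1 h3
        have h2 := Finset.card_le_card h1
        rw [Int.card_Icc] at h2
        have h3 : 0 ≤ ⌊D0⌋ := Int.floor_nonneg.2 (by linarith)
        have h4 : ((⌊D0⌋ + 1 - -⌊D0⌋).toNat : ℝ) = 2 * ⌊D0⌋ + 1 := by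
          have h5 : ((⌊D0⌋ + 1 - -⌊D0⌋).toNat : ℤ) = 2 * ⌊D0⌋ + 1 := by
            rw [Int.toNat_of_nonneg (by linarith)]
            ring
          exact_mod_cast h5
        have h5 : (D1.card : ℝ) ≤ ((⌊D0⌋ + 1 - -⌊D0⌋).toNat : ℝ) := by exact_mod_cast h2
        have h6 := Int.floor_le D0
        linarith
      have hD2c : (D2.card : ℝ) ≤ C1' * (1 + (U + X1)) ^ B * (X : ℝ) ^ (1 - c1 * (1 + δ / 2 - 1)) *
          Real.log X ^ A := by
        have h1 : (D2.card : ℝ≥0∞) ≤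
            ENNReal.ofReal (C1 * (1 + (U + X1)) ^ B * (X : ℝ) ^ (1 - c1 * (1 + δ / 2 - 1)) * Real.log X ^ A) := by
          calc (D2.card : ℝ≥0∞) = ∑ d ∈ D2, (1 : ℝ≥0∞) := by simp
            _ ≤ ∑ d ∈ D2, zcount (F d) (1 + δ / 2) (U + X1) := Finset.sum_le_sum fun d hd => by
                rw [hD2] at hd
                obtain ⟨hd1, hd2⟩ := Finset.mem_filter.1 hd
                obtain ⟨ρ, r1, r2, r3, r4⟩ := hDρ d hd1
                exact hone co hco d (mem_sqf.1 (hD hd1)).2 (not_lt.1 hd2) U ρ r1 r2 r3 r4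
            _ ≤ ∑ d ∈ sqf X, zcount (F d) (1 + δ / 2) (U + X1) := by
                apply Finset.sum_le_sum_of_subset
                rw [hD2]
                exact (Finset.filter_subset _ _).trans hD
            _ ≤ _ := hd1
        have h2 : (D2.card : ℝ≥0∞) ≤ ENNReal.ofReal (C1' * (1 + (U + X1)) ^ B *
            (X : ℝ) ^ (1 - c1 * (1 + δ / 2 - 1)) * Real.log X ^ A) := by
          refine h1.trans (ENNReal.ofReal_le_ofReal ?_)
          gcongr
        rw [← ENNReal.ofReal_natCast] at h2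
        exact (ENNReal.ofReal_le_ofReal_iff (by positivity)).1 h2
      have hUX : (1 + (U + X1)) ^ B ≤ (2 + X1) ^ B * (X : ℝ) ^ (B * (c * δ)) := by
        have h1 : (X : ℝ) ^ (B * (c * δ)) = U ^ B := by
          rw [hU, ← Real.rpow_natCast, ← Real.rpow_mul hX0.le]
          congr 1
          ring
        rw [h1, ← mul_pow]
        apply pow_le_pow_left₀ (by linarith)
        nlinarith
      have hfin : C1' * (1 + (U + X1)) ^ B * (X : ℝ) ^ (1 - c1 * (1 + δ / 2 - 1)) * Real.log X ^ A ≤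
          C1' * (2 + X1) ^ B * C3 * (X : ℝ) ^ (1 - c * δ) := by
        have h1 := hlogA X hX
        calc C1' * (1 + (U + X1)) ^ B * (X : ℝ) ^ (1 - c1 * (1 + δ / 2 - 1)) * Real.log X ^ A ≤
            C1' * ((2 + X1) ^ B * (X : ℝ) ^ (B * (c * δ))) * (X : ℝ) ^ (1 - c1 * (1 + δ / 2 - 1)) *
              (C3 * (X : ℝ) ^ κ) := by gcongr
          _ = C1' * (2 + X1) ^ B * C3 * ((X : ℝ) ^ (B * (c * δ)) * (X : ℝ) ^ (1 - c1 * (1 + δ / 2 - 1)) *
              (X : ℝ) ^ κ) := by ring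
          _ = C1' * (2 + X1) ^ B * C3 * (X : ℝ) ^ (B * (c * δ) + (1 - c1 * (1 + δ / 2 - 1)) + κ) := by
              rw [Real.rpow_add hX0, Real.rpow_add hX0]
          _ ≤ _ := by
              apply mul_le_mul_of_nonneg_left _ (by positivity)
              apply Real.rpow_le_rpow_of_exponent_le (by linarith)
              rw [hκ]
              have : c * ((B : ℝ) + 2) * δ ≤ c1 / 2 * δ := mul_le_mul_of_nonneg_right hcB hδ.le
              nlinarith
      have hone' : 1 ≤ (X : ℝ) ^ (1 - c * δ) := by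
        apply Real.one_le_rpow (by linarith)
        nlinarith
      have hcast : (D.card : ℝ) = D1.card + D2.card := by exact_mod_cast hcard.symm
      calc (D.card : ℝ) = D1.card + D2.card := hcast
        _ ≤ (2 * D0 + 1) * (X : ℝ) ^ (1 - c * δ) + C1' * (2 + X1) ^ B * C3 * (X : ℝ) ^ (1 - c * δ) := by
            have h1 : 2 * D0 + 1 ≤ (2 * D0 + 1) * (X : ℝ) ^ (1 - c * δ) :=
              le_mul_of_one_le_right (by linarith) hone'
            exact add_le_add (hD1c.trans h1) (hD2c.trans hfin)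
        _ = Cb * (X : ℝ) ^ (1 - c * δ) := by rw [hCb]; ring
        _ ≤ _ := by
            apply mul_le_mul_of_nonneg_right _ (by linarith)
            exact (le_max_right _ _).trans (le_max_right _ _)

end Q240.GS
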